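import Pool.Agent.H775.KE.Man

/-!
# Pullback of the metric, uniform atlas
-/

set_option autoImplicit false
set_option linter.unusedSectionVars false

open scoped Manifold ContDiff Topology
open Set Filter Metric

namespace Pool.Agent.H775.KE

variable {E : Type} [NormedAddCommGroup E] [NormedSpace ℂ E]
variable {F : Type} [NormedAddCommGroup F] [NormedSpace ℂ F]
variable {G : Type} [NormedAddCommGroup G] [NormedSpace ℂ G]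
variable {X : Type} [TopologicalSpace X] [ChartedSpace E X]

/-- The pullback of the metric `q` by `h : F → X`, at `z`, on the vector `v`. -/
noncomputable def pb (q : ∀ x : X, TangentSpace 𝓘(ℂ, E) x → ℝ) (h : F → X) (z v : F) : ℝ :=
  q (h z) (mfderiv 𝓘(ℂ, F) 𝓘(ℂ, E) h z v)

/-- A finite atlas by parametrized balls of radius `5`, with uniform constants, adapted to `q`. -/
structure UA (q : ∀ x : X, TangentSpace 𝓘(ℂ, E) x → ℝ) where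
  n : ℕ
  p : Fin n → E → X
  κ : Fin n → X → E
  ρ : Fin n → E → ℝ
  C : ℝ
  one_le_C : 1 ≤ C
  cover : ∀ x, ∃ i, ∃ z ∈ ball (0 : E) 1, p i z = x
  p_smooth : ∀ i, ContMDiffOn 𝓘(ℂ, E) 𝓘(ℂ, E) ω (p i) (ball 0 5)
  κ_p : ∀ i, ∀ z ∈ ball (0 : E) 5, κ i (p i z) = z
  p_open : ∀ i, ∀ U ⊆ ball (0 : E) 5, IsOpen U → IsOpen (p i '' U)
  κ_smooth : ∀ i, ContMDiffOn 𝓘(ℂ, E) 𝓘(ℂ, E) ω (κ i) (p i '' ball 0 5)
  lower : ∀ i, ∀ z ∈ ball (0 : E) 5, ∀ v : E, ‖v‖ ^ 2 ≤ C * pb q (p i) z v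
  upper : ∀ i, ∀ z ∈ ball (0 : E) 5, ∀ v : E, pb q (p i) z v ≤ C * ‖v‖ ^ 2
  ρ_smooth : ∀ i, ContDiffOn ℝ ∞ (ρ i) (ball 0 5)
  ρ_bdd : ∀ i, ∀ z ∈ ball (0 : E) 5, |ρ i z| ≤ C
  ρ_levi : ∀ i, ∀ z ∈ ball (0 : E) 5, ∀ v, leviForm (ρ i) z v = pb q (p i) z v

variable {q : ∀ x : X, TangentSpace 𝓘(ℂ, E) x → ℝ}

theorem pb_congr {h h' : F → X} {z : F} (e : h =ᶠ[𝓝 z] h') (v : F) : pb q h z v = pb q h' z v := by
  unfold pb
  rw [e.mfderiv_eq]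
  have : h z = h' z := e.self_of_nhds
  rw [this]

theorem pb_comp {h : F → X} {ξ : G → F} {t : G} (hh : ContMDiffAt 𝓘(ℂ, F) 𝓘(ℂ, E) ω h (ξ t))
    (hξ : ContDiffAt ℂ ω ξ t) (v : G) :
    pb q (h ∘ ξ) t v = pb q h (ξ t) (fderiv ℂ ξ t v) := by
  unfold pb
  rw [mfderiv_comp t (hh.mdifferentiableAt (by simp))
    (hξ.contMDiffAt.mdifferentiableAt (by simp)), mfderiv_eq_fderiv]
  rfl

theorem UA.local_form (a : UA q) {h : F → X} {z : F} (hh : ContMDiffAt 𝓘(ℂ, F) 𝓘(ℂ, E) ω h z)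
    {i : Fin a.n} (hi : h z ∈ a.p i '' ball 0 5) :
    a.κ i (h z) ∈ ball (0 : E) 5 ∧ a.p i (a.κ i (h z)) = h z ∧ ContDiffAt ℂ ω (a.κ i ∘ h) z ∧
      h =ᶠ[𝓝 z] a.p i ∘ (a.κ i ∘ h) ∧
      ∀ v, pb q h z v = pb q (a.p i) (a.κ i (h z)) (fderiv ℂ (a.κ i ∘ h) z v) := by
  obtain ⟨ζ, hζ, e⟩ := hi
  have k1 : a.κ i (h z) = ζ := by rw [← e, a.κ_p i ζ hζ]
  have hU : IsOpen (a.p i '' ball 0 5) := a.p_open i _ (Subset.refl _) isOpen_ball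
  have k2 : ContMDiffAt 𝓘(ℂ, E) 𝓘(ℂ, E) ω (a.κ i) (h z) :=
    (a.κ_smooth i).contMDiffAt (hU.mem_nhds ⟨ζ, hζ, e⟩)
  have k3 : ContDiffAt ℂ ω (a.κ i ∘ h) z := contMDiffAt_iff_contDiffAt.1 (k2.comp z hh)
  have k4 : h =ᶠ[𝓝 z] a.p i ∘ (a.κ i ∘ h) := by
    filter_upwards [hh.continuousAt.eventually (hU.mem_nhds ⟨ζ, hζ, e⟩)] with w hw
    obtain ⟨ζ', hζ', e'⟩ := hw
    simp only [Function.comp_apply]
    rw [← e', a.κ_p i ζ' hζ']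
  refine ⟨by rw [k1]; exact hζ, by rw [k1]; exact e, k3, k4, fun v => ?_⟩
  rw [pb_congr k4 v, pb_comp _ k3 v]
  · rfl
  · have : (a.κ i ∘ h) z = ζ := k1
    rw [this]
    exact (a.p_smooth i).contMDiffAt (isOpen_ball.mem_nhds hζ)

end Pool.Agent.H775.KE
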