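import Pool.Agent.H775.KE.Atl

/-!
# Ahlfors-Schwarz lemma for discs with bounded potential
-/

set_option autoImplicit false
set_option linter.unusedSectionVars false

open scoped Manifold ContDiff Topology
open Set Filter Metric

namespace Pool.Agent.H775.KE

variable {E : Type} [NormedAddCommGroup E] [NormedSpace ℂ E]
variable {F : Type} [NormedAddCommGroup F] [NormedSpace ℂ F]
variable {X : Type} [TopologicalSpace X] [ChartedSpace E X]

theorem XAS_max {n : ℕ} (K : Fin n → Set ℂ) (Φ : Fin n → ℂ → ℝ) (hK : ∀ i, IsCompact (K i))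
    (hc : ∀ i, ContinuousOn (Φ i) (K i)) (hne : ∃ i, (K i).Nonempty) :
    ∃ i, ∃ t ∈ K i, ∀ j, ∀ s ∈ K j, Φ j s ≤ Φ i t := by
  have h1 : ∀ i : {i // (K i).Nonempty}, ∃ t ∈ K i, IsMaxOn (Φ i) (K i) t := fun i =>
    (hK i).exists_isMaxOn i.2 (hc i)
  choose t ht hmax using h1
  have : Nonempty {i // (K i).Nonempty} := by
    obtain ⟨i, hi⟩ := hne
    exact ⟨⟨i, hi⟩⟩
  obtain ⟨i, hi⟩ := Finite.exists_max (fun i : {i // (K i).Nonempty} => Φ i (t i))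
  exact ⟨i, t i, ht i, fun j s hs => (hmax ⟨j, ⟨s, hs⟩⟩ hs).trans (hi ⟨j, ⟨s, hs⟩⟩)⟩

theorem XAS_second {g : ℝ → ℝ} (hmax : IsLocalMax g 0) (hc : ContinuousAt g 0) :
    deriv (deriv g) 0 ≤ 0 := by
  by_contra hpos
  push Not at hpos
  have hmin : IsLocalMin g 0 := isLocalMin_of_deriv_deriv_pos hpos hmax.deriv_eq_zero hc
  have h1 : g =ᶠ[𝓝 0] fun _ => g 0 := by
    filter_upwards [hmax, hmin] with s h2 h3
    exact le_antisymm h2 h3
  have h2 : deriv g =ᶠ[𝓝 0] fun _ => 0 := by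
    filter_upwards [h1.eventuallyEq_nhds] with s hs
    rw [hs.deriv_eq]
    simp
  rw [h2.deriv_eq] at hpos
  simp at hpos

theorem XAS_line {φ : E → ℝ} {z : E} (hφ : ContDiffAt ℝ 2 φ z) (u : E) :
    deriv (deriv (fun s : ℝ => φ (z + s • u))) 0 = fderiv ℝ (fun w => fderiv ℝ φ w u) z u := by
  have hL : ∀ s : ℝ, HasDerivAt (fun s : ℝ => z + s • u) u s := by
    intro s
    have := ((hasDerivAt_id s).smul_const u).const_add z
    simpa using this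
  have hL0 : (fun s : ℝ => z + s • u) 0 = z := by simp
  have h1 : ∀ᶠ w in 𝓝 z, DifferentiableAt ℝ φ w := by
    have c1 : ∀ᶠ w in 𝓝 z, ContDiffAt ℝ 1 φ w := (hφ.of_le (by norm_num)).eventually (by simp)
    filter_upwards [c1] with w hw
    exact hw.differentiableAt (by simp)
  have h2 : ∀ᶠ s : ℝ in 𝓝 0, DifferentiableAt ℝ φ (z + s • u) := by
    have := (hL 0).continuousAt
    unfold ContinuousAt at this
    rw [hL0] at this
    exact this.eventually h1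
  have e : deriv (fun s : ℝ => φ (z + s • u)) =ᶠ[𝓝 0] fun s => fderiv ℝ φ (z + s • u) u := by
    filter_upwards [h2] with s hs
    exact (hs.hasFDerivAt.comp_hasDerivAt s (hL s)).deriv
  rw [e.deriv_eq]
  have h3 : DifferentiableAt ℝ (fderiv ℝ φ) z :=
    (hφ.fderiv_right (m := 1) (by norm_num)).differentiableAt (by simp)
  have h4 : DifferentiableAt ℝ (fun w => fderiv ℝ φ w u) z :=
    h3.clm_apply (differentiableAt_const u)
  have h5 : HasFDerivAt (fun w => fderiv ℝ φ w u) (fderiv ℝ (fun w => fderiv ℝ φ w u) z)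
      ((fun s : ℝ => z + s • u) 0) := by
    rw [hL0]
    exact h4.hasFDerivAt
  exact (h5.comp_hasDerivAt 0 (hL 0)).deriv

theorem XAS_levi_max {Θ : E → ℝ} {z : E} (hΘ : ContDiffAt ℝ 2 Θ z) (hmax : IsLocalMax Θ z) (v : E) :
    leviForm Θ z v ≤ 0 := by
  have h1 : ∀ u : E, fderiv ℝ (fun w => fderiv ℝ Θ w u) z u ≤ 0 := by
    intro u
    rw [← XAS_line hΘ u]
    have hcont : ContinuousAt (fun s : ℝ => z + s • u) 0 := by fun_prop
    have hz : Tendsto (fun s : ℝ => z + s • u) (𝓝 0) (𝓝 z) := by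
      have := hcont
      unfold ContinuousAt at this
      simpa using this
    apply XAS_second
    · have := hz.eventually hmax
      filter_upwards [this] with s hs
      simpa using hs
    · have h2 : ContinuousAt Θ (z + (0 : ℝ) • u) := by
        simpa using hΘ.continuousAt
      exact ContinuousAt.comp (f := fun s : ℝ => z + s • u) h2 hcont
  unfold leviForm
  have h2 := h1 v
  have h3 := h1 (Complex.I • v)
  linarith

theorem XAS_1d (x y : ℝ) (h : x ^ 2 + y ^ 2 < 1 / 4) :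
    deriv (deriv fun s : ℝ => Real.log (1 / 4 - ((x + s) ^ 2 + y ^ 2))) 0 =
      (-2 * (1 / 4 - (x ^ 2 + y ^ 2)) - 4 * x ^ 2) / (1 / 4 - (x ^ 2 + y ^ 2)) ^ 2 := by
  have hP : ∀ s : ℝ, HasDerivAt (fun s : ℝ => 1 / 4 - ((x + s) ^ 2 + y ^ 2)) (-(2 * (x + s))) s := by
    intro s
    have h1 : HasDerivAt (fun s : ℝ => x + s) 1 s := (hasDerivAt_id s).const_add x
    have h2 := ((h1.fun_pow 2).add_const (y ^ 2)).const_sub (1 / 4)
    exact h2.congr_deriv (by norm_num)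
  have hc : ContinuousAt (fun s : ℝ => 1 / 4 - ((x + s) ^ 2 + y ^ 2)) 0 := (hP 0).continuousAt
  have h0 : (0 : ℝ) < 1 / 4 - ((x + 0) ^ 2 + y ^ 2) := by
    rw [add_zero]; linarith
  have hev : ∀ᶠ s : ℝ in 𝓝 0, 0 < 1 / 4 - ((x + s) ^ 2 + y ^ 2) := hc.eventually (lt_mem_nhds h0)
  have e : deriv (fun s : ℝ => Real.log (1 / 4 - ((x + s) ^ 2 + y ^ 2))) =ᶠ[𝓝 0]
      fun s => -(2 * (x + s)) / (1 / 4 - ((x + s) ^ 2 + y ^ 2)) := by
    filter_upwards [hev] with s hs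
    exact ((hP s).log hs.ne').deriv
  rw [e.deriv_eq]
  have hN : HasDerivAt (fun s : ℝ => -(2 * (x + s))) (-2) 0 := by
    have h1 : HasDerivAt (fun s : ℝ => x + s) 1 0 := (hasDerivAt_id 0).const_add x
    have h2 := (h1.const_mul 2).fun_neg
    exact h2.congr_deriv (by norm_num)
  have hd := (hN.div (hP 0) h0.ne').deriv
  have hd' : deriv (fun s => -(2 * (x + s)) / (1 / 4 - ((x + s) ^ 2 + y ^ 2))) 0 = _ := hd
  rw [hd']
  simp only [add_zero]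
  congr 1
  ring

theorem XAS_log_contDiffAt {t : ℂ} (ht : ‖t‖ < 1 / 2) :
    ContDiffAt ℝ 2 (fun t : ℂ => Real.log (1 / 4 - ‖t‖ ^ 2)) t := by
  have h1 : ContDiffAt ℝ 2 (fun t : ℂ => 1 / 4 - ‖t‖ ^ 2) t :=
    contDiffAt_const.sub (contDiff_norm_sq ℝ).contDiffAt
  refine h1.log ?_
  have := norm_nonneg t
  nlinarith

theorem XAS_levi_log {t : ℂ} (ht : ‖t‖ < 1 / 2) :
    leviForm (fun t : ℂ => Real.log (1 / 4 - ‖t‖ ^ 2)) t 1 = -1 / (1 / 4 - ‖t‖ ^ 2) ^ 2 := by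
  have hsq : ∀ z : ℂ, ‖z‖ ^ 2 = z.re ^ 2 + z.im ^ 2 := by
    intro z
    rw [← Complex.normSq_eq_norm_sq, Complex.normSq_apply]
    ring
  have hlt : t.re ^ 2 + t.im ^ 2 < 1 / 4 := by
    rw [← hsq]
    have := norm_nonneg t
    nlinarith
  have hlt' : t.im ^ 2 + t.re ^ 2 < 1 / 4 := by linarith
  unfold leviForm
  rw [← XAS_line (XAS_log_contDiffAt ht) 1, ← XAS_line (XAS_log_contDiffAt ht) (Complex.I • 1)]
  have e1 : (fun s : ℝ => Real.log (1 / 4 - ‖t + s • (1 : ℂ)‖ ^ 2)) =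
      fun s : ℝ => Real.log (1 / 4 - ((t.re + s) ^ 2 + t.im ^ 2)) := by
    funext s
    rw [hsq]
    simp
  have e2 : (fun s : ℝ => Real.log (1 / 4 - ‖t + s • (Complex.I • (1 : ℂ))‖ ^ 2)) =
      fun s : ℝ => Real.log (1 / 4 - ((t.im + s) ^ 2 + t.re ^ 2)) := by
    funext s
    rw [hsq]
    simp
    ring_nf
  rw [e1, e2, XAS_1d _ _ hlt, XAS_1d _ _ hlt', hsq]
  have h0 : (1 / 4 - (t.re ^ 2 + t.im ^ 2)) ≠ 0 := by linarith
  rw [add_comm (t.im ^ 2) (t.re ^ 2), ← add_div]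
  congr 1
  ring

theorem XAS_levi_re (z v : ℂ) : leviForm (fun z : ℂ => z.re) z v = 0 := by
  unfold leviForm
  have h1 : ∀ u : ℂ, (fun w : ℂ => fderiv ℝ (fun z : ℂ => z.re) w u) = fun _ => u.re := by
    intro u
    funext w
    have : HasFDerivAt (fun z : ℂ => z.re) Complex.reCLM w := Complex.reCLM.hasFDerivAt
    rw [this.fderiv]
    rfl
  rw [h1, h1]
  simp

/-- lower bound for the Levi form of a `C²` function on a compact ball -/
theorem XAS_levi_lower [FiniteDimensional ℂ E] (b : E → ℝ) (hb : ContDiff ℝ 2 b) :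
    ∃ M : ℝ, 0 ≤ M ∧ ∀ z ∈ closedBall (0 : E) 3, ∀ v : E, - (M * ‖v‖ ^ 2) ≤ leviForm b z v := by
  have hprop : ProperSpace E := FiniteDimensional.proper ℂ E
  have hcont : Continuous (fderiv ℝ (fderiv ℝ b)) := by
    have h1 : ContDiff ℝ 1 (fderiv ℝ b) := hb.fderiv_right (by norm_num)
    exact h1.continuous_fderiv (by simp)
  obtain ⟨M, hM⟩ := (isCompact_closedBall (0 : E) 3).exists_bound_of_continuousOn
    (f := fderiv ℝ (fderiv ℝ b)) hcont.continuousOn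
  refine ⟨2 * |M|, by positivity, fun z hz v => ?_⟩
  rw [leviForm_eq hb.contDiffAt]
  have h1 : ∀ u : E, ‖u‖ = ‖v‖ → - (|M| * ‖v‖ ^ 2) ≤ fderiv ℝ (fderiv ℝ b) z u u := by
    intro u hu
    have h2 : ‖fderiv ℝ (fderiv ℝ b) z u u‖ ≤ |M| * ‖v‖ ^ 2 := by
      refine (ContinuousLinearMap.le_opNorm₂ _ _ _).trans ?_
      rw [hu, mul_assoc, ← sq]
      exact mul_le_mul_of_nonneg_right ((hM z hz).trans (le_abs_self M)) (by positivity)
    rw [Real.norm_eq_abs] at h2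
    exact (abs_le.1 h2).1
  have h3 := h1 v rfl
  have h4 := h1 (Complex.I • v) (by rw [norm_smul, Complex.norm_I, one_mul])
  linarith


/-- the function that is maximized -/
noncomputable def XASΦ {q : ∀ x : X, TangentSpace 𝓘(ℂ, E) x → ℝ} (a : UA q) (b : E → ℝ) (B k : ℝ)
    (w : ℂ → ℝ) (τ : ℂ → X) (i : Fin a.n) (t : ℂ) : ℝ :=
  ‖fderiv ℂ (a.κ i ∘ τ) t 1‖ ^ 2 * Real.exp (B * b (a.κ i (τ t))) * Real.exp (k * w t) *
    (1 / 4 - ‖t‖ ^ 2) ^ 2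

/-- the estimate at an interior maximum point -/
theorem XAS_local [FiniteDimensional ℂ E] {q : ∀ x : X, TangentSpace 𝓘(ℂ, E) x → ℝ} (a : UA q)
    {b : E → ℝ} (hb2 : ContDiff ℝ 2 b) (hb1 : ∀ z, b z ≤ 1) {M B K : ℝ} (hM0 : 0 ≤ M) (hB0 : 0 ≤ B)
    (hM : ∀ z ∈ closedBall (0 : E) 3, ∀ v : E, - (M * ‖v‖ ^ 2) ≤ leviForm b z v)
    {τ : ℂ → X} {w : ℂ → ℝ} {i : Fin a.n} {t₀ : ℂ} (ht₀ : ‖t₀‖ < 1 / 2)
    (hξ : ContDiffAt ℂ ω (a.κ i ∘ τ) t₀) (hξ3 : a.κ i (τ t₀) ∈ closedBall (0 : E) 3)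
    (hv : fderiv ℂ (a.κ i ∘ τ) t₀ 1 ≠ 0)
    (hlow : ‖fderiv ℂ (a.κ i ∘ τ) t₀ 1‖ ^ 2 ≤ a.C * leviForm w t₀ 1)
    (hw : ContDiffAt ℝ 2 w t₀) (hwK : w t₀ ≤ K)
    (hmax : ∀ᶠ t in 𝓝 t₀, XASΦ a b B (a.C * (B * M + 1)) w τ i t ≤
      XASΦ a b B (a.C * (B * M + 1)) w τ i t₀) :
    XASΦ a b B (a.C * (B * M + 1)) w τ i t₀ ≤ 2 * Real.exp (B + a.C * (B * M + 1) * K) := by
  set k : ℝ := a.C * (B * M + 1) with hk
  have hC1 : 1 ≤ a.C := a.one_le_C
  have hk0 : 0 ≤ k := by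
    have h1 : 0 ≤ B * M + 1 := by positivity
    rw [hk]
    positivity
  set v : E := fderiv ℂ (a.κ i ∘ τ) t₀ 1 with hvdef
  obtain ⟨ℓ, hℓ1, hℓv⟩ := exists_dual_vector ℂ v (norm_ne_zero_iff.2 hv)
  set h : ℂ → ℂ := fun t => ℓ (fderiv ℂ (a.κ i ∘ τ) t 1) with hh
  have hvpos : 0 < ‖v‖ := norm_pos_iff.2 hv
  have hht₀ : h t₀ = (‖v‖ : ℂ) := hℓv
  have hht₀ne : h t₀ ≠ 0 := by
    rw [hht₀]
    exact_mod_cast hvpos.ne'
  have hnorm₀ : ‖h t₀‖ = ‖v‖ := by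
    rw [hht₀]
    simp
  have hD : ContDiffAt ℂ 2 (fun t => fderiv ℂ (a.κ i ∘ τ) t 1) t₀ :=
    (hξ.fderiv_right (m := 2) (by simp)).clm_apply contDiffAt_const
  have hh2 : ContDiffAt ℂ 2 h t₀ := ℓ.contDiff.contDiffAt.comp t₀ hD
  set L : ℂ → ℂ := fun t => Complex.log (h t / h t₀) with hL
  have hL2 : ContDiffAt ℂ 2 L t₀ := by
    have h1 : ContDiffAt ℂ 2 Complex.log (h t₀ / h t₀) := by
      apply Complex.contDiffAt_log
      rw [div_self hht₀ne]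
      exact Complex.one_mem_slitPlane
    exact ContDiffAt.comp (f := fun t => h t / h t₀) t₀ h1 (hh2.div_const (h t₀))
  set f1 : ℂ → ℝ := fun t => (L t).re with hf1
  set f2 : ℂ → ℝ := fun t => b (a.κ i (τ t)) with hf2
  set f4 : ℂ → ℝ := fun t => Real.log (1 / 4 - ‖t‖ ^ 2) with hf4
  set Θ : ℂ → ℝ := fun t => 2 * f1 t + (B * f2 t + (k * w t + 2 * f4 t)) with hΘ
  have c1 : ContDiffAt ℝ 2 f1 t₀ :=
    Complex.reCLM.contDiff.contDiffAt.comp t₀ (hL2.restrict_scalars ℝ)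
  have hξR : ContDiffAt ℝ 2 (a.κ i ∘ τ) t₀ := (hξ.of_le (by simp)).restrict_scalars ℝ
  have c2 : ContDiffAt ℝ 2 f2 t₀ := hb2.contDiffAt.comp t₀ hξR
  have c4 : ContDiffAt ℝ 2 f4 t₀ := XAS_log_contDiffAt ht₀
  have d1 : ContDiffAt ℝ 2 (fun t => 2 * f1 t) t₀ := contDiffAt_const.mul c1
  have d2 : ContDiffAt ℝ 2 (fun t => B * f2 t) t₀ := contDiffAt_const.mul c2
  have d3 : ContDiffAt ℝ 2 (fun t => k * w t) t₀ := contDiffAt_const.mul hw
  have d4 : ContDiffAt ℝ 2 (fun t => 2 * f4 t) t₀ := contDiffAt_const.mul c4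
  have cΘ : ContDiffAt ℝ 2 Θ t₀ := d1.add (d2.add (d3.add d4))
  -- the norm bound
  have hℓ : ∀ t, ‖h t‖ ≤ ‖fderiv ℂ (a.κ i ∘ τ) t 1‖ := by
    intro t
    have h1 := ℓ.le_opNorm (fderiv ℂ (a.κ i ∘ τ) t 1)
    rw [hℓ1, one_mul] at h1
    exact h1
  have hexp : ∀ t, h t ≠ 0 → ‖t‖ < 1 / 2 → ‖h t₀‖ ^ 2 * Real.exp (Θ t) =
      ‖h t‖ ^ 2 * Real.exp (B * b (a.κ i (τ t))) * Real.exp (k * w t) *
        (1 / 4 - ‖t‖ ^ 2) ^ 2 := by
    intro t h1 h2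
    have h3 : 0 < 1 / 4 - ‖t‖ ^ 2 := by
      have := norm_nonneg t
      nlinarith
    have h4 : 0 < ‖h t / h t₀‖ := norm_pos_iff.2 (div_ne_zero h1 hht₀ne)
    have h5 : Real.exp (2 * f1 t) = ‖h t / h t₀‖ ^ 2 := by
      rw [hf1]
      simp only [hL]
      rw [Complex.log_re, two_mul, Real.exp_add, Real.exp_log h4, sq]
    have h6 : Real.exp (2 * f4 t) = (1 / 4 - ‖t‖ ^ 2) ^ 2 := by
      rw [hf4]
      simp only
      rw [two_mul, Real.exp_add, Real.exp_log h3]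
      ring
    have h8 : f2 t = b (a.κ i (τ t)) := rfl
    rw [hΘ]
    simp only
    rw [Real.exp_add, Real.exp_add, Real.exp_add, h5, h6, norm_div, h8]
    have h7 : ‖h t₀‖ ≠ 0 := norm_ne_zero_iff.2 hht₀ne
    rw [div_pow]
    have h9 : ‖h t₀‖ ^ 2 * (‖h t‖ ^ 2 / ‖h t₀‖ ^ 2) = ‖h t‖ ^ 2 := by
      field_simp
    linear_combination (Real.exp (B * b (a.κ i (τ t))) * Real.exp (k * w t) *
      (1 / 4 - ‖t‖ ^ 2) ^ 2) * h9
  have hloc : IsLocalMax Θ t₀ := by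
    have e1 : ∀ᶠ t in 𝓝 t₀, h t ≠ 0 := hh2.continuousAt.eventually_ne hht₀ne
    have e2 : ∀ᶠ t in 𝓝 t₀, ‖t‖ < 1 / 2 := continuous_norm.continuousAt.eventually_lt_const ht₀
    filter_upwards [e1, e2, hmax] with t h1 h2 h3
    have h4 : 0 < ‖h t₀‖ ^ 2 := by
      have : 0 < ‖h t₀‖ := norm_pos_iff.2 hht₀ne
      positivity
    have h5 : ‖h t₀‖ ^ 2 * Real.exp (Θ t) ≤ ‖h t₀‖ ^ 2 * Real.exp (Θ t₀) := by
      rw [hexp t h1 h2, hexp t₀ hht₀ne ht₀]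
      refine le_trans ?_ (h3.trans (le_of_eq ?_))
      · unfold XASΦ
        have h6 : ‖h t‖ ^ 2 ≤ ‖fderiv ℂ (a.κ i ∘ τ) t 1‖ ^ 2 :=
          pow_le_pow_left₀ (norm_nonneg _) (hℓ t) 2
        gcongr
      · unfold XASΦ
        rw [hnorm₀]
    exact Real.exp_le_exp.1 (le_of_mul_le_mul_left h5 h4)
  have hlevi := XAS_levi_max cΘ hloc 1
  have l1 : leviForm f1 t₀ 1 = 0 := by
    have h1 := leviForm_comp (φ := fun z : ℂ => z.re) (h := L) (z := t₀) hL2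
      (Complex.reCLM.contDiff.contDiffAt) (1 : ℂ)
    rw [XAS_levi_re] at h1
    exact h1
  have l2 : leviForm f2 t₀ 1 = leviForm b (a.κ i (τ t₀)) v :=
    leviForm_comp (φ := b) (h := a.κ i ∘ τ) (z := t₀) (hξ.of_le (by simp)) hb2.contDiffAt (1 : ℂ)
  have l4 : leviForm f4 t₀ 1 = -1 / (1 / 4 - ‖t₀‖ ^ 2) ^ 2 := XAS_levi_log ht₀
  have hsum : leviForm Θ t₀ 1 = 2 * leviForm f1 t₀ 1 + (B * leviForm f2 t₀ 1 +
      (k * leviForm w t₀ 1 + 2 * leviForm f4 t₀ 1)) := by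
    rw [hΘ, leviForm_add d1 (d2.add (d3.add d4)), leviForm_add d2 (d3.add d4), leviForm_add d3 d4,
      leviForm_const_mul c1, leviForm_const_mul c2, leviForm_const_mul hw, leviForm_const_mul c4]
  rw [hsum, l1, l2, l4] at hlevi
  have m2 := mul_le_mul_of_nonneg_left (hM _ hξ3 v) hB0
  set δ : ℝ := 1 / 4 - ‖t₀‖ ^ 2 with hδ
  have hδpos : 0 < δ := by
    have := norm_nonneg t₀
    rw [hδ]
    nlinarith
  have m3 : (B * M + 1) * ‖v‖ ^ 2 ≤ k * leviForm w t₀ 1 := by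
    have h1 : 0 ≤ B * M + 1 := by positivity
    have h2 := mul_le_mul_of_nonneg_left hlow h1
    rw [hk]
    linarith
  have m4 : ‖v‖ ^ 2 ≤ 2 / δ ^ 2 := by
    have h1 : 2 * (-1 / δ ^ 2) = - (2 / δ ^ 2) := by ring
    rw [h1] at hlevi
    linarith
  have m5 : ‖v‖ ^ 2 * δ ^ 2 ≤ 2 := by
    rwa [le_div_iff₀ (by positivity)] at m4
  have m6 : Real.exp (B * b (a.κ i (τ t₀))) ≤ Real.exp B := by
    apply Real.exp_le_exp.2
    have := mul_le_mul_of_nonneg_left (hb1 (a.κ i (τ t₀))) hB0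
    linarith
  have m7 : Real.exp (k * w t₀) ≤ Real.exp (k * K) :=
    Real.exp_le_exp.2 (mul_le_mul_of_nonneg_left hwK hk0)
  unfold XASΦ
  rw [← hvdef, ← hδ]
  calc ‖v‖ ^ 2 * Real.exp (B * b (a.κ i (τ t₀))) * Real.exp (k * w t₀) * δ ^ 2
      = (‖v‖ ^ 2 * δ ^ 2) * (Real.exp (B * b (a.κ i (τ t₀))) * Real.exp (k * w t₀)) := by ring
    _ ≤ 2 * (Real.exp B * Real.exp (k * K)) := by gcongr
    _ = 2 * Real.exp (B + k * K) := by rw [Real.exp_add]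

/-- TARGET. A holomorphic disc `τ` in `X` for which `q(τ')` is the Levi form of a function bounded by
`K` satisfies `q(τ'(0)) ≤ C'`, with `C'` depending only on `K` and the atlas. -/
theorem ahlfors [FiniteDimensional ℂ E] [IsManifold 𝓘(ℂ, E) ω X] [T2Space X]
    {q : ∀ x : X, TangentSpace 𝓘(ℂ, E) x → ℝ} (a : UA q) (K : ℝ) :
    ∃ C' : ℝ, ∀ τ : ℂ → X, ContMDiffOn 𝓘(ℂ, ℂ) 𝓘(ℂ, E) ω τ (ball 0 1) →
      ∀ w : ℂ → ℝ, ContDiffOn ℝ 2 w (ball 0 1) → (∀ t ∈ ball (0 : ℂ) 1, |w t| ≤ K) →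
      (∀ t ∈ ball (0 : ℂ) 1, leviForm w t 1 = pb q τ t 1) → pb q τ 0 1 ≤ C' := by
  classical
  have hprop : ProperSpace E := FiniteDimensional.proper ℂ E
  let bb : ContDiffBump (0 : E) := ⟨1, 2, one_pos, one_lt_two⟩
  set b : E → ℝ := fun z => bb z with hbdef
  have hb2 : ContDiff ℝ 2 b := bb.contDiff
  have hb0 : ∀ z, 0 ≤ b z := fun z => bb.nonneg
  have hb1 : ∀ z, b z ≤ 1 := fun z => bb.le_one
  have hbin : ∀ z ∈ ball (0 : E) 1, b z = 1 := fun z hz =>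
    bb.one_of_mem_closedBall (ball_subset_closedBall hz)
  have hbout : ∀ z, z ∉ ball (0 : E) 2 → b z = 0 := fun z hz =>
    bb.zero_of_le_dist (by
      rw [mem_ball, not_lt] at hz
      exact hz)
  obtain ⟨M, hM0, hM⟩ := XAS_levi_lower b hb2
  have hC1 : 1 ≤ a.C := a.one_le_C
  obtain ⟨B, hB0, hB⟩ : ∃ B : ℝ, 0 ≤ B ∧ a.C ^ 2 < Real.exp B :=
    ⟨a.C ^ 2, sq_nonneg _, by
      have := Real.add_one_le_exp (a.C ^ 2)
      linarith⟩
  set k : ℝ := a.C * (B * M + 1) with hk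
  have hk0 : 0 ≤ k := by
    have h1 : 0 ≤ B * M + 1 := by positivity
    rw [hk]
    positivity
  refine ⟨a.C * (32 * Real.exp (B + 2 * (k * K))), ?_⟩
  intro τ hτ w hw hwK hlevi
  have hsub : closedBall (0 : ℂ) (1 / 2) ⊆ ball 0 1 := closedBall_subset_ball (by norm_num)
  have hτat : ∀ t ∈ ball (0 : ℂ) 1, ContMDiffAt 𝓘(ℂ, ℂ) 𝓘(ℂ, E) ω τ t := fun t ht =>
    hτ.contMDiffAt (isOpen_ball.mem_nhds ht)
  have hwat : ∀ t ∈ ball (0 : ℂ) 1, ContDiffAt ℝ 2 w t := fun t ht =>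
    hw.contDiffAt (isOpen_ball.mem_nhds ht)
  -- behaviour in the charts
  have loc : ∀ t ∈ ball (0 : ℂ) 1, ∀ i, τ t ∈ a.p i '' ball 0 5 →
      a.κ i (τ t) ∈ ball (0 : E) 5 ∧ a.p i (a.κ i (τ t)) = τ t ∧ ContDiffAt ℂ ω (a.κ i ∘ τ) t ∧
      ‖fderiv ℂ (a.κ i ∘ τ) t 1‖ ^ 2 ≤ a.C * pb q τ t 1 ∧
      pb q τ t 1 ≤ a.C * ‖fderiv ℂ (a.κ i ∘ τ) t 1‖ ^ 2 := by
    intro t ht i hi
    obtain ⟨h1, h2, h3, _, h5⟩ := a.local_form (hτat t ht) hi
    refine ⟨h1, h2, h3, ?_, ?_⟩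
    · rw [h5 1]
      exact a.lower i _ h1 _
    · rw [h5 1]
      exact a.upper i _ h1 _
  have sub35 : closedBall (0 : E) 3 ⊆ ball 0 5 := closedBall_subset_ball (by norm_num)
  have sub25 : ball (0 : E) 2 ⊆ ball 0 5 := ball_subset_ball (by norm_num)
  set S : Fin a.n → Set ℂ := fun i => closedBall 0 (1 / 2) ∩ τ ⁻¹' (a.p i '' closedBall 0 3) with hS
  have hSc : ∀ i, IsCompact (S i) := by
    intro i
    have h1 : IsClosed (a.p i '' closedBall 0 3) :=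
      ((isCompact_closedBall (0 : E) 3).image_of_continuousOn
        ((a.p_smooth i).continuousOn.mono sub35)).isClosed
    have h2 : ContinuousOn τ (closedBall 0 (1 / 2)) := hτ.continuousOn.mono hsub
    exact (isCompact_closedBall (0 : ℂ) (1 / 2)).of_isClosed_subset
      (h2.preimage_isClosed_of_isClosed isClosed_closedBall h1) inter_subset_left
  have hΦc : ∀ i, ContinuousOn (XASΦ a b B k w τ i) (S i) := by
    intro i t ht
    apply ContinuousAt.continuousWithinAt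
    obtain ⟨h1, h2⟩ := ht
    obtain ⟨_, _, h5, _, _⟩ := loc t (hsub h1) i (image_mono sub35 h2)
    have c1 : ContinuousAt (fun t => fderiv ℂ (a.κ i ∘ τ) t 1) t :=
      ((h5.fderiv_right (m := 1) (by simp)).clm_apply contDiffAt_const).continuousAt
    have c2 : ContinuousAt (fun t => b (a.κ i (τ t))) t :=
      ContinuousAt.comp (f := a.κ i ∘ τ) hb2.continuous.continuousAt h5.continuousAt
    have c3 : ContinuousAt w t := (hwat t (hsub h1)).continuousAt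
    have c4 : ContinuousAt (fun t : ℂ => (1 / 4 - ‖t‖ ^ 2) ^ 2) t := by fun_prop
    exact (((c1.norm.pow 2).mul (c2.const_mul B).rexp).mul (c3.const_mul k).rexp).mul c4
  -- the chart which covers a point well
  have hcov : ∀ t ∈ closedBall (0 : ℂ) (1 / 2), ∃ j, t ∈ S j ∧ b (a.κ j (τ t)) = 1 := by
    intro t ht
    obtain ⟨j, z, hz, hzt⟩ := a.cover (τ t)
    have hz5 : z ∈ ball (0 : E) 5 := ball_subset_ball (by norm_num) hz
    refine ⟨j, ⟨ht, ⟨z, ball_subset_closedBall (ball_subset_ball (by norm_num) hz), hzt⟩⟩, ?_⟩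
    rw [← hzt, a.κ_p j z hz5]
    exact hbin z hz
  have h0mem : (0 : ℂ) ∈ closedBall (0 : ℂ) (1 / 2) := mem_closedBall_self (by norm_num)
  obtain ⟨j₀, hj₀, hbj₀⟩ := hcov 0 h0mem
  obtain ⟨i, t₀, ht₀, hmax⟩ := XAS_max S (fun i => XASΦ a b B k w τ i) hSc hΦc ⟨j₀, 0, hj₀⟩
  have key : XASΦ a b B k w τ i t₀ ≤ 2 * Real.exp (B + k * K) := by
    rcases le_or_gt (XASΦ a b B k w τ i t₀) 0 with hneg | hpos
    · exact hneg.trans (by positivity)
    · have ht₀1 := hsub ht₀.1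
      have hin5 : τ t₀ ∈ a.p i '' ball 0 5 := image_mono sub35 ht₀.2
      obtain ⟨g1, g2, g3, g4, g5⟩ := loc t₀ ht₀1 i hin5
      have ht₀n : ‖t₀‖ < 1 / 2 := by
        have h1 : ‖t₀‖ ≤ 1 / 2 := by simpa using ht₀.1
        rcases h1.lt_or_eq with h2 | h2
        · exact h2
        · exfalso
          unfold XASΦ at hpos
          rw [h2] at hpos
          norm_num at hpos
      have hδ : 0 < 1 / 4 - ‖t₀‖ ^ 2 := by
        have := norm_nonneg t₀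
        nlinarith
      have hv : fderiv ℂ (a.κ i ∘ τ) t₀ 1 ≠ 0 := by
        intro h1
        unfold XASΦ at hpos
        rw [h1] at hpos
        norm_num at hpos
      have hvpos : 0 < ‖fderiv ℂ (a.κ i ∘ τ) t₀ 1‖ := norm_pos_iff.2 hv
      have hξ2 : a.κ i (τ t₀) ∈ ball (0 : E) 2 := by
        by_contra hcon
        have hbz := hbout _ hcon
        obtain ⟨j, hj, hbj⟩ := hcov t₀ ht₀.1
        have h1 := hmax j t₀ hj
        obtain ⟨_, _, _, k4, k5⟩ := loc t₀ ht₀1 j (image_mono sub35 hj.2)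
        unfold XASΦ at h1
        rw [hbz, hbj, mul_zero, Real.exp_zero, mul_one, mul_one] at h1
        have h2 : 0 < Real.exp (k * w t₀) * (1 / 4 - ‖t₀‖ ^ 2) ^ 2 := by positivity
        have h3 : (‖fderiv ℂ (a.κ j ∘ τ) t₀ 1‖ ^ 2 * Real.exp B) *
            (Real.exp (k * w t₀) * (1 / 4 - ‖t₀‖ ^ 2) ^ 2) ≤
            ‖fderiv ℂ (a.κ i ∘ τ) t₀ 1‖ ^ 2 * (Real.exp (k * w t₀) * (1 / 4 - ‖t₀‖ ^ 2) ^ 2) := by
          calc _ = ‖fderiv ℂ (a.κ j ∘ τ) t₀ 1‖ ^ 2 * Real.exp B * Real.exp (k * w t₀) *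
              (1 / 4 - ‖t₀‖ ^ 2) ^ 2 := by ring
            _ ≤ _ := h1
            _ = _ := by ring
        have h4 := le_of_mul_le_mul_right h3 h2
        have h5 : ‖fderiv ℂ (a.κ i ∘ τ) t₀ 1‖ ^ 2 ≤
            a.C ^ 2 * ‖fderiv ℂ (a.κ j ∘ τ) t₀ 1‖ ^ 2 := by
          have h6 := mul_le_mul_of_nonneg_left k5 (by linarith : (0 : ℝ) ≤ a.C)
          calc _ ≤ _ := g4
            _ ≤ _ := h6
            _ = _ := by ring
        have h7 : 0 < ‖fderiv ℂ (a.κ j ∘ τ) t₀ 1‖ ^ 2 := by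
          by_contra h8
          have h9 : ‖fderiv ℂ (a.κ j ∘ τ) t₀ 1‖ ^ 2 = 0 :=
            le_antisymm (not_lt.1 h8) (sq_nonneg _)
          rw [h9, mul_zero] at h5
          have : 0 < ‖fderiv ℂ (a.κ i ∘ τ) t₀ 1‖ ^ 2 := by positivity
          linarith
        have h10 := mul_lt_mul_of_pos_left hB h7
        linarith
      have hevS : ∀ᶠ t in 𝓝 t₀, t ∈ S i := by
        have e1 : ∀ᶠ t in 𝓝 t₀, ‖t‖ < 1 / 2 := continuous_norm.continuousAt.eventually_lt_const ht₀n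
        have hopen : IsOpen (a.p i '' ball 0 2) := a.p_open i _ sub25 isOpen_ball
        have hmem : τ t₀ ∈ a.p i '' ball 0 2 := ⟨_, hξ2, g2⟩
        have e2 : ∀ᶠ t in 𝓝 t₀, τ t ∈ a.p i '' ball 0 2 :=
          (hτat t₀ ht₀1).continuousAt.eventually (hopen.mem_nhds hmem)
        filter_upwards [e1, e2] with t h1 h2
        refine ⟨by simpa using h1.le, ?_⟩
        exact image_mono ((ball_subset_ball (by norm_num)).trans ball_subset_closedBall) h2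
      refine XAS_local a hb2 hb1 hM0 hB0 hM ht₀n g3
        (ball_subset_closedBall (ball_subset_ball (by norm_num) hξ2)) hv ?_ (hwat t₀ ht₀1)
        ((le_abs_self _).trans (hwK t₀ ht₀1)) ?_
      · rw [hlevi t₀ ht₀1]
        exact g4
      · filter_upwards [hevS] with t ht
        exact hmax i t ht
  have h0 := (hmax j₀ 0 hj₀).trans key
  obtain ⟨_, _, _, _, k5⟩ := loc 0 (hsub h0mem) j₀ (image_mono sub35 hj₀.2)
  have h1 : Real.exp (-(k * K)) ≤ Real.exp (k * w 0) := by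
    apply Real.exp_le_exp.2
    have h2 := (abs_le.1 (hwK 0 (hsub h0mem))).1
    have h3 := mul_le_mul_of_nonneg_left h2 hk0
    linarith
  have h2 : (1 : ℝ) ≤ Real.exp (B * b (a.κ j₀ (τ 0))) := by
    rw [hbj₀, mul_one]
    exact Real.one_le_exp hB0
  have h3 : ‖fderiv ℂ (a.κ j₀ ∘ τ) 0 1‖ ^ 2 * 1 * Real.exp (-(k * K)) * (1 / 4) ^ 2 ≤
      2 * Real.exp (B + k * K) := by
    refine le_trans ?_ h0
    unfold XASΦ
    rw [norm_zero, zero_pow two_ne_zero, sub_zero]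
    gcongr
  have h4 : ‖fderiv ℂ (a.κ j₀ ∘ τ) 0 1‖ ^ 2 ≤ 32 * Real.exp (B + 2 * (k * K)) := by
    have e1 : Real.exp (B + 2 * (k * K)) = Real.exp (B + k * K) * Real.exp (k * K) := by
      rw [← Real.exp_add]
      ring_nf
    have e2 : Real.exp (-(k * K)) * Real.exp (k * K) = 1 := by
      rw [← Real.exp_add]
      simp
    have h5 := mul_le_mul_of_nonneg_right h3 (Real.exp_nonneg (k * K))
    have h6 : ‖fderiv ℂ (a.κ j₀ ∘ τ) 0 1‖ ^ 2 * 1 * Real.exp (-(k * K)) * (1 / 4) ^ 2 *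
        Real.exp (k * K) = ‖fderiv ℂ (a.κ j₀ ∘ τ) 0 1‖ ^ 2 * (1 / 16) := by
      linear_combination (‖fderiv ℂ (a.κ j₀ ∘ τ) 0 1‖ ^ 2 * (1 / 16)) * e2
    rw [h6] at h5
    rw [e1]
    linarith
  exact k5.trans (mul_le_mul_of_nonneg_left h4 (by linarith))

end Pool.Agent.H775.KE
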