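import Pool.Agent.H775.KE.Atl

set_option autoImplicit false

open scoped Manifold ContDiff Topology
open Set Filter Metric

namespace Pool.Agent.H775.KE

variable {E : Type} [NormedAddCommGroup E] [NormedSpace ℂ E]
variable {F : Type} [NormedAddCommGroup F] [NormedSpace ℂ F]
variable {X : Type} [TopologicalSpace X] [ChartedSpace E X]

/-- Lifting through a local biholomorphism of a compact manifold. -/
theorem lift_ball [FiniteDimensional ℂ E] [IsManifold 𝓘(ℂ, E) ω X] [T2Space X] [CompactSpace X]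
    (f : X → X) (hf : IsLocalDiffeomorph 𝓘(ℂ, E) 𝓘(ℂ, E) ω f) (B : Set F) (hB : IsOpen B)
    (hc : Convex ℝ B) (h : F → X) (hh : ContMDiffOn 𝓘(ℂ, F) 𝓘(ℂ, E) ω h B) (z₀ : F) (hz : z₀ ∈ B)
    (y : X) (hy : f y = h z₀) :
    ∃ s : F → X, ContMDiffOn 𝓘(ℂ, F) 𝓘(ℂ, E) ω s B ∧ s z₀ = y ∧ ∀ z ∈ B, f (s z) = h z := by
  classical
  have hcov : IsCoveringMap f := isLocalHomeomorph_iff_isCoveringMap.1 hf.isLocalHomeomorph
  have : ContractibleSpace B := hc.contractibleSpace ⟨z₀, hz⟩
  have : LocallyPathConnectedSpace B := hB.locallyPathConnectedSpace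
  let g : C(B, X) := ⟨fun z => h z, hh.continuousOn.domRestrict⟩
  obtain ⟨S, ⟨hS0, hSl⟩, -⟩ := hcov.existsUnique_continuousMap_lifts g ⟨z₀, hz⟩ y hy
  have hSl' : ∀ z (hz : z ∈ B), f (S ⟨z, hz⟩) = h z := fun z hz => congrFun hSl ⟨z, hz⟩
  set s : F → X := fun z => if hz : z ∈ B then S ⟨z, hz⟩ else y with hs
  have hsB : ∀ z (hz : z ∈ B), s z = S ⟨z, hz⟩ := fun z hz => by rw [hs]; exact dif_pos hz
  have hfs : ∀ z ∈ B, f (s z) = h z := fun z hz => by rw [hsB z hz]; exact hSl' z hz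
  have hsc : ContinuousOn s B := by
    rw [continuousOn_iff_continuous_domRestrict]
    have : B.domRestrict s = S := by
      funext z
      exact hsB z.1 z.2
    rw [this]
    exact S.continuous
  refine ⟨s, ?_, ?_, hfs⟩
  · intro z hz
    have hloc := hf (s z)
    have h1 : ContMDiffAt 𝓘(ℂ, E) 𝓘(ℂ, E) ω hloc.localInverse (h z) := by
      rw [← hfs z hz]; exact hloc.localInverse_contMDiffAt
    have h2 : ContMDiffWithinAt 𝓘(ℂ, F) 𝓘(ℂ, E) ω (hloc.localInverse ∘ h) B z :=
      h1.comp_contMDiffWithinAt z (hh z hz)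
    refine h2.congr_of_eventuallyEq ?_ ?_
    · have h3 : ∀ᶠ w in 𝓝[B] z, s w ∈ hloc.localInverse.target :=
        (hsc z hz).eventually (hloc.localInverse.open_target.mem_nhds hloc.localInverse_mem_target)
      filter_upwards [h3, self_mem_nhdsWithin] with w hw hwB
      rw [Function.comp_apply, ← hfs w hwB]
      exact (hloc.localInverse_left_inv hw).symm
    · rw [Function.comp_apply, ← hfs z hz]
      exact (hloc.localInverse_left_inv hloc.localInverse_mem_target).symm
  · rw [hsB z₀ hz]; exact hS0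

end Pool.Agent.H775.KE
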