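import Pool.Agent.H775.KE.Iter
import Pool.Agent.H775.KE.XLIFT
import Pool.Agent.H775.KE.XAS

/-!
# Bounded branches
-/

set_option autoImplicit false
set_option linter.unusedSectionVars false

open scoped Manifold ContDiff Topology
open Set Filter Metric

namespace Pool.Agent.H775.KE

variable {E : Type} [NormedAddCommGroup E] [NormedSpace ℂ E]
variable {F : Type} [NormedAddCommGroup F] [NormedSpace ℂ F]
variable {X : Type} [TopologicalSpace X] [ChartedSpace E X]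
variable {q : ∀ x : X, TangentSpace 𝓘(ℂ, E) x → ℝ}

/-- `f` is étale and `f^* q = δ q + i ∂ ∂̄ u`, `δ > 1`. -/
structure Et (q : ∀ x : X, TangentSpace 𝓘(ℂ, E) x → ℝ) (f : X → X) (δ : ℝ) (u : X → ℝ) : Prop where
  et : IsLocalDiffeomorph 𝓘(ℂ, E) 𝓘(ℂ, E) ω f
  one_lt : 1 < δ
  smooth : ∀ x, SmoothAt E u x
  mul : ∀ (x : X) (v : TangentSpace 𝓘(ℂ, E) x),
    q (f x) (mfderiv 𝓘(ℂ, E) 𝓘(ℂ, E) f x v) = δ * q x v + ddc E u x v

theorem smoothAt_continuousAt {φ : X → ℝ} {x : X} (h : SmoothAt E φ x) : ContinuousAt φ x := by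
  have h1 : φ =ᶠ[𝓝 x] (φ ∘ (chartAt E x).symm) ∘ (chartAt E x) := by
    filter_upwards [(chartAt E x).open_source.mem_nhds (mem_chart_source E x)] with y hy
    simp [hy]
  rw [continuousAt_congr h1]
  exact ContinuousAt.comp (ContDiffAt.continuousAt h)
    ((chartAt E x).continuousAt (mem_chart_source E x))

theorem smooth_continuous {φ : X → ℝ} (h : ∀ x, SmoothAt E φ x) : Continuous φ :=
  continuous_iff_continuousAt.2 fun x => smoothAt_continuousAt (h x)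

theorem exists_bound [CompactSpace X] {φ : X → ℝ} (h : Continuous φ) :
    ∃ B : ℝ, 0 ≤ B ∧ ∀ x, |φ x| ≤ B := by
  obtain ⟨B, hB⟩ := (isCompact_univ (X := X)).exists_bound_of_continuousOn h.continuousOn
  exact ⟨max B 0, le_max_right _ _, fun x => (hB x (mem_univ x)).trans (le_max_left _ _)⟩

section

variable [IsManifold 𝓘(ℂ, E) ω X]

theorem pb_iter {f : X → X} {δ : ℝ} {u : X → ℝ} (H : Et q f δ u) {s : F → X} {z : F}
    (hs : ContMDiffAt 𝓘(ℂ, F) 𝓘(ℂ, E) ω s z) (m : ℕ) (v : F) :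
    pb q (f^[m] ∘ s) z v = δ ^ m * pb q s z v + leviForm (Um δ u f m ∘ s) z v := by
  have h1 : mfderiv 𝓘(ℂ, F) 𝓘(ℂ, E) (f^[m] ∘ s) z =
      (mfderiv 𝓘(ℂ, E) 𝓘(ℂ, E) (f^[m]) (s z)).comp (mfderiv 𝓘(ℂ, F) 𝓘(ℂ, E) s z) :=
    mfderiv_comp z (((iterate_etale H.et m).contMDiff _).mdifferentiableAt (by simp))
        (hs.mdifferentiableAt (by simp))
  rw [(comp_X hs (Um_smooth H.smooth H.et m (s z))).2]
  unfold pb
  rw [h1]
  exact q_iter H.smooth H.et H.mul m (s z) (mfderiv 𝓘(ℂ, F) 𝓘(ℂ, E) s z v)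

/-- the potential of a branch -/
theorem pb_branch {f : X → X} {δ : ℝ} {u : X → ℝ} (H : Et q f δ u) {s p : F → X} {z : F}
    (hs : ContMDiffAt 𝓘(ℂ, F) 𝓘(ℂ, E) ω s z) (hp : ContMDiffAt 𝓘(ℂ, F) 𝓘(ℂ, E) ω p z) (m l : ℕ)
    (e : ∀ᶠ w in 𝓝 z, f^[m] (s w) = f^[l] (p w)) (v : F) :
    ContDiffAt ℝ ∞ (fun w => (δ ^ m)⁻¹ * (Um δ u f l (p w) - Um δ u f m (s w))) z ∧
    pb q s z v = (δ ^ m)⁻¹ * δ ^ l * pb q p z v +
      leviForm (fun w => (δ ^ m)⁻¹ * (Um δ u f l (p w) - Um δ u f m (s w))) z v := by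
  have hδ : 0 < δ ^ m := pow_pos (by linarith [H.one_lt]) m
  have h1 := pb_iter H hs m v
  have h2 := pb_iter H hp l v
  have h3 : pb q (f^[m] ∘ s) z v = pb q (f^[l] ∘ p) z v := pb_congr e v
  have c1 := (comp_X hs (Um_smooth (δ := δ) H.smooth H.et m (s z))).1
  have c2 := (comp_X hp (Um_smooth (δ := δ) H.smooth H.et l (p z))).1
  have c3 : ContDiffAt ℝ 2 (fun w => (-1 : ℝ) * (Um δ u f m ∘ s) w) z :=
    contDiffAt_const.mul (c1.of_le (by norm_cast))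
  have c4 : ContDiffAt ℝ 2 (fun w => (Um δ u f l ∘ p) w + (-1 : ℝ) * (Um δ u f m ∘ s) w) z :=
    (c2.of_le (by norm_cast)).add c3
  have e1 : (fun w => (δ ^ m)⁻¹ * (Um δ u f l (p w) - Um δ u f m (s w))) =
      fun w => (δ ^ m)⁻¹ * ((Um δ u f l ∘ p) w + (-1 : ℝ) * (Um δ u f m ∘ s) w) := by
    funext w
    simp only [Function.comp_apply]
    ring
  refine ⟨contDiffAt_const.mul (c2.sub c1), ?_⟩
  rw [e1, leviForm_const_mul c4, leviForm_add (c2.of_le (by norm_cast)) c3,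
    leviForm_const_mul (c1.of_le (by norm_cast))]
  rw [h1, h2] at h3
  field_simp
  linarith

end

section

variable [FiniteDimensional ℂ E] [IsManifold 𝓘(ℂ, E) ω X] [T2Space X] [CompactSpace X]

/-- Branches over the balls of the atlas have bounded derivative. -/
theorem branch_bound (a : UA q) {f : X → X} {δ : ℝ} {u : X → ℝ} (H : Et q f δ u) :
    ∃ C₁ : ℝ, 0 ≤ C₁ ∧ ∀ (i : Fin a.n) (l m : ℕ), l ≤ m → ∀ s : E → X,
      ContMDiffOn 𝓘(ℂ, E) 𝓘(ℂ, E) ω s (ball 0 5) →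
      (∀ z ∈ ball (0 : E) 5, f^[m] (s z) = f^[l] (a.p i z)) →
      ∀ z ∈ ball (0 : E) 4, ∀ v, pb q s z v ≤ C₁ * ‖v‖ ^ 2 := by
  obtain ⟨B, hB0, hB⟩ := exists_bound (smooth_continuous H.smooth)
  obtain ⟨C', hC'⟩ := ahlfors a (a.C + 2 * (B / (δ - 1)))
  refine ⟨max C' 0, le_max_right _ _, ?_⟩
  intro i l m hlm s hs e z hz v
  have hδ1 := H.one_lt
  have hδ : 0 < δ ^ m := pow_pos (by linarith) m
  have hδl : 0 < δ ^ l := pow_pos (by linarith) l
  have hlm' : δ ^ l ≤ δ ^ m := pow_le_pow_right₀ (by linarith) hlm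
  have hBd : 0 ≤ B / (δ - 1) := div_nonneg hB0 (by linarith)
  by_cases hv : v = 0
  · have h0 : pb q s z v = 0 := by
      have h1 := pb_smul a (hs.contMDiffAt (isOpen_ball.mem_nhds
        (ball_subset_ball (by norm_num) hz))) 0 v
      rw [zero_smul] at h1
      rw [hv] at h1 ⊢
      simpa using h1
    rw [h0]
    positivity
  -- normalise
  set v' : E := ((‖v‖ : ℂ)⁻¹) • v with hv'
  have hvn : 0 < ‖v‖ := norm_pos_iff.2 hv
  have hv'n : ‖v'‖ = 1 := by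
    rw [hv', norm_smul, norm_inv, Complex.norm_real, norm_norm, inv_mul_cancel₀ hvn.ne']
  set ξ : ℂ → E := fun t => z + t • v' with hξ
  have hξd : ∀ t, ContDiffAt ℂ ω ξ t := fun t =>
    contDiffAt_const.add (contDiffAt_id.smul contDiffAt_const)
  have hξf : ∀ t c, fderiv ℂ ξ t c = c • v' := by
    intro t c
    have : HasFDerivAt ξ ((ContinuousLinearMap.id ℂ ℂ).smulRight v') t :=
      ((hasFDerivAt_id t).smul_const v').const_add z
    rw [this.fderiv]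
    simp
  have hξm : ∀ t ∈ ball (0 : ℂ) 1, ξ t ∈ ball (0 : E) 5 := by
    intro t ht
    rw [mem_ball_zero_iff] at *
    calc ‖z + t • v'‖ ≤ ‖z‖ + ‖t • v'‖ := norm_add_le _ _
      _ = ‖z‖ + ‖t‖ := by rw [norm_smul, hv'n, mul_one]
      _ < 5 := by linarith
  have hsat : ∀ w ∈ ball (0 : E) 5, ContMDiffAt 𝓘(ℂ, E) 𝓘(ℂ, E) ω s w := fun w hw =>
    hs.contMDiffAt (isOpen_ball.mem_nhds hw)
  have hpat : ∀ w ∈ ball (0 : E) 5, ContMDiffAt 𝓘(ℂ, E) 𝓘(ℂ, E) ω (a.p i) w := fun w hw =>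
    (a.p_smooth i).contMDiffAt (isOpen_ball.mem_nhds hw)
  -- the potential
  set W : E → ℝ := fun w => (δ ^ m)⁻¹ * δ ^ l * a.ρ i w +
    (δ ^ m)⁻¹ * (Um δ u f l (a.p i w) - Um δ u f m (s w)) with hW
  have hWs : ∀ w ∈ ball (0 : E) 5, ContDiffAt ℝ ∞ W w := by
    intro w hw
    have h1 := (pb_branch H (hsat w hw) (hpat w hw) m l
      (by filter_upwards [isOpen_ball.mem_nhds hw] with y hy using e y hy) 0).1
    exact (contDiffAt_const.mul ((a.ρ_smooth i).contDiffAt (isOpen_ball.mem_nhds hw))).add h1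
  have hWl : ∀ w ∈ ball (0 : E) 5, ∀ x, leviForm W w x = pb q s w x := by
    intro w hw x
    have h1 := pb_branch H (hsat w hw) (hpat w hw) m l
      (by filter_upwards [isOpen_ball.mem_nhds hw] with y hy using e y hy) x
    have h2 : ContDiffAt ℝ 2 (a.ρ i) w :=
      ((a.ρ_smooth i).contDiffAt (isOpen_ball.mem_nhds hw)).of_le (by norm_cast)
    rw [hW, leviForm_add (contDiffAt_const.mul h2) (h1.1.of_le (by norm_cast)),
      leviForm_const_mul h2, a.ρ_levi i w hw, h1.2]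
  have hWb : ∀ w ∈ ball (0 : E) 5, |W w| ≤ a.C + 2 * (B / (δ - 1)) := by
    intro w hw
    have b1 := a.ρ_bdd i w hw
    have b2 := Um_bound hδ1 hB f l (a.p i w)
    have b3 := Um_bound hδ1 hB f m (s w)
    have b4 : (δ ^ m)⁻¹ * δ ^ l ≤ 1 := by
      rw [inv_mul_le_iff₀ hδ]; linarith
    have b5 : 0 ≤ (δ ^ m)⁻¹ * δ ^ l := by positivity
    calc |W w| ≤ |(δ ^ m)⁻¹ * δ ^ l * a.ρ i w| +
          |(δ ^ m)⁻¹ * (Um δ u f l (a.p i w) - Um δ u f m (s w))| := abs_add_le _ _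
      _ = (δ ^ m)⁻¹ * δ ^ l * |a.ρ i w| +
          (δ ^ m)⁻¹ * |Um δ u f l (a.p i w) - Um δ u f m (s w)| := by
          rw [abs_mul ((δ ^ m)⁻¹ * δ ^ l) (a.ρ i w), abs_of_nonneg b5,
            abs_mul (δ ^ m)⁻¹ (Um δ u f l (a.p i w) - Um δ u f m (s w)),
            abs_of_nonneg (by positivity : 0 ≤ (δ ^ m)⁻¹)]
      _ ≤ 1 * a.C + (δ ^ m)⁻¹ * (δ ^ l * (B / (δ - 1)) + δ ^ m * (B / (δ - 1))) := by
          gcongr
          exact (abs_sub _ _).trans (add_le_add b2 b3)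
      _ = a.C + ((δ ^ m)⁻¹ * δ ^ l) * (B / (δ - 1)) + ((δ ^ m)⁻¹ * δ ^ m) * (B / (δ - 1)) := by
          ring
      _ ≤ a.C + 1 * (B / (δ - 1)) + 1 * (B / (δ - 1)) := by
          rw [inv_mul_cancel₀ hδ.ne']
          gcongr
      _ = _ := by ring
  have key := hC' (s ∘ ξ)
    (by
      intro t ht
      exact ((hsat _ (hξm t ht)).comp t (hξd t).contMDiffAt).contMDiffWithinAt)
    (W ∘ ξ)
    (by
      intro t ht
      exact (((hWs _ (hξm t ht)).of_le (by norm_cast)).comp t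
        (((hξd t).restrict_scalars ℝ).of_le (by simp))).contDiffWithinAt)
    (fun t ht => hWb _ (hξm t ht))
    (by
      intro t ht
      rw [leviForm_comp ((hξd t).of_le (by simp)) ((hWs _ (hξm t ht)).of_le (by norm_cast)),
        hWl _ (hξm t ht), pb_comp (hsat _ (hξm t ht)) (hξd t)])
  have hz5 : z ∈ ball (0 : E) 5 := ball_subset_ball (by norm_num) hz
  have hξ0 : ξ 0 = z := by simp [hξ]
  rw [pb_comp (by rw [hξ0]; exact hsat z hz5) (hξd 0), hξf, hξ0, one_smul, hv',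
    pb_smul a (hsat z hz5)] at key
  rw [norm_inv, Complex.norm_real, norm_norm] at key
  have : pb q s z v = ‖v‖ ^ 2 * (‖v‖⁻¹ ^ 2 * pb q s z v) := by
    field_simp
  rw [this, mul_comm]
  gcongr
  exact key.trans (le_max_left _ _)

end

end Pool.Agent.H775.KE
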