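import Pool.Agent.H775.KE.Met

/-!
# The chain step for suprema over grand orbits
-/

set_option autoImplicit false
set_option linter.unusedSectionVars false

open scoped Manifold ContDiff Topology
open Set Filter Metric

namespace Pool.Agent.H775.KE

variable {E : Type} [NormedAddCommGroup E] [NormedSpace ℂ E]
variable {X : Type} [TopologicalSpace X] [ChartedSpace E X]
variable {q : ∀ x : X, TangentSpace 𝓘(ℂ, E) x → ℝ}

theorem exists_pow_small {δ : ℝ} (hδ : 1 < δ) (D μ : ℝ) (hμ : 0 < μ) :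
    ∃ K : ℕ, ∀ k ≥ K, (δ ^ k)⁻¹ * D ≤ μ := by
  have h1 : Tendsto (fun k : ℕ => (δ ^ k)⁻¹ * D) atTop (𝓝 (0 * D)) :=
    (tendsto_inv_atTop_zero.comp (tendsto_pow_atTop_atTop_of_one_lt hδ)).mul_const D
  rw [zero_mul] at h1
  have h2 := h1.eventually (eventually_le_nhds hμ)
  rw [eventually_atTop] at h2
  exact h2

section

variable [FiniteDimensional ℂ E] [IsManifold 𝓘(ℂ, E) ω X] [T2Space X] [CompactSpace X]

theorem chain_step (a : UA q) {f : X → X} {δ : ℝ} {u : X → ℝ} (H : Et q f δ u) {χ : X → ℝ}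
    (hχ : ∀ x, SmoothAt E χ x) (hχ2 : ∀ x (v : TangentSpace 𝓘(ℂ, E) x), -q x v ≤ ddc E χ x v)
    (A : ℝ) (hA : ∀ x, χ x - Vf δ u f x ≤ A) (η : ℝ) (hη : 0 < η) :
    ∃ η' > 0, ∃ K : ℕ, ∀ k ≥ K, ∀ i : Fin a.n, ∀ ζ ∈ ball (0 : E) 1, ∀ ζ' ∈ ball (0 : E) 1,
      ∀ (l : ℕ) (y : X), f^[l + k] y = f^[l] (a.p i ζ) → A - η' ≤ χ y - Vf δ u f y →
      ∃ y', f^[l + k] y' = f^[l] (a.p i ζ') ∧ A - η ≤ χ y' - Vf δ u f y' := by
  have hδ1 := H.one_lt
  have hδ0 : 0 < δ := by linarith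
  obtain ⟨e, L, e1, e2, hL, hbr⟩ := exists_setup a H
  obtain ⟨B, hB0, hB⟩ := exists_bound (smooth_continuous H.smooth)
  have hVc : Continuous (Vf δ u f) :=
    Vf_continuous hδ1 hB (smooth_continuous H.smooth) H.et.contMDiff.continuous
  obtain ⟨Bv, hBv0, hBv⟩ := exists_bound hVc
  have hψc : Continuous fun x => χ x - Vf δ u f x := (smooth_continuous hχ).sub hVc
  obtain ⟨r₁, hr₁, hr₁'⟩ := modulus_fun e1 e2 hψc (η / 4) (by positivity)
  obtain ⟨ε, hε, hop⟩ := hopf (η / 4) (min (r₁ / (4 * L)) 1) (by positivity)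
    (lt_min (by positivity) one_pos)
  obtain ⟨K, hK⟩ := exists_pow_small hδ1 (Bv + 4 * a.C) (min (ε / 2) (η / 4))
    (lt_min (by positivity) (by positivity))
  refine ⟨ε / 2, by positivity, K, ?_⟩
  intro k hk i ζ hζ ζ' hζ' l y hy hψy
  have hθ := hK k hk
  have hC := a.one_le_C
  set θ : ℝ := (δ ^ k)⁻¹ with hθdef
  have hθ0 : 0 < θ := by positivity
  have hθ1 : θ * (Bv + 4 * a.C) ≤ ε / 2 := hθ.trans (min_le_left _ _)
  have hθ2 : θ * (Bv + 4 * a.C) ≤ η / 4 := hθ.trans (min_le_right _ _)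
  have hζ5 : ζ ∈ ball (0 : E) 5 := ball_subset_ball (by norm_num) hζ
  obtain ⟨s, s1, s2, s3, s4⟩ := hbr i l (l + k) (by omega) ζ hζ5 y hy
  by_contra hcon
  push Not at hcon
  have hsat : ∀ w ∈ ball (0 : E) 5, ContMDiffAt 𝓘(ℂ, E) 𝓘(ℂ, E) ω s w := fun w hw =>
    s1.contMDiffAt (isOpen_ball.mem_nhds hw)
  -- the comparison function
  set G : E → ℝ := fun w => (δ ^ (l + k))⁻¹ * (Um δ u f l (a.p i w) - Um δ u f (l + k) (s w)) +
    (χ ∘ s) w with hG
  have hGψ : ∀ w ∈ ball (0 : E) 5, |G w - (χ (s w) - Vf δ u f (s w))| ≤ θ * Bv := by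
    intro w hw
    have v1 := Vf_iter hδ1 hB f l (a.p i w)
    have v2 := Vf_iter hδ1 hB f (l + k) (s w)
    rw [s3 w hw] at v2
    have v3 : Um δ u f l (a.p i w) - Um δ u f (l + k) (s w) =
        δ ^ l * Vf δ u f (a.p i w) - δ ^ (l + k) * Vf δ u f (s w) := by linarith
    have v4 : G w - (χ (s w) - Vf δ u f (s w)) = θ * Vf δ u f (a.p i w) := by
      rw [hG]
      simp only [Function.comp_apply]
      rw [v3, hθdef, pow_add]
      field_simp
      ring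
    rw [v4, abs_mul, abs_of_pos hθ0]
    gcongr
    exact hBv _
  have hGs : ∀ w ∈ ball (0 : E) 5, ContDiffAt ℝ ∞ G w ∧ ∀ x, -(θ * a.C * ‖x‖ ^ 2) ≤ leviForm G w x := by
    intro w hw
    have h1 := pb_branch H (hsat w hw) (a.smoothAt_p i hw) (l + k) l
      (by filter_upwards [isOpen_ball.mem_nhds hw] with y hy using s3 y hy)
    have h2 := comp_X (hsat w hw) (hχ (s w))
    refine ⟨(h1 0).1.add h2.1, fun x => ?_⟩
    have h3 := (h1 x).2
    rw [hG, leviForm_add ((h1 0).1.of_le (by norm_cast)) (h2.1.of_le (by norm_cast)), h2.2]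
    have h4 := hχ2 (s w) (mfderiv 𝓘(ℂ, E) 𝓘(ℂ, E) s w x)
    have h5 : q (s w) (mfderiv 𝓘(ℂ, E) 𝓘(ℂ, E) s w x) = pb q s w x := rfl
    rw [h5] at h4
    have h6 : (δ ^ (l + k))⁻¹ * δ ^ l = θ := by
      rw [hθdef, pow_add]; field_simp
    rw [h6] at h3
    have h7 := a.upper i w hw x
    have h8 : θ * pb q (a.p i) w x ≤ θ * (a.C * ‖x‖ ^ 2) := by gcongr
    linarith
  set ξ : ℂ → E := fun t => ζ + t • (ζ' - ζ) with hξ
  have hξd : ∀ t, ContDiffAt ℂ ω ξ t := fun t =>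
    contDiffAt_const.add (contDiffAt_id.smul contDiffAt_const)
  have hξf : ∀ t c, fderiv ℂ ξ t c = c • (ζ' - ζ) := by
    intro t c
    have : HasFDerivAt ξ ((ContinuousLinearMap.id ℂ ℂ).smulRight (ζ' - ζ)) t :=
      ((hasFDerivAt_id t).smul_const (ζ' - ζ)).const_add ζ
    rw [this.fderiv]
    simp
  have hd : ‖ζ' - ζ‖ < 2 := by
    rw [mem_ball_zero_iff] at hζ hζ'
    calc ‖ζ' - ζ‖ ≤ ‖ζ'‖ + ‖ζ‖ := norm_sub_le _ _
      _ < 2 := by linarith
  have hξ1 : ∀ t, ξ t = ζ' + (t - 1) • (ζ' - ζ) := by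
    intro t
    rw [hξ, sub_smul, one_smul]
    simp only
    abel
  have hξm : ∀ t ∈ ball (1 : ℂ) (3 / 2), ξ t ∈ ball (0 : E) 4 := by
    intro t ht
    rw [mem_ball_zero_iff, hξ1]
    rw [mem_ball, dist_eq_norm] at ht
    rw [mem_ball_zero_iff] at hζ'
    calc ‖ζ' + (t - 1) • (ζ' - ζ)‖ ≤ ‖ζ'‖ + ‖(t - 1) • (ζ' - ζ)‖ := norm_add_le _ _
      _ = ‖ζ'‖ + ‖t - 1‖ * ‖ζ' - ζ‖ := by rw [norm_smul]
      _ ≤ ‖ζ'‖ + 3 / 2 * 2 := by gcongr
      _ < 4 := by linarith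
  have h45 : ∀ w ∈ ball (0 : E) 4, w ∈ ball (0 : E) 5 := fun w hw =>
    ball_subset_ball (by norm_num) hw
  have key := hop (G ∘ ξ) A
    (by
      intro t ht
      exact (((hGs _ (h45 _ (hξm t ht))).1.of_le (by norm_cast)).comp t
        (((hξd t).restrict_scalars ℝ).of_le (by simp))).contDiffWithinAt)
    (by
      intro t ht
      have hw := h45 _ (hξm t ht)
      rw [leviForm_comp ((hξd t).of_le (by simp)) ((hGs _ hw).1.of_le (by norm_cast)), hξf,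
        one_smul]
      have h1 := (hGs _ hw).2 (ζ' - ζ)
      have h2 : ‖ζ' - ζ‖ ^ 2 ≤ 4 := by nlinarith [norm_nonneg (ζ' - ζ)]
      have h3 : θ * a.C * ‖ζ' - ζ‖ ^ 2 ≤ θ * a.C * 4 := by gcongr
      nlinarith)
    (by
      intro t ht
      have h1 := hGψ _ (h45 _ (hξm t ht))
      have h2 := hA (s (ξ t))
      have h3 := (abs_le.1 h1).2
      have h4 : θ * Bv ≤ θ * (Bv + 4 * a.C) := by gcongr; linarith
      simp only [Function.comp_apply]
      linarith)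
    (by
      intro t ht
      have ht2 : t ∈ ball (1 : ℂ) (3 / 2) :=
        ball_subset_ball ((min_le_right _ _).trans (by norm_num)) ht
      have ht3 : t ∈ ball (1 : ℂ) (r₁ / (4 * L)) := ball_subset_ball (min_le_left _ _) ht
      have h1 := hGψ _ (h45 _ (hξm t ht2))
      have h3 := (abs_le.1 h1).2
      have h4 : θ * Bv ≤ θ * (Bv + 4 * a.C) := by gcongr; linarith
      have h5 := s4 _ (hξm t ht2) ζ' (ball_subset_ball (by norm_num) hζ')
      have h6 : ‖ξ t - ζ'‖ ≤ r₁ / (4 * L) * 2 := by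
        rw [hξ1, add_sub_cancel_left, norm_smul]
        rw [mem_ball, dist_eq_norm] at ht3
        gcongr
      have h7 : ‖e (s (ξ t)) - e (s ζ')‖ < r₁ := by
        calc _ ≤ L * ‖ξ t - ζ'‖ := h5
          _ ≤ L * (r₁ / (4 * L) * 2) := by gcongr
          _ = r₁ / 2 := by field_simp; norm_num
          _ < r₁ := by linarith
      have h8 := (abs_lt.1 (hr₁' _ _ h7)).2
      have h9 := hcon (s ζ') (s3 ζ' (ball_subset_ball (by norm_num) hζ'))
      simp only [Function.comp_apply]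
      linarith)
  have k1 : (G ∘ ξ) 0 = G ζ := by simp [hξ]
  have k2 := hGψ ζ hζ5
  rw [s2] at k2
  have k3 := (abs_le.1 k2).1
  have k4 : θ * Bv ≤ θ * (Bv + 4 * a.C) - θ * (4 * a.C) := by ring_nf; rfl
  have k5 : 0 < θ * (4 * a.C) := by positivity
  rw [k1] at key
  linarith

end

end Pool.Agent.H775.KE
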