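import Pool.Agent.H775.KE.Dense

/-!
# The iterates are conformal up to bounded factors
-/

set_option autoImplicit false
set_option linter.unusedSectionVars false

open scoped Manifold ContDiff Topology
open Set Filter Metric

namespace Pool.Agent.H775.KE

variable {E : Type} [NormedAddCommGroup E] [NormedSpace ℂ E]
variable {X : Type} [TopologicalSpace X] [ChartedSpace E X]
variable {q : ∀ x : X, TangentSpace 𝓘(ℂ, E) x → ℝ}

theorem levi_pos_nhds [FiniteDimensional ℂ E] {Φ : E → ℝ} {ζ : E} (hΦ : ContDiffAt ℝ 2 Φ ζ)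
    (hpos : ∀ w, w ≠ 0 → 0 < leviForm Φ ζ w) : ∀ᶠ z in 𝓝 ζ, ∀ w, 0 ≤ leviForm Φ z w := by
  have hproper : ProperSpace E := FiniteDimensional.proper ℂ E
  have hc2 : ∀ᶠ z in 𝓝 ζ, ContDiffAt ℝ 2 Φ z := hΦ.eventually (by simp)
  have hB : ContinuousAt (fderiv ℝ (fderiv ℝ Φ)) ζ := by
    have h1 : ContDiffAt ℝ 1 (fderiv ℝ Φ) ζ := hΦ.fderiv_right (by norm_num)
    exact h1.continuousAt_fderiv (by simp)
  rcases (sphere (0 : E) 1).eq_empty_or_nonempty with h0 | hne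
  · have hz : ∀ w : E, w = 0 := by
      intro w
      by_contra hw
      have : (‖w‖⁻¹ : ℝ) • w ∈ sphere (0 : E) 1 := by
        rw [mem_sphere_zero_iff_norm, norm_smul, norm_inv, norm_norm,
          inv_mul_cancel₀ (norm_ne_zero_iff.2 hw)]
      rw [h0] at this
      exact this
    filter_upwards [hc2] with z hz2 w
    rw [leviForm_eq hz2, hz w]
    simp
  · have hcont : ContinuousOn (fun w => leviForm Φ ζ w) (sphere (0 : E) 1) := by
      have h1 : (fun w => leviForm Φ ζ w) = fun w => fderiv ℝ (fderiv ℝ Φ) ζ w w +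
          fderiv ℝ (fderiv ℝ Φ) ζ (Complex.I • w) (Complex.I • w) := by
        funext w; exact leviForm_eq hΦ w
      rw [h1]
      fun_prop
    obtain ⟨w₀, hw₀, hmin⟩ := (isCompact_sphere (0 : E) 1).exists_isMinOn hne hcont
    have hw0 : w₀ ≠ 0 := by
      intro h; rw [h] at hw₀; simp at hw₀
    set m := leviForm Φ ζ w₀ with hm
    have hm0 : 0 < m := hpos w₀ hw0
    have hclose : ∀ᶠ z in 𝓝 ζ, ‖fderiv ℝ (fderiv ℝ Φ) z - fderiv ℝ (fderiv ℝ Φ) ζ‖ < m / 2 := by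
      have h1 := hB.eventually (Metric.ball_mem_nhds (fderiv ℝ (fderiv ℝ Φ) ζ)
        (by positivity : 0 < m / 2))
      filter_upwards [h1] with z hz
      have e := dist_eq_norm (fderiv ℝ (fderiv ℝ Φ) z) (fderiv ℝ (fderiv ℝ Φ) ζ)
      exact e ▸ hz
    filter_upwards [hc2, hclose] with z hz2 hz w
    by_cases hw : w = 0
    · rw [leviForm_eq hz2, hw]; simp
    have hwn : 0 < ‖w‖ := norm_pos_iff.2 hw
    set w' : E := ((‖w‖ : ℂ)⁻¹) • w with hw'
    have hw'n : ‖w'‖ = 1 := by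
      rw [hw', norm_smul, norm_inv, Complex.norm_real, norm_norm, inv_mul_cancel₀ hwn.ne']
    have e1 : w = (‖w‖ : ℂ) • w' := by
      rw [hw', smul_smul, mul_inv_cancel₀ (by exact_mod_cast hwn.ne'), one_smul]
    have key : 0 ≤ leviForm Φ z w' := by
      have h1 : m ≤ leviForm Φ ζ w' := hmin (mem_sphere_zero_iff_norm.2 hw'n)
      rw [leviForm_eq hΦ] at h1
      rw [leviForm_eq hz2]
      have h2 : ∀ x : E, ‖x‖ = 1 → |fderiv ℝ (fderiv ℝ Φ) z x x - fderiv ℝ (fderiv ℝ Φ) ζ x x| ≤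
          m / 2 := by
        intro x hx
        have h3 := ContinuousLinearMap.le_opNorm₂
          (fderiv ℝ (fderiv ℝ Φ) z - fderiv ℝ (fderiv ℝ Φ) ζ) x x
        rw [hx, mul_one, mul_one] at h3
        have h4 : (fderiv ℝ (fderiv ℝ Φ) z - fderiv ℝ (fderiv ℝ Φ) ζ) x x =
          fderiv ℝ (fderiv ℝ Φ) z x x - fderiv ℝ (fderiv ℝ Φ) ζ x x := rfl
        rw [h4, Real.norm_eq_abs] at h3
        exact h3.trans hz.le
      have h5 := (abs_le.1 (h2 w' hw'n)).1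
      have h6 := (abs_le.1 (h2 (Complex.I • w') (by rw [norm_smul, Complex.norm_I, hw'n, one_mul]))).1
      linarith
    rw [e1, leviForm_smul hz2]
    positivity

theorem q_pos [IsManifold 𝓘(ℂ, E) ω X] (a : UA q) (x : X) (v : TangentSpace 𝓘(ℂ, E) x)
    (hv : v ≠ 0) : 0 < q x v := by
  obtain ⟨i, ζ, hζ, rfl⟩ := a.cover x
  have hζ5 : ζ ∈ ball (0 : E) 5 := ball_subset_ball (by norm_num) hζ
  obtain ⟨w, rfl⟩ := a.exists_vec i hζ5 v
  have hw : w ≠ 0 := by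
    rintro rfl
    exact hv (map_zero _)
  have h1 := a.lower i ζ hζ5 w
  have h2 : q (a.p i ζ) (mfderiv 𝓘(ℂ, E) 𝓘(ℂ, E) (a.p i) ζ w) = pb q (a.p i) ζ w := rfl
  rw [h2]
  have h3 : 0 < ‖w‖ ^ 2 := by have := norm_pos_iff.2 hw; positivity
  have hC := a.one_le_C
  by_contra hcon
  push Not at hcon
  nlinarith

section

variable [FiniteDimensional ℂ E] [IsManifold 𝓘(ℂ, E) ω X]

theorem levi_semi (a : UA q) {φ : X → ℝ} (hφ : ∀ x, SmoothAt E φ x) (x₁ : X) (s c : ℝ)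
    (h : ∀ w : TangentSpace 𝓘(ℂ, E) x₁, w ≠ 0 → s * ddc E φ x₁ w < c * q x₁ w) :
    ∀ᶠ y in 𝓝 x₁, ∀ w : TangentSpace 𝓘(ℂ, E) y, s * ddc E φ y w ≤ c * q y w := by
  obtain ⟨i, ζ, hζ, rfl⟩ := a.cover x₁
  have hζ5 : ζ ∈ ball (0 : E) 5 := ball_subset_ball (by norm_num) hζ
  have hφp : ∀ z ∈ ball (0 : E) 5, ContDiffAt ℝ 2 (φ ∘ a.p i) z := fun z hz =>
    (comp_X (a.smoothAt_p i hz) (hφ _)).1.of_le (by norm_cast)
  have hρ : ∀ z ∈ ball (0 : E) 5, ContDiffAt ℝ 2 (a.ρ i) z := fun z hz =>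
    ((a.ρ_smooth i).contDiffAt (isOpen_ball.mem_nhds hz)).of_le (by norm_cast)
  set Φ : E → ℝ := fun z => c * a.ρ i z + (-s) * (φ ∘ a.p i) z with hΦ
  have hΦs : ∀ z ∈ ball (0 : E) 5, ContDiffAt ℝ 2 Φ z := fun z hz =>
    (contDiffAt_const.mul (hρ z hz)).add (contDiffAt_const.mul (hφp z hz))
  have hΦl : ∀ z ∈ ball (0 : E) 5, ∀ w, leviForm Φ z w =
      c * q (a.p i z) (mfderiv 𝓘(ℂ, E) 𝓘(ℂ, E) (a.p i) z w) -
      s * ddc E φ (a.p i z) (mfderiv 𝓘(ℂ, E) 𝓘(ℂ, E) (a.p i) z w) := by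
    intro z hz w
    rw [hΦ, leviForm_add (contDiffAt_const.mul (hρ z hz)) (contDiffAt_const.mul (hφp z hz)),
      leviForm_const_mul (hρ z hz), leviForm_const_mul (hφp z hz), a.ρ_levi i z hz,
      (comp_X (a.smoothAt_p i hz) (hφ _)).2]
    unfold pb
    ring
  have h1 : ∀ᶠ z in 𝓝 ζ, ∀ w, 0 ≤ leviForm Φ z w := by
    apply levi_pos_nhds (hΦs ζ hζ5)
    intro w hw
    rw [hΦl ζ hζ5]
    have h2 : mfderiv 𝓘(ℂ, E) 𝓘(ℂ, E) (a.p i) ζ w ≠ 0 := by
      intro h0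
      have h3 := a.lower i ζ hζ5 w
      have h4 : pb q (a.p i) ζ w = 0 := by
        unfold pb
        rw [h0]
        have := q_smul a (a.p i ζ) 0 (0 : TangentSpace 𝓘(ℂ, E) (a.p i ζ))
        simpa using this
      rw [h4, mul_zero] at h3
      have h5 : 0 < ‖w‖ ^ 2 := by have := norm_pos_iff.2 hw; positivity
      linarith
    have := h _ h2
    linarith
  obtain ⟨U, hU, hUo, hζU⟩ := _root_.eventually_nhds_iff.1 (h1.and (isOpen_ball.mem_nhds hζ5))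
  have h2 : a.p i '' U ∈ 𝓝 (a.p i ζ) :=
    (a.p_open i U (fun z hz => (hU z hz).2) hUo).mem_nhds ⟨ζ, hζU, rfl⟩
  filter_upwards [h2] with y hy w
  obtain ⟨z, hz, rfl⟩ := hy
  obtain ⟨w', rfl⟩ := a.exists_vec i (hU z hz).2 w
  have h3 := (hU z hz).1 w'
  rw [hΦl z (hU z hz).2] at h3
  linarith

theorem ddc_nonpos {φ : X → ℝ} {x : X} (hφ : SmoothAt E φ x) (hmax : IsLocalMax φ x)
    (v : TangentSpace 𝓘(ℂ, E) x) : ddc E φ x v ≤ 0 := by
  have h0 : (chartAt E x).symm (chartAt E x x) = x := (chartAt E x).left_inv (mem_chart_source E x)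
  unfold ddc
  apply XAS_levi_max (ContDiffAt.of_le hφ (by norm_cast))
  have h4 : Tendsto (chartAt E x).symm (𝓝 (chartAt E x x)) (𝓝 x) := by
    have := (contMDiffAt_chart_symm (E := E) x).continuousAt.tendsto
    rwa [h0] at this
  have h5 := h4.eventually hmax
  filter_upwards [h5] with z hz
  simp only [Function.comp_apply]
  rw [h0]
  exact hz

theorem ddc_neg {φ : X → ℝ} {x : X} (hφ : SmoothAt E φ x) (v : TangentSpace 𝓘(ℂ, E) x) :
    ddc E (fun y => -φ y) x v = -ddc E φ x v := by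
  have h1 : ContDiffAt ℝ 2 (φ ∘ (chartAt E x).symm) (chartAt E x x) :=
    ContDiffAt.of_le hφ (by norm_cast)
  have := leviForm_const_mul h1 (-1) v
  unfold ddc
  have e : (fun y => -φ y) ∘ (chartAt E x).symm =
      fun z => (-1 : ℝ) * (φ ∘ (chartAt E x).symm) z := by
    funext z; simp
  rw [e, this]
  ring

theorem ddc_nonneg {φ : X → ℝ} {x : X} (hφ : SmoothAt E φ x) (hmin : IsLocalMin φ x)
    (v : TangentSpace 𝓘(ℂ, E) x) : 0 ≤ ddc E φ x v := by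
  have h1 : SmoothAt E (fun y => -φ y) x := by
    have : ContDiffAt ℝ ∞ (φ ∘ (chartAt E x).symm) (chartAt E x x) := hφ
    exact this.neg
  have h2 := ddc_nonpos h1 hmin.neg v
  rw [ddc_neg hφ] at h2
  linarith

theorem mfderiv_iter_add {f : X → X} (hf : IsLocalDiffeomorph 𝓘(ℂ, E) 𝓘(ℂ, E) ω f) (j m : ℕ)
    (x : X) (v : TangentSpace 𝓘(ℂ, E) x) :
    mfderiv 𝓘(ℂ, E) 𝓘(ℂ, E) (f^[j + m]) x v =
      mfderiv 𝓘(ℂ, E) 𝓘(ℂ, E) (f^[j]) (f^[m] x) (mfderiv 𝓘(ℂ, E) 𝓘(ℂ, E) (f^[m]) x v) := by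
  rw [Function.iterate_add, mfderiv_comp x (((iterate_etale hf j).contMDiff _).mdifferentiableAt
    (by simp)) (((iterate_etale hf m).contMDiff _).mdifferentiableAt (by simp))]
  rfl

/-- The iterates scale the metric by `δ^m`, up to bounded factors. -/
theorem comparable [T2Space X] [CompactSpace X] [PreconnectedSpace X] (a : UA q) {f : X → X}
    {δ : ℝ} {u : X → ℝ} (H : Et q f δ u) :
    ∃ A : ℝ, 0 < A ∧ ∀ (m : ℕ) (x : X) (v : TangentSpace 𝓘(ℂ, E) x),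
      δ ^ m * q x v ≤ A * q (f^[m] x) (mfderiv 𝓘(ℂ, E) 𝓘(ℂ, E) (f^[m]) x v) ∧
      q (f^[m] x) (mfderiv 𝓘(ℂ, E) 𝓘(ℂ, E) (f^[m]) x v) ≤ A * δ ^ m * q x v := by
  obtain ⟨C, hC1, hC⟩ := branch_pt a H
  refine ⟨2 * C ^ 2, by positivity, ?_⟩
  intro m x v
  have hδm : 0 < δ ^ m := pow_pos (by linarith [H.one_lt]) m
  have hus := Um_smooth (δ := δ) H.smooth H.et m
  have huc : Continuous (Um δ u f m) := smooth_continuous hus
  have hne : Nonempty X := ⟨x⟩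
  -- transport from a nearby point of the grand orbit
  have tr : ∀ V : Set X, ∀ y ∈ V, IsOpen V → ∃ y' ∈ V, ∃ v' : TangentSpace 𝓘(ℂ, E) y',
      q y' v' ≤ C * q x v ∧ q x v ≤ C * q y' v' ∧
      q (f^[m] x) (mfderiv 𝓘(ℂ, E) 𝓘(ℂ, E) (f^[m]) x v) ≤
        C * q (f^[m] y') (mfderiv 𝓘(ℂ, E) 𝓘(ℂ, E) (f^[m]) y' v') ∧
      q (f^[m] y') (mfderiv 𝓘(ℂ, E) 𝓘(ℂ, E) (f^[m]) y' v') ≤
        C * q (f^[m] x) (mfderiv 𝓘(ℂ, E) 𝓘(ℂ, E) (f^[m]) x v) := by
    intro V y hy hVo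
    obtain ⟨y', hy', k, hk⟩ := dense_orbit a H x y (hVo.mem_nhds hy)
    have hk2 : f^[k + m] y' = f^[k + m] x := by
      rw [add_comm]; exact GO.add hk m
    obtain ⟨v', hv'⟩ := etale_surj H.et (k + m) y'
      (mfderiv 𝓘(ℂ, E) 𝓘(ℂ, E) (f^[k + m]) x v : E)
    refine ⟨y', hy', v', ?_, ?_, ?_, ?_⟩
    · exact hC (k + m) (k + m) le_rfl y' x hk2 v' v hv'
    · exact hC (k + m) (k + m) le_rfl x y' hk2.symm v v' hv'.symm
    · refine hC k k le_rfl (f^[m] x) (f^[m] y') ?_ _ _ ?_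
      · rw [← Function.iterate_add_apply, ← Function.iterate_add_apply, hk2]
      · rw [← mfderiv_iter_add H.et, ← mfderiv_iter_add H.et]
        exact hv'.symm
    · refine hC k k le_rfl (f^[m] y') (f^[m] x) ?_ _ _ ?_
      · rw [← Function.iterate_add_apply, ← Function.iterate_add_apply, hk2]
      · rw [← mfderiv_iter_add H.et, ← mfderiv_iter_add H.et]
        exact hv'
  constructor
  · -- minimum point
    obtain ⟨x₂, -, hmin⟩ := isCompact_univ.exists_isMinOn univ_nonempty huc.continuousOn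
    have h1 : IsLocalMin (Um δ u f m) x₂ := Filter.Eventually.of_forall fun y => hmin (mem_univ y)
    have h2 := levi_semi a hus x₂ (-1) (δ ^ m / 2) (by
      intro w hw
      have h3 := ddc_nonneg (hus x₂) h1 w
      have h4 := q_pos a x₂ w hw
      have : 0 < δ ^ m / 2 * q x₂ w := by positivity
      linarith)
    obtain ⟨V, hV, hVo, hx₂⟩ := _root_.eventually_nhds_iff.1 h2
    obtain ⟨y', hy', v', b1, b2, b3, b4⟩ := tr V x₂ hx₂ hVo
    have h5 := hV y' hy' v'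
    have h6 := q_iter H.smooth H.et H.mul m y' v'
    have h7 : δ ^ m / 2 * q y' v' ≤
        q (f^[m] y') (mfderiv 𝓘(ℂ, E) 𝓘(ℂ, E) (f^[m]) y' v') := by
      rw [h6]; linarith
    calc δ ^ m * q x v ≤ δ ^ m * (C * q y' v') := by gcongr
      _ = 2 * C * (δ ^ m / 2 * q y' v') := by ring
      _ ≤ 2 * C * (C * q (f^[m] x) (mfderiv 𝓘(ℂ, E) 𝓘(ℂ, E) (f^[m]) x v)) :=
          mul_le_mul_of_nonneg_left (h7.trans b4) (by positivity)
      _ = _ := by ring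
  · -- maximum point
    obtain ⟨x₁, -, hmax⟩ := isCompact_univ.exists_isMaxOn univ_nonempty huc.continuousOn
    have h1 : IsLocalMax (Um δ u f m) x₁ := Filter.Eventually.of_forall fun y => hmax (mem_univ y)
    have h2 := levi_semi a hus x₁ 1 (δ ^ m) (by
      intro w hw
      have h3 := ddc_nonpos (hus x₁) h1 w
      have h4 := q_pos a x₁ w hw
      have : 0 < δ ^ m * q x₁ w := by positivity
      linarith)
    obtain ⟨V, hV, hVo, hx₁⟩ := _root_.eventually_nhds_iff.1 h2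
    obtain ⟨y', hy', v', b1, b2, b3, b4⟩ := tr V x₁ hx₁ hVo
    have h5 := hV y' hy' v'
    have h6 := q_iter H.smooth H.et H.mul m y' v'
    have h7 : q (f^[m] y') (mfderiv 𝓘(ℂ, E) 𝓘(ℂ, E) (f^[m]) y' v') ≤ 2 * δ ^ m * q y' v' := by
      rw [h6]; linarith
    calc q (f^[m] x) (mfderiv 𝓘(ℂ, E) 𝓘(ℂ, E) (f^[m]) x v)
        ≤ C * (2 * δ ^ m * q y' v') := b3.trans (by gcongr)
      _ ≤ C * (2 * δ ^ m * (C * q x v)) := by gcongr
      _ = _ := by ring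

end

end Pool.Agent.H775.KE
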