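import Mathlib

/-!
# Compact Kähler manifolds and étale self-maps: definitions

A complex manifold `X` is modelled on a finite-dimensional complex normed space `E`, with complex
analytic changes of charts (`IsManifold 𝓘(ℂ, E) ω X`). As everywhere in Mathlib the tangent space at
`x` is the model space `E`, through the preferred chart at `x`.
-/

set_option autoImplicit false

open scoped Manifold ContDiff Topology

namespace Pool.Agent.H775.KE

section

variable {E : Type} [NormedAddCommGroup E] [NormedSpace ℂ E]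

/-- The Levi form of `φ` at `z` in the direction `v`: `D²φ(z)(v, v) + D²φ(z)(iv, iv)`, that is
`4 ∑ (∂²φ / ∂z_j ∂z̄_k) v_j v̄_k`. -/
noncomputable def leviForm (φ : E → ℝ) (z v : E) : ℝ :=
  fderiv ℝ (fun w => fderiv ℝ φ w v) z v +
    fderiv ℝ (fun w => fderiv ℝ φ w (Complex.I • v)) z (Complex.I • v)

variable (E)
variable {X : Type} [TopologicalSpace X] [ChartedSpace E X]

/-- The real function `φ` on the complex manifold `X` is smooth at `x` (read in the preferred chart
at `x`). -/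
def SmoothAt (φ : X → ℝ) (x : X) : Prop :=
  ContDiffAt ℝ ∞ (φ ∘ (chartAt E x).symm) (chartAt E x x)

/-- The form `i ∂ ∂̄ φ` on the tangent vector `v` at `x` (the Levi form in the preferred chart). -/
noncomputable def ddc (φ : X → ℝ) (x : X) (v : TangentSpace 𝓘(ℂ, E) x) : ℝ :=
  leviForm (φ ∘ (chartAt E x).symm) (chartAt E x x) v

variable {E}

/-- `q`, which gives the squared lengths of the tangent vectors, is a Kähler metric: it is positive
and locally the Levi form `i ∂ ∂̄ φ` of a smooth function `φ` (a Kähler potential). -/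
def IsKahlerMetric (q : ∀ x : X, TangentSpace 𝓘(ℂ, E) x → ℝ) : Prop :=
  (∀ x v, v ≠ 0 → 0 < q x v) ∧
    ∀ x₀ : X, ∃ U : Set X, IsOpen U ∧ x₀ ∈ U ∧ ∃ φ : X → ℝ, ∀ x ∈ U,
      SmoothAt E φ x ∧ ∀ v, q x v = ddc E φ x v

/-- `f` multiplies the class of the Kähler metric `q` by `δ`: `f^* q - δ q = i ∂ ∂̄ u` for a smooth
function `u` on `X`. -/
def MultipliesClass (q : ∀ x : X, TangentSpace 𝓘(ℂ, E) x → ℝ) (f : X → X) (δ : ℝ) : Prop :=
  ∃ u : X → ℝ, (∀ x, SmoothAt E u x) ∧
    ∀ (x : X) (v : TangentSpace 𝓘(ℂ, E) x),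
      q (f x) (mfderiv 𝓘(ℂ, E) 𝓘(ℂ, E) f x v) = δ * q x v + ddc E u x v

end

/-- `S` is a union of finitely many linear families `{(a + b l, c + d l) : l = 0, 1, 2, …}`; here
`t = ((a, c), (b, d))`. -/
def FinLin (S : Set (ℕ × ℕ)) : Prop :=
  ∃ T : Finset ((ℕ × ℕ) × (ℕ × ℕ)),
    S = {p | ∃ t ∈ T, ∃ l : ℕ, p = (t.1.1 + t.2.1 * l, t.1.2 + t.2.2 * l)}

end Pool.Agent.H775.KE
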