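import Pool.Agent.H775.KE.Chain

/-!
# Density of the grand orbits
-/

set_option autoImplicit false
set_option linter.unusedSectionVars false

open scoped Manifold ContDiff Topology
open Set Filter Metric

namespace Pool.Agent.H775.KE

variable {E : Type} [NormedAddCommGroup E] [NormedSpace ℂ E]
variable {X : Type} [TopologicalSpace X] [ChartedSpace E X]
variable {q : ∀ x : X, TangentSpace 𝓘(ℂ, E) x → ℝ}

section

variable [IsManifold 𝓘(ℂ, E) ω X]

theorem UA.smoothAt_of (a : UA q) {φ : X → ℝ} (i : Fin a.n) {z : E} (hz : z ∈ ball (0 : E) 5)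
    (h : ContDiffAt ℝ ∞ (φ ∘ a.p i) z) : SmoothAt E φ (a.p i z) := by
  set x := a.p i z with hx
  have h0 : (chartAt E x).symm (chartAt E x x) = x := (chartAt E x).left_inv (mem_chart_source E x)
  have hi : (chartAt E x).symm (chartAt E x x) ∈ a.p i '' ball 0 5 := by
    rw [h0]; exact ⟨z, hz, rfl⟩
  obtain ⟨-, -, k3, k4, -⟩ := a.local_form (contMDiffAt_chart_symm x) hi
  have k5 : (a.κ i ∘ (chartAt E x).symm) (chartAt E x x) = z := by
    simp only [Function.comp_apply]
    rw [h0, hx, a.κ_p i z hz]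
  have e : φ ∘ (chartAt E x).symm =ᶠ[𝓝 (chartAt E x x)]
      (φ ∘ a.p i) ∘ (a.κ i ∘ (chartAt E x).symm) := by
    filter_upwards [k4] with w hw
    simp only [Function.comp_apply] at hw ⊢
    rw [← hw]
  have : ContDiffAt ℝ ∞ ((φ ∘ a.p i) ∘ (a.κ i ∘ (chartAt E x).symm)) (chartAt E x x) :=
    ContDiffAt.comp _ (by rw [k5]; exact h) ((k3.restrict_scalars ℝ).of_le (by simp))
  exact this.congr_of_eventuallyEq e

theorem exists_bump [FiniteDimensional ℂ E] [T2Space X] [CompactSpace X] (a : UA q) (x : X)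
    {V : Set X} (hV : V ∈ 𝓝 x) :
    ∃ χ : X → ℝ, (∀ x, SmoothAt E χ x) ∧ (∀ y (v : TangentSpace 𝓘(ℂ, E) y), -q y v ≤ ddc E χ y v) ∧
      0 < χ x ∧ ∀ y, y ∉ V → χ y = 0 := by
  classical
  have hproper : ProperSpace E := FiniteDimensional.proper ℂ E
  obtain ⟨i, ζ, hζ, rfl⟩ := a.cover x
  have hζ5 : ζ ∈ ball (0 : E) 5 := ball_subset_ball (by norm_num) hζ
  have hc : ContinuousAt (a.p i) ζ := (a.smoothAt_p i hζ5).continuousAt
  obtain ⟨r, hr, hrV⟩ := Metric.mem_nhds_iff.1 (hc hV)
  set R : ℝ := min (r / 2) 1 with hR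
  have hR0 : 0 < R := lt_min (by positivity) one_pos
  let b : ContDiffBump ζ := ⟨R / 2, R, by positivity, by linarith⟩
  have hb : ContDiff ℝ ∞ (fun y : E => b y) := b.contDiff
  have hb0 : ∀ y, R ≤ dist y ζ → b y = 0 := fun y hy => b.zero_of_le_dist hy
  obtain ⟨M, hM0, hM⟩ := XAS_levi_lower (fun y : E => b y) (hb.of_le (by norm_cast))
  have hC := a.one_le_C
  set ε : ℝ := (M * a.C + 1)⁻¹ with hε
  have hε0 : 0 < ε := by positivity
  have hε1 : ε * (M * a.C) ≤ 1 := by
    rw [hε, inv_mul_le_iff₀ (by positivity)]; linarith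
  set χ : X → ℝ := fun x => if x ∈ a.p i '' ball 0 5 then ε * b (a.κ i x) else 0 with hχ
  have hU : IsOpen (a.p i '' ball 0 5) := a.p_open i _ (Subset.refl _) isOpen_ball
  have hK : IsClosed (a.p i '' closedBall 0 2) := by
    apply IsCompact.isClosed
    apply (isCompact_closedBall (0 : E) 2).image_of_continuousOn
    exact (a.p_smooth i).continuousOn.mono (closedBall_subset_ball (by norm_num))
  have h2 : ∀ y : E, y ∉ closedBall (0 : E) 2 → b y = 0 := by
    intro y hy
    apply hb0
    rw [mem_closedBall_zero_iff, not_le] at hy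
    rw [mem_ball_zero_iff] at hζ
    have : ‖y‖ - ‖ζ‖ ≤ ‖y - ζ‖ := norm_sub_norm_le _ _
    rw [dist_eq_norm]
    have := min_le_right (r / 2) 1
    linarith
  have hχp : ∀ z ∈ ball (0 : E) 5, χ (a.p i z) = ε * b z := by
    intro z hz
    rw [hχ]
    simp only []
    rw [if_pos ⟨z, hz, rfl⟩, a.κ_p i z hz]
  have hχ0 : ∀ x, x ∉ a.p i '' closedBall 0 2 → χ x = 0 := by
    intro x hx
    by_cases hxU : x ∈ a.p i '' ball 0 5
    · obtain ⟨z, hz, rfl⟩ := hxU
      rw [hχp z hz, h2 z (fun h => hx ⟨z, h, rfl⟩), mul_zero]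
    · rw [hχ]
      simp only []
      rw [if_neg hxU]
  have hχe : ∀ z ∈ ball (0 : E) 5, χ ∘ a.p i =ᶠ[𝓝 z] fun z => ε * b z := by
    intro z hz
    filter_upwards [isOpen_ball.mem_nhds hz] with w hw using hχp w hw
  have hor : ∀ x, x ∈ a.p i '' ball 0 5 ∨ x ∉ a.p i '' closedBall 0 2 := by
    intro x
    by_cases hx : x ∈ a.p i '' closedBall 0 2
    · exact Or.inl (image_mono (closedBall_subset_ball (by norm_num)) hx)
    · exact Or.inr hx
  refine ⟨χ, ?_, ?_, ?_, ?_⟩
  · intro x
    rcases hor x with hx | hx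
    · obtain ⟨z, hz, rfl⟩ := hx
      refine a.smoothAt_of i hz ?_
      exact (contDiffAt_const.mul hb.contDiffAt).congr_of_eventuallyEq (hχe z hz)
    · have h1 : χ =ᶠ[𝓝 x] fun _ => 0 := by
        filter_upwards [hK.isOpen_compl.mem_nhds hx] with y hy
        exact hχ0 y hy
      have h3 : χ ∘ (chartAt E x).symm =ᶠ[𝓝 (chartAt E x x)] fun _ => 0 := by
        have h0 : (chartAt E x).symm (chartAt E x x) = x :=
          (chartAt E x).left_inv (mem_chart_source E x)
        have h4 : Tendsto (chartAt E x).symm (𝓝 (chartAt E x x)) (𝓝 x) := by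
          have := (contMDiffAt_chart_symm (E := E) x).continuousAt.tendsto
          rwa [h0] at this
        exact h4.eventually h1
      exact contDiffAt_const.congr_of_eventuallyEq h3
  · intro y v
    rcases hor y with hy | hy
    · obtain ⟨z, hz, rfl⟩ := hy
      obtain ⟨w, rfl⟩ := a.exists_vec i hz v
      have hsm : SmoothAt E χ (a.p i z) := a.smoothAt_of i hz
        ((contDiffAt_const.mul hb.contDiffAt).congr_of_eventuallyEq (hχe z hz))
      rw [← (comp_X (a.smoothAt_p i hz) hsm).2 w, leviForm_congr (hχe z hz),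
        leviForm_const_mul (hb.contDiffAt.of_le (by norm_cast))]
      have h5 : q (a.p i z) (mfderiv 𝓘(ℂ, E) 𝓘(ℂ, E) (a.p i) z w) = pb q (a.p i) z w := rfl
      rw [h5]
      have h6 := a.lower i z hz w
      have h7 := pb_nonneg a (a.smoothAt_p i hz) w
      have h8 : -(M * ‖w‖ ^ 2) ≤ leviForm (fun y : E => b y) z w := by
        by_cases hz3 : z ∈ closedBall (0 : E) 3
        · exact hM z hz3 w
        · have : (fun y : E => b y) =ᶠ[𝓝 z] fun _ => 0 := by
            have hz2 : z ∈ (closedBall (0 : E) 2)ᶜ := fun h =>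
              hz3 (closedBall_subset_closedBall (by norm_num) h)
            filter_upwards [isClosed_closedBall.isOpen_compl.mem_nhds hz2] with y hy
            exact h2 y hy
          rw [leviForm_congr this]
          have h9 : leviForm (fun _ : E => (0 : ℝ)) z w = 0 := by simp [leviForm]
          rw [h9]
          have : 0 ≤ M * ‖w‖ ^ 2 := by positivity
          linarith
      have h10 : ε * (M * ‖w‖ ^ 2) ≤ pb q (a.p i) z w := by
        calc ε * (M * ‖w‖ ^ 2) ≤ ε * (M * (a.C * pb q (a.p i) z w)) := by gcongr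
          _ = (ε * (M * a.C)) * pb q (a.p i) z w := by ring
          _ ≤ 1 * pb q (a.p i) z w := by gcongr
          _ = _ := one_mul _
      have h11 := mul_le_mul_of_nonneg_left h8 hε0.le
      linarith
    · have h1 : χ =ᶠ[𝓝 y] fun _ => 0 := by
        filter_upwards [hK.isOpen_compl.mem_nhds hy] with y hy
        exact hχ0 y hy
      have h3 : χ ∘ (chartAt E y).symm =ᶠ[𝓝 (chartAt E y y)] fun _ => 0 := by
        have h0 : (chartAt E y).symm (chartAt E y y) = y :=
          (chartAt E y).left_inv (mem_chart_source E y)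
        have h4 : Tendsto (chartAt E y).symm (𝓝 (chartAt E y y)) (𝓝 y) := by
          have := (contMDiffAt_chart_symm (E := E) y).continuousAt.tendsto
          rwa [h0] at this
        exact h4.eventually h1
      have h5 : ddc E χ y v = 0 := by
        unfold ddc
        rw [leviForm_congr h3]
        simp [leviForm]
      rw [h5]
      have := q_nonneg a y v
      linarith
  · rw [hχp ζ hζ5]
    have : b ζ = 1 := b.one_of_mem_closedBall (mem_closedBall_self (by positivity))
    rw [this]
    linarith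
  · intro y hy
    by_cases hyU : y ∈ a.p i '' ball 0 5
    · obtain ⟨z, hz, rfl⟩ := hyU
      rw [hχp z hz]
      have : b z = 0 := by
        apply hb0
        by_contra hcon
        push Not at hcon
        apply hy
        apply hrV
        rw [mem_ball]
        have := min_le_left (r / 2) 1
        linarith
      rw [this, mul_zero]
    · rw [hχ]
      simp only []
      rw [if_neg hyU]

end

end Pool.Agent.H775.KE
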