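import Pool.Agent.H775.KE.Den

/-!
# Density of the grand orbits
-/

set_option autoImplicit false
set_option linter.unusedSectionVars false

open scoped Manifold ContDiff Topology
open Set Filter Metric

namespace Pool.Agent.H775.KE

variable {E : Type} [NormedAddCommGroup E] [NormedSpace ℂ E]
variable {X : Type} [TopologicalSpace X] [ChartedSpace E X]
variable {q : ∀ x : X, TangentSpace 𝓘(ℂ, E) x → ℝ}

/-- chart balls are linked, so a transitive relation which passes between meeting balls is total -/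
theorem UA.linked [PreconnectedSpace X] (a : UA q) (R : Fin a.n → Prop)
    (hR : ∀ i j, R i → (a.p i '' ball 0 1 ∩ a.p j '' ball 0 1).Nonempty → R j) (i₀ : Fin a.n)
    (h0 : R i₀) (j : Fin a.n) : R j := by
  have hU : ∀ i, IsOpen (a.p i '' ball 0 1) := fun i =>
    a.p_open i _ (ball_subset_ball (by norm_num)) isOpen_ball
  set W : Set X := ⋃ i ∈ {i | R i}, a.p i '' ball 0 1 with hW
  have hWo : IsOpen W := isOpen_biUnion fun i _ => hU i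
  have hWc : IsClosed W := by
    rw [← isOpen_compl_iff]
    have : Wᶜ = ⋃ i ∈ {i | ¬ R i}, a.p i '' ball 0 1 := by
      ext x
      constructor
      · intro hx
        obtain ⟨i, z, hz, e⟩ := a.cover x
        refine mem_biUnion (x := i) ?_ ⟨z, hz, e⟩
        intro hRi
        exact hx (mem_biUnion (x := i) hRi ⟨z, hz, e⟩)
      · intro hx hx2
        obtain ⟨i, hi, hxi⟩ := mem_iUnion₂.1 hx
        obtain ⟨k, hk, hxk⟩ := mem_iUnion₂.1 hx2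
        exact hi (hR k i hk ⟨x, hxk, hxi⟩)
    rw [this]
    exact isOpen_biUnion fun i _ => hU i
  have hne : W.Nonempty := ⟨a.p i₀ 0, mem_biUnion (x := i₀) h0 ⟨0, by simp, rfl⟩⟩
  have hall : W = univ := IsClopen.eq_univ ⟨hWc, hWo⟩ hne
  have : a.p j 0 ∈ W := by rw [hall]; trivial
  obtain ⟨k, hk, hxk⟩ := mem_iUnion₂.1 this
  exact hR k j hk ⟨a.p j 0, hxk, ⟨0, by simp, rfl⟩⟩

section

variable [FiniteDimensional ℂ E] [IsManifold 𝓘(ℂ, E) ω X] [T2Space X] [CompactSpace X]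

/-- `y` is in the grand orbit of `x` -/
def GO (f : X → X) (x y : X) : Prop := ∃ k, f^[k] y = f^[k] x

theorem GO.refl (f : X → X) (x : X) : GO f x x := ⟨0, rfl⟩

theorem GO.symm {f : X → X} {x y : X} (h : GO f x y) : GO f y x := by
  obtain ⟨k, hk⟩ := h; exact ⟨k, hk.symm⟩

theorem GO.add {f : X → X} {x y : X} {k : ℕ} (h : f^[k] y = f^[k] x) (l : ℕ) :
    f^[l + k] y = f^[l + k] x := by
  rw [Function.iterate_add_apply, Function.iterate_add_apply, h]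

theorem GO.trans {f : X → X} {x y z : X} (h : GO f x y) (h' : GO f y z) : GO f x z := by
  obtain ⟨k, hk⟩ := h
  obtain ⟨l, hl⟩ := h'
  refine ⟨l + k, ?_⟩
  rw [← GO.add hk l, add_comm l k]
  exact GO.add hl k

/-- The supremum of `χ - v` over every grand orbit is the maximum. -/
theorem sup_orbit [PreconnectedSpace X] (a : UA q) {f : X → X} {δ : ℝ} {u : X → ℝ} (H : Et q f δ u)
    {χ : X → ℝ} (hχ : ∀ x, SmoothAt E χ x)
    (hχ2 : ∀ x (v : TangentSpace 𝓘(ℂ, E) x), -q x v ≤ ddc E χ x v) (x x₁ : X) (η : ℝ)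
    (hη : 0 < η) :
    ∃ y, GO f x y ∧ χ x₁ - Vf δ u f x₁ - η < χ y - Vf δ u f y := by
  obtain ⟨B, hB0, hB⟩ := exists_bound (smooth_continuous H.smooth)
  have hVc : Continuous (Vf δ u f) :=
    Vf_continuous H.one_lt hB (smooth_continuous H.smooth) H.et.contMDiff.continuous
  have hψc : Continuous fun x => χ x - Vf δ u f x := (smooth_continuous hχ).sub hVc
  have : Nonempty X := ⟨x⟩
  obtain ⟨x₂, -, hmax⟩ := isCompact_univ.exists_isMaxOn univ_nonempty hψc.continuousOn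
  set A : ℝ := χ x₂ - Vf δ u f x₂ with hAdef
  have hA : ∀ x, χ x - Vf δ u f x ≤ A := fun x => hmax (mem_univ x)
  set P : ℕ → ℝ → X → Prop := fun k A' x => ∃ l y, f^[l + k] y = f^[l] x ∧
    A' ≤ χ y - Vf δ u f y with hP
  have step : ∀ η > 0, ∃ η' > 0, ∃ K : ℕ, ∀ k ≥ K, ∀ i : Fin a.n, ∀ ζ ∈ ball (0 : E) 1,
      ∀ ζ' ∈ ball (0 : E) 1, P k (A - η') (a.p i ζ) → P k (A - η) (a.p i ζ') := by
    intro η hη
    obtain ⟨η', h1, K, h2⟩ := chain_step a H hχ hχ2 A hA η hη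
    refine ⟨η', h1, K, fun k hk i ζ hζ ζ' hζ' hP => ?_⟩
    obtain ⟨l, y, hy, hy2⟩ := hP
    obtain ⟨y', hy', hy2'⟩ := h2 k hk i ζ hζ ζ' hζ' l y hy hy2
    exact ⟨l, y', hy', hy2'⟩
  -- chains
  have chain : ∀ i j : Fin a.n, ∀ η > 0, ∃ η' > 0, ∃ K : ℕ, ∀ k ≥ K, ∀ ζ ∈ ball (0 : E) 1,
      ∀ ζ' ∈ ball (0 : E) 1, P k (A - η') (a.p i ζ) → P k (A - η) (a.p j ζ') := by
    intro i
    refine a.linked _ ?_ i ?_
    · intro j₁ j₂ h1 hmeet η hη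
      obtain ⟨x, ⟨z₁, hz₁, e₁⟩, ⟨z₂, hz₂, e₂⟩⟩ := hmeet
      obtain ⟨η₁, hη₁, K₁, hK₁⟩ := step η hη
      obtain ⟨η₂, hη₂, K₂, hK₂⟩ := h1 η₁ hη₁
      refine ⟨η₂, hη₂, max K₁ K₂, fun k hk ζ hζ ζ' hζ' hP => ?_⟩
      have h3 := hK₂ k (le_trans (le_max_right _ _) hk) ζ hζ z₁ hz₁ hP
      rw [e₁, ← e₂] at h3
      exact hK₁ k (le_trans (le_max_left _ _) hk) j₂ z₂ hz₂ ζ' hζ' h3
    · intro η hη
      obtain ⟨η₁, hη₁, K₁, hK₁⟩ := step η hη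
      exact ⟨η₁, hη₁, K₁, fun k hk ζ hζ ζ' hζ' hP => hK₁ k hk i ζ hζ ζ' hζ' hP⟩
  have uni : ∀ᶠ k in atTop, ∀ i j : Fin a.n, ∀ ζ ∈ ball (0 : E) 1,
      ∀ ζ' ∈ ball (0 : E) 1, P k A (a.p i ζ) → P k (A - η / 2) (a.p j ζ') := by
    rw [eventually_all]
    intro i
    rw [eventually_all]
    intro j
    obtain ⟨η₁, hη₁, K₁, hK₁⟩ := chain i j (η / 2) (by positivity)
    filter_upwards [eventually_ge_atTop K₁] with k hk ζ hζ ζ' hζ' hP
    refine hK₁ k hk ζ hζ ζ' hζ' ?_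
    obtain ⟨l, y, h1, h2⟩ := hP
    exact ⟨l, y, h1, by linarith⟩
  obtain ⟨k, hk⟩ := uni.exists
  obtain ⟨i, ζ, hζ, e₁⟩ := a.cover (f^[k] x₂)
  obtain ⟨j, ζ', hζ', e₂⟩ := a.cover (f^[k] x)
  have h1 : P k A (a.p i ζ) := ⟨0, x₂, by simp [e₁], le_rfl⟩
  obtain ⟨l, y, h2, h3⟩ := hk i j ζ hζ ζ' hζ' h1
  rw [e₂, ← Function.iterate_add_apply] at h2
  refine ⟨y, ⟨l + k, h2⟩, ?_⟩
  have := hA x₁
  linarith

/-- transport along branches -/
theorem transport (a : UA q) {f : X → X} {δ : ℝ} {u : X → ℝ} (H : Et q f δ u)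
    (e : X → (Fin a.n → E × ℝ)) (L : ℝ)
    (hbr : ∀ (i : Fin a.n) (l m : ℕ), l ≤ m → ∀ z₀ ∈ ball (0 : E) 5, ∀ y : X,
      f^[m] y = f^[l] (a.p i z₀) → ∃ s : E → X, ContMDiffOn 𝓘(ℂ, E) 𝓘(ℂ, E) ω s (ball 0 5) ∧
      s z₀ = y ∧ (∀ z ∈ ball (0 : E) 5, f^[m] (s z) = f^[l] (a.p i z)) ∧
      ∀ z ∈ ball (0 : E) 4, ∀ z' ∈ ball (0 : E) 4, ‖e (s z) - e (s z')‖ ≤ L * ‖z - z'‖)
    (i : Fin a.n) {z₁ z₂ : E} (h1 : z₁ ∈ ball (0 : E) 4) (h2 : z₂ ∈ ball (0 : E) 4) {x : X}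
    (hx : GO f (a.p i z₁) x) : ∃ x', GO f (a.p i z₂) x' ∧ ‖e x - e x'‖ ≤ L * ‖z₁ - z₂‖ := by
  obtain ⟨k, hk⟩ := hx
  obtain ⟨s, s1, s2, s3, s4⟩ := hbr i k k le_rfl z₁ (ball_subset_ball (by norm_num) h1) x hk
  refine ⟨s z₂, ⟨k, s3 z₂ (ball_subset_ball (by norm_num) h2)⟩, ?_⟩
  rw [← s2]
  exact s4 z₁ h1 z₂ h2

/-- Grand orbits are dense. -/
theorem dense_orbit [PreconnectedSpace X] (a : UA q) {f : X → X} {δ : ℝ} {u : X → ℝ}
    (H : Et q f δ u) (x y : X) {V : Set X} (hV : V ∈ 𝓝 y) : ∃ y' ∈ V, GO f x y' := by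
  obtain ⟨e, L, e1, e2, hL, hbr⟩ := exists_setup a H
  obtain ⟨B, hB0, hB⟩ := exists_bound (smooth_continuous H.smooth)
  have hVc : Continuous (Vf δ u f) :=
    Vf_continuous H.one_lt hB (smooth_continuous H.smooth) H.et.contMDiff.continuous
  have : Nonempty X := ⟨x⟩
  obtain ⟨m, -, hmin⟩ := isCompact_univ.exists_isMinOn univ_nonempty hVc.continuousOn
  have hm : ∀ x, Vf δ u f m ≤ Vf δ u f x := fun x => hmin (mem_univ x)
  -- (1) `m` is in the closure of every grand orbit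
  have s1 : ∀ x, ∀ V ∈ 𝓝 m, ∃ y' ∈ V, GO f x y' := by
    intro x V hV
    obtain ⟨χ, c1, c2, c3, c4⟩ := exists_bump a m hV
    obtain ⟨y', hy', hlt⟩ := sup_orbit a H c1 c2 x m (χ m) c3
    refine ⟨y', ?_, hy'⟩
    by_contra hcon
    have := c4 y' hcon
    have := hm y'
    linarith
  obtain ⟨i, ζ, hζ, rfl⟩ := a.cover m
  have hζ5 : ζ ∈ ball (0 : E) 5 := ball_subset_ball (by norm_num) hζ
  have hζ4 : ζ ∈ ball (0 : E) 4 := ball_subset_ball (by norm_num) hζ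
  -- points of the orbit of `x` near `m`, in the chart
  have s2 : ∀ x, ∀ r > 0, ∃ ζ' ∈ ball (0 : E) 4, ‖ζ' - ζ‖ < r ∧ GO f x (a.p i ζ') := by
    intro x r hr
    have h1 : a.p i '' (ball ζ r ∩ ball 0 4) ∈ 𝓝 (a.p i ζ) := by
      apply (a.p_open i _ _ (isOpen_ball.inter isOpen_ball)).mem_nhds
      · exact ⟨ζ, ⟨mem_ball_self hr, hζ4⟩, rfl⟩
      · exact inter_subset_right.trans (ball_subset_ball (by norm_num))
    obtain ⟨y', ⟨ζ', ⟨h2, h3⟩, rfl⟩, h4⟩ := s1 x _ h1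
    refine ⟨ζ', h3, ?_, h4⟩
    rwa [mem_ball, dist_eq_norm] at h2
  -- (2) every point is in the closure of the grand orbit of `m`
  have s3 : ∀ x, ∀ r > 0, ∃ x', GO f (a.p i ζ) x' ∧ ‖e x - e x'‖ < r := by
    intro x r hr
    obtain ⟨ζ', h1, h2, h3⟩ := s2 x (r / L) (by positivity)
    obtain ⟨x', h4, h5⟩ := transport a H e L hbr i h1 hζ4 h3.symm
    refine ⟨x', h4, h5.trans_lt ?_⟩
    calc L * ‖ζ' - ζ‖ < L * (r / L) := by gcongr
      _ = r := by field_simp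
  -- (3)
  obtain ⟨r, hr, hrV⟩ := modulus_nhds e1 e2 hV
  obtain ⟨y₁, h1, h2⟩ := s3 y (r / 2) (by positivity)
  obtain ⟨ζ', h3, h4, h5⟩ := s2 x (r / 2 / L) (by positivity)
  obtain ⟨x', h6, h7⟩ := transport a H e L hbr i hζ4 h3 h1
  refine ⟨x', hrV x' ?_, h5.trans h6⟩
  have h8 : ‖e y₁ - e x'‖ < r / 2 := by
    refine h7.trans_lt ?_
    rw [norm_sub_rev]
    calc L * ‖ζ' - ζ‖ < L * (r / 2 / L) := by gcongr
      _ = r / 2 := by field_simp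
  rw [norm_sub_rev]
  calc ‖e y - e x'‖ ≤ ‖e y - e y₁‖ + ‖e y₁ - e x'‖ := norm_sub_le_norm_sub_add_norm_sub _ _ _
    _ < r := by linarith

end

end Pool.Agent.H775.KE
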