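import Pool.Agent.H775.KE.XEMB

/-!
# Iterates of an étale self-map which multiplies the class of the metric
-/

set_option autoImplicit false
set_option linter.unusedSectionVars false

open scoped Manifold ContDiff Topology
open Set Filter Metric

namespace Pool.Agent.H775.KE

variable {E : Type} [NormedAddCommGroup E] [NormedSpace ℂ E]
variable {F : Type} [NormedAddCommGroup F] [NormedSpace ℂ F]
variable {X : Type} [TopologicalSpace X] [ChartedSpace E X]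
variable {q : ∀ x : X, TangentSpace 𝓘(ℂ, E) x → ℝ}

theorem pb_smul (a : UA q) {h : F → X} {z : F} (hh : ContMDiffAt 𝓘(ℂ, F) 𝓘(ℂ, E) ω h z) (c : ℂ)
    (v : F) : pb q h z (c • v) = ‖c‖ ^ 2 * pb q h z v := by
  obtain ⟨i, ζ, hζ, e⟩ := a.cover (h z)
  have hi : h z ∈ a.p i '' ball 0 5 := ⟨ζ, ball_subset_ball (by norm_num) hζ, e⟩
  obtain ⟨h1, h2, h3, h4, h5⟩ := a.local_form hh hi
  have hC : ContDiffAt ℝ 2 (a.ρ i) (a.κ i (h z)) :=
    ((a.ρ_smooth i).contDiffAt (isOpen_ball.mem_nhds h1)).of_le (by norm_cast)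
  rw [h5, h5, ← a.ρ_levi i _ h1, ← a.ρ_levi i _ h1, map_smul, leviForm_smul hC]

theorem pb_nonneg (a : UA q) {h : F → X} {z : F} (hh : ContMDiffAt 𝓘(ℂ, F) 𝓘(ℂ, E) ω h z)
    (v : F) : 0 ≤ pb q h z v := by
  obtain ⟨i, ζ, hζ, e⟩ := a.cover (h z)
  have hi : h z ∈ a.p i '' ball 0 5 := ⟨ζ, ball_subset_ball (by norm_num) hζ, e⟩
  obtain ⟨h1, h2, h3, h4, h5⟩ := a.local_form hh hi
  have h6 := a.lower i _ h1 (fderiv ℂ (a.κ i ∘ h) z v)
  rw [h5]
  have hC := a.one_le_C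
  by_contra hcon
  push Not at hcon
  have : a.C * pb q (a.p i) (a.κ i (h z)) (fderiv ℂ (a.κ i ∘ h) z v) < 0 :=
    mul_neg_of_pos_of_neg (by linarith) hcon
  nlinarith [sq_nonneg ‖fderiv ℂ (a.κ i ∘ h) z v‖]

section

variable [IsManifold 𝓘(ℂ, E) ω X]

theorem q_pb (x : X) (v : TangentSpace 𝓘(ℂ, E) x) :
    q x v = pb q (chartAt E x).symm (chartAt E x x) v := by
  have h0 : (chartAt E x).symm (chartAt E x x) = x := (chartAt E x).left_inv (mem_chart_source E x)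
  have h1 := (comp_chart_symm (E := E) (x := x) (contMDiffAt_id (I := 𝓘(ℂ, E)))).2
  have h2 : (id : X → X) ∘ (chartAt E x).symm = (chartAt E x).symm := rfl
  rw [h2, mfderiv_id] at h1
  unfold pb
  rw [h1, h0]
  rfl

theorem q_nonneg (a : UA q) (x : X) (v : TangentSpace 𝓘(ℂ, E) x) : 0 ≤ q x v := by
  rw [q_pb (q := q) x v]
  exact pb_nonneg a (contMDiffAt_chart_symm x) _

theorem q_smul (a : UA q) (x : X) (c : ℂ) (v : TangentSpace 𝓘(ℂ, E) x) :
    q x (c • v) = ‖c‖ ^ 2 * q x v := by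
  rw [q_pb (q := q) x v, q_pb (q := q) x (c • v)]
  exact pb_smul a (contMDiffAt_chart_symm x) c v

end

/-- `u_m = ∑_{j < m} δ^(m-1-j) u ∘ f^j` -/
noncomputable def Um (δ : ℝ) (u : X → ℝ) (f : X → X) : ℕ → X → ℝ
  | 0 => fun _ => 0
  | m + 1 => fun x => δ * Um δ u f m x + u (f^[m] x)

theorem Um_bound {δ : ℝ} (hδ : 1 < δ) {u : X → ℝ} {B : ℝ} (hB : ∀ x, |u x| ≤ B) (f : X → X)
    (m : ℕ) (x : X) : |Um δ u f m x| ≤ δ ^ m * (B / (δ - 1)) := by
  have hd : 0 < δ - 1 := by linarith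
  have h0 : 0 ≤ B := (abs_nonneg _).trans (hB x)
  have key : |Um δ u f m x| ≤ (δ ^ m - 1) * (B / (δ - 1)) := by
    induction m with
    | zero => simp [Um]
    | succ m ih =>
      have h1 : |Um δ u f (m + 1) x| ≤ δ * |Um δ u f m x| + B := by
        have := abs_add_le (δ * Um δ u f m x) (u (f^[m] x))
        rw [abs_mul, abs_of_pos (by linarith : (0 : ℝ) < δ)] at this
        exact this.trans (by linarith [hB (f^[m] x)])
      have h2 : B = (δ - 1) * (B / (δ - 1)) := by field_simp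
      calc _ ≤ δ * |Um δ u f m x| + B := h1
        _ ≤ δ * ((δ ^ m - 1) * (B / (δ - 1))) + (δ - 1) * (B / (δ - 1)) := by
            rw [← h2]; gcongr
        _ = _ := by ring
  refine key.trans ?_
  have : 0 ≤ B / (δ - 1) := by positivity
  nlinarith

theorem smoothAt_const_mul_add {φ ψ : X → ℝ} {x : X} (c : ℝ) (hφ : SmoothAt E φ x)
    (hψ : SmoothAt E ψ x) : SmoothAt E (fun y => c * φ y + ψ y) x :=
  (contDiffAt_const.mul hφ).add hψ

theorem smoothAt_iff {φ : X → ℝ} {x : X} :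
    SmoothAt E φ x ↔ ContDiffAt ℝ ∞ (φ ∘ (chartAt E x).symm) (chartAt E x x) := Iff.rfl

theorem ddc_const_mul_add {φ ψ : X → ℝ} {x : X} (c : ℝ) (hφ : SmoothAt E φ x)
    (hψ : SmoothAt E ψ x) (v : TangentSpace 𝓘(ℂ, E) x) :
    ddc E (fun y => c * φ y + ψ y) x v = c * ddc E φ x v + ddc E ψ x v := by
  have h1 : ContDiffAt ℝ 2 (φ ∘ (chartAt E x).symm) (chartAt E x x) :=
    ContDiffAt.of_le hφ (by norm_cast)
  have h2 : ContDiffAt ℝ 2 (ψ ∘ (chartAt E x).symm) (chartAt E x x) :=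
    ContDiffAt.of_le hψ (by norm_cast)
  unfold ddc
  rw [← leviForm_const_mul h1, ← leviForm_add (contDiffAt_const.mul h1) h2]
  rfl

section

variable [IsManifold 𝓘(ℂ, E) ω X]

theorem iterate_etale {f : X → X} (hf : IsLocalDiffeomorph 𝓘(ℂ, E) 𝓘(ℂ, E) ω f) (m : ℕ) :
    IsLocalDiffeomorph 𝓘(ℂ, E) 𝓘(ℂ, E) ω (f^[m]) := by
  induction m with
  | zero =>
    intro x
    exact (Diffeomorph.refl 𝓘(ℂ, E) X ω).isLocalDiffeomorph x
  | succ m ih =>
    intro x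
    rw [Function.iterate_succ]
    exact (hf x).comp _ _ (ih (f x))

theorem Um_smooth {δ : ℝ} {u : X → ℝ} (hu : ∀ x, SmoothAt E u x) {f : X → X}
    (hf : IsLocalDiffeomorph 𝓘(ℂ, E) 𝓘(ℂ, E) ω f) (m : ℕ) (x : X) :
    SmoothAt E (Um δ u f m) x := by
  induction m with
  | zero => exact contDiffAt_const
  | succ m ih =>
    exact smoothAt_const_mul_add δ ih (smoothAt_comp (φ := u) (f := f^[m])
      ((iterate_etale hf m).contMDiff x) (hu _))

theorem q_iter {δ : ℝ} {u : X → ℝ} (hu : ∀ x, SmoothAt E u x) {f : X → X}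
    (hf : IsLocalDiffeomorph 𝓘(ℂ, E) 𝓘(ℂ, E) ω f)
    (hq : ∀ (x : X) (v : TangentSpace 𝓘(ℂ, E) x),
      q (f x) (mfderiv 𝓘(ℂ, E) 𝓘(ℂ, E) f x v) = δ * q x v + ddc E u x v)
    (m : ℕ) (x : X) (v : TangentSpace 𝓘(ℂ, E) x) :
    q (f^[m] x) (mfderiv 𝓘(ℂ, E) 𝓘(ℂ, E) (f^[m]) x v) = δ ^ m * q x v + ddc E (Um δ u f m) x v := by
  induction m with
  | zero =>
    have h0 : ddc E (Um δ u f 0) x v = 0 := by
      simp [ddc, leviForm, Um, Function.comp_def]
    rw [h0]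
    simp only [Function.iterate_zero, mfderiv_id, pow_zero, one_mul, add_zero]
    rfl
  | succ m ih =>
    have h1 : ddc E (Um δ u f (m + 1)) x v = δ * ddc E (Um δ u f m) x v + ddc E (u ∘ f^[m]) x v :=
      ddc_const_mul_add δ (Um_smooth hu hf m x) (smoothAt_comp (φ := u) (f := f^[m])
      ((iterate_etale hf m).contMDiff x) (hu _)) v
    rw [h1, ddc_comp ((iterate_etale hf m).contMDiff x) (hu _)]
    have h2 := hq (f^[m] x) (mfderiv 𝓘(ℂ, E) 𝓘(ℂ, E) (f^[m]) x v)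
    have h3 : mfderiv 𝓘(ℂ, E) 𝓘(ℂ, E) (f^[m+1]) x v =
        mfderiv 𝓘(ℂ, E) 𝓘(ℂ, E) f (f^[m] x) (mfderiv 𝓘(ℂ, E) 𝓘(ℂ, E) (f^[m]) x v) := by
      rw [Function.iterate_succ', mfderiv_comp x ((hf.contMDiff _).mdifferentiableAt (by simp))
        (((iterate_etale hf m).contMDiff x).mdifferentiableAt (by simp))]
      rfl
    rw [h3]
    have h4 : f^[m+1] x = f (f^[m] x) := by rw [Function.iterate_succ_apply']
    rw [h4, h2, ih]
    ring

end

end Pool.Agent.H775.KE
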