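import Mathlib
import Pool.Agent.H576R3.CF.Form

/-!
# Job J1 (helper775): a bounded group of linear maps preserves an inner product
-/

set_option autoImplicit false

open Topology

namespace Pool.Agent.H775.KE

/-- a positive definite symmetric form has an orthonormal basis -/
theorem aux_J1_coord {V : Type} [NormedAddCommGroup V] [NormedSpace ℝ V]
    [FiniteDimensional ℝ V] (B : V →ₗ[ℝ] V →ₗ[ℝ] ℝ) (hs : ∀ v w, B v w = B w v)
    (hp : ∀ v, v ≠ 0 → 0 < B v v) :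
    ∃ T : V ≃L[ℝ] EuclideanSpace ℝ (Fin (Module.finrank ℝ V)), ∀ v, ‖T v‖ ^ 2 = B v v := by
  have hsymm : LinearMap.IsSymm (B : LinearMap.BilinForm ℝ V) := ⟨fun v w => by simpa using hs v w⟩
  haveI : Invertible (2 : ℝ) := invertibleOfNonzero two_ne_zero
  obtain ⟨b, hb⟩ := LinearMap.BilinForm.exists_orthogonal_basis hsymm
  have hpos : ∀ i, 0 < B (b i) (b i) := fun i => hp _ (b.ne_zero i)
  have hne : ∀ i, IsUnit ((Real.sqrt (B (b i) (b i)))⁻¹) := fun i =>
    (inv_ne_zero (Real.sqrt_pos.2 (hpos i)).ne').isUnit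
  set c := b.isUnitSMul hne with hc
  have hci : ∀ i, c i = (Real.sqrt (B (b i) (b i)))⁻¹ • b i := fun i => Module.Basis.isUnitSMul_apply hne i
  have hcc : ∀ i j, B (c i) (c j) = if i = j then 1 else 0 := by
    intro i j
    rw [hci, hci]
    simp only [map_smul, LinearMap.smul_apply, smul_eq_mul]
    split_ifs with hij
    · subst hij
      have := (Real.sqrt_pos.2 (hpos i)).ne'
      have h2 := Real.mul_self_sqrt (hpos i).le
      field_simp
      rw [sq, h2]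
    · have h0 : B (b i) (b j) = 0 := hb hij
      rw [h0]
      simp
  let T₀ : V ≃ₗ[ℝ] EuclideanSpace ℝ (Fin (Module.finrank ℝ V)) :=
    c.equivFun.trans (WithLp.linearEquiv 2 ℝ (Fin (Module.finrank ℝ V) → ℝ)).symm
  refine ⟨T₀.toContinuousLinearEquiv, fun v => ?_⟩
  rw [EuclideanSpace.norm_sq_eq]
  have h1 : v = ∑ i, c.repr v i • c i := (c.sum_repr v).symm
  have h2 : B v v = ∑ i, (c.repr v i) ^ 2 := by
    conv_lhs => rw [h1]
    simp only [map_sum, map_smul, LinearMap.sum_apply, LinearMap.smul_apply, smul_eq_mul, hcc]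
    simp [sq]
  rw [h2]
  apply Finset.sum_congr rfl
  intro i _
  simp only [Real.norm_eq_abs, sq_abs]
  rfl

/-- TARGET. Let `V` be a finite-dimensional real normed space and `L` a set of continuous linear
automorphisms of `V`, closed under composition and inverse, with `‖A v‖ ≤ C ‖v‖` for all `A` in `L`.
Then in suitable linear coordinates all `A ∈ L` are isometries of a Euclidean space. -/
theorem invariant_euclid {V : Type} [NormedAddCommGroup V] [NormedSpace ℝ V]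
    [FiniteDimensional ℝ V] (L : Set (V ≃L[ℝ] V)) (h1 : ContinuousLinearEquiv.refl ℝ V ∈ L)
    (hmul : ∀ A ∈ L, ∀ B ∈ L, A.trans B ∈ L) (hinv : ∀ A ∈ L, A.symm ∈ L)
    (C : ℝ) (hC : ∀ A ∈ L, ∀ v : V, ‖A v‖ ≤ C * ‖v‖) :
    ∃ T : V ≃L[ℝ] EuclideanSpace ℝ (Fin (Module.finrank ℝ V)),
      ∀ A ∈ L, ∀ v : V, ‖T (A v)‖ = ‖T v‖ := by
  let E := EuclideanSpace ℝ (Fin (Module.finrank ℝ V))
  let e : V ≃L[ℝ] E := ContinuousLinearEquiv.ofFinrankEq finrank_euclideanSpace_fin.symm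
  let f : (V ≃L[ℝ] V) → (E →ₗ[ℝ] E) := fun A =>
    (e.toLinearEquiv : V →ₗ[ℝ] E) ∘ₗ (A.toLinearEquiv : V →ₗ[ℝ] V) ∘ₗ (e.symm.toLinearEquiv : E →ₗ[ℝ] V)
  have hf : ∀ A x, f A x = e (A (e.symm x)) := fun A x => rfl
  have hftrans : ∀ A B, f (A.trans B) = f B ∘ₗ f A := by
    intro A B
    ext1 x
    simp [hf]
  have hfrefl : f (ContinuousLinearEquiv.refl ℝ V) = LinearMap.id := by
    ext1 x
    simp [hf]
  set C' : ℝ := ‖(e : V →L[ℝ] E)‖ * |C| * ‖(e.symm : E →L[ℝ] V)‖ + 1 with hC'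
  have hC'pos : 0 < C' := by positivity
  have hbd : ∀ A ∈ L, ∀ x, ‖f A x‖ ≤ C' * ‖x‖ := by
    intro A hA x
    rw [hf]
    have e1 : ‖e (A (e.symm x))‖ ≤ ‖(e : V →L[ℝ] E)‖ * ‖A (e.symm x)‖ := (e : V →L[ℝ] E).le_opNorm _
    have e2 : ‖A (e.symm x)‖ ≤ |C| * ‖e.symm x‖ :=
      (hC A hA _).trans (mul_le_mul_of_nonneg_right (le_abs_self C) (norm_nonneg _))
    have e3 : ‖e.symm x‖ ≤ ‖(e.symm : E →L[ℝ] V)‖ * ‖x‖ := (e.symm : E →L[ℝ] V).le_opNorm _
    have e4 : |C| * ‖e.symm x‖ ≤ |C| * (‖(e.symm : E →L[ℝ] V)‖ * ‖x‖) :=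
      mul_le_mul_of_nonneg_left e3 (abs_nonneg C)
    have e5 := mul_le_mul_of_nonneg_left (e2.trans e4) (norm_nonneg (e : V →L[ℝ] E))
    have e6 : ‖(e : V →L[ℝ] E)‖ * (|C| * (‖(e.symm : E →L[ℝ] V)‖ * ‖x‖)) =
      (‖(e : V →L[ℝ] E)‖ * |C| * ‖(e.symm : E →L[ℝ] V)‖) * ‖x‖ := by ring
    rw [hC', add_mul, one_mul]
    linarith [norm_nonneg x]
  have hlow : ∀ A ∈ L, (1 / C') ^ (Module.finrank ℝ E) ≤ |LinearMap.det (f A)| := by
    intro A hA
    apply Pool.Agent.H576R3.CF.det_lower (f A) (by positivity)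
    intro v
    have h2 := hbd A.symm (hinv A hA) (f A v)
    have h3 : f A.symm (f A v) = v := by simp [hf]
    rw [h3] at h2
    rw [one_div, inv_mul_le_iff₀ hC'pos]
    exact h2
  have hpow : ∀ A ∈ L, ∀ k : ℕ, ∃ B ∈ L, LinearMap.det (f B) = LinearMap.det (f A) ^ k := by
    intro A hA k
    induction k with
    | zero => exact ⟨_, h1, by rw [hfrefl, LinearMap.det_id, pow_zero]⟩
    | succ k ih =>
      obtain ⟨B, hB, hdB⟩ := ih
      exact ⟨A.trans B, hmul A hA B hB, by rw [hftrans, LinearMap.det_comp, hdB, pow_succ]⟩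
  have hge : ∀ A ∈ L, 1 ≤ |LinearMap.det (f A)| := by
    intro A hA
    by_contra hlt
    push Not at hlt
    have hpos : (0 : ℝ) < (1 / C') ^ (Module.finrank ℝ E) := by positivity
    obtain ⟨k, hk⟩ := exists_pow_lt_of_lt_one hpos hlt
    obtain ⟨B, hB, hdB⟩ := hpow A hA k
    have h2 := hlow B hB
    rw [hdB, abs_pow] at h2
    linarith
  have hdet : ∀ A ∈ L, |LinearMap.det (f A)| = 1 := by
    intro A hA
    have h2 := hge A hA
    have h3 := hge A.symm (hinv A hA)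
    have h4 : LinearMap.det (f A.symm) * LinearMap.det (f A) = 1 := by
      rw [← LinearMap.det_comp]
      have : f A.symm ∘ₗ f A = LinearMap.id := by
        ext1 x
        simp [hf]
      rw [this, LinearMap.det_id]
    have h5 : |LinearMap.det (f A.symm)| * |LinearMap.det (f A)| = 1 := by
      rw [← abs_mul, h4, abs_one]
    nlinarith
  obtain ⟨B, hBs, hBp, hBi⟩ := Pool.Agent.H576R3.CF.exists_invariant_form (f '' L)
    (by
      rintro _ ⟨A, hA, rfl⟩ _ ⟨A', hA', rfl⟩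
      exact ⟨A'.trans A, hmul A' hA' A hA, hftrans _ _⟩)
    (by
      rintro _ ⟨A, hA, rfl⟩
      exact hdet A hA)
    C'
    (by
      rintro _ ⟨A, hA, rfl⟩ v
      exact hbd A hA v)
  -- pull back the form
  obtain ⟨T, hT⟩ := aux_J1_coord (V := V) (B.compl₁₂ (e.toLinearEquiv : V →ₗ[ℝ] E) (e.toLinearEquiv : V →ₗ[ℝ] E))
    (fun v w => hBs _ _)
    (fun v hv => hBp _ (by
      intro h0
      apply hv
      have h2 : e v = 0 := h0
      exact (map_eq_zero_iff e e.injective).1 h2))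
  refine ⟨T, fun A hA v => ?_⟩
  have h2 : ‖T (A v)‖ ^ 2 = ‖T v‖ ^ 2 := by
    rw [hT, hT]
    have h3 := hBi (f A) ⟨A, hA, rfl⟩ (e v) (e v)
    have h4 : f A (e v) = e (A v) := by simp [hf]
    rw [h4] at h3
    exact h3
  exact (pow_left_inj₀ (norm_nonneg _) (norm_nonneg _) two_ne_zero).1 h2

end Pool.Agent.H775.KE
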