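import Mathlib
import Pool.Agent.Y220.HB.ROT
import Pool.Agent.Y809.HB.Mini

/-!
# Job J2 (helper775): Bieberbach's theorem, from the library statements `S_MINI` and `S_ROT`

`Pool.Agent.Y809.HB` proves `S_MINI` and `Pool.Agent.Y220.HB.t` proves `S_ROT` (statements in
`Pool.Agent.Y34.HB.Stm`; `E k` there is `EuclideanSpace ℝ (Fin k)`).
-/

set_option autoImplicit false

open Topology

namespace Pool.Agent.H775.KE

/-- TARGET (Bieberbach). Let the group `Γ` act on the Euclidean space of dimension `k` by isometries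
`e g` such that only finitely many `g` move `0` by at most `R`, for every `R`, and such that the orbit
of `0` is `r`-dense. Then the translations in `e Γ` form a lattice `Λ`, and `e Γ` is a finite union of
cosets of it: there is a finite set `T ⊆ Γ` such that every `e g` is `e t` followed by a translation
of `Λ`, `t ∈ T`. Moreover the linear parts preserve `Λ`.

Proof. `S_MINI` and `S_ROT` (proved in the library) show that an element whose linear part `A`
satisfies `‖A z - z‖ ≤ ‖z‖ / 4` for all `z` is a translation. As the orthogonal group is compact, among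
any sequence of elements there are two whose linear parts `A`, `B` satisfy `‖A - B‖ ≤ 1/4`; then
`A⁻¹ B` is trivial, so there are only finitely many linear parts. Choose one `t` for each: if `g` and
`t` have the same linear part, `e g = (translation) ∘ e t` with the translation `e (g t⁻¹)`. `Λ` is
discrete because only finitely many elements move `0` by at most `R`. It spans `E k` over `ℝ` because
the orbit of `0` is contained in the union of the finitely many sets `Λ + e t 0`, and is `r`-dense. The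
conjugate of a translation by `v` by an element with linear part `A` is the translation by `A v`. -/
theorem bieberbach (k : ℕ) (Γ : Type) [Group Γ]
    (e : Γ →* (EuclideanSpace ℝ (Fin k) ≃ᵃⁱ[ℝ] EuclideanSpace ℝ (Fin k)))
    (hfin : ∀ R : ℝ, {g : Γ | ‖e g 0‖ ≤ R}.Finite) (r : ℝ)
    (hco : ∀ z : EuclideanSpace ℝ (Fin k), ∃ g : Γ, ‖e g 0 - z‖ ≤ r) :
    ∃ (Λ : Submodule ℤ (EuclideanSpace ℝ (Fin k))) (T : Finset Γ),
      DiscreteTopology Λ ∧ Submodule.span ℝ (Λ : Set (EuclideanSpace ℝ (Fin k))) = ⊤ ∧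
      (∀ v, v ∈ Λ ↔ ∃ g : Γ, ∀ z, e g z = v + z) ∧
      (∀ g : Γ, ∃ t ∈ T, ∃ v ∈ Λ, ∀ z, e g z = v + e t z) ∧
      ∀ g : Γ, ∀ v, v ∈ Λ ↔ (e g).linearIsometryEquiv v ∈ Λ := by
  classical
  -- small rotations are trivial
  have small : ∀ g : Γ, (∀ z, ‖(e g).linearIsometryEquiv z - z‖ ≤ 1 / 4 * ‖z‖) →
      ∀ z, (e g).linearIsometryEquiv z = z :=
    Pool.Agent.Y220.HB.t k Γ e hfin (Pool.Agent.Y809.HB.mini k Γ e r hco)
  have haff : ∀ (g : Γ) (z : EuclideanSpace ℝ (Fin k)),
      e g z = (e g).linearIsometryEquiv z + e g 0 := fun g z =>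
    Pool.Agent.Y809.HB.aff_apply (e g) z
  have hmul : ∀ (g h : Γ) (z : EuclideanSpace ℝ (Fin k)), e (g * h) z = e g (e h z) := by
    intro g h z
    rw [map_mul]
    rfl
  have hinv : ∀ (g : Γ) (z : EuclideanSpace ℝ (Fin k)), e g (e g⁻¹ z) = z := by
    intro g z
    rw [← hmul, mul_inv_cancel, map_one]
    rfl
  have hinv' : ∀ (g : Γ) (z : EuclideanSpace ℝ (Fin k)), e g⁻¹ (e g z) = z := by
    intro g z
    rw [← hmul, inv_mul_cancel, map_one]
    rfl
  have hlmul : ∀ (g h : Γ) (z : EuclideanSpace ℝ (Fin k)), (e (g * h)).linearIsometryEquiv z =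
      (e g).linearIsometryEquiv ((e h).linearIsometryEquiv z) := by
    intro g h z
    rw [map_mul]
    rfl
  have hlinv : ∀ (g : Γ) (z : EuclideanSpace ℝ (Fin k)),
      (e g).linearIsometryEquiv ((e g⁻¹).linearIsometryEquiv z) = z := by
    intro g z
    rw [← hlmul, mul_inv_cancel, map_one]
    rfl
  have hlinv' : ∀ (g : Γ) (z : EuclideanSpace ℝ (Fin k)),
      (e g⁻¹).linearIsometryEquiv ((e g).linearIsometryEquiv z) = z := by
    intro g z
    rw [← hlmul, inv_mul_cancel, map_one]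
    rfl
  -- close linear parts are equal
  have hclose : ∀ g h : Γ,
      ‖Pool.Agent.Y809.HB.lp (e g) - Pool.Agent.Y809.HB.lp (e h)‖ ≤ 1 / 4 →
      ∀ z, (e g).linearIsometryEquiv z = (e h).linearIsometryEquiv z := by
    intro g h hgh z
    have h1 : ∀ z, ‖(e (h⁻¹ * g)).linearIsometryEquiv z - z‖ ≤ 1 / 4 * ‖z‖ := by
      intro z
      have h2 : (e (h⁻¹ * g)).linearIsometryEquiv z - z =
          (e h⁻¹).linearIsometryEquiv
            ((e g).linearIsometryEquiv z - (e h).linearIsometryEquiv z) := by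
        rw [map_sub, hlinv', hlmul]
      rw [h2, LinearIsometryEquiv.norm_map]
      have h3 := ContinuousLinearMap.le_of_opNorm_le _ hgh z
      exact h3
    have h2 := small _ h1 z
    rw [hlmul] at h2
    rw [← hlinv h ((e g).linearIsometryEquiv z), h2]
  -- finitely many linear parts
  have hF : (Set.range fun g : Γ => Pool.Agent.Y809.HB.lp (e g)).Finite := by
    have : ProperSpace (EuclideanSpace ℝ (Fin k) →L[ℝ] EuclideanSpace ℝ (Fin k)) :=
      FiniteDimensional.proper ℝ _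
    have hc : IsCompact (Metric.closedBall
        (0 : EuclideanSpace ℝ (Fin k) →L[ℝ] EuclideanSpace ℝ (Fin k)) 1) :=
      isCompact_closedBall _ _
    obtain ⟨t, ht, htc⟩ := Metric.totallyBounded_iff.1 hc.totallyBounded (1 / 8) (by norm_num)
    refine Set.Finite.subset (s := ⋃ y ∈ t,
      ((Set.range fun g : Γ => Pool.Agent.Y809.HB.lp (e g)) ∩ Metric.ball y (1 / 8)))
      (ht.biUnion fun y _ => ?_) ?_
    · apply Set.Subsingleton.finite
      rintro _ ⟨⟨g, rfl⟩, hg⟩ _ ⟨⟨h, rfl⟩, hh⟩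
      rw [Metric.mem_ball] at hg hh
      have h1 : ‖Pool.Agent.Y809.HB.lp (e g) - Pool.Agent.Y809.HB.lp (e h)‖ ≤ 1 / 4 := by
        rw [← dist_eq_norm]
        have h2 := dist_triangle_right (Pool.Agent.Y809.HB.lp (e g))
          (Pool.Agent.Y809.HB.lp (e h)) y
        have h3 : dist (Pool.Agent.Y809.HB.lp (e g)) y < 1 / 8 := hg
        have h4 : dist (Pool.Agent.Y809.HB.lp (e h)) y < 1 / 8 := hh
        linarith
      have h2 := hclose g h h1
      show Pool.Agent.Y809.HB.lp (e g) = Pool.Agent.Y809.HB.lp (e h)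
      exact ContinuousLinearMap.ext h2
    · rintro _ ⟨g, rfl⟩
      have h1 : Pool.Agent.Y809.HB.lp (e g) ∈ Metric.closedBall
          (0 : EuclideanSpace ℝ (Fin k) →L[ℝ] EuclideanSpace ℝ (Fin k)) 1 := by
        rw [Metric.mem_closedBall, dist_zero_right]
        exact Pool.Agent.Y809.HB.lp_norm _
      have h2 := htc h1
      simp only [Set.mem_iUnion] at h2 ⊢
      obtain ⟨y, hy, h3⟩ := h2
      exact ⟨y, hy, ⟨g, rfl⟩, h3⟩
  -- the lattice
  let L0 : AddSubgroup (EuclideanSpace ℝ (Fin k)) :=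
    { carrier := {v | ∃ g : Γ, ∀ z, e g z = v + z}
      zero_mem' := ⟨1, fun z => by rw [map_one, zero_add]; rfl⟩
      add_mem' := by
        rintro a b ⟨g, hg⟩ ⟨h, hh⟩
        exact ⟨g * h, fun z => by rw [hmul, hh, hg, add_assoc]⟩
      neg_mem' := by
        rintro a ⟨g, hg⟩
        refine ⟨g⁻¹, fun z => ?_⟩
        have h1 := hg (e g⁻¹ z)
        rw [hinv] at h1
        have h2 : -a + z = -a + (a + e g⁻¹ z) := congrArg (fun w => -a + w) h1
        rw [h2, neg_add_cancel_left] }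
  have hL0 : ∀ v, v ∈ AddSubgroup.toIntSubmodule L0 ↔ ∃ g : Γ, ∀ z, e g z = v + z :=
    fun v => Iff.rfl
  -- representatives
  let ch : (EuclideanSpace ℝ (Fin k) →L[ℝ] EuclideanSpace ℝ (Fin k)) → Γ := fun A =>
    if h : ∃ g : Γ, Pool.Agent.Y809.HB.lp (e g) = A then h.choose else 1
  have hch : ∀ g : Γ, Pool.Agent.Y809.HB.lp (e (ch (Pool.Agent.Y809.HB.lp (e g)))) =
      Pool.Agent.Y809.HB.lp (e g) := by
    intro g
    have h : ∃ g' : Γ, Pool.Agent.Y809.HB.lp (e g') = Pool.Agent.Y809.HB.lp (e g) := ⟨g, rfl⟩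
    have h1 : ch (Pool.Agent.Y809.HB.lp (e g)) = h.choose := dif_pos h
    rw [h1]
    exact h.choose_spec
  have hrep : ∀ g : Γ, ∃ t ∈ hF.toFinset.image ch, ∃ v ∈ AddSubgroup.toIntSubmodule L0,
      ∀ z, e g z = v + e t z := by
    intro g
    refine ⟨ch (Pool.Agent.Y809.HB.lp (e g)), Finset.mem_image.2
      ⟨_, hF.mem_toFinset.2 ⟨g, rfl⟩, rfl⟩, ?_⟩
    obtain ⟨t, ht⟩ : ∃ t, t = ch (Pool.Agent.Y809.HB.lp (e g)) := ⟨_, rfl⟩
    have h1 : ∀ z, (e t).linearIsometryEquiv z = (e g).linearIsometryEquiv z := by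
      intro z
      have h2 := hch g
      rw [← ht] at h2
      exact congrArg (fun A => A z) h2
    rw [← ht]
    have h2 : ∀ z, e g z = (e g 0 - e t 0) + e t z := by
      intro z
      rw [haff g z, haff t z, h1]
      abel
    refine ⟨e g 0 - e t 0, (hL0 _).2 ⟨g * t⁻¹, fun z => ?_⟩, h2⟩
    rw [hmul, h2, hinv]
  refine ⟨AddSubgroup.toIntSubmodule L0, hF.toFinset.image ch, ?_, ?_, hL0, hrep, ?_⟩
  · -- discreteness
    have hfin' : ∀ R : ℝ, {v | v ∈ L0 ∧ ‖v‖ ≤ R}.Finite := by
      intro R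
      refine ((hfin R).image fun g => e g 0).subset ?_
      rintro v ⟨⟨g, hg⟩, hv⟩
      have h1 : e g 0 = v := by rw [hg 0, add_zero]
      exact ⟨g, by show ‖e g 0‖ ≤ R; rw [h1]; exact hv, h1⟩
    have hopen : IsOpen ({0} : Set L0) := by
      have h1 : Metric.ball (0 : L0) 1 \
          {x : L0 | ‖(x : EuclideanSpace ℝ (Fin k))‖ ≤ 1 ∧ x ≠ 0} = {0} := by
        ext x
        rw [Set.mem_sdiff, Metric.mem_ball, dist_zero_right, Set.mem_singleton_iff]
        constructor
        · rintro ⟨h2, h3⟩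
          by_contra h4
          exact h3 ⟨h2.le, h4⟩
        · rintro rfl
          refine ⟨by rw [norm_zero]; norm_num, fun h => h.2 rfl⟩
      rw [← h1]
      refine IsOpen.sdiff Metric.isOpen_ball (Set.Finite.isClosed ?_)
      refine Set.Finite.subset (s := (fun x : L0 => (x : EuclideanSpace ℝ (Fin k))) ⁻¹'
        {v | v ∈ L0 ∧ ‖v‖ ≤ 1}) ?_ ?_
      · exact (hfin' 1).preimage (Subtype.val_injective.injOn)
      · rintro x ⟨hx, -⟩
        exact ⟨x.2, hx⟩
    have : DiscreteTopology L0 := discreteTopology_of_isOpen_singleton_zero hopen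
    exact this
  · -- span
    rw [← Submodule.orthogonal_eq_bot_iff, Submodule.eq_bot_iff]
    intro u hu
    by_contra hu0
    have hu1 : 0 < ‖u‖ := norm_pos_iff.2 hu0
    rw [Submodule.mem_orthogonal] at hu
    have hv : ∀ v ∈ L0, inner ℝ v u = 0 := fun v hv => hu v (Submodule.subset_span hv)
    obtain ⟨M, hM⟩ : ∃ M : ℝ, ∀ t ∈ hF.toFinset.image ch, ‖e t 0‖ ≤ M := by
      refine ⟨∑ t ∈ hF.toFinset.image ch, ‖e t 0‖, fun t ht => ?_⟩
      exact Finset.single_le_sum (f := fun t => ‖e t 0‖) (fun _ _ => norm_nonneg _) ht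
    have horb : ∀ g : Γ, |inner ℝ (e g 0) u| ≤ M * ‖u‖ := by
      intro g
      obtain ⟨t, ht, v, hv1, hv2⟩ := hrep g
      rw [hv2, inner_add_left, hv v hv1, zero_add]
      refine (abs_real_inner_le_norm _ _).trans ?_
      exact mul_le_mul_of_nonneg_right (hM t ht) (norm_nonneg _)
    obtain ⟨s, hs⟩ : ∃ s : ℝ, s = (M + |r| + 1) / ‖u‖ := ⟨_, rfl⟩
    obtain ⟨g, hg⟩ := hco (s • u)
    have h1 : inner ℝ (s • u) u = s * ‖u‖ ^ 2 := by
      rw [inner_smul_left, real_inner_self_eq_norm_sq]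
      simp
    have h2 : inner ℝ (s • u) u = inner ℝ (e g 0) u - inner ℝ (e g 0 - s • u) u := by
      rw [inner_sub_left]
      ring
    have h3 : |inner ℝ (e g 0 - s • u) u| ≤ r * ‖u‖ := by
      refine (abs_real_inner_le_norm _ _).trans ?_
      exact mul_le_mul_of_nonneg_right hg (norm_nonneg _)
    have h4 := horb g
    have h5 : s * ‖u‖ ^ 2 = (M + |r| + 1) * ‖u‖ := by
      rw [hs]
      field_simp
    have h6 := le_abs_self (inner ℝ (e g 0) u)
    have h7 := neg_abs_le (inner ℝ (e g 0 - s • u) u)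
    have h8 := le_abs_self r
    have h9 : r * ‖u‖ ≤ |r| * ‖u‖ := mul_le_mul_of_nonneg_right h8 hu1.le
    have h10 : (M + |r| + 1) * ‖u‖ ≤ M * ‖u‖ + |r| * ‖u‖ := by
      rw [← h5, ← h1, h2]
      linarith
    linarith
  · -- invariance
    have hone : ∀ (g : Γ) (v : EuclideanSpace ℝ (Fin k)), v ∈ AddSubgroup.toIntSubmodule L0 →
        (e g).linearIsometryEquiv v ∈ AddSubgroup.toIntSubmodule L0 := by
      intro g v hv
      obtain ⟨h, hh⟩ := (hL0 v).1 hv
      refine (hL0 _).2 ⟨g * h * g⁻¹, fun z => ?_⟩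
      rw [hmul, hmul, hh, haff g, map_add]
      have h1 := hinv g z
      rw [haff g] at h1
      rw [add_assoc, h1]
    intro g v
    refine ⟨hone g v, fun h => ?_⟩
    have h1 := hone g⁻¹ _ h
    rwa [hlinv'] at h1

end Pool.Agent.H775.KE
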