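import Mathlib
import Pool.Agent.H612.LR.T_SML

/-!
# Job K1 (helper775): the theorem of Skolem, Mahler and Lech in finitely generated abelian groups

Everything needed about integer sequences is in `Pool.Agent.H853R2.Skolem.Count`
(`good_of_bd`, `exc_count`, `zero_class`) and `Pool.Agent.H612.LR.T_SML` (`SML_bd`, `SML_zeros`).
-/

set_option autoImplicit false

open Polynomial

namespace Pool.Agent.H775.KE

/-- finite union of arithmetic progressions in `ℕ` (a progression with step `0` is a point) -/
def IsAP (S : Set ℕ) : Prop :=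
  ∃ T : Finset (ℕ × ℕ), S = {n | ∃ t ∈ T, ∃ l : ℕ, n = t.1 + l * t.2}

/-- eventually periodic sets -/
def EvPer (S : Set ℕ) : Prop := ∃ N L : ℕ, 1 ≤ L ∧ ∀ n, N ≤ n → (n ∈ S ↔ n + L ∈ S)

theorem EvPer.iter {S : Set ℕ} {N L : ℕ} (h : ∀ n, N ≤ n → (n ∈ S ↔ n + L ∈ S)) (k n : ℕ)
    (hn : N ≤ n) : n ∈ S ↔ n + L * k ∈ S := by
  induction k with
  | zero => simp
  | succ k ih =>
    rw [ih, h (n + L * k) (by omega), mul_add, mul_one, add_assoc]

theorem EvPer.inter {S S' : Set ℕ} (h : EvPer S) (h' : EvPer S') : EvPer (S ∩ S') := by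
  obtain ⟨N, L, hL, h⟩ := h
  obtain ⟨N', L', hL', h'⟩ := h'
  refine ⟨max N N', L * L', Nat.mul_pos hL hL', fun n hn => ?_⟩
  have h1 := EvPer.iter h L' n ((le_max_left _ _).trans hn)
  have h2 := EvPer.iter h' L n ((le_max_right _ _).trans hn)
  rw [mul_comm L' L] at h2
  exact and_congr h1 h2

theorem EvPer.iInter {ι : Type*} [Finite ι] {S : ι → Set ℕ} (h : ∀ i, EvPer (S i)) :
    EvPer {n | ∀ i, n ∈ S i} := by
  classical
  have := Fintype.ofFinite ι
  have key : ∀ s : Finset ι, EvPer {n | ∀ i ∈ s, n ∈ S i} := by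
    intro s
    induction s using Finset.induction_on with
    | empty => exact ⟨0, 1, le_rfl, fun n _ => by simp⟩
    | insert i s hi ih =>
      have : {n | ∀ j ∈ insert i s, n ∈ S j} = S i ∩ {n | ∀ j ∈ s, n ∈ S j} := by
        ext n
        simp
      rw [this]
      exact (h i).inter ih
  have := key Finset.univ
  simpa using this

theorem EvPer.isAP {S : Set ℕ} (h : EvPer S) : IsAP S := by
  classical
  obtain ⟨N, L, hL, h⟩ := h
  refine ⟨((Finset.range N).filter fun t => t ∈ S).image (fun t => (t, 0)) ∪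
    ((Finset.Ico N (N + L)).filter fun t => t ∈ S).image (fun t => (t, L)), ?_⟩
  ext n
  simp only [Set.mem_ofPred_eq, Finset.mem_union, Finset.mem_image, Finset.mem_filter,
    Finset.mem_range, Finset.mem_Ico]
  constructor
  · intro hn
    by_cases hN : n < N
    · exact ⟨(n, 0), Or.inl ⟨n, ⟨hN, hn⟩, rfl⟩, 0, by simp⟩
    · have e1 := Nat.mod_add_div (n - N) L
      have e2 := Nat.mod_lt (n - N) (show 0 < L by omega)
      have e3 : n = (N + (n - N) % L) + L * ((n - N) / L) := by omega
      refine ⟨(N + (n - N) % L, L), Or.inr ⟨N + (n - N) % L, ⟨⟨by omega, by omega⟩, ?_⟩, rfl⟩,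
        (n - N) / L, ?_⟩
      · rw [EvPer.iter h ((n - N) / L) _ (by omega), ← e3]
        exact hn
      · simp only
        rw [mul_comm]
        exact e3
  · rintro ⟨t, ht, l, rfl⟩
    rcases ht with ⟨a, ⟨_, ha⟩, rfl⟩ | ⟨a, ⟨⟨h1, _⟩, ha⟩, rfl⟩
    · simpa using ha
    · simp only
      rw [mul_comm]
      exact (EvPer.iter h l a h1).1 ha

/-- integer sequences -/
theorem evPer_int {f : ℕ → ℤ} {d K G : ℕ} (h : Pool.Agent.H853R2.Skolem.Bd f d K G) :
    EvPer {n | f n = 0} := by
  open Pool.Agent.H853R2.Skolem in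
  obtain ⟨p, hpge, hp⟩ := Nat.exists_infinite_primes (K + 3)
  obtain ⟨L, hL, -, hgood⟩ := good_of_bd h hp (by omega) (by omega)
  have hg := hgood L dvd_rfl
  have hfin : {n : ℕ | d ≤ n ∧ f n = 0 ∧ ∃ m, f (n + L * m) ≠ 0}.Finite := by
    by_contra hinf
    obtain ⟨A, hA, hcard⟩ := Set.Infinite.exists_subset_card_eq hinf (NB d G L + 1)
    have := exc_count hL hg A (fun n hn => hA hn)
    omega
  obtain ⟨M, hM⟩ := hfin.bddAbove
  refine ⟨max d (M + 1), L, hL, fun n hn => ?_⟩
  have hdn : d ≤ n := (le_max_left _ _).trans hn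
  have hMn : M < n := (le_max_right _ _).trans hn
  have key : ∀ n, d ≤ n → M < n → f n = 0 → ∀ m, f (n + L * m) = 0 := by
    intro n h1 h2 h3
    by_contra hcon
    push Not at hcon
    exact absurd (hM ⟨h1, h3, hcon⟩) (by omega)
  constructor
  · intro h0
    have := key n hdn hMn h0 1
    rwa [mul_one] at this
  · intro h0
    have h1 := key (n + L) (by omega) (by omega) h0
    exact zero_class hL hg n (n + L) hdn (by omega) (by simp) h1

/-- sequences in a finite set determined by their states -/
theorem evPer_finite {T : Type*} [Finite T] (g : ℕ → T) (k : ℕ) (F : (Fin k → T) → T)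
    (hF : ∀ n, g (n + k) = F fun i => g (n + i)) (t : T) : EvPer {n | g n = t} := by
  let s : ℕ → (Fin k → T) := fun n i => g (n + i)
  have hstep : ∀ n m, s n = s m → s (n + 1) = s (m + 1) := by
    intro n m h
    funext i
    by_cases hi : (i : ℕ) + 1 < k
    · have := congrFun h ⟨i + 1, hi⟩
      simp only [s] at this ⊢
      have e1 : n + 1 + (i : ℕ) = n + (i + 1) := by omega
      have e2 : m + 1 + (i : ℕ) = m + (i + 1) := by omega
      rw [e1, e2]
      exact this
    · have hi' : (i : ℕ) + 1 = k := by have := i.2; omega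
      simp only [s]
      have e1 : n + 1 + (i : ℕ) = n + k := by omega
      have e2 : m + 1 + (i : ℕ) = m + k := by omega
      rw [e1, e2, hF, hF]
      exact congrArg F h
  have hiter : ∀ n m, s n = s m → ∀ l, s (n + l) = s (m + l) := by
    intro n m h l
    induction l with
    | zero => exact h
    | succ l ih => exact hstep _ _ ih
  have hg : ∀ n m, s n = s m → g n = g m := by
    intro n m h
    rcases Nat.eq_zero_or_pos k with hk | hk
    · subst hk
      have e1 := hF n
      have e2 := hF m
      rw [add_zero] at e1 e2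
      rw [e1, e2]
      exact congrArg F (funext fun i => i.elim0)
    · have := congrFun h ⟨0, hk⟩
      simpa [s] using this
  obtain ⟨a, b, hne, hab⟩ := Finite.exists_ne_map_eq_of_infinite s
  wlog hlt : a < b generalizing a b
  · exact this b a hne.symm hab.symm (by omega)
  refine ⟨a, b - a, by omega, fun n hn => ?_⟩
  have h1 := hiter a b hab (n - a)
  have e1 : a + (n - a) = n := by omega
  have e2 : b + (n - a) = n + (b - a) := by omega
  rw [e1, e2] at h1
  simp only [Set.mem_ofPred_eq]
  rw [hg _ _ h1]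

/-- TARGET. `h : ℕ → Γ`, `Γ` a finitely generated abelian group, satisfies the linear recurrence with
the monic integer characteristic polynomial `P`. Then `{n | h n = 0}` is a finite union of
arithmetic progressions. -/
theorem sml_group (Γ : Type) [AddCommGroup Γ] [Module.Finite ℤ Γ] (h : ℕ → Γ) (P : ℤ[X])
    (hP : P.Monic)
    (hrec : ∀ n, ∑ i ∈ Finset.range (P.natDegree + 1), P.coeff i • h (n + i) = 0) :
    IsAP {n | h n = 0} := by
  apply EvPer.isAP
  have hfg : AddGroup.FG Γ := Module.Finite.iff_addGroup_fg.mp inferInstance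
  obtain ⟨r, ι, _, p, hp, e, ⟨φ⟩⟩ := AddCommGroup.equiv_free_prod_directSum_zmod Γ
  have hrec' : ∀ n, h (n + P.natDegree) =
      - ∑ i ∈ Finset.range P.natDegree, P.coeff i • h (n + i) := by
    intro n
    have h1 := hrec n
    rw [Finset.sum_range_succ, hP.coeff_natDegree, one_smul] at h1
    exact eq_neg_of_add_eq_zero_right h1
  have hset : {n | h n = 0} = {n | ∀ i : Fin r, n ∈ {n | (φ (h n)).1 i = 0}} ∩
      {n | ∀ j : ι, n ∈ {n | (φ (h n)).2 j = 0}} := by
    ext n
    simp only [Set.mem_ofPred_eq, Set.mem_inter_iff]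
    constructor
    · intro hn
      rw [hn, map_zero]
      exact ⟨fun _ => rfl, fun _ => rfl⟩
    · rintro ⟨h1, h2⟩
      have : φ (h n) = 0 := by
        refine Prod.ext ?_ ?_
        · ext i
          exact h1 i
        · exact DFinsupp.ext h2
      exact (map_eq_zero_iff φ φ.injective).1 this
  rw [hset]
  refine EvPer.inter (EvPer.iInter fun i => ?_) (EvPer.iInter fun j => ?_)
  · -- a coordinate in the integers
    let ψ : Γ →+ ℤ := (Finsupp.applyAddHom i).comp ((AddMonoidHom.fst _ _).comp φ.toAddMonoidHom)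
    have hψ : ∀ n, (φ (h n)).1 i = ψ (h n) := fun n => rfl
    simp only [hψ]
    obtain ⟨d, K, G, hbd⟩ := Pool.Agent.H612.LR.SML_bd (fun n => ψ (h n))
      (fun i => - P.coeff (P.natDegree - 1 - i)) P.natDegree (by
        intro n
        rw [hrec' n, map_neg, map_sum, ← Finset.sum_neg_distrib, ← Finset.sum_range_reflect]
        refine Finset.sum_congr rfl fun i hi => ?_
        rw [Finset.mem_range] at hi
        rw [map_zsmul, smul_eq_mul, neg_mul]
        have e1 : n + (P.natDegree - 1 - i) = n + P.natDegree - 1 - i := by omega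
        rw [e1])
    exact evPer_int hbd
  · -- a coordinate in a finite cyclic group
    have : NeZero (p j ^ e j) := ⟨pow_ne_zero _ (hp j).ne_zero⟩
    let ψ : Γ →+ ZMod (p j ^ e j) :=
      (DFinsupp.evalAddMonoidHom j).comp ((AddMonoidHom.snd _ _).comp φ.toAddMonoidHom)
    have hψ : ∀ n, (φ (h n)).2 j = ψ (h n) := fun n => rfl
    simp only [hψ]
    refine evPer_finite (fun n => ψ (h n)) P.natDegree
      (fun v => - ∑ i : Fin P.natDegree, P.coeff i • v i) (fun n => ?_) 0
    simp only
    rw [hrec' n, map_neg, map_sum, Finset.sum_range]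
    simp only [map_zsmul]

end Pool.Agent.H775.KE
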