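import Mathlib
import Pool.Agent.X4.SU.UE

/-!
# Job K3 (helper775): two exponential sums with equal values

The unit equation over a finitely generated subgroup of `Qbarˣ` is
`Pool.Agent.X4.SU.bounded` (heights of the ratios in a nondegenerate vanishing sum are bounded);
see also the proof of `Pool.Agent.X4.SU.ratios` for how the Northcott property turns bounded height
in a number field into finiteness.
-/

set_option autoImplicit false

open Finset

namespace Pool.Agent.H775.KE

open Pool.Agent.Helper259.AbsHt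

open NumberField Height Module
open Pool.Agent.H533R3.SL Pool.Agent.Y215.SK Pool.Agent.X4.SU

/-- A minimal vanishing subfamily which meets a set and its complement. -/
theorem minimal_sub {T : Type} [Fintype T] [DecidableEq T] (t : T → Qbar) (A : Finset T)
    (h0 : ∑ s, t s = 0) (hA : ∑ s ∈ A, t s ≠ 0) :
    ∃ S : Finset T, ∑ s ∈ S, t s = 0 ∧ (∀ S' ⊆ S, S'.Nonempty → ∑ s ∈ S', t s = 0 → S' = S) ∧
      (∀ s ∈ S, t s ≠ 0) ∧ (∃ s ∈ S, s ∈ A) ∧ ∃ s ∈ S, s ∉ A := by
  classical
  set F : Finset (Finset T) := Finset.univ.filter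
    fun S => ∑ s ∈ S, t s = 0 ∧ ∑ s ∈ S ∩ A, t s ≠ 0 with hF
  have hFne : F.Nonempty := ⟨Finset.univ, by
    rw [hF, Finset.mem_filter]
    refine ⟨Finset.mem_univ _, h0, ?_⟩
    rw [Finset.univ_inter]
    exact hA⟩
  obtain ⟨S, hSF, hmin⟩ := Finset.exists_min_image F Finset.card hFne
  rw [hF, Finset.mem_filter] at hSF
  obtain ⟨-, hS0, hSA⟩ := hSF
  have hminimal : ∀ S' ⊆ S, S'.Nonempty → ∑ s ∈ S', t s = 0 → S' = S := by
    intro S' hS' hne h1
    by_contra hneq
    by_cases h2 : ∑ s ∈ S' ∩ A, t s = 0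
    · have h3 : S \ S' ∈ F := by
        rw [hF, Finset.mem_filter]
        refine ⟨Finset.mem_univ _, ?_, ?_⟩
        · have := Finset.sum_sdiff (f := t) hS'
          rw [h1, add_zero] at this
          rw [this, hS0]
        · have h4 : S' ∩ A ⊆ S ∩ A := Finset.inter_subset_inter_right hS'
          have h5 : (S \ S') ∩ A = (S ∩ A) \ (S' ∩ A) := by
            ext x
            simp only [Finset.mem_inter, Finset.mem_sdiff]
            tauto
          have := Finset.sum_sdiff (f := t) h4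
          rw [h2, add_zero] at this
          rw [h5, this]
          exact hSA
      have h4 := hmin _ h3
      have h5 : (S \ S').card < S.card := by
        refine Finset.card_lt_card ?_
        refine Finset.ssubset_iff_subset_ne.2 ⟨Finset.sdiff_subset, ?_⟩
        intro h6
        obtain ⟨x, hx⟩ := hne
        have h7 : x ∈ S := hS' hx
        rw [← h6, Finset.mem_sdiff] at h7
        exact h7.2 hx
      omega
    · have h3 : S' ∈ F := by
        rw [hF, Finset.mem_filter]
        exact ⟨Finset.mem_univ _, h1, h2⟩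
      have h4 := hmin _ h3
      have h5 : S'.card < S.card :=
        Finset.card_lt_card (Finset.ssubset_iff_subset_ne.2 ⟨hS', hneq⟩)
      omega
  refine ⟨S, hS0, hminimal, ?_, ?_, ?_⟩
  · intro s hs hs0
    have h1 := hminimal {s} (Finset.singleton_subset_iff.2 hs) (Finset.singleton_nonempty s)
      (by rw [Finset.sum_singleton, hs0])
    apply hSA
    rw [← h1]
    refine Finset.sum_eq_zero fun x hx => ?_
    rw [Finset.mem_inter, Finset.mem_singleton] at hx
    rw [hx.1, hs0]
  · by_contra hcon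
    push Not at hcon
    apply hSA
    have : S ∩ A = ∅ := by
      rw [Finset.eq_empty_iff_forall_notMem]
      intro x hx
      rw [Finset.mem_inter] at hx
      exact hcon x hx.1 hx.2
    rw [this, Finset.sum_empty]
  · by_contra hcon
    push Not at hcon
    apply hSA
    have : S ∩ A = S := Finset.inter_eq_left.2 hcon
    rw [this, hS0]

/-- Finitely many quotients in minimal vanishing subfamilies with terms in a finitely generated
group contained in a number field. -/
theorem finite_ratios {T : Type} [Fintype T] [DecidableEq T] (Γ : Subgroup Qbarˣ) (hΓ : Γ.FG)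
    (L : IntermediateField ℚ Qbar) [NumberField L] (hL : ∀ u ∈ Γ, (u : Qbar) ∈ L) :
    ∃ R : Finset Qbar, ∀ (t : T → Qbar) (S : Finset T), ∑ s ∈ S, t s = 0 →
      (∀ S' ⊆ S, S'.Nonempty → ∑ s ∈ S', t s = 0 → S' = S) →
      (∀ s ∈ S, ∃ u ∈ Γ, t s = (u : Qbar)) → ∀ s ∈ S, ∀ s' ∈ S, t s / t s' ∈ R := by
  classical
  choose C hC using fun r => bounded Γ hΓ r
  set D : ℝ := ∑ r ∈ Finset.range (Fintype.card T + 1), |C r| with hD
  have hfin : {x : L | logHeight₁ x ≤ D * finrank ℚ L}.Finite :=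
    Northcott.finite_le (h := fun x : L => logHeight₁ x) (D * finrank ℚ L)
  refine ⟨(hfin.toFinset).image (fun x : L => (x : Qbar)), ?_⟩
  intro t S hS0 hSmin hSΓ s hs s' hs'
  have hcardpos : 0 < S.card := Finset.card_pos.2 ⟨s, hs⟩
  obtain ⟨r, hr⟩ : ∃ r, S.card = r + 1 := ⟨S.card - 1, by omega⟩
  have hrle : r < Fintype.card T + 1 := by
    have := Finset.card_le_univ S
    omega
  choose! u hu using hSΓ
  let e : Fin (r + 1) ≃ S := (finCongr hr.symm).trans S.equivFin.symm
  have hsumS : ∀ J : Finset (Fin (r + 1)), ∑ j ∈ J, ((u (e j).1 : Qbarˣ) : Qbar) =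
      ∑ x ∈ J.image (fun j => (e j).1), t x := by
    intro J
    rw [Finset.sum_image]
    · refine Finset.sum_congr rfl fun j _ => ?_
      exact (hu _ (e j).2).2.symm
    · intro a _ b _ hab
      exact e.injective (Subtype.ext hab)
  have himg : (Finset.univ : Finset (Fin (r + 1))).image (fun j => (e j).1) = S := by
    ext x
    rw [Finset.mem_image]
    constructor
    · rintro ⟨j, _, rfl⟩
      exact (e j).2
    · intro hx
      exact ⟨e.symm ⟨x, hx⟩, Finset.mem_univ _, by rw [Equiv.apply_symm_apply]⟩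
  have h1 := hC r (fun j => u (e j).1) (fun j => (hu _ (e j).2).1)
    (by rw [hsumS, himg, hS0])
    (by
      intro J hJ hJ0
      rw [hsumS] at hJ0
      have h2 := hSmin _ (by
        intro x hx
        rw [Finset.mem_image] at hx
        obtain ⟨j, _, rfl⟩ := hx
        exact (e j).2) (hJ.image _) hJ0
      rw [Finset.eq_univ_iff_forall]
      intro j
      have h3 : (e j).1 ∈ J.image (fun j => (e j).1) := by
        rw [h2]
        exact (e j).2
      rw [Finset.mem_image] at h3
      obtain ⟨j', hj', h4⟩ := h3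
      rwa [e.injective (Subtype.ext h4)] at hj')
    (e.symm ⟨s, hs⟩) (e.symm ⟨s', hs'⟩)
  simp only [Equiv.apply_symm_apply] at h1
  rw [← (hu s hs).2, ← (hu s' hs').2] at h1
  have hCD : C r ≤ D := by
    refine (le_abs_self _).trans ?_
    exact Finset.single_le_sum (f := fun r => |C r|) (fun _ _ => abs_nonneg _)
      (Finset.mem_range.2 hrle)
  have hmem : t s / t s' ∈ L := by
    rw [(hu s hs).2, (hu s' hs').2]
    exact div_mem (hL _ (hu s hs).1) (hL _ (hu s' hs').1)
  rw [Finset.mem_image]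
  refine ⟨⟨t s / t s', hmem⟩, ?_, rfl⟩
  rw [Set.Finite.mem_toFinset]
  change logHeight₁ (⟨t s / t s', hmem⟩ : L) ≤ D * finrank ℚ L
  have h2 := h1_val L ⟨t s / t s', hmem⟩
  have hpos : (0 : ℝ) < finrank ℚ L := by exact_mod_cast Module.finrank_pos
  have h3 : Pool.Agent.Y215.SK.h1 (((⟨t s / t s', hmem⟩ : L) : Qbar)) ≤ D := h1.trans hCD
  rw [h2, div_le_iff₀ hpos] at h3
  exact h3

/-- TARGET. Suppose `∑ α_i λ_i^m - ∑ β_j μ_j^n = c` with nonzero `λ_i`, `μ_j` and
`|σ λ_i| = a > 1`, `|σ μ_j| = b > 1` for one embedding `σ` of `Qbar` in `ℂ`. If moreover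
`∑ α_i λ_i^m ≠ 0`, then `m` belongs to a finite set, or `a^m / b^n` belongs to a finite set.

Proof. Drop the terms with zero coefficient. For a solution `(m, n)` consider the finite family of
nonzero terms `x_i = α_i λ_i^m`, `y_j = - β_j μ_j^n`, `z = - c` (if `c ≠ 0`), which has sum zero.
Decompose the family into minimal vanishing subfamilies. As `∑ x_i ≠ 0`, one of the minimal
subfamilies contains a term `x_i` and also a term `y_j` or the term `z` (otherwise the `x_i` would
have sum zero). All terms belong to the finitely generated group `Γ ≤ Qbarˣ` generated by the `λ`,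
`μ`, the nonzero `α`, `β`, `c` and `-1`; by `bounded` the height of the quotient of two terms of a
minimal vanishing subfamily is at most a constant; `Γ` is contained in a number field, so (Northcott)
there are finitely many such quotients. Hence `x_i / y_j` or `x_i / z` is in a finite set; take
absolute values under `σ`: `a^m / b^n` is in a finite set, or `a^m` is in a finite set, and then `m`
is in a finite set as `a > 1`. -/
theorem sunit_two {ι κ : Type} [Fintype ι] [Fintype κ] (α lam : ι → Qbar) (β mu : κ → Qbar)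
    (c : Qbar) (σ : Qbar →+* ℂ) (a b : ℝ) (ha : 1 < a) (hb : 1 < b)
    (hl : ∀ i, ‖σ (lam i)‖ = a) (hm : ∀ j, ‖σ (mu j)‖ = b) :
    ∃ (V : Finset ℝ) (M : Finset ℕ), ∀ m n : ℕ,
      ∑ i, α i * lam i ^ m - ∑ j, β j * mu j ^ n = c → ∑ i, α i * lam i ^ m ≠ 0 →
      m ∈ M ∨ ∃ k ∈ V, a ^ m = k * b ^ n := by
  classical
  -- the finite set of numbers, the group and the field
  set F : Finset Qbar := Finset.univ.image α ∪ Finset.univ.image lam ∪ Finset.univ.image β ∪
    Finset.univ.image mu ∪ {c, -1} with hF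
  have hFα : ∀ i, α i ∈ F := fun i => by simp [hF]
  have hFl : ∀ i, lam i ∈ F := fun i => by simp [hF]
  have hFβ : ∀ i, β i ∈ F := fun i => by simp [hF]
  have hFm : ∀ i, mu i ∈ F := fun i => by simp [hF]
  have hFc : c ∈ F := by simp [hF]
  have hF1 : (-1 : Qbar) ∈ F := by simp [hF]
  have hlam0 : ∀ i, lam i ≠ 0 := by
    intro i h0
    have h1 := hl i
    rw [h0, map_zero, norm_zero] at h1
    linarith
  have hmu0 : ∀ i, mu i ≠ 0 := by
    intro i h0
    have h1 := hm i
    rw [h0, map_zero, norm_zero] at h1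
    linarith
  have hUfin : {u : Qbarˣ | (u : Qbar) ∈ F}.Finite := by
    refine Set.Finite.preimage (f := fun u : Qbarˣ => (u : Qbar)) ?_ F.finite_toSet
    intro u _ v _ huv
    exact Units.ext huv
  set Γ : Subgroup Qbarˣ := Subgroup.closure {u : Qbarˣ | (u : Qbar) ∈ F} with hΓ
  have hΓfg : Γ.FG := ⟨hUfin.toFinset, by rw [Set.Finite.coe_toFinset]⟩
  have hΓmem : ∀ (x : Qbar) (hx : x ≠ 0), x ∈ F → Units.mk0 x hx ∈ Γ := by
    intro x hx hxF
    exact Subgroup.subset_closure hxF
  set L : IntermediateField ℚ Qbar := IntermediateField.adjoin ℚ (F : Set Qbar) with hL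
  have hLfd : FiniteDimensional ℚ L := by
    refine IntermediateField.finiteDimensional_adjoin ?_
    intro x _
    exact (AlgebraicClosure.isAlgebraic ℚ).isAlgebraic x |>.isIntegral
  have hLnf : NumberField L := { to_finiteDimensional := hLfd }
  have hLmem : ∀ u ∈ Γ, (u : Qbar) ∈ L := by
    intro u hu
    refine Subgroup.closure_induction (p := fun (u : Qbarˣ) _ => (u : Qbar) ∈ L) ?_ ?_ ?_ ?_ hu
    · intro x hx
      exact IntermediateField.subset_adjoin ℚ _ hx
    · rw [Units.val_one]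
      exact one_mem L
    · intro x y _ _ hx hy
      rw [Units.val_mul]
      exact mul_mem hx hy
    · intro x _ hx
      rw [Units.val_inv_eq_inv_val]
      exact inv_mem hx
  obtain ⟨R, hR⟩ := finite_ratios (T := ι ⊕ (κ ⊕ Unit)) Γ hΓfg L hLmem
  set V : Finset ℝ := (R ×ˢ (Finset.univ : Finset (ι × κ))).image
    (fun p => ‖σ p.1‖ * ‖σ (β p.2.2)‖ / ‖σ (α p.2.1)‖) with hV
  set W : Finset ℝ := (R ×ˢ (Finset.univ : Finset ι)).image
    (fun p => ‖σ p.1‖ * ‖σ c‖ / ‖σ (α p.2)‖) with hW
  have hMfin : {m : ℕ | a ^ m ∈ W}.Finite := by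
    refine Set.Finite.preimage (f := fun m : ℕ => a ^ m) ?_ W.finite_toSet
    exact (pow_right_injective₀ (by linarith) ha.ne').injOn
  refine ⟨V, hMfin.toFinset, ?_⟩
  intro m n hmn hne
  let t : ι ⊕ (κ ⊕ Unit) → Qbar := Sum.elim (fun i => α i * lam i ^ m)
    (Sum.elim (fun j => -(β j * mu j ^ n)) (fun _ => -c))
  have ht0 : ∑ s, t s = 0 := by
    rw [Fintype.sum_sum_type, Fintype.sum_sum_type]
    simp only [t, Sum.elim_inl, Sum.elim_inr, Finset.sum_neg_distrib, Finset.univ_unique,
      Finset.sum_singleton]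
    linear_combination hmn
  set A : Finset (ι ⊕ (κ ⊕ Unit)) := Finset.univ.image Sum.inl with hA
  have htA : ∑ s ∈ A, t s ≠ 0 := by
    rw [hA, Finset.sum_image (fun a _ b _ h => Sum.inl_injective h)]
    exact hne
  obtain ⟨S, hS0, hSmin, hSne, ⟨s, hs, hsA⟩, s', hs', hs'A⟩ := minimal_sub t A ht0 htA
  have hΓt : ∀ x ∈ S, ∃ u ∈ Γ, t x = (u : Qbar) := by
    intro x hx
    have hx0 := hSne x hx
    have hneg1 : Units.mk0 (-1 : Qbar) (neg_ne_zero.2 one_ne_zero) ∈ Γ :=
      hΓmem _ _ hF1
    rcases x with i | j | u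
    · have h1 : α i ≠ 0 := fun h => hx0 (by simp [t, h])
      refine ⟨Units.mk0 (α i) h1 * Units.mk0 (lam i) (hlam0 i) ^ m,
        Γ.mul_mem (hΓmem _ _ (hFα i)) (Γ.pow_mem (hΓmem _ _ (hFl i)) m), ?_⟩
      simp [t]
    · have h1 : β j ≠ 0 := fun h => hx0 (by simp [t, h])
      refine ⟨Units.mk0 (-1 : Qbar) (neg_ne_zero.2 one_ne_zero) * (Units.mk0 (β j) h1 *
        Units.mk0 (mu j) (hmu0 j) ^ n), Γ.mul_mem hneg1
        (Γ.mul_mem (hΓmem _ _ (hFβ j)) (Γ.pow_mem (hΓmem _ _ (hFm j)) n)), ?_⟩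
      simp [t]
    · have h1 : c ≠ 0 := fun h => hx0 (by simp [t, h])
      refine ⟨Units.mk0 (-1 : Qbar) (neg_ne_zero.2 one_ne_zero) * Units.mk0 c h1,
        Γ.mul_mem hneg1 (hΓmem _ _ hFc), ?_⟩
      simp [t]
  have hratio := hR t S hS0 hSmin hΓt s hs s' hs'
  rw [hA, Finset.mem_image] at hsA
  obtain ⟨i, -, rfl⟩ := hsA
  have hi0 := hSne _ hs
  have hαi : α i ≠ 0 := fun h => hi0 (by simp [t, h])
  have hσα : ‖σ (α i)‖ ≠ 0 := by
    rw [norm_ne_zero_iff]
    exact (map_ne_zero σ).2 hαi
  rcases s' with i' | j | u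
  · exfalso
    apply hs'A
    rw [hA, Finset.mem_image]
    exact ⟨i', Finset.mem_univ _, rfl⟩
  · right
    have hj0 := hSne _ hs'
    have hβj : β j ≠ 0 := fun h => hj0 (by simp [t, h])
    refine ⟨‖σ (t (Sum.inl i) / t (Sum.inr (Sum.inl j)))‖ * ‖σ (β j)‖ / ‖σ (α i)‖, ?_, ?_⟩
    · rw [hV, Finset.mem_image]
      exact ⟨(t (Sum.inl i) / t (Sum.inr (Sum.inl j)), (i, j)),
        Finset.mem_product.2 ⟨hratio, Finset.mem_univ _⟩, rfl⟩
    · have e1 : ‖σ (t (Sum.inl i) / t (Sum.inr (Sum.inl j)))‖ =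
          (‖σ (α i)‖ * a ^ m) / (‖σ (β j)‖ * b ^ n) := by
        simp only [t, Sum.elim_inl, Sum.elim_inr]
        rw [map_div₀, norm_div, map_neg, norm_neg, map_mul, map_mul, map_pow, map_pow, norm_mul,
          norm_mul, norm_pow, norm_pow, hl, hm]
      have hσβ : ‖σ (β j)‖ ≠ 0 := by
        rw [norm_ne_zero_iff]
        exact (map_ne_zero σ).2 hβj
      have hbn : b ^ n ≠ 0 := by positivity
      rw [e1]
      field_simp
  · left
    have hc0 := hSne _ hs'
    have hcne : c ≠ 0 := fun h => hc0 (by simp [t, h])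
    rw [Set.Finite.mem_toFinset]
    change a ^ m ∈ W
    rw [hW, Finset.mem_image]
    refine ⟨(t (Sum.inl i) / t (Sum.inr (Sum.inr u)), i),
        Finset.mem_product.2 ⟨hratio, Finset.mem_univ _⟩, ?_⟩
    have e1 : ‖σ (t (Sum.inl i) / t (Sum.inr (Sum.inr u)))‖ =
          (‖σ (α i)‖ * a ^ m) / ‖σ c‖ := by
      simp only [t, Sum.elim_inl, Sum.elim_inr]
      rw [map_div₀, norm_div, map_neg, norm_neg, map_mul, map_pow, norm_mul, norm_pow, hl]
    have hσc : ‖σ c‖ ≠ 0 := by
      rw [norm_ne_zero_iff]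
      exact (map_ne_zero σ).2 hcne
    simp only
    rw [e1]
    field_simp

end Pool.Agent.H775.KE
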