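import Mathlib
import Pool.Agent.Helper259.AbsHt

/-!
# Job K4 (helper775): closed form of a recurrence sequence without multiple roots
-/

set_option autoImplicit false

open Polynomial

namespace Pool.Agent.H775.KE

open Pool.Agent.Helper259.AbsHt

/-- TARGET. A rational sequence with the recurrence given by the monic integer polynomial `P`
without multiple roots, all of whose complex roots have absolute value `a`, is a combination of
powers of algebraic numbers of absolute value `a` (under the given embedding `σ`).

Proof. Take for `lam` the roots of `P` in `Qbar` (`ι` = the finite set of roots). `P` splits in `Qbar`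
with `deg P` distinct roots. By the Vandermonde determinant (or Lagrange interpolation) there are
`α_i` with `s m = ∑ α_i lam_i^m` for `m < deg P`; both sides satisfy the recurrence of order `deg P`,
so they agree for all `m`. `σ (lam_i)` is a complex root of `P`. -/
theorem closed_form (P : ℤ[X]) (hP : P.Monic) (hsq : Squarefree (P.map (Int.castRingHom ℚ)))
    (a : ℝ) (hroot : ∀ z : ℂ, (P.map (Int.castRingHom ℂ)).IsRoot z → ‖z‖ = a)
    (s : ℕ → ℚ)
    (hs : ∀ n, ∑ i ∈ Finset.range (P.natDegree + 1), (P.coeff i : ℚ) * s (n + i) = 0)
    (σ : Qbar →+* ℂ) :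
    ∃ (ι : Type) (_ : Fintype ι) (α lam : ι → Qbar), (∀ i, ‖σ (lam i)‖ = a) ∧
      ∀ m, (algebraMap ℚ Qbar) (s m) = ∑ i, α i * lam i ^ m := by
  classical
  set n := P.natDegree with hn
  set Q : Qbar[X] := P.map (Int.castRingHom Qbar) with hQ
  have hQm : Q.Monic := hP.map _
  have hQn : Q.natDegree = n := hP.natDegree_map _
  have hQ2 : Q = (P.map (Int.castRingHom ℚ)).map (algebraMap ℚ Qbar) := by
    rw [Polynomial.map_map]
    congr 1
  have hsep : Q.Separable := by
    rw [hQ2]
    exact (PerfectField.separable_iff_squarefree.2 hsq).map
  have hnodup : Q.roots.Nodup := nodup_roots hsep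
  have hcard : Q.roots.card = n := by
    rw [← hQn]
    exact (IsAlgClosed.splits Q).natDegree_eq_card_roots.symm
  have hcard' : Fintype.card Q.roots.toFinset = n := by
    rw [Fintype.card_coe, Multiset.toFinset_card_of_nodup hnodup, hcard]
  let e : Fin n ≃ Q.roots.toFinset := (Fintype.equivFinOfCardEq hcard').symm
  let v : Fin n → Qbar := fun i => (e i : Qbar)
  have hv : Function.Injective v := Subtype.val_injective.comp e.injective
  have hvroot : ∀ i, Q.eval (v i) = 0 := by
    intro i
    have := (e i).2
    rw [Multiset.mem_toFinset, mem_roots hQm.ne_zero] at this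
    exact this
  -- the coefficients
  have hunit : IsUnit (Matrix.vandermonde v).transpose := by
    rw [Matrix.isUnit_iff_isUnit_det, Matrix.det_transpose]
    exact isUnit_iff_ne_zero.2 (Matrix.det_vandermonde_ne_zero_iff.2 hv)
  obtain ⟨α, hα⟩ := Matrix.mulVec_surjective_iff_isUnit.2 hunit
    (fun m : Fin n => (algebraMap ℚ Qbar) (s m))
  have hα' : ∀ m < n, (algebraMap ℚ Qbar) (s m) = ∑ i, α i * v i ^ m := by
    intro m hm
    have := congrFun hα ⟨m, hm⟩
    simp only [Matrix.mulVec, dotProduct, Matrix.transpose_apply, Matrix.vandermonde_apply] at this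
    rw [← this]
    exact Finset.sum_congr rfl fun i _ => mul_comm _ _
  refine ⟨Fin n, inferInstance, α, v, ?_, ?_⟩
  · intro i
    apply hroot
    have h1 : (P.map (Int.castRingHom ℂ)) = Q.map σ := by
      rw [hQ, Polynomial.map_map]
      congr 1
      exact RingHom.ext_int _ _
    rw [h1, IsRoot, Polynomial.eval_map, Polynomial.eval₂_hom, hvroot, map_zero]
  · intro m
    induction m using Nat.strong_induction_on with
    | _ m ih =>
    by_cases hm : m < n
    · exact hα' m hm
    · push Not at hm
      obtain ⟨k, rfl⟩ := Nat.exists_eq_add_of_le' hm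
      -- the recurrence for `s`
      have h1 := hs k
      rw [Finset.sum_range_succ] at h1
      have hlead : P.coeff P.natDegree = 1 := hP
      rw [hlead] at h1
      have h2 := congrArg (algebraMap ℚ Qbar) h1
      simp only [map_add, map_sum, map_mul, map_zero, map_intCast] at h2
      -- the recurrence for the powers
      have h3 : ∀ i, ∑ j ∈ Finset.range n, (P.coeff j : Qbar) * v i ^ (k + j) +
          v i ^ (k + n) = 0 := by
        intro i
        have h4 := hvroot i
        rw [Polynomial.eval_eq_sum_range, hQn, Finset.sum_range_succ] at h4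
        have h5 : Q.coeff n = 1 := by rw [← hQn]; exact hQm
        rw [h5] at h4
        have h6 : ∀ j, Q.coeff j = (P.coeff j : Qbar) := by
          intro j
          rw [hQ, Polynomial.coeff_map]
          simp
        simp only [h6] at h4
        have h7 : (∑ j ∈ Finset.range n, (P.coeff j : Qbar) * v i ^ (k + j)) + v i ^ (k + n) =
            v i ^ k * (∑ j ∈ Finset.range n, (P.coeff j : Qbar) * v i ^ j + 1 * v i ^ n) := by
          rw [mul_add, Finset.mul_sum]
          congr 1
          · refine Finset.sum_congr rfl fun j _ => ?_
            rw [pow_add]; ring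
          · rw [pow_add]; ring
        rw [h7, h4, mul_zero]
      have h8 : ∑ i, α i * v i ^ (k + n) = -∑ j ∈ Finset.range n, (P.coeff j : Qbar) *
          ∑ i, α i * v i ^ (k + j) := by
        have h9 : ∀ i, α i * v i ^ (k + n) =
            -∑ j ∈ Finset.range n, (P.coeff j : Qbar) * (α i * v i ^ (k + j)) := by
          intro i
          have h10 := h3 i
          have h11 : v i ^ (k + n) = -∑ j ∈ Finset.range n, (P.coeff j : Qbar) * v i ^ (k + j) := by
            linear_combination h10
          rw [h11, mul_neg, Finset.mul_sum]
          congr 1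
          exact Finset.sum_congr rfl fun j _ => by ring
        simp only [h9]
        rw [Finset.sum_neg_distrib, Finset.sum_comm]
        congr 1
        refine Finset.sum_congr rfl fun j _ => ?_
        rw [Finset.mul_sum]
      rw [h8]
      have h12 : ∑ j ∈ Finset.range n, (P.coeff j : Qbar) * ∑ i, α i * v i ^ (k + j) =
          ∑ j ∈ Finset.range n, (P.coeff j : Qbar) * (algebraMap ℚ Qbar) (s (k + j)) := by
        refine Finset.sum_congr rfl fun j hj => ?_
        rw [ih (k + j) (by have := Finset.mem_range.1 hj; omega)]
      rw [h12]
      simp only [Int.cast_one, one_mul] at h2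
      linear_combination h2

end Pool.Agent.H775.KE
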