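import Mathlib

/-!
# Job K5 (helper775): conformal maps preserving a lattice have a good annihilating polynomial
-/

set_option autoImplicit false

open Polynomial

namespace Pool.Agent.H775.KE

section aux

variable {ι : Type} [Fintype ι] {E : Type} [NormedAddCommGroup E] [NormedSpace ℝ E]

/-- The real part of a complex combination of the vectors `b i`. -/
noncomputable def xv (b : ι → E) (v : ι → ℂ) : E := ∑ i, (v i).re • b i

/-- The imaginary part of a complex combination of the vectors `b i`. -/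
noncomputable def yv (b : ι → E) (v : ι → ℂ) : E := ∑ i, (v i).im • b i

/-- The norm on the complexification. -/
noncomputable def NN (b : ι → E) (v : ι → ℂ) : ℝ := ‖xv b v‖ + ‖yv b v‖

lemma NN_nonneg (b : ι → E) (v : ι → ℂ) : 0 ≤ NN b v := by unfold NN; positivity

lemma xv_add (b : ι → E) (v w : ι → ℂ) : xv b (v + w) = xv b v + xv b w := by
  simp [xv, add_smul, Finset.sum_add_distrib]

lemma yv_add (b : ι → E) (v w : ι → ℂ) : yv b (v + w) = yv b v + yv b w := by
  simp [yv, add_smul, Finset.sum_add_distrib]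

lemma NN_add_le (b : ι → E) (v w : ι → ℂ) : NN b (v + w) ≤ NN b v + NN b w := by
  unfold NN
  rw [xv_add, yv_add]
  have h1 := norm_add_le (xv b v) (xv b w)
  have h2 := norm_add_le (yv b v) (yv b w)
  linarith

lemma xv_smul (b : ι → E) (z : ℂ) (v : ι → ℂ) :
    xv b (z • v) = z.re • xv b v - z.im • yv b v := by
  simp only [xv, yv, Pi.smul_apply, smul_eq_mul, Complex.mul_re, Finset.smul_sum, smul_smul,
    sub_smul, Finset.sum_sub_distrib]

lemma yv_smul (b : ι → E) (z : ℂ) (v : ι → ℂ) :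
    yv b (z • v) = z.re • yv b v + z.im • xv b v := by
  simp only [xv, yv, Pi.smul_apply, smul_eq_mul, Complex.mul_im, Finset.smul_sum, smul_smul,
    add_smul, Finset.sum_add_distrib]

lemma NN_smul_le (b : ι → E) (z : ℂ) (v : ι → ℂ) : NN b (z • v) ≤ 2 * ‖z‖ * NN b v := by
  unfold NN
  rw [xv_smul, yv_smul]
  have h1 := norm_sub_le (z.re • xv b v) (z.im • yv b v)
  have h2 := norm_add_le (z.re • yv b v) (z.im • xv b v)
  simp only [norm_smul, Real.norm_eq_abs] at h1 h2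
  have h3 := Complex.abs_re_le_norm z
  have h4 := Complex.abs_im_le_norm z
  have hx := norm_nonneg (xv b v)
  have hy := norm_nonneg (yv b v)
  nlinarith [mul_le_mul_of_nonneg_right h3 hx, mul_le_mul_of_nonneg_right h3 hy,
    mul_le_mul_of_nonneg_right h4 hx, mul_le_mul_of_nonneg_right h4 hy]

lemma NN_neg (b : ι → E) (v : ι → ℂ) : NN b (-v) = NN b v := by
  have h1 : xv b (-v) = - xv b v := by simp [xv]
  have h2 : yv b (-v) = - yv b v := by simp [yv]
  unfold NN
  rw [h1, h2, norm_neg, norm_neg]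

lemma eq_zero_of_NN {b : ι → E} (hb : LinearIndependent ℝ b) {v : ι → ℂ} (h : NN b v ≤ 0) :
    v = 0 := by
  have hx := norm_nonneg (xv b v)
  have hy := norm_nonneg (yv b v)
  unfold NN at h
  have h1 : xv b v = 0 := norm_eq_zero.1 (by linarith)
  have h2 : yv b v = 0 := norm_eq_zero.1 (by linarith)
  rw [Fintype.linearIndependent_iff] at hb
  funext i
  exact Complex.ext (hb _ h1 i) (hb _ h2 i)

lemma pow_le_aux {a r D : ℝ} (ha : 0 < a) (hr : 0 ≤ r) (h : ∀ n : ℕ, a ^ n ≤ D * r ^ n) :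
    a ≤ r := by
  by_contra hlt
  push Not at hlt
  have h1 : Filter.Tendsto (fun n : ℕ => D * (r / a) ^ n) Filter.atTop (nhds (D * 0)) :=
    (tendsto_pow_atTop_nhds_zero_of_lt_one (by positivity) (by rw [div_lt_one ha]; exact hlt)).const_mul D
  rw [mul_zero] at h1
  have h2 : ∀ n : ℕ, 1 ≤ D * (r / a) ^ n := by
    intro n
    rw [div_pow, ← mul_div_assoc, le_div_iff₀ (by positivity), one_mul]
    exact h n
  have h3 := ge_of_tendsto' h1 h2
  linarith

variable {b : ι → E} (φ : E →L[ℝ] E) (f : Module.End ℂ (ι → ℂ))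

lemma xv_pow (hx : ∀ v, xv b (f v) = φ (xv b v)) (n : ℕ) (v : ι → ℂ) :
    xv b ((f ^ n) v) = (φ ^ n) (xv b v) := by
  induction n generalizing v with
  | zero => simp
  | succ n ih => rw [pow_succ, pow_succ, Module.End.mul_apply, ih, hx]; rfl

lemma yv_pow (hy : ∀ v, yv b (f v) = φ (yv b v)) (n : ℕ) (v : ι → ℂ) :
    yv b ((f ^ n) v) = (φ ^ n) (yv b v) := by
  induction n generalizing v with
  | zero => simp
  | succ n ih => rw [pow_succ, pow_succ, Module.End.mul_apply, ih, hy]; rfl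

variable {a C : ℝ}

lemma NN_upper (hx : ∀ v, xv b (f v) = φ (xv b v)) (hy : ∀ v, yv b (f v) = φ (yv b v))
    (h2 : ∀ (n : ℕ) (v : E), ‖(φ ^ n) v‖ ≤ C * a ^ n * ‖v‖) (n : ℕ) (v : ι → ℂ) :
    NN b ((f ^ n) v) ≤ C * a ^ n * NN b v := by
  unfold NN
  rw [xv_pow φ f hx, yv_pow φ f hy]
  have := h2 n (xv b v)
  have := h2 n (yv b v)
  linarith

lemma NN_lower (hx : ∀ v, xv b (f v) = φ (xv b v)) (hy : ∀ v, yv b (f v) = φ (yv b v))
    (h1 : ∀ (n : ℕ) (v : E), a ^ n * ‖v‖ ≤ C * ‖(φ ^ n) v‖) (n : ℕ) (v : ι → ℂ) :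
    a ^ n * NN b v ≤ C * NN b ((f ^ n) v) := by
  unfold NN
  rw [xv_pow φ f hx, yv_pow φ f hy]
  have := h1 n (xv b v)
  have := h1 n (yv b v)
  linarith

lemma pow_eig {z : ℂ} {v : ι → ℂ} (h : f v = z • v) (n : ℕ) : (f ^ n) v = z ^ n • v := by
  induction n with
  | zero => simp
  | succ n ih => rw [pow_succ', Module.End.mul_apply, ih, map_smul, h, smul_smul, pow_succ]

lemma norm_eig (hb : LinearIndependent ℝ b)
    (hx : ∀ v, xv b (f v) = φ (xv b v)) (hy : ∀ v, yv b (f v) = φ (yv b v)) (ha : 0 < a)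
    (h1 : ∀ (n : ℕ) (v : E), a ^ n * ‖v‖ ≤ C * ‖(φ ^ n) v‖)
    (h2 : ∀ (n : ℕ) (v : E), ‖(φ ^ n) v‖ ≤ C * a ^ n * ‖v‖) {z : ℂ} {v : ι → ℂ} (hv : v ≠ 0)
    (h : f v = z • v) : ‖z‖ = a := by
  have hK : 0 < NN b v := by
    by_contra hh
    exact hv (eq_zero_of_NN hb (not_lt.1 hh))
  apply le_antisymm
  · by_cases hz : z = 0
    · rw [hz, norm_zero]; exact ha.le
    have hz' : 0 < ‖z‖ := norm_pos_iff.2 hz
    refine pow_le_aux (D := 2 * C) hz' ha.le ?_
    intro n
    have e1 : v = (z ^ n)⁻¹ • (z ^ n • v) := by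
      rw [smul_smul, inv_mul_cancel₀ (pow_ne_zero n hz), one_smul]
    have e2 := NN_smul_le b ((z ^ n)⁻¹) (z ^ n • v)
    rw [← e1, norm_inv, norm_pow, ← pow_eig f h n] at e2
    have e3 := NN_upper φ f hx hy h2 n v
    have hzn : 0 < ‖z‖ ^ n := by positivity
    have e4 : ‖z‖ ^ n * NN b v ≤ 2 * NN b ((f ^ n) v) := by
      have := mul_le_mul_of_nonneg_left e2 hzn.le
      calc ‖z‖ ^ n * NN b v ≤ ‖z‖ ^ n * (2 * (‖z‖ ^ n)⁻¹ * NN b ((f ^ n) v)) := this
        _ = 2 * NN b ((f ^ n) v) := by field_simp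
    have e5 : ‖z‖ ^ n * NN b v ≤ (2 * C * a ^ n) * NN b v := by nlinarith
    exact le_of_mul_le_mul_right e5 hK
  · refine pow_le_aux (D := 2 * C) ha (norm_nonneg z) ?_
    intro n
    have e1 := NN_lower φ f hx hy h1 n v
    rw [pow_eig f h n] at e1
    have e2 := NN_smul_le b (z ^ n) v
    rw [norm_pow] at e2
    have hC : 0 ≤ C := by
      by_contra hneg
      push Not at hneg
      have e3 := NN_lower φ f hx hy h1 0 v
      simp only [pow_zero, one_mul, Module.End.one_apply] at e3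
      nlinarith
    have e5 : a ^ n * NN b v ≤ (2 * C * ‖z‖ ^ n) * NN b v := by
      have := mul_le_mul_of_nonneg_left e2 hC
      linarith
    exact le_of_mul_le_mul_right e5 hK

lemma pow_jordan {z : ℂ} {v w : ι → ℂ} (h : f v = z • v + w) (hw : f w = z • w) (n : ℕ) :
    (f ^ (n + 1)) v = z ^ (n + 1) • v + ((n + 1 : ℂ) * z ^ n) • w := by
  induction n with
  | zero => simp [h]
  | succ n ih =>
    rw [pow_succ', Module.End.mul_apply, ih, map_add, map_smul, map_smul, h, hw]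
    rw [smul_add, smul_smul, smul_smul, add_assoc, ← add_smul]
    congr 2
    push_cast
    ring

lemma no_jordan (hb : LinearIndependent ℝ b)
    (hx : ∀ v, xv b (f v) = φ (xv b v)) (hy : ∀ v, yv b (f v) = φ (yv b v)) (ha : 0 < a)
    (h1 : ∀ (n : ℕ) (v : E), a ^ n * ‖v‖ ≤ C * ‖(φ ^ n) v‖)
    (h2 : ∀ (n : ℕ) (v : E), ‖(φ ^ n) v‖ ≤ C * a ^ n * ‖v‖) {z : ℂ} {v w : ι → ℂ}
    (h : f v = z • v + w) (hw : f w = z • w) : w = 0 := by
  by_contra hne
  have hz := norm_eig φ f hb hx hy ha h1 h2 hne hw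
  have hK : 0 < NN b w := by
    by_contra hh
    exact hne (eq_zero_of_NN hb (not_lt.1 hh))
  have hz0 : z ≠ 0 := by
    intro h0
    rw [h0, norm_zero] at hz
    linarith
  have key : ∀ n : ℕ, ((n : ℝ) + 1) * NN b w ≤ 2 * (C + 2) * a * NN b v := by
    intro n
    have e0 : ((n + 1 : ℂ) * z ^ n) • w = (f ^ (n + 1)) v + -(z ^ (n + 1) • v) := by
      rw [pow_jordan f h hw n]; abel
    have e1 := NN_add_le b ((f ^ (n + 1)) v) (-(z ^ (n + 1) • v))
    rw [NN_neg, ← e0] at e1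
    have e2 := NN_upper φ f hx hy h2 (n + 1) v
    have e3 := NN_smul_le b (z ^ (n + 1)) v
    rw [norm_pow, hz] at e3
    have hc : ((n + 1 : ℂ) * z ^ n) ≠ 0 :=
      mul_ne_zero (by exact_mod_cast Nat.succ_ne_zero n) (pow_ne_zero n hz0)
    have e4 := NN_smul_le b (((n + 1 : ℂ) * z ^ n)⁻¹) (((n + 1 : ℂ) * z ^ n) • w)
    rw [smul_smul, inv_mul_cancel₀ hc, one_smul, norm_inv, norm_mul, norm_pow, hz] at e4
    have hn1 : ‖(n + 1 : ℂ)‖ = (n : ℝ) + 1 := by
      have : ((n : ℂ) + 1) = ((n + 1 : ℕ) : ℂ) := by push_cast; ring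
      rw [this, Complex.norm_natCast]; push_cast; ring
    rw [hn1] at e4
    have hpos : 0 < ((n : ℝ) + 1) * a ^ n := by positivity
    have e5 : (((n : ℝ) + 1) * a ^ n) * NN b w ≤ 2 * NN b (((n + 1 : ℂ) * z ^ n) • w) := by
      calc (((n : ℝ) + 1) * a ^ n) * NN b w
          ≤ (((n : ℝ) + 1) * a ^ n) *
            (2 * (((n : ℝ) + 1) * a ^ n)⁻¹ * NN b (((n + 1 : ℂ) * z ^ n) • w)) :=
            mul_le_mul_of_nonneg_left e4 hpos.le
        _ = 2 * NN b (((n + 1 : ℂ) * z ^ n) • w) := by field_simp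
    have e6 : a ^ n * (((n : ℝ) + 1) * NN b w) ≤ a ^ n * (2 * (C + 2) * a * NN b v) := by
      have e7 : a ^ (n + 1) = a ^ n * a := pow_succ a n
      rw [e7] at e2 e3
      nlinarith
    exact le_of_mul_le_mul_left e6 (by positivity)
  obtain ⟨n, hn⟩ := exists_nat_gt (2 * (C + 2) * a * NN b v / NN b w)
  rw [div_lt_iff₀ hK] at hn
  have := key n
  nlinarith

lemma ker_pow (hb : LinearIndependent ℝ b)
    (hx : ∀ v, xv b (f v) = φ (xv b v)) (hy : ∀ v, yv b (f v) = φ (yv b v)) (ha : 0 < a)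
    (h1 : ∀ (n : ℕ) (v : E), a ^ n * ‖v‖ ≤ C * ‖(φ ^ n) v‖)
    (h2 : ∀ (n : ℕ) (v : E), ‖(φ ^ n) v‖ ≤ C * a ^ n * ‖v‖) (z : ℂ) (k : ℕ) (v : ι → ℂ)
    (h : ((f - z • (1 : Module.End ℂ (ι → ℂ))) ^ k) v = 0) : f v = z • v := by
  have key : ∀ u : ι → ℂ, (f - z • (1 : Module.End ℂ (ι → ℂ)))
      ((f - z • (1 : Module.End ℂ (ι → ℂ))) u) = 0 →
      (f - z • (1 : Module.End ℂ (ι → ℂ))) u = 0 := by
    intro u hu
    refine no_jordan φ f hb hx hy ha h1 h2 (z := z) (v := u)
      (w := (f - z • (1 : Module.End ℂ (ι → ℂ))) u) ?_ ?_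
    · simp
    · have := hu
      rw [LinearMap.sub_apply, LinearMap.smul_apply, Module.End.one_apply, sub_eq_zero] at this
      exact this
  have h3 : (f - z • (1 : Module.End ℂ (ι → ℂ))) v = 0 := by
    induction k with
    | zero =>
      simp only [pow_zero, Module.End.one_apply] at h
      rw [h, map_zero]
    | succ k ih =>
      cases k with
      | zero => simpa using h
      | succ k =>
        apply ih
        rw [pow_succ', Module.End.mul_apply]
        apply key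
        rw [pow_succ', pow_succ', Module.End.mul_apply, Module.End.mul_apply] at h
        exact h
  rw [LinearMap.sub_apply, LinearMap.smul_apply, Module.End.one_apply, sub_eq_zero] at h3
  exact h3

lemma aeval_zero (hb : LinearIndependent ℝ b)
    (hx : ∀ v, xv b (f v) = φ (xv b v)) (hy : ∀ v, yv b (f v) = φ (yv b v)) (ha : 0 < a)
    (h1 : ∀ (n : ℕ) (v : E), a ^ n * ‖v‖ ≤ C * ‖(φ ^ n) v‖)
    (h2 : ∀ (n : ℕ) (v : E), ‖(φ ^ n) v‖ ≤ C * a ^ n * ‖v‖) (P : ℂ[X])
    (hP : ∀ z : ℂ, f.HasEigenvalue z → P.IsRoot z) : aeval f P = 0 := by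
  rw [← LinearMap.ker_eq_top, eq_top_iff, ← Module.End.iSup_maxGenEigenspace_eq_top f]
  refine iSup_le fun z => ?_
  intro x hxm
  rw [Module.End.mem_maxGenEigenspace] at hxm
  obtain ⟨k, hk⟩ := hxm
  have h3 := ker_pow φ f hb hx hy ha h1 h2 z k x hk
  rw [LinearMap.mem_ker]
  by_cases hx0 : x = 0
  · rw [hx0, map_zero]
  have h4 : f.HasEigenvector z x := Module.End.hasEigenvector_iff.2
    ⟨Module.End.mem_eigenspace_iff.2 h3, hx0⟩
  rw [Module.End.aeval_apply_of_hasEigenvector h4, hP z (Module.End.hasEigenvalue_of_hasEigenvector h4),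
    zero_smul]

end aux

/-- the radical of a monic integer polynomial -/
lemma exists_radical (χ : ℤ[X]) (hχ : χ.Monic) :
    ∃ P : ℤ[X], P.Monic ∧ Squarefree (P.map (Int.castRingHom ℚ)) ∧
      ∀ z : ℂ, (P.map (Int.castRingHom ℂ)).IsRoot z ↔ (χ.map (Int.castRingHom ℂ)).IsRoot z := by
  classical
  have hχ0 : χ.map (algebraMap ℤ ℚ) ≠ 0 := (hχ.map _).ne_zero
  set R : ℚ[X] := UniqueFactorizationMonoid.radical (χ.map (algebraMap ℤ ℚ)) with hR
  have hRd : R ∣ χ.map (algebraMap ℤ ℚ) := UniqueFactorizationMonoid.radical_dvd_self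
  have hR0 : R ≠ 0 := ne_zero_of_dvd_ne_zero hχ0 hRd
  obtain ⟨P, hP⟩ := IsIntegrallyClosed.eq_map_mul_C_of_dvd ℚ hχ hRd
  have hlc : R.leadingCoeff ≠ 0 := leadingCoeff_ne_zero.2 hR0
  have hass : Associated (P.map (algebraMap ℤ ℚ)) R :=
    ⟨(isUnit_C.2 hlc.isUnit).unit, by simpa using hP⟩
  have hmon : (P.map (algebraMap ℤ ℚ)).Monic := by
    have h1 : (P.map (algebraMap ℤ ℚ)).leadingCoeff * R.leadingCoeff = R.leadingCoeff := by
      conv_rhs => rw [← hP]
      rw [leadingCoeff_mul, leadingCoeff_C]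
    exact mul_right_cancel₀ hlc (by rw [h1, one_mul])
  have hmonP : P.Monic := monic_of_injective (algebraMap ℤ ℚ).injective_int hmon
  refine ⟨P, hmonP, ?_, ?_⟩
  · have : Squarefree R := UniqueFactorizationMonoid.squarefree_radical
    exact (hass.squarefree_iff).2 this
  · intro z
    have e1 : ∀ Q : ℤ[X], (Q.map (Int.castRingHom ℂ)).IsRoot z ↔
        aeval z (Q.map (algebraMap ℤ ℚ)) = 0 := by
      intro Q
      rw [aeval_map_algebraMap, IsRoot.def, eval_map]
      rfl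
    rw [e1, e1]
    constructor
    · intro h
      have h1 : P.map (algebraMap ℤ ℚ) ∣ χ.map (algebraMap ℤ ℚ) := hass.dvd.trans hRd
      obtain ⟨c, hc⟩ := h1
      rw [hc, map_mul, h, zero_mul]
    · intro h
      have hint : IsIntegral ℚ z := by
        refine ⟨χ.map (algebraMap ℤ ℚ), hχ.map _, ?_⟩
        rw [← aeval_def]
        exact h
      have h1 : minpoly ℚ z ∣ χ.map (algebraMap ℤ ℚ) := minpoly.dvd ℚ z h
      have h2 : minpoly ℚ z ∣ R := (UniqueFactorizationMonoid.dvd_radical_iff_of_irreducible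
        (minpoly.irreducible hint) hχ0).2 h1
      have h3 : minpoly ℚ z ∣ P.map (algebraMap ℤ ℚ) := h2.trans hass.dvd'
      obtain ⟨c, hc⟩ := h3
      rw [hc, map_mul, minpoly.aeval, zero_mul]

/-- TARGET. `φ` preserves the lattice `Λ` of `E` and `c a^n ‖v‖ ≤ ‖φ^n v‖ ≤ C a^n ‖v‖`. Then `φ` is
annihilated by a monic integer polynomial without multiple roots, all of whose complex roots have
absolute value `a`. -/
theorem good_poly {E : Type} [NormedAddCommGroup E] [NormedSpace ℝ E] [FiniteDimensional ℝ E]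
    (Λ : Submodule ℤ E) [DiscreteTopology Λ] [IsZLattice ℝ Λ] (φ : E →L[ℝ] E)
    (hφ : ∀ x ∈ Λ, φ x ∈ Λ) (a C : ℝ) (ha : 0 < a)
    (h1 : ∀ (n : ℕ) (v : E), a ^ n * ‖v‖ ≤ C * ‖(φ ^ n) v‖)
    (h2 : ∀ (n : ℕ) (v : E), ‖(φ ^ n) v‖ ≤ C * a ^ n * ‖v‖) :
    ∃ P : ℤ[X], P.Monic ∧ Squarefree (P.map (Int.castRingHom ℚ)) ∧ aeval φ P = 0 ∧
      ∀ z : ℂ, (P.map (Int.castRingHom ℂ)).IsRoot z → ‖z‖ = a := by
  classical
  have : Module.Finite ℤ Λ := ZLattice.module_finite ℝ Λ
  have : Module.Free ℤ Λ := ZLattice.module_free ℝ Λ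
  let ι := Module.Free.ChooseBasisIndex ℤ Λ
  let bZ : Module.Basis ι ℤ Λ := Module.Free.chooseBasis ℤ Λ
  let bR : Module.Basis ι ℝ E := bZ.ofZLatticeBasis ℝ Λ
  let ψ : Λ →ₗ[ℤ] Λ := (φ.toLinearMap.restrictScalars ℤ).restrict hφ
  let M : Matrix ι ι ℤ := LinearMap.toMatrix bZ bZ ψ
  have hMφ : ∀ j, φ (bR j) = ∑ i, ((M i j : ℤ) : ℝ) • bR i := by
    intro j
    have e1 : ψ (bZ j) = ∑ i, M i j • bZ i := by
      conv_lhs => rw [← bZ.sum_repr (ψ (bZ j))]
      refine Finset.sum_congr rfl fun i _ => ?_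
      simp only [M, LinearMap.toMatrix_apply]
    have e2 : φ (bR j) = ((ψ (bZ j) : Λ) : E) := by
      simp only [bR, Module.Basis.ofZLatticeBasis_apply]
      rfl
    rw [e2, e1]
    simp only [bR, Module.Basis.ofZLatticeBasis_apply]
    push_cast
    refine Finset.sum_congr rfl fun i _ => ?_
    rw [Int.cast_smul_eq_zsmul]
  have hb : LinearIndependent ℝ (bR : ι → E) := bR.linearIndependent
  let Mc : Matrix ι ι ℂ := M.map (Int.castRingHom ℂ)
  let f : Module.End ℂ (ι → ℂ) := Matrix.toLin' Mc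
  have hf : ∀ v i, f v i = ∑ j, ((M i j : ℤ) : ℂ) * v j := by
    intro v i
    simp [f, Mc, Matrix.toLin'_apply, Matrix.mulVec, dotProduct]
  have hx : ∀ v, xv bR (f v) = φ (xv bR v) := by
    intro v
    unfold xv
    rw [map_sum]
    simp only [map_smul, hMφ, Finset.smul_sum, smul_smul]
    rw [Finset.sum_comm]
    refine Finset.sum_congr rfl fun i _ => ?_
    rw [← Finset.sum_smul, hf]
    congr 1
    rw [Complex.re_sum]
    refine Finset.sum_congr rfl fun j _ => ?_
    simp [mul_comm]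
  have hy : ∀ v, yv bR (f v) = φ (yv bR v) := by
    intro v
    unfold yv
    rw [map_sum]
    simp only [map_smul, hMφ, Finset.smul_sum, smul_smul]
    rw [Finset.sum_comm]
    refine Finset.sum_congr rfl fun i _ => ?_
    rw [← Finset.sum_smul, hf]
    congr 1
    rw [Complex.im_sum]
    refine Finset.sum_congr rfl fun j _ => ?_
    simp [mul_comm]
  obtain ⟨P, hPm, hPs, hPr⟩ := exists_radical M.charpoly M.charpoly_monic
  have hchar : ∀ z : ℂ, (M.charpoly.map (Int.castRingHom ℂ)).IsRoot z ↔ f.HasEigenvalue z := by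
    intro z
    rw [Module.End.hasEigenvalue_iff_isRoot_charpoly, Matrix.charpoly_toLin', Matrix.charpoly_map]
  refine ⟨P, hPm, hPs, ?_, ?_⟩
  · have e1 : aeval f (P.map (Int.castRingHom ℂ)) = 0 := by
      refine aeval_zero φ f hb hx hy ha h1 h2 _ ?_
      intro z hz
      exact (hPr z).2 ((hchar z).2 hz)
    have e2 : aeval Mc (P.map (Int.castRingHom ℂ)) = 0 := by
      have h3 : aeval ((Matrix.toLinAlgEquiv' (R := ℂ) (n := ι)).toAlgHom Mc)
          (P.map (Int.castRingHom ℂ)) = 0 := e1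
      rw [aeval_algHom_apply] at h3
      exact (Matrix.toLinAlgEquiv' (R := ℂ) (n := ι)).injective (by rw [map_zero]; exact h3)
    have e3 : aeval Mc P = 0 := by
      have h3 : aeval Mc (P.map (algebraMap ℤ ℂ)) = aeval Mc P := aeval_map_algebraMap ℂ Mc P
      rw [← h3]
      exact e2
    have e4 : aeval M P = 0 := by
      have h3 : aeval ((Int.castRingHom ℂ).mapMatrix.toIntAlgHom M) P = 0 := e3
      rw [aeval_algHom_apply] at h3
      have h4 : (Int.castRingHom ℂ).mapMatrix (aeval M P) = 0 := h3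
      ext i j
      have h5 := congrFun (congrFun h4 i) j
      simp only [RingHom.mapMatrix_apply, Matrix.map_apply, Matrix.zero_apply, eq_intCast,
        Int.cast_eq_zero] at h5
      rw [h5, Matrix.zero_apply]
    have e5 : aeval (M.map (Int.castRingHom ℝ)) P = 0 := by
      have h3 : aeval ((Int.castRingHom ℝ).mapMatrix.toIntAlgHom M) P = 0 := by
        rw [aeval_algHom_apply, e4, map_zero]
      exact h3
    have e6 : LinearMap.toMatrixAlgEquiv bR φ.toLinearMap = M.map (Int.castRingHom ℝ) := by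
      ext i j
      rw [LinearMap.toMatrixAlgEquiv_apply]
      have h3 : φ.toLinearMap (bR j) = ∑ i, ((M i j : ℤ) : ℝ) • bR i := hMφ j
      rw [h3, map_sum, Finset.sum_apply']
      simp [Finsupp.single_apply]
    have e7 : aeval φ.toLinearMap P = 0 := by
      have h3 : aeval (((LinearMap.toMatrixAlgEquiv bR).toAlgHom.restrictScalars ℤ)
          φ.toLinearMap) P = 0 := by
        have h4 : ((LinearMap.toMatrixAlgEquiv bR).toAlgHom.restrictScalars ℤ)
          φ.toLinearMap = M.map (Int.castRingHom ℝ) := e6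
        rw [h4, e5]
      rw [aeval_algHom_apply] at h3
      exact (LinearMap.toMatrixAlgEquiv bR).injective (by rw [map_zero]; exact h3)
    have e8 : (ContinuousLinearMap.toLinearMapRingHom (R₁ := ℝ) (M₁ := E)).toIntAlgHom
        (aeval φ P) = 0 := by
      rw [← aeval_algHom_apply]
      exact e7
    ext v
    have h5 := LinearMap.congr_fun e8 v
    exact h5
  · intro z hz
    have h3 := (hchar z).1 ((hPr z).1 hz)
    obtain ⟨v, hv⟩ := h3.exists_hasEigenvector
    exact norm_eig φ f hb hx hy ha h1 h2 hv.2 (Module.End.mem_eigenspace_iff.1 hv.1)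

end Pool.Agent.H775.KE
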