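import Pool.Agent.H775.KE.Defs
import Pool.Agent.H775.KE.K1
import Pool.Agent.H775.KE.K3
import Pool.Agent.H775.KE.K4
import Pool.Agent.H775.KE.K5

/-!
# Job K0 (helper775): orbit intersections on a torus, final step
-/

set_option autoImplicit false

open Polynomial

namespace Pool.Agent.H775.KE

open Pool.Agent.Helper259.AbsHt

/-! ### Auxiliary lemmas -/

theorem k0_finLin_union {S T : Set (ℕ × ℕ)} (hS : FinLin S) (hT : FinLin T) :
    FinLin (S ∪ T) := by
  classical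
  obtain ⟨A, hA⟩ := hS
  obtain ⟨B, hB⟩ := hT
  refine ⟨A ∪ B, ?_⟩
  ext p
  rw [hA, hB]
  simp only [Set.mem_union, Set.mem_setOf_eq, Finset.mem_union]
  constructor
  · rintro (⟨t, ht, l, hl⟩ | ⟨t, ht, l, hl⟩)
    · exact ⟨t, Or.inl ht, l, hl⟩
    · exact ⟨t, Or.inr ht, l, hl⟩
  · rintro ⟨t, ht | ht, l, hl⟩
    · exact Or.inl ⟨t, ht, l, hl⟩
    · exact Or.inr ⟨t, ht, l, hl⟩

theorem k0_finLin_empty : FinLin ∅ := ⟨∅, by simp⟩

theorem k0_finLin_singleton (p : ℕ × ℕ) : FinLin {p} := by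
  refine ⟨{((p.1, p.2), (0, 0))}, ?_⟩
  ext q
  simp

theorem k0_finLin_finite {S : Set (ℕ × ℕ)} (hS : S.Finite) : FinLin S := by
  induction S, hS using Set.Finite.induction_on with
  | empty => exact k0_finLin_empty
  | insert _ _ ih =>
    rw [Set.insert_eq]
    exact k0_finLin_union (k0_finLin_singleton _) ih

theorem k0_finLin_cover {ι : Type} (J : Finset ι) (S : Set (ℕ × ℕ)) (L : ι → Set (ℕ × ℕ))
    (hL : ∀ j ∈ J, FinLin (S ∩ L j)) (hcov : ∀ p ∈ S, ∃ j ∈ J, p ∈ L j) : FinLin S := by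
  classical
  have key : ∀ J' : Finset ι, J' ⊆ J → FinLin (⋃ j ∈ J', S ∩ L j) := by
    intro J'
    induction J' using Finset.induction_on with
    | empty => intro _; simpa using k0_finLin_empty
    | insert j J' _ ih =>
      intro hJ
      rw [Finset.set_biUnion_insert]
      exact k0_finLin_union (hL j (hJ (Finset.mem_insert_self _ _)))
        (ih ((Finset.subset_insert _ _).trans hJ))
  have := key J le_rfl
  convert this using 1
  ext p
  simp only [Set.mem_iUnion, Set.mem_inter_iff, exists_prop]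
  constructor
  · intro hp
    obtain ⟨j, hj, hpj⟩ := hcov p hp
    exact ⟨j, hj, hp, hpj⟩
  · rintro ⟨j, _, hp, _⟩
    exact hp

/-- the shift on sequences -/
def k0shift (G : Type) [AddCommGroup G] : Module.End ℤ (ℕ → G) where
  toFun f := fun n => f (n + 1)
  map_add' _ _ := rfl
  map_smul' _ _ := rfl

theorem k0shift_pow (G : Type) [AddCommGroup G] (i : ℕ) :
    ∀ (f : ℕ → G) (n : ℕ), ((k0shift G) ^ i) f n = f (n + i) := by
  induction i with
  | zero => intro f n; simp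
  | succ i ih =>
    intro f n
    rw [pow_succ]
    show ((k0shift G) ^ i) (k0shift G f) n = _
    rw [ih]
    show f (n + i + 1) = _
    rw [add_assoc]

theorem k0shift_aeval (G : Type) [AddCommGroup G] (P : ℤ[X]) (f : ℕ → G) (n : ℕ) :
    (aeval (k0shift G) P) f n =
      ∑ i ∈ Finset.range (P.natDegree + 1), P.coeff i • f (n + i) := by
  rw [aeval_eq_sum_range]
  simp only [LinearMap.sum_apply, LinearMap.smul_apply, Finset.sum_apply, Pi.smul_apply,
    k0shift_pow]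

theorem k0shift_aeval_zero (G : Type) [AddCommGroup G] (P : ℤ[X]) (f : ℕ → G) :
    (aeval (k0shift G) P) f = 0 ↔
      ∀ n, ∑ i ∈ Finset.range (P.natDegree + 1), P.coeff i • f (n + i) = 0 := by
  constructor
  · intro h n
    rw [← k0shift_aeval, h]; rfl
  · intro h
    funext n
    rw [k0shift_aeval, h]; rfl

/-- a pair of positive exponents with `a ^ p = b ^ q` gives that the solutions of `a ^ m = κ b ^ n`
are covered by finitely many points and lines -/
theorem k0_cover (a b κ : ℝ) (ha : 1 < a) (hb : 1 < b) :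
    ∃ T : Finset ((ℕ × ℕ) × (ℕ × ℕ)),
      (∀ t ∈ T, t.2 = (0, 0) ∨ (0 < t.2.1 ∧ 0 < t.2.2)) ∧
      ∀ p : ℕ × ℕ, a ^ p.1 = κ * b ^ p.2 →
        ∃ t ∈ T, ∃ l : ℕ, p = (t.1.1 + t.2.1 * l, t.1.2 + t.2.2 * l) := by
  classical
  have ha0 : 0 < a := by linarith
  have hb0 : 0 < b := by linarith
  -- comparison of two solutions
  have cmp : ∀ p p' : ℕ × ℕ, a ^ p.1 = κ * b ^ p.2 → a ^ p'.1 = κ * b ^ p'.2 → p.1 ≤ p'.1 →
      p.2 ≤ p'.2 ∧ a ^ (p'.1 - p.1) = b ^ (p'.2 - p.2) := by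
    intro p p' h h' hle
    have hκ : κ ≠ 0 := by
      rintro rfl
      rw [zero_mul] at h
      exact (pow_pos ha0 _).ne' h
    have h1 : a ^ (p'.1 - p.1) * b ^ p.2 = b ^ p'.2 := by
      have e : a ^ p'.1 = a ^ (p'.1 - p.1) * a ^ p.1 := by
        rw [← pow_add]; congr 1; omega
      rw [e, h] at h'
      have : κ * (a ^ (p'.1 - p.1) * b ^ p.2) = κ * b ^ p'.2 := by
        rw [← h']; ring
      exact mul_left_cancel₀ hκ this
    have h2 : p.2 ≤ p'.2 := by
      have : b ^ p.2 ≤ b ^ p'.2 := by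
        rw [← h1]
        exact le_mul_of_one_le_left (pow_pos hb0 _).le (one_le_pow₀ ha.le)
      exact (pow_le_pow_iff_right₀ hb).mp this
    refine ⟨h2, ?_⟩
    have e : b ^ p'.2 = b ^ (p'.2 - p.2) * b ^ p.2 := by
      rw [← pow_add]; congr 1; omega
    rw [e] at h1
    exact mul_right_cancel₀ (pow_pos hb0 _).ne' h1
  by_cases hsub : ∀ p p' : ℕ × ℕ, a ^ p.1 = κ * b ^ p.2 → a ^ p'.1 = κ * b ^ p'.2 → p = p'
  · by_cases hex : ∃ p : ℕ × ℕ, a ^ p.1 = κ * b ^ p.2
    · obtain ⟨p₀, hp₀⟩ := hex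
      refine ⟨{((p₀.1, p₀.2), (0, 0))}, ?_, ?_⟩
      · intro t ht
        rw [Finset.mem_singleton] at ht
        left; rw [ht]
      · intro p hp
        refine ⟨_, Finset.mem_singleton_self _, 0, ?_⟩
        rw [hsub p p₀ hp hp₀]
        simp
    · exact ⟨∅, by simp, fun p hp => absurd ⟨p, hp⟩ hex⟩
  · -- a positive pair
    have hpos : ∃ P Q : ℕ, 0 < P ∧ 0 < Q ∧ a ^ P = b ^ Q := by
      push Not at hsub
      obtain ⟨p, p', h, h', hne⟩ := hsub
      have aux : ∀ p p' : ℕ × ℕ, a ^ p.1 = κ * b ^ p.2 → a ^ p'.1 = κ * b ^ p'.2 → p ≠ p' →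
          p.1 ≤ p'.1 → ∃ P Q : ℕ, 0 < P ∧ 0 < Q ∧ a ^ P = b ^ Q := by
        intro p p' h h' hne hle
        obtain ⟨c1, c2⟩ := cmp p p' h h' hle
        refine ⟨p'.1 - p.1, p'.2 - p.2, ?_, ?_, c2⟩
        · by_contra h0
          have h0' : p'.1 - p.1 = 0 := by omega
          rw [h0', pow_zero] at c2
          have : p'.2 - p.2 = 0 := by
            by_contra h3
            exact absurd c2.symm (one_lt_pow₀ hb h3).ne'
          apply hne
          ext <;> omega
        · by_contra h0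
          have h0' : p'.2 - p.2 = 0 := by omega
          rw [h0', pow_zero] at c2
          have : p'.1 - p.1 = 0 := by
            by_contra h3
            exact absurd c2 (one_lt_pow₀ ha h3).ne'
          apply hne
          ext <;> omega
      rcases le_total p.1 p'.1 with hle | hle
      · exact aux p p' h h' hne hle
      · exact aux p' p h' h hne.symm hle
    obtain ⟨P, Q, hP, hQ, hPQ⟩ := hpos
    -- minimal solutions in the residue classes
    have hmin : ∀ r : ℕ, ∃ x : ℕ × ℕ, ∀ y : ℕ × ℕ, a ^ y.1 = κ * b ^ y.2 → y.1 % P = r →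
        a ^ x.1 = κ * b ^ x.2 ∧ x.1 % P = r ∧ x.1 ≤ y.1 := by
      intro r
      by_cases hex : ∃ m, ∃ n, a ^ m = κ * b ^ n ∧ m % P = r
      · obtain ⟨n, hn1, hn2⟩ := Nat.find_spec hex
        refine ⟨(Nat.find hex, n), fun y hy1 hy2 => ⟨hn1, hn2, ?_⟩⟩
        exact Nat.find_min' hex ⟨y.2, hy1, hy2⟩
      · refine ⟨(0, 0), fun y hy1 hy2 => absurd ⟨y.1, y.2, hy1, hy2⟩ hex⟩
    choose x hx using hmin
    refine ⟨(Finset.range P).image (fun r => (x r, (P, Q))), ?_, ?_⟩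
    · intro t ht
      rw [Finset.mem_image] at ht
      obtain ⟨r, _, rfl⟩ := ht
      right; exact ⟨hP, hQ⟩
    · intro p hp
      obtain ⟨h1, h2, h3⟩ := hx (p.1 % P) p hp rfl
      obtain ⟨h4, h5⟩ := cmp _ _ h1 hp h3
      refine ⟨_, Finset.mem_image.mpr ⟨p.1 % P, Finset.mem_range.mpr (Nat.mod_lt _ hP), rfl⟩,
        (p.1 - (x (p.1 % P)).1) / P, ?_⟩
      have hd : P ∣ p.1 - (x (p.1 % P)).1 := (Nat.modEq_iff_dvd' h3).mp h2
      obtain ⟨l, hl⟩ := hd
      have hl' : (p.1 - (x (p.1 % P)).1) / P = l := by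
        rw [hl, Nat.mul_div_cancel_left _ hP]
      have h6 : p.2 - (x (p.1 % P)).2 = Q * l := by
        rw [hl, pow_mul, hPQ, ← pow_mul] at h5
        exact (pow_right_injective₀ hb0 hb.ne' h5).symm
      rw [hl']
      ext
      · show p.1 = (x (p.1 % P)).1 + P * l
        omega
      · show p.2 = (x (p.1 % P)).2 + Q * l
        omega

/-- finitely many integral functionals detect the torsion elements -/
theorem k0_functionals (G : Type) [AddCommGroup G] [Module.Finite ℤ G] :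
    ∃ (κ : Type) (_ : Fintype κ) (ℓ : κ → G →ₗ[ℤ] ℤ),
      ∀ x : G, (∀ k, ℓ k x = 0) → ∃ n : ℕ, 0 < n ∧ n • x = 0 := by
  classical
  let B := Module.Free.chooseBasis ℤ (G ⧸ Submodule.torsion ℤ G)
  refine ⟨Module.Free.ChooseBasisIndex ℤ (G ⧸ Submodule.torsion ℤ G), inferInstance,
    fun k => (B.coord k) ∘ₗ (Submodule.mkQ (Submodule.torsion ℤ G)), fun x hx => ?_⟩
  have h1 : Submodule.mkQ (Submodule.torsion ℤ G) x = 0 := by
    apply B.ext_elem
    intro k
    have := hx k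
    simpa using this
  have h2 : x ∈ Submodule.torsion ℤ G := by
    rw [Submodule.mkQ_apply, Submodule.Quotient.mk_eq_zero] at h1
    exact h1
  rw [Submodule.mem_torsion_iff] at h2
  obtain ⟨⟨n, hn⟩, h3⟩ := h2
  have hn0 : n ≠ 0 := nonZeroDivisors.ne_zero hn
  refine ⟨n.natAbs, Int.natAbs_pos.mpr hn0, ?_⟩
  have h4 : n • x = 0 := h3
  rcases Int.natAbs_eq n with h | h
  · rw [← natCast_zsmul, ← h]; exact h4
  · rw [← natCast_zsmul, ← neg_eq_zero, ← neg_smul, ← h]; exact h4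

theorem k0_exists_emb : Nonempty (Qbar →+* ℂ) := by
  have h : @Algebra.IsAlgebraic ℚ (AlgebraicClosure ℚ) _ _ (AlgebraicClosure.instAlgebra ℚ) :=
    AlgebraicClosure.isAlgebraic ℚ
  have h : Algebra.IsAlgebraic ℚ (AlgebraicClosure ℚ) := by
    have e : (DivisionRing.toRatAlgebra : Algebra ℚ (AlgebraicClosure ℚ)) =
      AlgebraicClosure.instAlgebra ℚ := Subsingleton.elim _ _
    rw [e]; exact h
  exact ⟨(IsAlgClosed.lift (R := ℚ) (S := AlgebraicClosure ℚ) (M := ℂ)).toRingHom⟩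

/-- the abstract form of the theorem -/
theorem k0_abstract (G : Type) [AddCommGroup G] [Module.Finite ℤ G] (xs ys : ℕ → G) (cs : G)
    (a b : ℝ) (ha : 1 < a) (hb : 1 < b) (P R : ℤ[X]) (hP : P.Monic) (hR : R.Monic)
    (hPs : Squarefree (P.map (Int.castRingHom ℚ))) (hRs : Squarefree (R.map (Int.castRingHom ℚ)))
    (hPr : ∀ z : ℂ, (P.map (Int.castRingHom ℂ)).IsRoot z → ‖z‖ = a)
    (hRr : ∀ z : ℂ, (R.map (Int.castRingHom ℂ)).IsRoot z → ‖z‖ = b)
    (hxP : ∀ n, ∑ i ∈ Finset.range (P.natDegree + 1), P.coeff i • xs (n + i) = 0)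
    (hyR : ∀ n, ∑ i ∈ Finset.range (R.natDegree + 1), R.coeff i • ys (n + i) = 0)
    (hxt : ∀ m k : ℕ, 0 < k → k • xs m ≠ 0)
    (hyi : Function.Injective ys)
    (hx' : ∀ p : ℕ, 0 < p → ∃ P' : ℤ[X], P'.Monic ∧ ∀ m₀ : ℕ,
      aeval (k0shift G) P' (fun l => xs (m₀ + p * l)) = 0)
    (hy' : ∀ p : ℕ, 0 < p → ∃ P' : ℤ[X], P'.Monic ∧ ∀ m₀ : ℕ,
      aeval (k0shift G) P' (fun l => ys (m₀ + p * l)) = 0) :
    FinLin {p : ℕ × ℕ | xs p.1 - ys p.2 - cs = 0} := by
  classical
  obtain ⟨σ⟩ := k0_exists_emb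
  obtain ⟨K, _, ℓ, hℓ⟩ := k0_functionals G
  -- the exponential equations
  have hVM : ∀ k : K, ∃ (V : Finset ℝ) (M : Finset ℕ), ∀ m n : ℕ, xs m - ys n - cs = 0 →
      ℓ k (xs m) ≠ 0 → m ∈ M ∨ ∃ κ ∈ V, a ^ m = κ * b ^ n := by
    intro k
    obtain ⟨ι, _, α, lam, hlam, hsum⟩ := closed_form P hP hPs a hPr
      (fun m => ((ℓ k (xs m) : ℤ) : ℚ)) (by
        intro n
        have := congrArg (fun z : G => ((ℓ k z : ℤ) : ℚ)) (hxP n)
        simpa using this) σ
    obtain ⟨ι', _, β, mu, hmu, hsum'⟩ := closed_form R hR hRs b hRr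
      (fun m => ((ℓ k (ys m) : ℤ) : ℚ)) (by
        intro n
        have := congrArg (fun z : G => ((ℓ k z : ℤ) : ℚ)) (hyR n)
        simpa using this) σ
    obtain ⟨V, M, hVM⟩ := sunit_two α lam β mu (algebraMap ℚ Qbar ((ℓ k cs : ℤ) : ℚ)) σ a b
      ha hb hlam hmu
    refine ⟨V, M, fun m n h h0 => hVM m n ?_ ?_⟩
    · rw [← hsum, ← hsum', ← map_sub]
      congr 1
      have h1 : cs = xs m - ys n := (sub_eq_zero.mp h).symm
      rw [h1, map_sub]
      push_cast
      ring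
    · rw [← hsum]
      intro h1
      apply h0
      have h2 : ((ℓ k (xs m) : ℤ) : ℚ) = 0 := (algebraMap ℚ Qbar).injective (by rw [h1, map_zero])
      exact_mod_cast h2
  choose V M hVM using hVM
  -- the lines
  have hline : ∀ m₀ n₀ p q : ℕ, 0 < p → 0 < q →
      FinLin ({x : ℕ × ℕ | xs x.1 - ys x.2 - cs = 0} ∩
        {x | ∃ l : ℕ, x = (m₀ + p * l, n₀ + q * l)}) := by
    intro m₀ n₀ p q hp hq
    obtain ⟨P', hP'm, hP'⟩ := hx' p hp
    obtain ⟨R', hR'm, hR'⟩ := hy' q hq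
    have hXm : (X - 1 : ℤ[X]).Monic := monic_X_sub_C 1
    have hz : (aeval (k0shift G)) ((X - 1) * P' * R')
        (fun l => xs (m₀ + p * l) - ys (n₀ + q * l) - cs) = 0 := by
      have e : (fun l => xs (m₀ + p * l) - ys (n₀ + q * l) - cs) =
        (fun l => xs (m₀ + p * l)) - (fun l => ys (n₀ + q * l)) - (fun _ => cs) := rfl
      rw [e, map_sub, map_sub]
      have e1 : (aeval (k0shift G)) ((X - 1) * P' * R') (fun l => xs (m₀ + p * l)) = 0 := by
        rw [show (X - 1) * P' * R' = ((X - 1) * R') * P' by ring, map_mul]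
        show (aeval (k0shift G)) ((X - 1) * R') ((aeval (k0shift G)) P'
          (fun l => xs (m₀ + p * l))) = 0
        rw [hP', map_zero]
      have e2 : (aeval (k0shift G)) ((X - 1) * P' * R') (fun l => ys (n₀ + q * l)) = 0 := by
        rw [map_mul]
        show (aeval (k0shift G)) ((X - 1) * P') ((aeval (k0shift G)) R'
          (fun l => ys (n₀ + q * l))) = 0
        rw [hR', map_zero]
      have e3 : (aeval (k0shift G)) ((X - 1) * P' * R') (fun _ => cs) = 0 := by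
        rw [show (X - 1) * P' * R' = (P' * R') * (X - 1) by ring, map_mul]
        show (aeval (k0shift G)) (P' * R') ((aeval (k0shift G)) (X - 1)
          (fun _ => cs)) = 0
        have : (aeval (k0shift G)) (X - 1 : ℤ[X]) (fun _ => cs) = 0 := by
          rw [map_sub, aeval_X, map_one]
          funext n
          show cs - cs = 0
          rw [sub_self]
        rw [this, map_zero]
      rw [e1, e2, e3]; simp
    have hAP := sml_group G (fun l => xs (m₀ + p * l) - ys (n₀ + q * l) - cs)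
      ((X - 1) * P' * R') ((hXm.mul hP'm).mul hR'm) ((k0shift_aeval_zero G _ _).mp hz)
    obtain ⟨T, hT⟩ := hAP
    refine ⟨T.image (fun t => ((m₀ + p * t.1, n₀ + q * t.1), (p * t.2, q * t.2))), ?_⟩
    ext x
    simp only [Set.mem_inter_iff, Set.mem_setOf_eq, Finset.mem_image]
    constructor
    · rintro ⟨h1, l, rfl⟩
      have h2 : l ∈ {n | xs (m₀ + p * n) - ys (n₀ + q * n) - cs = 0} := h1
      rw [hT] at h2
      obtain ⟨t, ht, l', hl'⟩ := h2
      refine ⟨_, ⟨t, ht, rfl⟩, l', ?_⟩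
      rw [hl']
      ext
      · show m₀ + p * (t.1 + l' * t.2) = m₀ + p * t.1 + p * t.2 * l'
        ring
      · show n₀ + q * (t.1 + l' * t.2) = n₀ + q * t.1 + q * t.2 * l'
        ring
    · rintro ⟨_, ⟨t, ht, rfl⟩, l', hl'⟩
      have h2 : t.1 + l' * t.2 ∈ {n | xs (m₀ + p * n) - ys (n₀ + q * n) - cs = 0} := by
        rw [hT]
        exact ⟨t, ht, l', rfl⟩
      have e : x = (m₀ + p * (t.1 + l' * t.2), n₀ + q * (t.1 + l' * t.2)) := by
        rw [hl']
        ext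
        · show m₀ + p * t.1 + p * t.2 * l' = m₀ + p * (t.1 + l' * t.2)
          ring
        · show n₀ + q * t.1 + q * t.2 * l' = n₀ + q * (t.1 + l' * t.2)
          ring
      refine ⟨?_, _, e⟩
      rw [e]
      exact h2
  choose T hT1 hT2 using fun κ : ℝ => k0_cover a b κ ha hb
  -- the cover: the finite set, and the lines
  let S : Set (ℕ × ℕ) := {p : ℕ × ℕ | xs p.1 - ys p.2 - cs = 0}
  let W : Finset ((ℕ × ℕ) × (ℕ × ℕ)) :=
    (Finset.univ : Finset K).biUnion fun k => (V k).biUnion fun κ => T κ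
  let L : Option ((ℕ × ℕ) × (ℕ × ℕ)) → Set (ℕ × ℕ)
    | none => {p | ∃ k : K, p.1 ∈ M k}
    | some t => {p | ∃ l : ℕ, p = (t.1.1 + t.2.1 * l, t.1.2 + t.2.2 * l)}
  apply k0_finLin_cover (Finset.insertNone W) S L
  · intro j hj
    cases j with
    | none =>
      apply k0_finLin_finite
      apply Set.Finite.of_finite_image (f := Prod.fst)
      · apply Set.Finite.subset ((Finset.univ : Finset K).biUnion M).finite_toSet
        rintro _ ⟨p, ⟨_, k, hk⟩, rfl⟩
        simp only [Finset.coe_biUnion, Set.mem_iUnion]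
        exact ⟨k, by simp, hk⟩
      · rintro p ⟨hp, _⟩ p' ⟨hp', _⟩ h
        have h1 : xs p.1 - ys p.2 - cs = 0 := hp
        have h2 : xs p'.1 - ys p'.2 - cs = 0 := hp'
        have h3 : ys p.2 = ys p'.2 := by
          have e1 : ys p.2 = xs p.1 - cs := by
            rw [sub_sub, sub_eq_zero] at h1
            rw [h1]; abel
          have e2 : ys p'.2 = xs p'.1 - cs := by
            rw [sub_sub, sub_eq_zero] at h2
            rw [h2]; abel
          rw [e1, e2, h]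
        exact Prod.ext h (hyi h3)
    | some t =>
      have ht : t ∈ W := by simpa using hj
      simp only [W, Finset.mem_biUnion] at ht
      obtain ⟨k, _, κ, _, ht⟩ := ht
      rcases hT1 κ t ht with h | ⟨h1, h2⟩
      · apply k0_finLin_finite
        apply Set.Finite.subset (Set.finite_singleton (t.1.1, t.1.2))
        rintro p ⟨_, l, hl⟩
        rw [hl, h]
        simp
      · exact hline t.1.1 t.1.2 t.2.1 t.2.2 h1 h2
  · intro p hp
    have hp' : xs p.1 - ys p.2 - cs = 0 := hp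
    have hk : ∃ k, ℓ k (xs p.1) ≠ 0 := by
      by_contra hcon
      push Not at hcon
      obtain ⟨n, hn, hn'⟩ := hℓ _ hcon
      exact hxt p.1 n hn hn'
    obtain ⟨k, hk⟩ := hk
    rcases hVM k p.1 p.2 hp' hk with h | ⟨κ, hκ, h⟩
    · exact ⟨none, by simp, k, h⟩
    · obtain ⟨t, ht, l, hl⟩ := hT2 κ p h
      refine ⟨some t, ?_, l, hl⟩
      have : t ∈ W := by
        simp only [W, Finset.mem_biUnion]
        exact ⟨k, Finset.mem_univ _, κ, hκ, ht⟩
      simpa using this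

section maps

variable {E : Type} [NormedAddCommGroup E] [NormedSpace ℝ E]

theorem k0_pow_mem (Λ : Submodule ℤ E) (T : E →L[ℝ] E) (hT : ∀ x ∈ Λ, T x ∈ Λ) (n : ℕ) (x : E)
    (hx : x ∈ Λ) : (T ^ n) x ∈ Λ := by
  induction n with
  | zero => simpa using hx
  | succ n ih =>
    rw [pow_succ']
    exact hT _ ih

theorem k0_aeval_apply (T : E →L[ℝ] E) (Q : ℤ[X]) (x : E) :
    (aeval T Q) x = ∑ i ∈ Finset.range (Q.natDegree + 1), Q.coeff i • (T ^ i) x := by
  rw [aeval_eq_sum_range]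
  simp

theorem k0_aeval_mem (Λ : Submodule ℤ E) (T : E →L[ℝ] E) (hT : ∀ x ∈ Λ, T x ∈ Λ) (Q : ℤ[X])
    (x : E) (hx : x ∈ Λ) : (aeval T Q) x ∈ Λ := by
  rw [k0_aeval_apply]
  exact Submodule.sum_mem _ fun i _ => Λ.smul_mem _ (k0_pow_mem Λ T hT i x hx)

theorem k0_rec (T : E →L[ℝ] E) (Q : ℤ[X]) (hQ : aeval T Q = 0) (y : E) (n : ℕ) :
    ∑ i ∈ Finset.range (Q.natDegree + 1), Q.coeff i • (T ^ (n + i)) y = 0 := by
  have h := k0_aeval_apply T Q ((T ^ n) y)
  rw [hQ] at h
  have h' : (0 : E →L[ℝ] E) ((T ^ n) y) = 0 := rfl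
  rw [h'] at h
  rw [h]
  apply Finset.sum_congr rfl
  intro i _
  rw [add_comm n i, pow_add]
  rfl

theorem k0_tors (Λ : Submodule ℤ E) (T : E →L[ℝ] E) (hT : ∀ x ∈ Λ, T x ∈ Λ) (P : ℤ[X])
    (hP : aeval T P = 0) (r : ℤ) (hr : P.eval r ≠ 0) (y : E) (k : ℕ) (hk : 0 < k)
    (h : k • (T y - r • y) ∈ Λ) : ∃ k' : ℕ, 0 < k' ∧ k' • y ∈ Λ := by
  obtain ⟨Q, hQ⟩ := Polynomial.X_sub_C_dvd_sub_C_eval (p := P) (a := r)
  have h1 := congrArg (fun q => (aeval T q) y) hQ
  simp only [map_sub, hP, aeval_C, map_mul, aeval_X] at h1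
  have h2 : -(P.eval r • y) = (aeval T Q) (T y - r • y) := by
    have e : (T - (algebraMap ℤ (E →L[ℝ] E)) r) * (aeval T Q) =
        (aeval T Q) * (T - (algebraMap ℤ (E →L[ℝ] E)) r) := by
      have : T - (algebraMap ℤ (E →L[ℝ] E)) r = aeval T (X - C r) := by simp
      rw [this, ← map_mul, ← map_mul, mul_comm]
    rw [e] at h1
    simp only [zero_sub] at h1
    have h3 : (-(algebraMap ℤ (E →L[ℝ] E)) (eval r P)) y = -(P.eval r • y) := by
      simp [Algebra.algebraMap_eq_smul_one]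
    rw [← h3, h1]
    show (aeval T Q) ((T - (algebraMap ℤ (E →L[ℝ] E)) r) y) = _
    congr 1
  have h4 := k0_aeval_mem Λ T hT Q _ h
  rw [map_nsmul, ← h2] at h4
  refine ⟨(P.eval r).natAbs * k, Nat.mul_pos (Int.natAbs_pos.mpr hr) hk, ?_⟩
  have h5 : k • (P.eval r • y) ∈ Λ := by
    have := Λ.neg_mem h4
    simpa using this
  rw [mul_comm, mul_smul]
  rcases Int.natAbs_eq (P.eval r) with h | h
  · rw [← natCast_zsmul y (P.eval r).natAbs, ← h]; exact h5
  · have : (P.eval r).natAbs • y = -(P.eval r • y) := by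
      rw [← natCast_zsmul, ← neg_smul]
      congr 1
      omega
    rw [this, smul_neg]
    exact Λ.neg_mem h5

theorem k0_eval_ne (P : ℤ[X]) (a : ℝ)
    (hr : ∀ z : ℂ, (P.map (Int.castRingHom ℂ)).IsRoot z → ‖z‖ = a) (r : ℤ)
    (hra : ‖(r : ℂ)‖ ≠ a) : P.eval r ≠ 0 := by
  intro h
  apply hra
  apply hr
  rw [Polynomial.IsRoot.def, eval_map, eval₂_at_intCast, Int.cast_id, h]
  simp

theorem k0_seq_mem {N : Type} [AddCommGroup N] (G : Submodule ℤ N) (P : ℤ[X]) (hP : P.Monic)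
    (x : ℕ → N) (hx : ∀ n, ∑ i ∈ Finset.range (P.natDegree + 1), P.coeff i • x (n + i) = 0)
    (h0 : ∀ i, i < P.natDegree → x i ∈ G) (m : ℕ) : x m ∈ G := by
  induction m using Nat.strong_induction_on with
  | _ m ih =>
    rcases Nat.lt_or_ge m P.natDegree with h | h
    · exact h0 m h
    · obtain ⟨n, rfl⟩ : ∃ n, m = n + P.natDegree := ⟨m - P.natDegree, by omega⟩
      have h1 := hx n
      rw [Finset.sum_range_succ, hP.coeff_natDegree, one_smul] at h1
      rw [add_comm, ← eq_neg_iff_add_eq_zero] at h1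
      rw [h1]
      apply G.neg_mem
      apply Submodule.sum_mem
      intro i hi
      rw [Finset.mem_range] at hi
      exact G.smul_mem _ (ih (n + i) (by omega))

end maps

/-- TARGET. Let `Λ` be a lattice in `E`, `φ`, `ψ` linear maps of `E` preserving `Λ` with
`‖φ^n v‖ ≍ a^n ‖v‖`, `‖ψ^n v‖ ≍ b^n ‖v‖`, `a, b > 1`, `A` a linear automorphism of `E` with
`A Λ = Λ`, and `u`, `w` points of `E` without positive multiple in `Λ`. Then
`{(m, n) : φ^m u - A ψ^n w - c ∈ Λ}` is a finite union of linear families.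

Proof. Let `P`, `R` be the polynomials of `good_poly` for `φ`, `ψ`. Let `Γ` be the subgroup of `E`
generated by `Λ`, `c`, the `φ^i u`, `i < deg P`, and the `A ψ^j w`, `j < deg R`. It contains all
`φ^m u` and `A ψ^n w`, and `Γ/Λ` is finitely generated: let `ℓ_1, ..., ℓ_r : Γ/Λ → ℤ` be homomorphisms
whose common kernel is the torsion subgroup.
(1) No `φ^m u` is torsion modulo `Λ`: `φ^m` is injective on `Λ`, so it has finite index image and
`d Λ ⊆ φ^m Λ` for some `d ≥ 1`; if `k φ^m u ∈ Λ` then `d k φ^m u ∈ φ^m Λ`, so `d k u ∈ Λ`.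
In the same way `A ψ^n w - A ψ^n' w ∈ Λ` implies `n = n'`: it gives (`A Λ = Λ`)
`ψ^n (1 - ψ^(n'-n)) w ∈ Λ`, and `ψ^n (1 - ψ^(n'-n))` is injective on `E` (by the growth `b > 1`) and
preserves `Λ`, so a positive multiple of `w` would be in `Λ`.
(2) For each `k` the sequences `ℓ_k (φ^m u)` and `ℓ_k (A ψ^n w)` satisfy the recurrences of `P` and
`R`; `closed_form` and `sunit_two` apply. If `(m, n)` is in the set then, by (1), `ℓ_k (φ^m u) ≠ 0` for
some `k`; so `m` is in a finite set `M` or `a^m = κ b^n` with `κ` in a finite set `V`.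
(3) For fixed `m` there is at most one `n`, by (1).
(4) For fixed `κ` the solutions of `a^m = κ b^n` in `ℕ²` are: none, one, or
`{(m₀ + l p, n₀ + l q) : l ∈ ℕ}` where `(p, q)` is the least pair of positive integers with
`a^p = b^q`. On such a line put `h l = φ^(m₀ + l p) u - A ψ^(n₀ + l q) w - c` in `Γ/Λ`. It satisfies the
linear recurrence with the monic characteristic polynomial `(X - 1) P' R'`, where `P'`, `R'` are monic
integer polynomials annihilating `φ^p` and `ψ^q` (`good_poly` for these powers). So `sml_group` shows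
that `{l | h l = 0}` is a finite union of progressions, and its image on the line is a finite union
of linear families. -/
theorem torus_orbits {E : Type} [NormedAddCommGroup E] [NormedSpace ℝ E] [FiniteDimensional ℝ E]
    (Λ : Submodule ℤ E) [DiscreteTopology Λ] [IsZLattice ℝ Λ] (φ ψ A : E →L[ℝ] E)
    (hφ : ∀ x ∈ Λ, φ x ∈ Λ) (hψ : ∀ x ∈ Λ, ψ x ∈ Λ) (hA : Function.Injective A)
    (hA1 : ∀ x, x ∈ Λ ↔ A x ∈ Λ)
    (a b C : ℝ) (ha : 1 < a) (hb : 1 < b)
    (h1 : ∀ (n : ℕ) (v : E), a ^ n * ‖v‖ ≤ C * ‖(φ ^ n) v‖)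
    (h2 : ∀ (n : ℕ) (v : E), ‖(φ ^ n) v‖ ≤ C * a ^ n * ‖v‖)
    (h3 : ∀ (n : ℕ) (v : E), b ^ n * ‖v‖ ≤ C * ‖(ψ ^ n) v‖)
    (h4 : ∀ (n : ℕ) (v : E), ‖(ψ ^ n) v‖ ≤ C * b ^ n * ‖v‖)
    (u w c : E) (hu : ∀ k : ℕ, 0 < k → k • u ∉ Λ) (hw : ∀ k : ℕ, 0 < k → k • w ∉ Λ) :
    FinLin {p : ℕ × ℕ | (φ ^ p.1) u - A ((ψ ^ p.2) w) - c ∈ Λ} := by
  classical
  have ha0 : 0 < a := by linarith
  have hb0 : 0 < b := by linarith
  obtain ⟨P, hPm, hPs, hP0, hPr⟩ := good_poly Λ φ hφ a C ha0 h1 h2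
  obtain ⟨R, hRm, hRs, hR0, hRr⟩ := good_poly Λ ψ hψ b C hb0 h3 h4
  -- powers
  have hpowφ : ∀ p : ℕ, ∃ P' : ℤ[X], P'.Monic ∧ aeval (φ ^ p) P' = 0 := by
    intro p
    obtain ⟨P', c1, -, c3, -⟩ := good_poly Λ (φ ^ p) (k0_pow_mem Λ φ hφ p) (a ^ p) C
      (pow_pos ha0 p) (by
        intro n v; rw [← pow_mul, ← pow_mul]; exact h1 _ v) (by
        intro n v; rw [← pow_mul, ← pow_mul]; exact h2 _ v)
    exact ⟨P', c1, c3⟩
  have hpowψ : ∀ p : ℕ, ∃ P' : ℤ[X], P'.Monic ∧ aeval (ψ ^ p) P' = 0 ∧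
      ∀ z : ℂ, (P'.map (Int.castRingHom ℂ)).IsRoot z → ‖z‖ = b ^ p := by
    intro p
    obtain ⟨P', c1, -, c3, c4⟩ := good_poly Λ (ψ ^ p) (k0_pow_mem Λ ψ hψ p) (b ^ p) C
      (pow_pos hb0 p) (by
        intro n v; rw [← pow_mul, ← pow_mul]; exact h3 _ v) (by
        intro n v; rw [← pow_mul, ← pow_mul]; exact h4 _ v)
    exact ⟨P', c1, c3, c4⟩
  -- no torsion
  have hP00 : P.eval 0 ≠ 0 := k0_eval_ne P a hPr 0 (by simpa using ha0.ne)
  have hR00 : R.eval 0 ≠ 0 := k0_eval_ne R b hRr 0 (by simpa using hb0.ne)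
  have hdown : ∀ (T : E →L[ℝ] E), (∀ x ∈ Λ, T x ∈ Λ) → ∀ (Q : ℤ[X]), aeval T Q = 0 →
      Q.eval 0 ≠ 0 → ∀ (m : ℕ) (y : E), (∃ k : ℕ, 0 < k ∧ k • (T ^ m) y ∈ Λ) →
      ∃ k : ℕ, 0 < k ∧ k • y ∈ Λ := by
    intro T hT Q hQ hQ0 m
    induction m with
    | zero => intro y h; simpa using h
    | succ m ih =>
      intro y h
      obtain ⟨k, hk, hky⟩ := h
      apply ih
      rw [pow_succ'] at hky
      exact k0_tors Λ T hT Q hQ 0 hQ0 ((T ^ m) y) k hk (by
        rw [zero_smul, sub_zero]; exact hky)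
  have hxt : ∀ m k : ℕ, 0 < k → k • (φ ^ m) u ∉ Λ := by
    intro m k hk hmem
    obtain ⟨k', hk', h'⟩ := hdown φ hφ P hP0 hP00 m u ⟨k, hk, hmem⟩
    exact hu k' hk' h'
  have hyi' : ∀ n d : ℕ, 0 < d → A ((ψ ^ n) w) - A ((ψ ^ (n + d)) w) ∉ Λ := by
    intro n d hd hmem
    rw [← map_sub, ← hA1] at hmem
    have e : (ψ ^ n) w - (ψ ^ (n + d)) w = (ψ ^ n) (w - (ψ ^ d) w) := by
      rw [map_sub, pow_add]; rfl
    rw [e] at hmem
    obtain ⟨k, hk, hk'⟩ := hdown ψ hψ R hR0 hR00 n _ ⟨1, one_pos, by rw [one_smul]; exact hmem⟩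
    obtain ⟨R', r1, r2, r3⟩ := hpowψ d
    have hR1 : R'.eval 1 ≠ 0 := k0_eval_ne R' (b ^ d) r3 1 (by
      simpa using (one_lt_pow₀ hb hd.ne').ne)
    obtain ⟨k', hk1, hk2⟩ := k0_tors Λ (ψ ^ d) (k0_pow_mem Λ ψ hψ d) R' r2 1 hR1 w k hk (by
      rw [one_smul, ← neg_sub w, smul_neg]
      exact Λ.neg_mem hk')
    exact hw k' hk1 hk2
  -- the finitely generated group
  let π : E →ₗ[ℤ] E ⧸ Λ := Λ.mkQ
  let AZ : E →ₗ[ℤ] E := A.toLinearMap.restrictScalars ℤ
  have hAZ : ∀ z, AZ z = A z := fun _ => rfl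
  let F : Finset (E ⧸ Λ) := {π c} ∪ (Finset.range P.natDegree).image (fun i => π ((φ ^ i) u)) ∪
    (Finset.range R.natDegree).image (fun i => π (A ((ψ ^ i) w)))
  let G : Submodule ℤ (E ⧸ Λ) := Submodule.span ℤ (F : Set (E ⧸ Λ))
  have hGfin : Module.Finite ℤ G := Module.Finite.span_finset ℤ F
  have hcG : π c ∈ G := Submodule.subset_span (by simp [F])
  have hxG : ∀ m, π ((φ ^ m) u) ∈ G := by
    apply k0_seq_mem G P hPm
    · intro n
      have := congrArg π (k0_rec φ P hP0 u n)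
      rw [map_sum, map_zero] at this
      simpa only [map_zsmul] using this
    · intro i hi
      apply Submodule.subset_span
      simp only [F, Finset.coe_union, Finset.coe_image]
      left; right
      exact ⟨i, by simpa using hi, rfl⟩
  have hyG : ∀ m, π (A ((ψ ^ m) w)) ∈ G := by
    apply k0_seq_mem G R hRm
    · intro n
      have := congrArg (fun z => π (AZ z)) (k0_rec ψ R hR0 w n)
      simp only [map_sum, map_zero, map_zsmul, hAZ] at this
      exact this
    · intro i hi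
      apply Submodule.subset_span
      simp only [F, Finset.coe_union, Finset.coe_image]
      right
      exact ⟨i, by simpa using hi, rfl⟩
  let xs : ℕ → G := fun m => ⟨π ((φ ^ m) u), hxG m⟩
  let ys : ℕ → G := fun m => ⟨π (A ((ψ ^ m) w)), hyG m⟩
  let cs : G := ⟨π c, hcG⟩
  have hzero : ∀ z : E, π z = 0 ↔ z ∈ Λ := fun z => Submodule.Quotient.mk_eq_zero Λ
  have hmain := k0_abstract G xs ys cs a b ha hb P R hPm hRm hPs hRs hPr hRr
    (by
      intro n
      apply Subtype.ext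
      have := congrArg π (k0_rec φ P hP0 u n)
      rw [map_sum, map_zero] at this
      simpa only [map_zsmul, Submodule.coe_sum, Submodule.coe_smul, xs,
        ZeroMemClass.coe_zero] using this)
    (by
      intro n
      apply Subtype.ext
      have := congrArg (fun z => π (AZ z)) (k0_rec ψ R hR0 w n)
      simp only [map_sum, map_zero, map_zsmul, hAZ] at this
      simpa only [Submodule.coe_sum, Submodule.coe_smul, ys, ZeroMemClass.coe_zero] using this)
    (by
      intro m k hk h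
      have h' := congrArg Subtype.val h
      have h'' : π (k • (φ ^ m) u) = 0 := by
        rw [map_nsmul]; exact h'
      exact hxt m k hk ((hzero _).mp h''))
    (by
      intro n n' h
      have h' : π (A ((ψ ^ n) w)) = π (A ((ψ ^ n') w)) := congrArg Subtype.val h
      rcases lt_trichotomy n n' with hlt | heq | hlt
      · exfalso
        obtain ⟨d, rfl⟩ : ∃ d, n' = n + d := ⟨n' - n, by omega⟩
        apply hyi' n d (by omega)
        rw [← hzero, map_sub, h', sub_self]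
      · exact heq
      · exfalso
        obtain ⟨d, rfl⟩ : ∃ d, n = n' + d := ⟨n - n', by omega⟩
        apply hyi' n' d (by omega)
        rw [← hzero, map_sub, h', sub_self])
    (by
      intro p _
      obtain ⟨P', c1, c2⟩ := hpowφ p
      refine ⟨P', c1, fun m₀ => ?_⟩
      rw [k0shift_aeval_zero]
      intro n
      apply Subtype.ext
      have := congrArg π (k0_rec (φ ^ p) P' c2 ((φ ^ m₀) u) n)
      rw [map_sum, map_zero] at this
      have e : ∀ i, ((φ ^ p) ^ (n + i)) ((φ ^ m₀) u) = (φ ^ (m₀ + p * (n + i))) u := by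
        intro i
        rw [add_comm m₀, pow_add φ (p * (n + i)) m₀, pow_mul]; rfl
      simpa only [map_zsmul, Submodule.coe_sum, Submodule.coe_smul, xs, e,
        ZeroMemClass.coe_zero] using this)
    (by
      intro p _
      obtain ⟨P', c1, c2, -⟩ := hpowψ p
      refine ⟨P', c1, fun m₀ => ?_⟩
      rw [k0shift_aeval_zero]
      intro n
      apply Subtype.ext
      have := congrArg (fun z => π (AZ z)) (k0_rec (ψ ^ p) P' c2 ((ψ ^ m₀) w) n)
      simp only [map_sum, map_zero, map_zsmul, hAZ] at this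
      have e : ∀ i, ((ψ ^ p) ^ (n + i)) ((ψ ^ m₀) w) = (ψ ^ (m₀ + p * (n + i))) w := by
        intro i
        rw [add_comm m₀, pow_add ψ (p * (n + i)) m₀, pow_mul]; rfl
      simp only [e] at this
      simpa only [Submodule.coe_sum, Submodule.coe_smul, ys, ZeroMemClass.coe_zero] using this)
  convert hmain using 1
  ext p
  show (φ ^ p.1) u - A ((ψ ^ p.2) w) - c ∈ Λ ↔ xs p.1 - ys p.2 - cs = 0
  rw [← hzero, map_sub, map_sub]
  constructor
  · intro h
    exact Subtype.ext h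
  · intro h
    exact congrArg Subtype.val h

end Pool.Agent.H775.KE
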