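import Pool.Agent.H775.KE.Defs

/-!
# Calculus of the Levi form
-/

set_option autoImplicit false

open scoped Manifold ContDiff Topology
open Set Filter

namespace Pool.Agent.H775.KE

section vec

variable {E F : Type} [NormedAddCommGroup E] [NormedSpace ℂ E] [NormedAddCommGroup F]
  [NormedSpace ℂ F]

theorem fderiv_fderiv_apply {φ : E → ℝ} {z : E} (hφ : ContDiffAt ℝ 2 φ z) (u v : E) :
    fderiv ℝ (fun w => fderiv ℝ φ w u) z v = fderiv ℝ (fderiv ℝ φ) z v u := by
  have h1 : DifferentiableAt ℝ (fderiv ℝ φ) z :=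
    (hφ.fderiv_right (m := 1) (by norm_num)).differentiableAt (by simp)
  have h2 := h1.hasFDerivAt.clm_apply (hasFDerivAt_const u z)
  rw [h2.fderiv]
  simp

theorem leviForm_eq {φ : E → ℝ} {z : E} (hφ : ContDiffAt ℝ 2 φ z) (v : E) :
    leviForm φ z v = fderiv ℝ (fderiv ℝ φ) z v v +
      fderiv ℝ (fderiv ℝ φ) z (Complex.I • v) (Complex.I • v) := by
  unfold leviForm
  rw [fderiv_fderiv_apply hφ, fderiv_fderiv_apply hφ]

theorem leviForm_congr {φ ψ : E → ℝ} {z : E} (h : φ =ᶠ[𝓝 z] ψ) (v : E) :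
    leviForm φ z v = leviForm ψ z v := by
  unfold leviForm
  have h1 : ∀ u : E, (fun w => fderiv ℝ φ w u) =ᶠ[𝓝 z] fun w => fderiv ℝ ψ w u := by
    intro u
    filter_upwards [h.fderiv (𝕜 := ℝ)] with w hw
    rw [hw]
  rw [(h1 v).fderiv_eq, (h1 _).fderiv_eq]

theorem leviForm_comp {φ : E → ℝ} {h : F → E} {z : F} (hh : ContDiffAt ℂ 2 h z)
    (hφ : ContDiffAt ℝ 2 φ (h z)) (v : F) :
    leviForm (φ ∘ h) z v = leviForm φ (h z) (fderiv ℂ h z v) := by
  have hhR : ContDiffAt ℝ 2 h z := hh.restrict_scalars ℝ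
  have hcomp : ContDiffAt ℝ 2 (φ ∘ h) z := hφ.comp z hhR
  rw [leviForm_eq hφ]
  unfold leviForm
  have e1 : ∀ᶠ w in 𝓝 z, ∀ u, fderiv ℝ (φ ∘ h) w u = fderiv ℝ φ (h w) (fderiv ℂ h w u) := by
    have c1 : ∀ᶠ w in 𝓝 z, ContDiffAt ℂ 1 h w := (hh.of_le (by norm_num)).eventually (by simp)
    have c2 : ∀ᶠ w in 𝓝 z, ContDiffAt ℝ 1 φ (h w) :=
      hh.continuousAt.eventually ((hφ.of_le (by norm_num)).eventually (by simp))
    filter_upwards [c1, c2] with w hw1 hw2 u
    have d1 : HasFDerivAt h ((fderiv ℂ h w).restrictScalars ℝ) w :=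
      (hw1.differentiableAt (by simp)).hasFDerivAt.restrictScalars ℝ
    have d2 : HasFDerivAt φ (fderiv ℝ φ (h w)) (h w) :=
      (hw2.differentiableAt (by simp)).hasFDerivAt
    rw [(d2.comp w d1).fderiv]
    rfl
  have hD : DifferentiableAt ℂ (fderiv ℂ h) z :=
    (hh.fderiv_right (m := 1) (by norm_num)).differentiableAt (by simp)
  have hφ1 : DifferentiableAt ℝ (fderiv ℝ φ) (h z) :=
    (hφ.fderiv_right (m := 1) (by norm_num)).differentiableAt (by simp)
  have d1 : HasFDerivAt h ((fderiv ℂ h z).restrictScalars ℝ) z :=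
    (hh.differentiableAt (by simp)).hasFDerivAt.restrictScalars ℝ
  have key : ∀ u u' : F, fderiv ℝ (fun w => fderiv ℝ (φ ∘ h) w u) z u' =
      fderiv ℝ (fderiv ℝ φ) (h z) (fderiv ℂ h z u') (fderiv ℂ h z u) +
        fderiv ℝ φ (h z) (fderiv ℂ (fderiv ℂ h) z u' u) := by
    intro u u'
    have e2 : (fun w => fderiv ℝ (φ ∘ h) w u) =ᶠ[𝓝 z]
        fun w => fderiv ℝ φ (h w) (fderiv ℂ h w u) := by
      filter_upwards [e1] with w hw using hw u
    rw [e2.fderiv_eq]
    have a1 : HasFDerivAt (fun w => fderiv ℝ φ (h w))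
        ((fderiv ℝ (fderiv ℝ φ) (h z)).comp ((fderiv ℂ h z).restrictScalars ℝ)) z :=
      hφ1.hasFDerivAt.comp z d1
    have a2 : HasFDerivAt (fun w => fderiv ℂ h w u)
        (((fderiv ℂ (fderiv ℂ h) z).flip u).restrictScalars ℝ) z := by
      have := (hD.hasFDerivAt.clm_apply (hasFDerivAt_const u z)).restrictScalars ℝ
      have h0 : (fderiv ℂ h z).comp (0 : F →L[ℂ] F) + (fderiv ℂ (fderiv ℂ h) z).flip u =
          (fderiv ℂ (fderiv ℂ h) z).flip u := by
        rw [ContinuousLinearMap.comp_zero, zero_add]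
      rw [h0] at this
      exact this
    rw [(a1.clm_apply a2).fderiv]
    simp [add_comm]
  rw [key, key]
  have l1 : fderiv ℂ h z (Complex.I • v) = Complex.I • fderiv ℂ h z v := map_smul _ _ _
  have l2 : fderiv ℂ (fderiv ℂ h) z (Complex.I • v) (Complex.I • v) =
      - fderiv ℂ (fderiv ℂ h) z v v := by
    rw [map_smul (fderiv ℂ (fderiv ℂ h) z), smul_apply, map_smul, smul_smul,
      Complex.I_mul_I, neg_one_smul]
  rw [l1, l2, map_neg]
  ring

theorem leviForm_add {φ ψ : E → ℝ} {z : E} (hφ : ContDiffAt ℝ 2 φ z) (hψ : ContDiffAt ℝ 2 ψ z)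
    (v : E) : leviForm (fun x => φ x + ψ x) z v = leviForm φ z v + leviForm ψ z v := by
  have hs : ContDiffAt ℝ 2 (fun x => φ x + ψ x) z := hφ.add hψ
  rw [leviForm_eq hφ, leviForm_eq hψ, leviForm_eq hs]
  have e : fderiv ℝ (fun x => φ x + ψ x) =ᶠ[𝓝 z] fun w => fderiv ℝ φ w + fderiv ℝ ψ w := by
    have c1 : ∀ᶠ w in 𝓝 z, ContDiffAt ℝ 1 φ w := (hφ.of_le (by norm_num)).eventually (by simp)
    have c2 : ∀ᶠ w in 𝓝 z, ContDiffAt ℝ 1 ψ w := (hψ.of_le (by norm_num)).eventually (by simp)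
    filter_upwards [c1, c2] with w h1 h2
    exact fderiv_fun_add (h1.differentiableAt (by simp)) (h2.differentiableAt (by simp))
  have hφ1 : DifferentiableAt ℝ (fderiv ℝ φ) z :=
    (hφ.fderiv_right (m := 1) (by norm_num)).differentiableAt (by simp)
  have hψ1 : DifferentiableAt ℝ (fderiv ℝ ψ) z :=
    (hψ.fderiv_right (m := 1) (by norm_num)).differentiableAt (by simp)
  rw [e.fderiv_eq, fderiv_fun_add hφ1 hψ1]
  simp only [add_apply]
  ring

theorem leviForm_const_mul {φ : E → ℝ} {z : E} (hφ : ContDiffAt ℝ 2 φ z) (c : ℝ)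
    (v : E) : leviForm (fun x => c * φ x) z v = c * leviForm φ z v := by
  have hs : ContDiffAt ℝ 2 (fun x => c * φ x) z := contDiffAt_const.mul hφ
  rw [leviForm_eq hφ, leviForm_eq hs]
  have e : fderiv ℝ (fun x => c * φ x) =ᶠ[𝓝 z] fun w => c • fderiv ℝ φ w := by
    have c1 : ∀ᶠ w in 𝓝 z, ContDiffAt ℝ 1 φ w := (hφ.of_le (by norm_num)).eventually (by simp)
    filter_upwards [c1] with w h1
    exact fderiv_const_mul (h1.differentiableAt (by simp)) c
  have hφ1 : DifferentiableAt ℝ (fderiv ℝ φ) z :=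
    (hφ.fderiv_right (m := 1) (by norm_num)).differentiableAt (by simp)
  rw [e.fderiv_eq, fderiv_fun_const_smul hφ1]
  simp only [smul_apply, smul_eq_mul]
  ring

theorem leviForm_smul {φ : E → ℝ} {z : E} (hφ : ContDiffAt ℝ 2 φ z) (a : ℂ) (v : E) :
    leviForm φ z (a • v) = ‖a‖ ^ 2 * leviForm φ z v := by
  rw [leviForm_eq hφ, leviForm_eq hφ]
  set B := fderiv ℝ (fderiv ℝ φ) z
  have hsym : ∀ x y, B x y = B y x := by
    have : IsSymmSndFDerivAt ℝ φ z := hφ.isSymmSndFDerivAt (by simp)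
    intro x y
    exact this x y
  have h1 : a • v = a.re • v + a.im • (Complex.I • v) := by
    conv_lhs => rw [← Complex.re_add_im a]
    rw [add_smul, mul_smul]
    rfl
  have h2 : Complex.I • (a • v) = (-a.im) • v + a.re • (Complex.I • v) := by
    rw [h1, smul_add, smul_comm Complex.I a.re, smul_comm Complex.I a.im, smul_smul Complex.I,
      Complex.I_mul_I, neg_one_smul, smul_neg, neg_smul, add_comm]
  have h3 : ‖a‖ ^ 2 = a.re ^ 2 + a.im ^ 2 := by
    rw [← Complex.normSq_eq_norm_sq, Complex.normSq_apply]; ring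
  rw [h2, h1, h3]
  simp only [map_add, map_smul, add_apply, smul_apply, smul_eq_mul]
  rw [hsym (Complex.I • v) v]
  ring

end vec

end Pool.Agent.H775.KE
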