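import Pool.Agent.H775.KE.XAFF
import Pool.Agent.H775.KE.K0
import Pool.Agent.H775.KE.J1
import Pool.Agent.H775.KE.J2

/-!
# Job XASM (helper775): orbit intersections on a manifold uniformized by a vector space

Files to copy from origin/main (outputs/live) to /workdir/pool first, then `lake build Pool.Agent.H775.KE.Atl`:
Pool/Agent/H775/KE/{Defs,Levi,Man,Atl}.lean  (all proven; read them: `pb`, `pb_comp`, `pb_congr`, `FinLin`).
Return ONE file `Pool/Agent/H775/KE/XASM.lean` which imports `Pool.Agent.H775.KE.Atl`, contains the four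
GIVEN theorems below as they are (with sorry; they are proven elsewhere) and proves the target
`orbits_of_cover` with exactly this name and statement (compile it with `lake build`; the package
options matter). Helper lemmas: names starting with `XASM_`.
-/

set_option autoImplicit false

open scoped Manifold ContDiff Topology
open Set Filter Metric

namespace Pool.Agent.H775.KE

variable {E : Type} [NormedAddCommGroup E] [NormedSpace ℂ E]
variable {X : Type} [TopologicalSpace X] [ChartedSpace E X]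

theorem XASM_self [FiniteDimensional ℂ E] [IsManifold 𝓘(ℂ, E) ω X] [T2Space X]
    [CompactSpace X] {q : ∀ x : X, TangentSpace 𝓘(ℂ, E) x → ℝ}
    (c C : ℝ) (hc : 0 < c) (Ψ : E → X) (hΨ : ContMDiff 𝓘(ℂ, E) 𝓘(ℂ, E) ω Ψ)
    (h1 : ∀ z v, c * ‖v‖ ^ 2 ≤ pb q Ψ z v) (h2 : ∀ z v, pb q Ψ z v ≤ C * ‖v‖ ^ 2)
    (hcov : IsCoveringMap Ψ) (z₀ w₀ : E) (hz : Ψ w₀ = Ψ z₀) :
    ∃ A : E ≃L[ℝ] E, ∀ z, Ψ (w₀ + A (z - z₀)) = Ψ z := by
  obtain ⟨L, hL, -, -⟩ := affine_lift c C hc Ψ hΨ h1 hcov Ψ hΨ h2 z₀ w₀ hz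
  obtain ⟨M, hM, -, -⟩ := affine_lift c C hc Ψ hΨ h1 hcov Ψ hΨ h2 w₀ z₀ hz.symm
  have k1 : ∀ v, M (L v) = v := by
    have : (fun z => z₀ + M (L (z - z₀))) = id := by
      refine hcov.eq_of_comp_eq (by fun_prop) continuous_id ?_ z₀ (by simp)
      funext z
      simp only [Function.comp_apply, id]
      have := hM (w₀ + L (z - z₀))
      rw [add_sub_cancel_left, hL] at this
      exact this
    intro v
    have := congrFun this (z₀ + v)
    simpa using this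
  have k2 : ∀ v, L (M v) = v := by
    have : (fun z => w₀ + L (M (z - w₀))) = id := by
      refine hcov.eq_of_comp_eq (by fun_prop) continuous_id ?_ w₀ (by simp)
      funext z
      simp only [Function.comp_apply, id]
      have := hL (z₀ + M (z - w₀))
      rw [add_sub_cancel_left, hM] at this
      exact this
    intro v
    have := congrFun this (w₀ + v)
    simpa using this
  refine ⟨ContinuousLinearEquiv.equivOfInverse (L.restrictScalars ℝ) (M.restrictScalars ℝ)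
    (fun v => k1 v) (fun v => k2 v), fun z => hL z⟩

theorem XASM_bound [FiniteDimensional ℂ E] [IsManifold 𝓘(ℂ, E) ω X] [T2Space X]
    [CompactSpace X] {q : ∀ x : X, TangentSpace 𝓘(ℂ, E) x → ℝ}
    (c C : ℝ) (hc : 0 < c) (Ψ : E → X) (hΨ : ContMDiff 𝓘(ℂ, E) 𝓘(ℂ, E) ω Ψ)
    (h1 : ∀ z v, c * ‖v‖ ^ 2 ≤ pb q Ψ z v) (h2 : ∀ z v, pb q Ψ z v ≤ C * ‖v‖ ^ 2)
    (hcov : IsCoveringMap Ψ) (w : E) (A : E ≃L[ℝ] E) (hA : ∀ z, Ψ (w + A z) = Ψ z) (v : E) :
    ‖A v‖ ≤ √(|C| / c) * ‖v‖ := by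
  have hw : Ψ w = Ψ 0 := by simpa using hA 0
  obtain ⟨L, hL, hb, hu⟩ := affine_lift c C hc Ψ hΨ h1 hcov Ψ hΨ h2 0 w hw
  have k1 : ∀ z, A z = L z := by
    intro z
    have := hu (fun z => w + A z) (by fun_prop) (by simp) hA z
    simpa using this
  have k2 := hb v
  rw [← k1] at k2
  have k3 : ‖A v‖ ^ 2 ≤ |C| / c * ‖v‖ ^ 2 := by
    rw [div_mul_eq_mul_div, le_div_iff₀ hc, mul_comm]
    exact k2.trans (by gcongr; exact le_abs_self C)
  have k4 : 0 ≤ |C| / c := by positivity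
  apply le_of_sq_le_sq _ (by positivity)
  rw [mul_pow, Real.sq_sqrt k4]
  exact k3

theorem XASM_opbound {V W : Type} [NormedAddCommGroup V] [NormedAddCommGroup W]
    [NormedSpace ℝ V] [NormedSpace ℝ W] (T : V ≃L[ℝ] W) : ∃ K : ℝ, 0 ≤ K ∧ ∀ x, ‖T x‖ ≤ K * ‖x‖ :=
  ⟨‖(T : V →L[ℝ] W)‖, norm_nonneg _, fun x => (T : V →L[ℝ] W).le_opNorm x⟩

theorem XASM_radius [CompactSpace X] (Ψ : E → X) (hcov : IsCoveringMap Ψ)
    (hsurj : Function.Surjective Ψ) : ∃ r : ℝ, 0 < r ∧ ∀ z, ∃ w, ‖w‖ < r ∧ Ψ w = Ψ z := by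
  have h1 : ∀ n : ℕ, IsOpen (Ψ '' ball (0 : E) n) := fun n => hcov.isOpenMap _ isOpen_ball
  have h2 : (univ : Set X) ⊆ ⋃ n : ℕ, Ψ '' ball (0 : E) n := by
    intro x _
    obtain ⟨z, rfl⟩ := hsurj x
    obtain ⟨n, hn⟩ := exists_nat_gt ‖z‖
    exact mem_iUnion.2 ⟨n, z, by simpa using hn, rfl⟩
  have h3 : Directed (· ⊆ ·) fun n : ℕ => Ψ '' ball (0 : E) n := by
    apply Monotone.directed_le
    intro a b hab
    exact image_mono (ball_subset_ball (by exact_mod_cast hab))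
  obtain ⟨n, hn⟩ := isCompact_univ.elim_directed_cover _ h1 h2 h3
  refine ⟨n + 1, by positivity, fun z => ?_⟩
  obtain ⟨w, hw, e⟩ := hn (mem_univ (Ψ z))
  refine ⟨w, ?_, e⟩
  have : ‖w‖ < n := by simpa using hw
  linarith

theorem XASM_fibre [FiniteDimensional ℂ E] [T2Space X] (Ψ : E → X) (hcov : IsCoveringMap Ψ)
    (x : X) (R : ℝ) : ((closedBall (0 : E) R) ∩ Ψ ⁻¹' {x}).Finite := by
  have : ProperSpace E := FiniteDimensional.proper ℂ E
  have : DiscreteTopology (Ψ ⁻¹' {x}) := (hcov x).discreteTopology_fiber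
  exact Metric.finite_isBounded_inter_isClosed ⟨inferInstance⟩ isBounded_closedBall
    (isClosed_singleton.preimage hcov.continuous)

theorem XASM_deck [FiniteDimensional ℂ E] [IsManifold 𝓘(ℂ, E) ω X] [T2Space X]
    [CompactSpace X] {q : ∀ x : X, TangentSpace 𝓘(ℂ, E) x → ℝ}
    (c C : ℝ) (hc : 0 < c) (Ψ : E → X) (hΨ : ContMDiff 𝓘(ℂ, E) 𝓘(ℂ, E) ω Ψ)
    (h1 : ∀ z v, c * ‖v‖ ^ 2 ≤ pb q Ψ z v) (h2 : ∀ z v, pb q Ψ z v ≤ C * ‖v‖ ^ 2)
    (hcov : IsCoveringMap Ψ) (hsurj : Function.Surjective Ψ) :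
    ∃ (Λ : Submodule ℤ E) (_ : DiscreteTopology Λ) (_ : IsZLattice ℝ Λ)
      (S : Finset (E × (E ≃L[ℝ] E))),
      (∀ v, v ∈ Λ ↔ ∀ z, Ψ (v + z) = Ψ z) ∧
      (∀ p ∈ S, ∀ v, v ∈ Λ ↔ p.2 v ∈ Λ) ∧
      ∀ z w, Ψ z = Ψ w ↔ ∃ p ∈ S, z - (p.1 + p.2 w) ∈ Λ := by
  classical
  have : FiniteDimensional ℝ E := FiniteDimensional.complexToReal E
  -- the linear parts
  obtain ⟨T, hT⟩ := invariant_euclid {A : E ≃L[ℝ] E | ∃ w, ∀ z, Ψ (w + A z) = Ψ z}
    ⟨0, fun z => by simp⟩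
    (by
      rintro A ⟨a, ha⟩ B ⟨b, hb⟩
      refine ⟨b + B a, fun z => ?_⟩
      have := hb (a + A z)
      rw [map_add, ← add_assoc, ha z] at this
      exact this)
    (by
      rintro A ⟨a, ha⟩
      refine ⟨- A.symm a, fun z => ?_⟩
      rw [← ha]
      simp)
    (√(|C| / c))
    (by
      rintro A ⟨a, ha⟩ v
      exact XASM_bound c C hc Ψ hΨ h1 h2 hcov a A ha v)
  -- the group
  let Γ : Subgroup (EuclideanSpace ℝ (Fin (Module.finrank ℝ E)) ≃ᵃⁱ[ℝ]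
      EuclideanSpace ℝ (Fin (Module.finrank ℝ E))) :=
    { carrier := {a | ∀ x, Ψ (T.symm (a x)) = Ψ (T.symm x)}
      mul_mem' := by
        intro a b ha hb x
        have h1 := ha (b x)
        have h2 := hb x
        exact h1.trans h2
      one_mem' := fun x => rfl
      inv_mem' := by
        intro a ha x
        have := ha (a⁻¹ x)
        have e : a (a⁻¹ x) = x := a.apply_symm_apply x
        rw [e] at this
        exact this.symm }
  have memΓ : ∀ a, a ∈ Γ ↔ ∀ x, Ψ (T.symm (a x)) = Ψ (T.symm x) := fun a => Iff.rfl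
  -- transitivity
  have trans : ∀ z w, Ψ z = Ψ w → ∃ g ∈ Γ, g (T w) = T z := by
    intro z w hzw
    obtain ⟨A, hA⟩ := XASM_self c C hc Ψ hΨ h1 h2 hcov w z hzw
    have hA' : ∀ y, Ψ ((z - A w) + A y) = Ψ y := by
      intro y
      rw [← hA y, map_sub]
      congr 1
      abel
    have hn := hT A ⟨z - A w, hA'⟩
    let I : EuclideanSpace ℝ (Fin (Module.finrank ℝ E)) ≃ₗᵢ[ℝ]
        EuclideanSpace ℝ (Fin (Module.finrank ℝ E)) :=
      { toLinearEquiv := ((T.symm.trans A).trans T).toLinearEquiv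
        norm_map' := by
          intro x
          have := hn (T.symm x)
          simpa using this }
    have hI : ∀ x, I x = T (A (T.symm x)) := fun x => rfl
    refine ⟨I.toAffineIsometryEquiv.trans (AffineIsometryEquiv.constVAdd ℝ _ (T (z - A w))),
      ?_, ?_⟩
    · intro x
      have : (I.toAffineIsometryEquiv.trans (AffineIsometryEquiv.constVAdd ℝ _ (T (z - A w)))) x
          = T ((z - A w) + A (T.symm x)) := by
        simp [hI]
      rw [this, T.symm_apply_apply]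
      exact hA' _
    · simp [hI]
  -- uniqueness
  have uniq : ∀ g ∈ Γ, ∀ g' ∈ Γ, g 0 = g' 0 → g = g' := by
    intro g hg g' hg' h0
    have : (fun z => T.symm (g (T z))) = fun z => T.symm (g' (T z)) := by
      refine hcov.eq_of_comp_eq ?_ ?_ ?_ 0 ?_
      · exact T.symm.continuous.comp (g.continuous.comp T.continuous)
      · exact T.symm.continuous.comp (g'.continuous.comp T.continuous)
      · funext z
        simp only [Function.comp_apply]
        rw [(memΓ g).1 hg, (memΓ g').1 hg']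
      · simp [h0]
    ext1 x
    have := congrFun this (T.symm x)
    simpa using this
  obtain ⟨K₁, hK₁, hK₁'⟩ := XASM_opbound T
  obtain ⟨K₂, hK₂, hK₂'⟩ := XASM_opbound T.symm
  obtain ⟨r, hr, hrad⟩ := XASM_radius Ψ hcov hsurj
  obtain ⟨Λ₀, S₀, hdisc, hspan, hmem, hcos, hlin⟩ := bieberbach _ Γ Γ.subtype
    (by
      intro R
      -- injects into the fibre
      have hf := XASM_fibre Ψ hcov (Ψ 0) (K₂ * R)
      refine Set.Finite.of_finite_image (f := fun g : Γ => T.symm (g.1 0)) (hf.subset ?_) ?_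
      · rintro _ ⟨g, hg, rfl⟩
        constructor
        · have hg' : ‖g.1 0‖ ≤ R := hg
          rw [mem_closedBall_zero_iff]
          exact (hK₂' _).trans (by gcongr)
        · have := g.2 0
          simpa using this
      · intro g _ g' _ h
        have : g.1 0 = g'.1 0 := T.symm.injective h
        exact Subtype.ext (uniq g.1 g.2 g'.1 g'.2 this))
    (K₁ * r)
    (by
      intro z
      obtain ⟨w, hw, e⟩ := hrad (T.symm z)
      obtain ⟨g, hg, hgz⟩ := trans _ _ e.symm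
      refine ⟨⟨g, hg⟩, ?_⟩
      rw [T.apply_symm_apply] at hgz
      have : ‖g 0 - z‖ = ‖T w‖ := by
        conv_lhs => rw [← hgz, ← dist_eq_norm, g.dist_map, dist_zero_left]
      show ‖g 0 - z‖ ≤ _
      rw [this]
      exact (hK₁' _).trans (by gcongr))
  have := hdisc
  have : IsZLattice ℝ Λ₀ := ⟨hspan⟩
  have hΛ : ∀ v, v ∈ ZLattice.comap ℝ Λ₀ (T.toLinearMap) ↔ T v ∈ Λ₀ := fun v => Iff.rfl
  refine ⟨ZLattice.comap ℝ Λ₀ T.toLinearMap, inferInstance, inferInstance,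
    S₀.image fun g => (T.symm (g.1 0),
      (T.trans (g.1.linearIsometryEquiv.toContinuousLinearEquiv)).trans T.symm), ?_, ?_, ?_⟩
  · intro v
    rw [hΛ, hmem]
    constructor
    · rintro ⟨g, hg⟩ z
      have e1 := g.2 (T z)
      have e2 := hg (T z)
      rw [show (Γ.subtype g) (T z) = g.1 (T z) from rfl] at e2
      rw [e2, ← map_add, T.symm_apply_apply, T.symm_apply_apply] at e1
      exact e1
    · intro h
      refine ⟨⟨AffineIsometryEquiv.constVAdd ℝ _ (T v), ?_⟩, fun z => rfl⟩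
      intro x
      have := h (T.symm x)
      simpa using this
  · intro p hp v
    rw [Finset.mem_image] at hp
    obtain ⟨g, hg, rfl⟩ := hp
    rw [hΛ, hΛ, hlin g]
    simp
  · intro z w
    have key : ∀ g : Γ, T.symm (g.1 0) + ((T.trans
        (g.1.linearIsometryEquiv.toContinuousLinearEquiv)).trans T.symm) w =
        T.symm (g.1 (T w)) := by
      intro g
      have := g.1.map_vadd 0 (T w)
      simp only [vadd_eq_add, add_zero] at this
      rw [this, map_add, add_comm]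
      rfl
    constructor
    · intro hzw
      obtain ⟨g, hg, e⟩ := trans z w hzw
      obtain ⟨t, ht, v, hv, h⟩ := hcos ⟨g, hg⟩
      refine ⟨_, Finset.mem_image_of_mem _ ht, ?_⟩
      simp only
      rw [key, hΛ]
      have := h (T w)
      rw [show (Γ.subtype ⟨g, hg⟩) (T w) = g (T w) from rfl, e] at this
      rw [map_sub, this, T.apply_symm_apply]
      simpa using hv
    · rintro ⟨p, hp, hzw⟩
      rw [Finset.mem_image] at hp
      obtain ⟨g, hg, rfl⟩ := hp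
      simp only at hzw
      rw [key, hΛ, hmem] at hzw
      obtain ⟨g', hg'⟩ := hzw
      have e1 := g'.2 (g.1 (T w))
      have e2 := hg' (g.1 (T w))
      rw [show (Γ.subtype g') (g.1 (T w)) = g'.1 (g.1 (T w)) from rfl] at e2
      rw [e2, map_sub, T.apply_symm_apply, sub_add_cancel, T.symm_apply_apply, g.2 (T w),
        T.symm_apply_apply] at e1
      exact e1

theorem XASM_iter (L : E →L[ℂ] E) (w : E) (m : ℕ) :
    ∃ a : E, (fun z => w + L z)^[m] = fun z => a + (L ^ m) z := by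
  induction m with
  | zero => exact ⟨0, by funext z; simp⟩
  | succ m ih =>
    obtain ⟨a, ha⟩ := ih
    refine ⟨w + L a, ?_⟩
    funext z
    rw [Function.iterate_succ_apply', ha, pow_succ']
    simp [add_assoc]

theorem XASM_lift [FiniteDimensional ℂ E] [IsManifold 𝓘(ℂ, E) ω X] [T2Space X]
    [CompactSpace X] {q : ∀ x : X, TangentSpace 𝓘(ℂ, E) x → ℝ}
    (c C : ℝ) (hc : 0 < c) (Ψ : E → X) (hΨ : ContMDiff 𝓘(ℂ, E) 𝓘(ℂ, E) ω Ψ)
    (h1 : ∀ z v, c * ‖v‖ ^ 2 ≤ pb q Ψ z v) (h2 : ∀ z v, pb q Ψ z v ≤ C * ‖v‖ ^ 2)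
    (hcov : IsCoveringMap Ψ) (hsurj : Function.Surjective Ψ)
    (f : X → X) (hf : IsLocalDiffeomorph 𝓘(ℂ, E) 𝓘(ℂ, E) ω f) (δ A : ℝ) (hδ : 1 < δ)
    (f1 : ∀ (m : ℕ) (x : X) (v : TangentSpace 𝓘(ℂ, E) x),
      δ ^ m * q x v ≤ A * q (f^[m] x) (mfderiv 𝓘(ℂ, E) 𝓘(ℂ, E) (f^[m]) x v))
    (f2 : ∀ (m : ℕ) (x : X) (v : TangentSpace 𝓘(ℂ, E) x),
      q (f^[m] x) (mfderiv 𝓘(ℂ, E) 𝓘(ℂ, E) (f^[m]) x v) ≤ A * δ ^ m * q x v) :
    ∃ (x₁ : E) (L : E →L[ℂ] E), Function.Surjective L ∧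
      (∀ v, Ψ (x₁ + L v) = f (Ψ (x₁ + v))) ∧
      (∀ (m : ℕ) (v : E), √δ ^ m * ‖v‖ ≤ √(|A| * |C| / c) * ‖(L ^ m) v‖) ∧
      (∀ (m : ℕ) (v : E), ‖(L ^ m) v‖ ≤ √(|A| * |C| / c) * √δ ^ m * ‖v‖) := by
  have hfm : ∀ m, ContMDiff 𝓘(ℂ, E) 𝓘(ℂ, E) ω (f^[m]) := by
    intro m
    induction m with
    | zero => exact contMDiff_id
    | succ m ih =>
      rw [Function.iterate_succ]
      exact ih.comp hf.contMDiff
  have pbf : ∀ m z v, pb q (f^[m] ∘ Ψ) z v =
      q (f^[m] (Ψ z)) (mfderiv 𝓘(ℂ, E) 𝓘(ℂ, E) (f^[m]) (Ψ z) (mfderiv 𝓘(ℂ, E) 𝓘(ℂ, E) Ψ z v)) := by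
    intro m z v
    unfold pb
    rw [mfderiv_comp z ((hfm m).mdifferentiableAt (by simp)) (hΨ.mdifferentiableAt (by simp))]
    rfl
  have g1 : ∀ m z v, δ ^ m * pb q Ψ z v ≤ A * pb q (f^[m] ∘ Ψ) z v := by
    intro m z v
    rw [pbf]
    exact f1 m (Ψ z) _
  have g2 : ∀ m z v, pb q (f^[m] ∘ Ψ) z v ≤ A * δ ^ m * pb q Ψ z v := by
    intro m z v
    rw [pbf]
    exact f2 m (Ψ z) _
  have hpos : ∀ z v, 0 ≤ pb q Ψ z v := fun z v => le_trans (by positivity) (h1 z v)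
  have h2' : ∀ z v, pb q Ψ z v ≤ |C| * ‖v‖ ^ 2 := fun z v =>
    (h2 z v).trans (by gcongr; exact le_abs_self C)
  have hδ0 : 0 < δ := by linarith
  obtain ⟨w₀, hw₀⟩ := hsurj (f (Ψ 0))
  obtain ⟨L, hL, -, -⟩ := affine_lift c (|A| * δ * |C|) hc Ψ hΨ h1 hcov (f ∘ Ψ)
    (hf.contMDiff.comp hΨ) (by
      intro z v
      have := g2 1 z v
      rw [Function.iterate_one, pow_one] at this
      refine this.trans ?_
      calc A * δ * pb q Ψ z v ≤ |A| * δ * pb q Ψ z v := by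
            have := hpos z v
            gcongr
            exact le_abs_self A
        _ ≤ |A| * δ * (|C| * ‖v‖ ^ 2) := by
            gcongr
            exact h2' z v
        _ = _ := by ring) 0 w₀ hw₀
  have hsemi : ∀ m, Ψ ∘ (fun z => w₀ + L z)^[m] = f^[m] ∘ Ψ := by
    intro m
    have : Function.Semiconj Ψ (fun z => w₀ + L z) f := by
      intro z
      have := hL z
      rw [sub_zero] at this
      exact this
    funext z
    exact (this.iterate_right m) z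
  have pbm : ∀ m z v, pb q (f^[m] ∘ Ψ) z v = pb q Ψ ((fun z => w₀ + L z)^[m] z) ((L ^ m) v) := by
    intro m z v
    rw [← hsemi]
    obtain ⟨a, ha⟩ := XASM_iter L w₀ m
    have hd : fderiv ℂ (fun z => a + (L ^ m) z) z = L ^ m := by
      rw [fderiv_const_add]
      exact (L ^ m).fderiv
    rw [ha, pb_comp hΨ.contMDiffAt (by fun_prop), hd]
  have e1 : ∀ (m : ℕ) (v : E), δ ^ m * (c * ‖v‖ ^ 2) ≤ |A| * (|C| * ‖(L ^ m) v‖ ^ 2) := by
    intro m v
    calc δ ^ m * (c * ‖v‖ ^ 2) ≤ δ ^ m * pb q Ψ 0 v := by gcongr; exact h1 0 v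
      _ ≤ A * pb q (f^[m] ∘ Ψ) 0 v := g1 m 0 v
      _ ≤ |A| * pb q (f^[m] ∘ Ψ) 0 v := by
        have : 0 ≤ pb q (f^[m] ∘ Ψ) 0 v := by rw [pbm]; exact hpos _ _
        gcongr
        exact le_abs_self A
      _ ≤ _ := by
        rw [pbm]
        gcongr
        exact h2' _ _
  have e2 : ∀ (m : ℕ) (v : E), c * ‖(L ^ m) v‖ ^ 2 ≤ |A| * δ ^ m * (|C| * ‖v‖ ^ 2) := by
    intro m v
    calc c * ‖(L ^ m) v‖ ^ 2 ≤ pb q (f^[m] ∘ Ψ) 0 v := by rw [pbm]; exact h1 _ _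
      _ ≤ A * δ ^ m * pb q Ψ 0 v := g2 m 0 v
      _ ≤ |A| * δ ^ m * pb q Ψ 0 v := by
        have := hpos 0 v
        gcongr
        exact le_abs_self A
      _ ≤ _ := by
        gcongr
        exact h2' _ _
  have hK : 0 ≤ |A| * |C| / c := by positivity
  have hsq : ∀ m : ℕ, (√δ ^ m) ^ 2 = δ ^ m := by
    intro m
    rw [← pow_mul, mul_comm, pow_mul, Real.sq_sqrt hδ0.le]
  have b1 : ∀ (m : ℕ) (v : E), √δ ^ m * ‖v‖ ≤ √(|A| * |C| / c) * ‖(L ^ m) v‖ := by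
    intro m v
    apply le_of_sq_le_sq _ (by positivity)
    rw [mul_pow, mul_pow, Real.sq_sqrt hK, hsq, div_mul_eq_mul_div, le_div_iff₀ hc]
    have := e1 m v
    nlinarith
  have b2 : ∀ (m : ℕ) (v : E), ‖(L ^ m) v‖ ≤ √(|A| * |C| / c) * √δ ^ m * ‖v‖ := by
    intro m v
    apply le_of_sq_le_sq _ (by positivity)
    rw [mul_pow, mul_pow, Real.sq_sqrt hK, hsq, div_mul_eq_mul_div, div_mul_eq_mul_div,
      le_div_iff₀ hc]
    have := e2 m v
    nlinarith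
  have hs1 : 1 < √δ := by
    rw [Real.lt_sqrt (by norm_num)]
    simpa using hδ
  have hinj : Function.Injective L := by
    rw [injective_iff_map_eq_zero]
    intro v hv
    have := b1 1 v
    rw [pow_one, pow_one, hv, norm_zero, mul_zero] at this
    have h3 : ‖v‖ ≤ 0 := by
      by_contra h
      push Not at h
      have : 0 < √δ * ‖v‖ := by positivity
      linarith
    simpa using h3
  have hinj1 : Function.Injective ((1 : E →L[ℂ] E) - L) := by
    rw [injective_iff_map_eq_zero]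
    intro v hv
    have hv' : L v = v := by
      have : v - L v = 0 := hv
      rw [sub_eq_zero] at this
      exact this.symm
    have hvm : ∀ m : ℕ, (L ^ m) v = v := by
      intro m
      induction m with
      | zero => simp
      | succ m ih => rw [pow_succ, mul_apply_eq_comp, hv', ih]
    by_contra hne
    have hvp : 0 < ‖v‖ := by positivity
    obtain ⟨m, hm⟩ := pow_unbounded_of_one_lt (√(|A| * |C| / c)) hs1
    have := b1 m v
    rw [hvm] at this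
    have := le_of_mul_le_mul_right this hvp
    linarith
  have hsurjL : Function.Surjective L :=
    (LinearMap.injective_iff_surjective (f := (L : E →ₗ[ℂ] E))).1 hinj
  have hsurj1 : Function.Surjective ((1 : E →L[ℂ] E) - L) :=
    (LinearMap.injective_iff_surjective
      (f := (((1 : E →L[ℂ] E) - L : E →L[ℂ] E) : E →ₗ[ℂ] E))).1 hinj1
  obtain ⟨x₁, hx₁⟩ := hsurj1 w₀
  have hx₁' : w₀ = x₁ - L x₁ := hx₁.symm
  refine ⟨x₁, L, hsurjL, fun v => ?_, b1, b2⟩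
  have := hL (x₁ + v)
  rw [Function.comp_apply, sub_zero, map_add, hx₁'] at this
  rw [← this]
  congr 1
  abel

theorem XASM_torsion {V : Type} [NormedAddCommGroup V] [NormedSpace ℝ V] [FiniteDimensional ℝ V]
    (Λ : Submodule ℤ V) [DiscreteTopology Λ] [IsZLattice ℝ Λ] (k : ℕ) (hk : 0 < k) :
    ∃ S : Set V, S.Finite ∧ ∀ v, k • v ∈ Λ → ∃ s ∈ S, v - s ∈ Λ := by
  have := ZLattice.module_free ℝ Λ
  have := ZLattice.module_finite ℝ Λ
  let b := (Module.Free.chooseBasis ℤ Λ).ofZLatticeBasis ℝ Λ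
  have hb : Submodule.span ℤ (range b) = Λ :=
    (Module.Free.chooseBasis ℤ Λ).ofZLatticeBasis_span ℝ
  have hinj : Function.Injective fun v : V => k • v := by
    intro v w h
    have : (k : ℝ) • v = (k : ℝ) • w := by simpa [Nat.cast_smul_eq_nsmul] using h
    exact smul_right_injective V (by exact_mod_cast hk.ne') this
  refine ⟨(fun v : V => k • v) ⁻¹' (closedBall 0 (k * ∑ i, ‖b i‖) ∩ Λ), ?_, ?_⟩
  · apply Set.Finite.preimage hinj.injOn
    have := ZSpan.setFinite_inter b (s := closedBall 0 (k * ∑ i, ‖b i‖)) isBounded_closedBall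
    rw [hb] at this
    exact this
  · intro v hv
    have h1 : (ZSpan.floor b v : V) ∈ Λ := hb.le (ZSpan.floor b v).2
    refine ⟨ZSpan.fract b v, ⟨?_, ?_⟩, ?_⟩
    · rw [mem_closedBall_zero_iff]
      show ‖k • ZSpan.fract b v‖ ≤ _
      rw [← Nat.cast_smul_eq_nsmul ℝ, norm_smul]
      simp only [Real.norm_natCast]
      gcongr
      exact ZSpan.norm_fract_le b v
    · show k • ZSpan.fract b v ∈ Λ
      rw [ZSpan.fract_apply, smul_sub]
      exact Λ.sub_mem hv (Submodule.smul_of_tower_mem Λ k h1)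
    · rw [ZSpan.fract_apply, sub_sub_cancel]
      exact h1

theorem XASM_finLin_union {ι : Type} (S : Finset ι) (f : ι → Set (ℕ × ℕ))
    (h : ∀ i ∈ S, FinLin (f i)) : FinLin {p | ∃ i ∈ S, p ∈ f i} := by
  classical
  choose! T hT using h
  refine ⟨S.biUnion T, ?_⟩
  ext p
  simp only [mem_ofPred_eq, Finset.mem_biUnion]
  constructor
  · rintro ⟨i, hi, hp⟩
    rw [hT i hi] at hp
    obtain ⟨t, ht, l, hl⟩ := hp
    exact ⟨t, ⟨i, hi, ht⟩, l, hl⟩
  · rintro ⟨t, ⟨i, hi, ht⟩, l, hl⟩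
    refine ⟨i, hi, ?_⟩
    rw [hT i hi]
    exact ⟨t, ht, l, hl⟩

theorem XASM_pow (L : E →L[ℂ] E) (n : ℕ) (v : E) :
    ((L.restrictScalars ℝ) ^ n) v = (L ^ n) v := by
  induction n generalizing v with
  | zero => simp
  | succ n ih =>
    rw [pow_succ, pow_succ, mul_apply_eq_comp, mul_apply_eq_comp, ih]
    rfl

/-- The data of the lift of one map, with the lattice. -/
theorem XASM_one [FiniteDimensional ℂ E] {Ψ : E → X} (f : X → X) (x₁ : E) (L : E →L[ℂ] E)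
    (hLs : Function.Surjective L) (hL : ∀ v, Ψ (x₁ + L v) = f (Ψ (x₁ + v)))
    (Λ : Submodule ℤ E) (_ : DiscreteTopology Λ) (_ : IsZLattice ℝ Λ)
    (hΛ : ∀ v, v ∈ Λ ↔ ∀ z, Ψ (v + z) = Ψ z) (u : E)
    (hP : (range fun m => f^[m] (Ψ (x₁ + u))).Infinite) :
    (∀ x ∈ Λ, L x ∈ Λ) ∧ (∀ m, f^[m] (Ψ (x₁ + u)) = Ψ (x₁ + (L ^ m) u)) ∧
      ∀ k : ℕ, 0 < k → k • u ∉ Λ := by
  have : FiniteDimensional ℝ E := FiniteDimensional.complexToReal E
  have a1 : ∀ x ∈ Λ, L x ∈ Λ := by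
    intro x hx
    rw [hΛ] at hx ⊢
    intro z
    obtain ⟨y, hy⟩ := hLs (z - x₁)
    have e1 : L x + z = x₁ + L (x + y) := by
      rw [map_add, hy]
      abel
    have e2 : z = x₁ + L y := by
      rw [hy]
      abel
    rw [e1, hL]
    conv_rhs => rw [e2, hL]
    have := hx (x₁ + y)
    rw [show x + (x₁ + y) = x₁ + (x + y) by abel] at this
    rw [this]
  have a2 : ∀ m, f^[m] (Ψ (x₁ + u)) = Ψ (x₁ + (L ^ m) u) := by
    intro m
    induction m with
    | zero => simp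
    | succ m ih =>
      rw [Function.iterate_succ_apply', ih, ← hL, pow_succ', mul_apply_eq_comp]
  refine ⟨a1, a2, fun k hk hku => hP ?_⟩
  obtain ⟨S, hS, hS'⟩ := XASM_torsion Λ k hk
  refine (hS.image fun s => Ψ (x₁ + s)).subset ?_
  rintro _ ⟨m, rfl⟩
  have h3 : ∀ m : ℕ, k • ((L ^ m) u) ∈ Λ := by
    intro m
    induction m with
    | zero => simpa using hku
    | succ m ih =>
      have := a1 _ ih
      rw [map_nsmul] at this
      rw [pow_succ', mul_apply_eq_comp]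
      exact this
  obtain ⟨s, hs, hs'⟩ := hS' _ (h3 m)
  refine ⟨s, hs, ?_⟩
  simp only
  rw [a2]
  rw [hΛ] at hs'
  have := hs' (x₁ + s)
  rw [← this]
  congr 1
  abel

/-- TARGET. `Ψ : E → X` is a holomorphic covering of the compact manifold `X` with two-sided derivative
bounds (for the metric `q`); `f`, `g` are local biholomorphisms of `X` whose iterates scale `q` by
`δ^m`, `δ'^m` up to bounded factors, `δ, δ' > 1`. Then `{(m, n) : f^m P = g^n Q}` is a finite union of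
linear families for points with infinite orbits.

Proof. (1) Let `Γ` be the set of the maps `γ z = w + L z` (`L : E →L[ℂ] E`) with `Ψ ∘ γ = Ψ`. By
`affine_lift` with `h = Ψ`: for all `z₀, w₀` with `Ψ w₀ = Ψ z₀` there is exactly one `γ ∈ Γ` with
`γ z₀ = w₀`; so `Γ` is a group of affine bijections of `E` acting simply transitively on the fibres of
`Ψ`, and all its linear parts satisfy `c ‖L v‖^2 ≤ C ‖v‖^2`. By `invariant_euclid` there is
`T : E ≃L[ℝ] EuclideanSpace ℝ (Fin k)` making all the linear parts isometric; `e γ = T ∘ γ ∘ T⁻¹`.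
`hfin`: the fibre `Ψ⁻¹ (Ψ 0)` is closed and discrete (covering), so it meets a closed ball in a finite
set, and `γ` is determined by `γ 0`. `hco`: `Ψ` is an open surjection and `X` is compact, so
`Ψ (ball 0 r) = X` for some `r`; for `z : E` choose `w ∈ ball 0 r` with `Ψ w = Ψ z` and `γ ∈ Γ` with
`γ w = z`; then `‖γ 0 - z‖ = ‖L w‖` is bounded. Apply `bieberbach`; pull `Λ` back by `T`: a lattice
`Λ ⊆ E` such that `v ∈ Λ ↔ (z ↦ v + z) ∈ Γ`, and finitely many `t ∈ Γ` with `Γ = ⋃ Λ + t`, and the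
linear parts of `Γ` preserve `Λ`.
(2) Lift `f ∘ Ψ` (`affine_lift` with `h = f ∘ Ψ`, whose derivative is bounded by `f2` for `m = 1`):
`F z = w + L z`, `Ψ ∘ F = f ∘ Ψ`. Then `Ψ ∘ F^m = f^m ∘ Ψ`, so by `pb_comp`
`pb q Ψ (F^m z) (L^m v) = q (f^m (Ψ z)) (d f^m (dΨ v))`, hence `c ‖L^m v‖^2 ≤ A δ^m C ‖v‖^2` and
`A C ‖L^m v‖^2 ≥ δ^m c ‖v‖^2`: `‖L^m v‖ ≍ √δ^m ‖v‖`. So `L` is injective (bijective) and `L - 1` is
injective (bijective; `L v = v` gives `‖v‖ = ‖L^m v‖`). `L Λ ⊆ Λ`: for `v ∈ Λ`,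
`Ψ (F z + L v) = Ψ (F (z + v)) = f (Ψ (z + v)) = f (Ψ z) = Ψ (F z)` for all `z`, and `F` is surjective.
The same for `g`: `G`, `M`.
(3) Let `x₁ = F x₁`, `y₁ = G y₁` be the fixed points, `P = Ψ (x₁ + u)`, `Q = Ψ (y₁ + w)`. Then
`f^m P = Ψ (x₁ + L^m u)`, `g^n Q = Ψ (y₁ + M^n w)`; they are equal iff for one of the finitely many `t`
of (1), `t z = t₀ + A_t z`, we have `x₁ + L^m u - t₀ - A_t y₁ - A_t M^n w ∈ Λ`. If `k u ∈ Λ`, `k > 0`,
then all `x₁ + L^m u` are in `x₁ + (1/k) Λ`, which is finite modulo `Λ`, so the orbit of `P` is finite,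
contradiction. Apply `torus_orbits` for each `t`, and take the union (`FinLin` is closed under finite
unions). -/
theorem orbits_of_cover [FiniteDimensional ℂ E] [IsManifold 𝓘(ℂ, E) ω X] [T2Space X]
    [CompactSpace X] {q : ∀ x : X, TangentSpace 𝓘(ℂ, E) x → ℝ}
    (c C : ℝ) (hc : 0 < c) (Ψ : E → X) (hΨ : ContMDiff 𝓘(ℂ, E) 𝓘(ℂ, E) ω Ψ)
    (h1 : ∀ z v, c * ‖v‖ ^ 2 ≤ pb q Ψ z v) (h2 : ∀ z v, pb q Ψ z v ≤ C * ‖v‖ ^ 2)
    (hcov : IsCoveringMap Ψ) (hsurj : Function.Surjective Ψ)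
    (f g : X → X) (hf : IsLocalDiffeomorph 𝓘(ℂ, E) 𝓘(ℂ, E) ω f)
    (hg : IsLocalDiffeomorph 𝓘(ℂ, E) 𝓘(ℂ, E) ω g) (δ δ' A : ℝ) (hδ : 1 < δ) (hδ' : 1 < δ')
    (f1 : ∀ (m : ℕ) (x : X) (v : TangentSpace 𝓘(ℂ, E) x),
      δ ^ m * q x v ≤ A * q (f^[m] x) (mfderiv 𝓘(ℂ, E) 𝓘(ℂ, E) (f^[m]) x v))
    (f2 : ∀ (m : ℕ) (x : X) (v : TangentSpace 𝓘(ℂ, E) x),
      q (f^[m] x) (mfderiv 𝓘(ℂ, E) 𝓘(ℂ, E) (f^[m]) x v) ≤ A * δ ^ m * q x v)
    (g1 : ∀ (m : ℕ) (x : X) (v : TangentSpace 𝓘(ℂ, E) x),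
      δ' ^ m * q x v ≤ A * q (g^[m] x) (mfderiv 𝓘(ℂ, E) 𝓘(ℂ, E) (g^[m]) x v))
    (g2 : ∀ (m : ℕ) (x : X) (v : TangentSpace 𝓘(ℂ, E) x),
      q (g^[m] x) (mfderiv 𝓘(ℂ, E) 𝓘(ℂ, E) (g^[m]) x v) ≤ A * δ' ^ m * q x v)
    (P Q : X) (hP : (range fun m => f^[m] P).Infinite) (hQ : (range fun n => g^[n] Q).Infinite) :
    FinLin {p : ℕ × ℕ | f^[p.1] P = g^[p.2] Q} := by
  have : FiniteDimensional ℝ E := FiniteDimensional.complexToReal E
  obtain ⟨Λ, hd, hz, S, hΛ, hS, hfib⟩ := XASM_deck c C hc Ψ hΨ h1 h2 hcov hsurj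
  obtain ⟨x₁, L, hLs, hL, L1, L2⟩ := XASM_lift c C hc Ψ hΨ h1 h2 hcov hsurj f hf δ A hδ f1 f2
  obtain ⟨y₁, M, hMs, hM, M1, M2⟩ := XASM_lift c C hc Ψ hΨ h1 h2 hcov hsurj g hg δ' A hδ' g1 g2
  obtain ⟨p₀, rfl⟩ := hsurj P
  obtain ⟨q₀, rfl⟩ := hsurj Q
  obtain ⟨u, rfl⟩ : ∃ u, x₁ + u = p₀ := ⟨p₀ - x₁, by abel⟩
  obtain ⟨w, rfl⟩ : ∃ w, y₁ + w = q₀ := ⟨q₀ - y₁, by abel⟩
  obtain ⟨a1, a2, a3⟩ := XASM_one f x₁ L hLs hL Λ hd hz hΛ u hP
  obtain ⟨b1, b2, b3⟩ := XASM_one g y₁ M hMs hM Λ hd hz hΛ w hQ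
  have hset : {p : ℕ × ℕ | f^[p.1] (Ψ (x₁ + u)) = g^[p.2] (Ψ (y₁ + w))} =
      {p | ∃ t ∈ S, p ∈ {p : ℕ × ℕ | ((L.restrictScalars ℝ) ^ p.1) u -
        (t.2 : E →L[ℝ] E) (((M.restrictScalars ℝ) ^ p.2) w) - (t.1 + t.2 y₁ - x₁) ∈ Λ}} := by
    ext p
    simp only [mem_ofPred_eq]
    rw [a2, b2, hfib]
    apply exists_congr
    intro t
    apply and_congr_right
    intro _
    rw [XASM_pow, XASM_pow, map_add]
    have : x₁ + (L ^ p.1) u - (t.1 + (t.2 y₁ + t.2 ((M ^ p.2) w))) =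
        (L ^ p.1) u - (t.2 : E →L[ℝ] E) ((M ^ p.2) w) - (t.1 + t.2 y₁ - x₁) := by
      rw [ContinuousLinearEquiv.coe_coe]
      abel
    rw [this]
  rw [hset]
  apply XASM_finLin_union
  intro t ht
  have hs : ∀ d : ℝ, 1 < d → 1 < √d := by
    intro d hd
    rw [Real.lt_sqrt (by norm_num)]
    simpa using hd
  exact torus_orbits Λ (L.restrictScalars ℝ) (M.restrictScalars ℝ) (t.2 : E →L[ℝ] E)
    (fun x hx => a1 x hx) (fun x hx => b1 x hx) t.2.injective (fun x => hS t ht x)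
    (√δ) (√δ') (√(|A| * |C| / c)) (hs δ hδ) (hs δ' hδ')
    (fun n v => by rw [XASM_pow]; exact L1 n v) (fun n v => by rw [XASM_pow]; exact L2 n v)
    (fun n v => by rw [XASM_pow]; exact M1 n v) (fun n v => by rw [XASM_pow]; exact M2 n v)
    u w _ a3 b3

end Pool.Agent.H775.KE
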