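import Pool.Agent.H775.KE.Atl
import Pool.Agent.H721R2.CovMap

/-!
# Maps with two-sided derivative bounds are coverings (job XCOV, helper323 for helper775)
-/


set_option autoImplicit false

open scoped Manifold ContDiff Topology
open Set Filter Metric

namespace Pool.Agent.H775.KE

variable {E : Type} [NormedAddCommGroup E] [NormedSpace ℂ E]
variable {F : Type} [NormedAddCommGroup F] [NormedSpace ℂ F]
variable {X : Type} [TopologicalSpace X] [ChartedSpace E X]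


/-- The derivative of a holomorphic map with bounded derivative is Lipschitz at the centre. -/
theorem XCOV_schwarz {ξ : E → E} {z₀ : E} {s K : ℝ} (hs : 0 < s)
    (hξ : ∀ z ∈ ball z₀ s, ContDiffAt ℂ ω ξ z) (hb : ∀ z ∈ ball z₀ s, ‖fderiv ℂ ξ z‖ ≤ K) :
    ∀ z ∈ ball z₀ s, ‖fderiv ℂ ξ z - fderiv ℂ ξ z₀‖ ≤ 2 * K / s * ‖z - z₀‖ := by
  intro z hz
  by_cases hzz : z = z₀
  · subst hzz; simp
  have hn : 0 < ‖z - z₀‖ := norm_pos_iff.2 (sub_ne_zero.2 hzz)
  have hns : ‖z - z₀‖ < s := by rw [← dist_eq_norm]; exact hz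
  set n := ‖z - z₀‖ with hndef
  have hR : 0 < s / n := by positivity
  have hmem : ∀ t ∈ ball (0 : ℂ) (s / n), z₀ + t • (z - z₀) ∈ ball z₀ s := by
    intro t ht
    rw [mem_ball_zero_iff] at ht
    rw [mem_ball, dist_eq_norm, add_sub_cancel_left, norm_smul]
    rwa [lt_div_iff₀ hn] at ht
  let g : ℂ → (E →L[ℂ] E) := fun t => fderiv ℂ ξ (z₀ + t • (z - z₀))
  have hg0 : g 0 = fderiv ℂ ξ z₀ := by simp [g]
  have hg1 : g 1 = fderiv ℂ ξ z := by simp [g]
  have hd : DifferentiableOn ℂ g (ball 0 (s / n)) := by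
    intro t ht
    have h1 : DifferentiableAt ℂ (fderiv ℂ ξ) (z₀ + t • (z - z₀)) :=
      ((hξ _ (hmem t ht)).fderiv_right (m := 1) le_top).differentiableAt (by simp)
    have h2 : DifferentiableAt ℂ (fun t : ℂ => z₀ + t • (z - z₀)) t := by fun_prop
    exact (h1.comp t h2).differentiableWithinAt
  have hz0 : z₀ ∈ ball z₀ s := mem_ball_self hs
  have hmaps : MapsTo g (ball 0 (s / n)) (closedBall (g 0) (2 * K)) := by
    intro t ht
    rw [mem_closedBall, dist_eq_norm, hg0]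
    calc ‖g t - fderiv ℂ ξ z₀‖ ≤ ‖g t‖ + ‖fderiv ℂ ξ z₀‖ := norm_sub_le _ _
      _ ≤ K + K := add_le_add (hb _ (hmem t ht)) (hb _ hz0)
      _ = 2 * K := by ring
  have h1 : (1 : ℂ) ∈ ball (0 : ℂ) (s / n) := by
    rw [mem_ball_zero_iff, norm_one, lt_div_iff₀ hn]; linarith
  have := Complex.dist_le_div_mul_dist_of_mapsTo_ball hd hmaps h1
  rw [dist_eq_norm, hg0, hg1, dist_zero_right, norm_one, mul_one] at this
  refine this.trans (le_of_eq ?_)
  field_simp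

/-- Uniform inverse function theorem. -/
theorem XCOV_loc [FiniteDimensional ℂ E] {ξ : E → E} {z₀ : E} {s K c' r : ℝ} (hs : 0 < s)
    (hc' : 0 < c') (hξ : ∀ z ∈ ball z₀ s, ContDiffAt ℂ ω ξ z)
    (hb : ∀ z ∈ ball z₀ s, ‖fderiv ℂ ξ z‖ ≤ K)
    (hl : ∀ z ∈ ball z₀ s, ∀ v, c' * ‖v‖ ≤ ‖fderiv ℂ ξ z v‖)
    (hrs : r ≤ s) (hr2 : 2 * K / s * r ≤ c' / 2) :
    (∀ x ∈ ball z₀ r, ∀ y ∈ ball z₀ r, c' / 2 * ‖x - y‖ ≤ ‖ξ x - ξ y‖) ∧
      ∀ ρ, 0 < ρ → ρ < r → closedBall (ξ z₀) (c' / 2 * ρ) ⊆ ξ '' closedBall z₀ ρ := by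
  have hcomplete : CompleteSpace E := FiniteDimensional.complete ℂ E
  have hsub : ball z₀ r ⊆ ball z₀ s := ball_subset_ball hrs
  have hz0 : z₀ ∈ ball z₀ s := mem_ball_self hs
  have hK : 0 ≤ K := (norm_nonneg _).trans (hb z₀ hz0)
  have hsch := XCOV_schwarz hs hξ hb
  have hbound : ∀ z ∈ ball z₀ r, ‖fderiv ℂ ξ z - fderiv ℂ ξ z₀‖ ≤ c' / 2 := by
    intro z hz
    refine (hsch z (hsub hz)).trans ?_
    have h1 : ‖z - z₀‖ ≤ r := by rw [← dist_eq_norm]; exact (mem_ball.1 hz).le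
    have h2 : 0 ≤ 2 * K / s := by positivity
    exact (mul_le_mul_of_nonneg_left h1 h2).trans hr2
  have happ : ∀ x ∈ ball z₀ r, ∀ y ∈ ball z₀ r,
      ‖ξ x - ξ y - fderiv ℂ ξ z₀ (x - y)‖ ≤ c' / 2 * ‖x - y‖ := by
    intro x hx y hy
    have hd : ∀ z ∈ ball z₀ r, HasFDerivWithinAt ξ (fderiv ℂ ξ z) (ball z₀ r) z := fun z hz =>
      ((hξ z (hsub hz)).differentiableAt (by simp)).hasFDerivAt.hasFDerivWithinAt
    exact Convex.norm_image_sub_le_of_norm_hasFDerivWithin_le' hd hbound (convex_ball _ _) hy hx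
  constructor
  · intro x hx y hy
    have h1 := happ x hx y hy
    have h2 := hl z₀ hz0 (x - y)
    have h3 : ‖fderiv ℂ ξ z₀ (x - y)‖ ≤ ‖ξ x - ξ y‖ + ‖ξ x - ξ y - fderiv ℂ ξ z₀ (x - y)‖ := by
      have e : fderiv ℂ ξ z₀ (x - y) = (ξ x - ξ y) - (ξ x - ξ y - fderiv ℂ ξ z₀ (x - y)) := by abel
      conv_lhs => rw [e]
      exact norm_sub_le _ _
    linarith
  · intro ρ hρ hρr
    have hinj : Function.Injective (fderiv ℂ ξ z₀ : E →ₗ[ℂ] E) := by
      rw [← LinearMap.ker_eq_bot, LinearMap.ker_eq_bot']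
      intro v hv
      have h1 := hl z₀ hz0 v
      have h2 : fderiv ℂ ξ z₀ v = 0 := hv
      rw [h2, norm_zero] at h1
      have h3 : ‖v‖ ≤ 0 := by
        by_contra h4
        push Not at h4
        have := mul_pos hc' h4
        linarith
      exact norm_le_zero_iff.1 h3
    have hsurj : Function.Surjective (fderiv ℂ ξ z₀ : E →ₗ[ℂ] E) :=
      LinearMap.injective_iff_surjective.1 hinj
    have hinv : ∀ y, ∃ x, fderiv ℂ ξ z₀ x = y := fun y => hsurj y
    choose g hg using hinv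
    let R : (fderiv ℂ ξ z₀).NonlinearRightInverse :=
      { toFun := g
        nnnorm := ⟨1 / c', by positivity⟩
        bound' := by
          intro y
          have h1 := hl z₀ hz0 (g y)
          rw [hg] at h1
          show ‖g y‖ ≤ 1 / c' * ‖y‖
          rw [one_div, inv_mul_eq_div, le_div_iff₀ hc']
          linarith
        right_inv' := hg }
    have hA : ApproximatesLinearOn ξ (fderiv ℂ ξ z₀) (ball z₀ r) ⟨c' / 2, by positivity⟩ := by
      intro x hx y hy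
      exact happ x hx y hy
    have h1 := hA.surjOn_closedBall_of_nonlinearRightInverse R hρ.le (closedBall_subset_ball hρr)
    intro y hy
    apply h1
    rw [mem_closedBall]
    refine (mem_closedBall.1 hy).trans (le_of_eq ?_)
    show c' / 2 * ρ = ((1 / c')⁻¹ - c' / 2) * ρ
    rw [one_div, inv_inv]; ring

/-- Staying in a chart. -/
theorem XCOV_stay [FiniteDimensional ℂ E] [T2Space X]
    {q : ∀ x : X, TangentSpace 𝓘(ℂ, E) x → ℝ} (a : UA q) (K : ℝ) (hK : 1 ≤ K) (Ψ : E → X)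
    (hΨ : ContMDiff 𝓘(ℂ, E) 𝓘(ℂ, E) ω Ψ)
    (hD : ∀ (i : Fin a.n) z, Ψ z ∈ a.p i '' ball 0 5 → ∀ v,
      ‖fderiv ℂ (a.κ i ∘ Ψ) z v‖ ≤ K * ‖v‖) (i : Fin a.n) (z₀ : E)
    (h0 : Ψ z₀ ∈ a.p i '' ball 0 2) :
    ∀ z ∈ ball z₀ (1 / (2 * K)), Ψ z ∈ a.p i '' ball 0 3 := by
  have hproper : ProperSpace E := FiniteDimensional.proper ℂ E
  intro z hz
  by_contra hcon
  have hKpos : 0 < K := by linarith
  set v := z - z₀ with hv
  have hvn : ‖v‖ < 1 / (2 * K) := by rw [hv, ← dist_eq_norm]; exact hz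
  let γ : ℝ → E := fun t => z₀ + t • v
  have hγc : Continuous γ := by
    show Continuous (fun t : ℝ => z₀ + t • v)
    fun_prop
  have hγ1 : γ 1 = z := by simp [γ, hv]
  have hγ0 : γ 0 = z₀ := by simp [γ]
  have hΨc : Continuous Ψ := hΨ.continuous
  have hopen3 : IsOpen (a.p i '' ball 0 3) :=
    a.p_open i _ (ball_subset_ball (by norm_num)) isOpen_ball
  have hpc : ContinuousOn (a.p i) (ball 0 5) := (a.p_smooth i).continuousOn
  have hclosed : IsClosed (a.p i '' closedBall 0 (5 / 2)) := by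
    apply IsCompact.isClosed
    apply (isCompact_closedBall (0 : E) (5 / 2)).image_of_continuousOn
    exact hpc.mono (closedBall_subset_ball (by norm_num))
  let S : Set ℝ := Icc 0 1 ∩ {t | Ψ (γ t) ∉ a.p i '' ball 0 3}
  have hSc : IsCompact S := by
    apply isCompact_Icc.inter_right
    have : {t | Ψ (γ t) ∉ a.p i '' ball 0 3} = ((Ψ ∘ γ) ⁻¹' (a.p i '' ball 0 3))ᶜ := rfl
    rw [this]
    exact (hopen3.preimage (hΨc.comp hγc)).isClosed_compl
  have hSne : S.Nonempty := ⟨1, ⟨by norm_num, by norm_num⟩, by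
    show Ψ (γ 1) ∉ _
    rw [hγ1]; exact hcon⟩
  have hT := hSc.sInf_mem hSne
  set T := sInf S with hTdef
  have hT0 : 0 ≤ T := hT.1.1
  have hT1 : T ≤ 1 := hT.1.2
  have hTne : T ≠ 0 := by
    intro h
    have h1 := hT.2
    rw [h] at h1
    apply h1
    show Ψ (γ 0) ∈ _
    rw [hγ0]
    exact image_mono (ball_subset_ball (by norm_num)) h0
  have hTpos : 0 < T := lt_of_le_of_ne hT0 (Ne.symm hTne)
  have hbefore : ∀ t, 0 ≤ t → t < T → Ψ (γ t) ∈ a.p i '' ball 0 3 := by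
    intro t ht htT
    by_contra h1
    have h2 : t ∈ S := ⟨⟨ht, by linarith⟩, h1⟩
    have h3 := csInf_le hSc.bddBelow h2
    linarith
  have h35 : a.p i '' ball (0 : E) 3 ⊆ a.p i '' ball 0 5 :=
    image_mono (ball_subset_ball (by norm_num))
  let g : ℝ → E := fun t => a.κ i (Ψ (γ t))
  have hgd : ∀ t, 0 ≤ t → t < T →
      HasDerivAt g (fderiv ℂ (a.κ i ∘ Ψ) (γ t) v) t := by
    intro t ht htT
    obtain ⟨-, -, h3, -, -⟩ := a.local_form (hΨ.contMDiffAt (x := γ t)) (h35 (hbefore t ht htT))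
    have h4 : HasFDerivAt (a.κ i ∘ Ψ) (fderiv ℂ (a.κ i ∘ Ψ) (γ t)) (γ t) :=
      (h3.differentiableAt (by simp)).hasFDerivAt
    have h5 : HasFDerivAt (a.κ i ∘ Ψ) ((fderiv ℂ (a.κ i ∘ Ψ) (γ t)).restrictScalars ℝ) (γ t) :=
      h4.restrictScalars ℝ
    have h6 : HasDerivAt γ v t := by
      have h7 : HasDerivAt (fun t : ℝ => z₀ + t • v) ((1 : ℝ) • v) t :=
        ((hasDerivAt_id t).smul_const v).const_add z₀
      rwa [one_smul] at h7
    exact h5.comp_hasDerivAt t h6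
  have hgb : ∀ t, 0 ≤ t → t < T → ‖g t - g 0‖ ≤ 1 / 2 := by
    intro t ht htT
    have h1 := norm_image_sub_le_of_norm_deriv_le_segment' (a := 0) (b := t) (f := g)
      (f' := fun s => fderiv ℂ (a.κ i ∘ Ψ) (γ s) v) (C := K * ‖v‖)
      (fun s hs => (hgd s hs.1 (lt_of_le_of_lt hs.2 htT)).hasDerivWithinAt)
      (fun s hs => hD i (γ s) (h35 (hbefore s hs.1 (hs.2.trans htT))) v) t ⟨ht, le_refl _⟩
    refine h1.trans ?_
    have h2 : K * ‖v‖ ≤ 1 / 2 := by
      have h3 : ‖v‖ ≤ 1 / (2 * K) := hvn.le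
      calc K * ‖v‖ ≤ K * (1 / (2 * K)) := mul_le_mul_of_nonneg_left h3 hKpos.le
        _ = 1 / 2 := by field_simp
    have h4 : t - 0 ≤ 1 := by linarith
    have h5 : 0 ≤ K * ‖v‖ := by positivity
    calc K * ‖v‖ * (t - 0) ≤ K * ‖v‖ * 1 := mul_le_mul_of_nonneg_left h4 h5
      _ ≤ 1 / 2 := by rw [mul_one]; exact h2
  have hg0 : ‖g 0‖ < 2 := by
    obtain ⟨ζ, hζ, e⟩ := h0
    have h1 : g 0 = ζ := by
      show a.κ i (Ψ (γ 0)) = ζ
      rw [hγ0, ← e, a.κ_p i ζ (ball_subset_ball (by norm_num) hζ)]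
    rw [h1]
    exact mem_ball_zero_iff.1 hζ
  have hin : ∀ t ∈ Ico 0 T, Ψ (γ t) ∈ a.p i '' closedBall 0 (5 / 2) := by
    intro t ht
    obtain ⟨-, h2, -, -, -⟩ := a.local_form (hΨ.contMDiffAt (x := γ t))
      (h35 (hbefore t ht.1 ht.2))
    refine ⟨g t, ?_, h2⟩
    rw [mem_closedBall_zero_iff]
    have h3 := hgb t ht.1 ht.2
    have h4 : ‖g t‖ ≤ ‖g t - g 0‖ + ‖g 0‖ := by
      have := norm_add_le (g t - g 0) (g 0)
      rwa [sub_add_cancel] at this
    linarith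
  have hTin : Ψ (γ T) ∈ a.p i '' closedBall 0 (5 / 2) := by
    have hcl : IsClosed ((Ψ ∘ γ) ⁻¹' (a.p i '' closedBall 0 (5 / 2))) :=
      hclosed.preimage (hΨc.comp hγc)
    have hsub : Ico 0 T ⊆ (Ψ ∘ γ) ⁻¹' (a.p i '' closedBall 0 (5 / 2)) := hin
    have h1 := hcl.closure_subset_iff.2 hsub
    rw [closure_Ico hTpos.ne] at h1
    exact h1 ⟨hT0, le_refl _⟩
  exact hT.2 (image_mono (closedBall_subset_ball (by norm_num)) hTin)

/-- TARGET. A holomorphic map from `E` to the compact connected manifold `X` whose derivative is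
uniformly bounded above and below is a surjective covering map.

Proof. (1) Staying in a chart: there is `s > 0` such that if `Ψ z₀ ∈ a.p i '' ball 0 1` then
`Ψ (ball z₀ s) ⊆ a.p i '' ball 0 2`: on a segment from `z₀`, as long as `Ψ` stays in
`a.p i '' closedBall 0 2`, the derivative of `ξ = a.κ i ∘ Ψ` is at most `√(a.C * C)` in norm
(`UA.local_form`, `lower`), so `ξ` moves by less than `1`. (2) So `ξ : ball z₀ s → ball 0 2` is
holomorphic, with `c' ‖v‖ ≤ ‖ξ'(z) v‖ ≤ C' ‖v‖` uniformly (`upper`/`lower`), and the Cauchy estimates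
bound `‖ξ'(z) - ξ'(z₀)‖ ≤ M ‖z - z₀‖` on `ball z₀ (s/2)` uniformly (`E` is finite-dimensional, apply the
one-variable Cauchy estimate on complex lines to the holomorphic function `z ↦ ξ'(z) v`, or see
`S_CAUCHY` in `Pool/Agent/H559/NT/{Stm,Ana}.lean`). So, uniformly, `ξ` approximates the invertible linear
map `ξ'(z₀)` (`ApproximatesLinearOn`): there are `s₁, s₂ > 0`, independent of `z₀`, such that `ξ` is
injective on `ball z₀ s₁` and `ξ (ball z₀ s₁) ⊇ ball (ξ z₀) s₂`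
(`ApproximatesLinearOn.surjOn_closedBall_of_nonlinearRightInverse` etc.). (3) Let `x = a.p i ζ ∈ X`
with `‖ζ‖ < 1`, and `V = a.p i '' ball ζ s₃`, `s₃` small: for each `z₀ ∈ Ψ⁻¹ x` there is a unique
continuous section over `V` through `z₀`, with image in `ball z₀ s₁`, and every point of `Ψ⁻¹ V` is on
exactly one of them (if `Ψ z ∈ V` apply (2) at `z`: `ξ (ball z s₁) ⊇ ball (ξ z) s₂ ∋ ζ`, so `z` is close to
a point `z₀` of `Ψ⁻¹ x`). `isCoveringMap_of_sheets` in `Pool/Agent/H721R2/CovMap.lean` then gives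
`IsCoveringMap Ψ`. Surjective: `range Ψ` is open, and closed by the uniform radius `s₂`, and nonempty. -/
theorem covering [FiniteDimensional ℂ E] [IsManifold 𝓘(ℂ, E) ω X] [T2Space X]
    [CompactSpace X] [ConnectedSpace X] {q : ∀ x : X, TangentSpace 𝓘(ℂ, E) x → ℝ} (a : UA q)
    (c C : ℝ) (hc : 0 < c) (Ψ : E → X) (hΨ : ContMDiff 𝓘(ℂ, E) 𝓘(ℂ, E) ω Ψ)
    (h1 : ∀ z v, c * ‖v‖ ^ 2 ≤ pb q Ψ z v) (h2 : ∀ z v, pb q Ψ z v ≤ C * ‖v‖ ^ 2) :
    IsCoveringMap Ψ ∧ Function.Surjective Ψ := by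
  have hmetr : TopologicalSpace.MetrizableSpace X := Manifold.metrizableSpace 𝓘(ℝ, E) X
  let _ : MetricSpace X := TopologicalSpace.metrizableSpaceMetric X
  have hΨc : Continuous Ψ := hΨ.continuous
  have haC : 0 < a.C := lt_of_lt_of_le one_pos a.one_le_C
  -- the constants
  obtain ⟨K, hK1, hKC⟩ : ∃ K : ℝ, 1 ≤ K ∧ K = a.C * max C 1 := by
    refine ⟨a.C * max C 1, ?_, rfl⟩
    have := a.one_le_C
    have h3 : 1 ≤ max C 1 := le_max_right _ _
    nlinarith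
  have hKpos : 0 < K := by linarith
  obtain ⟨c', hc', hcc⟩ : ∃ c' : ℝ, 0 < c' ∧ c' ^ 2 = c / a.C := by
    refine ⟨√(c / a.C), Real.sqrt_pos.2 (by positivity), Real.sq_sqrt (by positivity)⟩
  -- two-sided bounds for the derivative in a chart
  have hD : ∀ (i : Fin a.n) z, Ψ z ∈ a.p i '' ball 0 5 → ∀ v,
      ‖fderiv ℂ (a.κ i ∘ Ψ) z v‖ ≤ K * ‖v‖ := by
    intro i z hz v
    obtain ⟨k1, -, -, -, k5⟩ := a.local_form (hΨ.contMDiffAt (x := z)) hz
    have h3 := a.lower i _ k1 (fderiv ℂ (a.κ i ∘ Ψ) z v)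
    rw [← k5 v] at h3
    have h4 := h2 z v
    have h5 : pb q Ψ z v ≤ max C 1 * ‖v‖ ^ 2 :=
      h4.trans (mul_le_mul_of_nonneg_right (le_max_left _ _) (by positivity))
    have h6 : ‖fderiv ℂ (a.κ i ∘ Ψ) z v‖ ^ 2 ≤ (K * ‖v‖) ^ 2 := by
      calc ‖fderiv ℂ (a.κ i ∘ Ψ) z v‖ ^ 2 ≤ a.C * pb q Ψ z v := h3
        _ ≤ a.C * (max C 1 * ‖v‖ ^ 2) := mul_le_mul_of_nonneg_left h5 haC.le
        _ = K * ‖v‖ ^ 2 := by rw [hKC]; ring
        _ ≤ K * K * ‖v‖ ^ 2 := by
            have : K ≤ K * K := by nlinarith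
            exact mul_le_mul_of_nonneg_right this (by positivity)
        _ = (K * ‖v‖) ^ 2 := by ring
    exact le_of_sq_le_sq h6 (by positivity)
  have hL : ∀ (i : Fin a.n) z, Ψ z ∈ a.p i '' ball 0 5 → ∀ v,
      c' * ‖v‖ ≤ ‖fderiv ℂ (a.κ i ∘ Ψ) z v‖ := by
    intro i z hz v
    obtain ⟨k1, -, -, -, k5⟩ := a.local_form (hΨ.contMDiffAt (x := z)) hz
    have h3 := a.upper i _ k1 (fderiv ℂ (a.κ i ∘ Ψ) z v)
    rw [← k5 v] at h3
    have h4 := (h1 z v).trans h3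
    have h6 : (c' * ‖v‖) ^ 2 ≤ ‖fderiv ℂ (a.κ i ∘ Ψ) z v‖ ^ 2 := by
      rw [mul_pow, hcc, div_mul_eq_mul_div, div_le_iff₀ haC]
      linarith
    exact le_of_sq_le_sq h6 (norm_nonneg _)
  obtain ⟨s, hs, hsK⟩ : ∃ s : ℝ, 0 < s ∧ s = 1 / (2 * K) := ⟨_, by positivity, rfl⟩
  obtain ⟨r, hr, hrs, hr2⟩ : ∃ r : ℝ, 0 < r ∧ r ≤ s ∧ 2 * K / s * r ≤ c' / 2 := by
    refine ⟨min s (c' * s / (4 * K)), lt_min hs (by positivity), min_le_left _ _, ?_⟩
    calc 2 * K / s * min s (c' * s / (4 * K)) ≤ 2 * K / s * (c' * s / (4 * K)) :=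
          mul_le_mul_of_nonneg_left (min_le_right _ _) (by positivity)
      _ = c' / 2 := by field_simp; ring
  have h35 : ∀ i, a.p i '' ball (0 : E) 3 ⊆ a.p i '' ball 0 5 := fun i =>
    image_mono (ball_subset_ball (by norm_num))
  -- local structure
  have hstay : ∀ (i : Fin a.n) z₀, Ψ z₀ ∈ a.p i '' ball 0 2 → ∀ z ∈ ball z₀ s,
      Ψ z ∈ a.p i '' ball 0 5 := by
    intro i z₀ h0 z hz
    rw [hsK] at hz
    exact h35 i (XCOV_stay a K hK1 Ψ hΨ hD i z₀ h0 z hz)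
  have hloc : ∀ (i : Fin a.n) z₀, Ψ z₀ ∈ a.p i '' ball 0 2 →
      (∀ x ∈ ball z₀ r, ∀ y ∈ ball z₀ r,
        c' / 2 * ‖x - y‖ ≤ ‖a.κ i (Ψ x) - a.κ i (Ψ y)‖) ∧
      ∀ ρ, 0 < ρ → ρ < r → closedBall (a.κ i (Ψ z₀)) (c' / 2 * ρ) ⊆
        (a.κ i ∘ Ψ) '' closedBall z₀ ρ := by
    intro i z₀ h0
    refine XCOV_loc (ξ := a.κ i ∘ Ψ) (K := K) hs hc' ?_ ?_ ?_ hrs hr2
    · intro z hz
      exact (a.local_form (hΨ.contMDiffAt (x := z)) (hstay i z₀ h0 z hz)).2.2.1
    · intro z hz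
      exact ContinuousLinearMap.opNorm_le_bound _ hKpos.le (hD i z (hstay i z₀ h0 z hz))
    · intro z hz
      exact hL i z (hstay i z₀ h0 z hz)
  have hback : ∀ (i : Fin a.n) z₀, Ψ z₀ ∈ a.p i '' ball 0 2 → ∀ z ∈ ball z₀ s,
      a.p i (a.κ i (Ψ z)) = Ψ z := by
    intro i z₀ h0 z hz
    exact (a.local_form (hΨ.contMDiffAt (x := z)) (hstay i z₀ h0 z hz)).2.1
  have hcov2 : ∀ x, ∃ i, x ∈ a.p i '' ball 0 2 := by
    intro x
    obtain ⟨i, ζ, hζ, e⟩ := a.cover x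
    exact ⟨i, ζ, ball_subset_ball (by norm_num) hζ, e⟩
  -- the Lebesgue number
  obtain ⟨δ, hδ, hδ1, hδ2⟩ : ∃ δ : ℝ, 0 < δ ∧ δ ≤ 1 ∧ δ ≤ c' / 2 * (r / 4) :=
    ⟨min 1 (c' / 2 * (r / 4)), lt_min one_pos (by positivity), min_le_left _ _, min_le_right _ _⟩
  obtain ⟨η, hη, hleb⟩ := lebesgue_number_lemma_of_metric (s := (univ : Set X))
    (c := fun w : {w : Fin a.n × E // w.2 ∈ ball (0 : E) 1} =>
      a.p w.1.1 '' ball w.1.2 (δ / 2)) isCompact_univ
    (by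
      rintro ⟨⟨i, ζ⟩, hζ⟩
      refine a.p_open i _ ?_ isOpen_ball
      refine ball_subset_ball' ?_
      rw [dist_zero_right]
      have := mem_ball_zero_iff.1 hζ
      simp only at this
      linarith)
    (by
      intro x _
      obtain ⟨i, ζ, hζ, e⟩ := a.cover x
      exact mem_iUnion.2 ⟨⟨(i, ζ), hζ⟩, ζ, mem_ball_self (by positivity), e⟩)
  have hc1 : ∀ z y, dist (Ψ z) y < η → ∃ z', Ψ z' = y ∧ dist z z' < r / 2 := by
    intro z y hy
    obtain ⟨⟨⟨i, ζ⟩, hζ⟩, hsub⟩ := hleb (Ψ z) (mem_univ _)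
    have hζ1 : ‖ζ‖ < 1 := mem_ball_zero_iff.1 hζ
    obtain ⟨ζ1, hζ1m, e1⟩ := hsub (mem_ball_self hη)
    obtain ⟨ζ2, hζ2m, e2⟩ := hsub (show y ∈ ball (Ψ z) η by rw [mem_ball, dist_comm]; exact hy)
    simp only at hζ1m e1 hζ2m e2
    have n1 : dist ζ1 ζ < δ / 2 := hζ1m
    have n2 : dist ζ2 ζ < δ / 2 := hζ2m
    have n3 : ‖ζ1‖ < 2 := by
      have h3 : ‖ζ1‖ ≤ dist ζ1 ζ + ‖ζ‖ := by
        rw [dist_eq_norm]
        have := norm_add_le (ζ1 - ζ) ζ
        rwa [sub_add_cancel] at this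
      linarith
    have h0 : Ψ z ∈ a.p i '' ball 0 2 := ⟨ζ1, mem_ball_zero_iff.2 n3, e1⟩
    have k1 : a.κ i (Ψ z) = ζ1 := by
      rw [← e1, a.κ_p i ζ1 (mem_ball_zero_iff.2 (by linarith))]
    have h3 : ζ2 ∈ closedBall (a.κ i (Ψ z)) (c' / 2 * (r / 4)) := by
      rw [k1, mem_closedBall]
      have := dist_triangle_right ζ2 ζ1 ζ
      linarith
    obtain ⟨z', hz', e3⟩ := (hloc i z h0).2 (r / 4) (by positivity) (by linarith) h3
    have hz'2 : dist z' z ≤ r / 4 := hz'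
    refine ⟨z', ?_, by rw [dist_comm]; linarith⟩
    have h4 : z' ∈ ball z s := by rw [mem_ball]; linarith
    rw [← hback i z h0 z' h4, ← e2]
    congr 1
  constructor
  · refine H721R2.isCoveringMap_of_sheets Ψ (fun z z' => dist z z' < r / 2)
      (fun z z' => dist z z' < r) η hη ?_ hc1 ?_ ?_ ?_ ?_
    · intro z z' h
      have h' : dist z z' < r / 2 := h
      show dist z z' < r
      linarith
    · intro z z' z'' h h' e
      obtain ⟨i, hi⟩ := hcov2 (Ψ z)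
      have h3 := (hloc i z hi).1 z' (by rw [mem_ball, dist_comm]; exact h) z''
        (by rw [mem_ball, dist_comm]; exact h')
      rw [e, sub_self, norm_zero] at h3
      have h4 : ‖z' - z''‖ ≤ 0 := by
        by_contra h5
        push Not at h5
        have := mul_pos (half_pos hc') h5
        linarith
      exact sub_eq_zero.1 (norm_le_zero_iff.1 h4)
    · intro z z' z'' h h'
      have h3 := dist_triangle z z' z''
      have h4 : dist z z' < r / 2 := h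
      have h5 : dist z' z'' < r / 2 := h'
      show dist z z'' < r
      linarith
    · intro z z' h
      have h' : dist z z' < r / 2 := h
      show dist z' z < r
      rw [dist_comm]
      linarith
    · intro z
      apply le_antisymm
      · rw [le_inf_iff]
        constructor
        · exact tendsto_iff_comap.1 hΨc.continuousAt
        · rw [le_principal_iff]
          have : {z' | dist z z' < r / 2} = ball z (r / 2) := by
            ext z'
            rw [mem_ball, dist_comm]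
            rfl
          rw [this]
          exact ball_mem_nhds z (by positivity)
      · intro U hU
        obtain ⟨ε, hε, hεU⟩ := Metric.mem_nhds_iff.1 hU
        obtain ⟨i, hi⟩ := hcov2 (Ψ z)
        have h0 := hi
        obtain ⟨ζ, hζ, e⟩ := hi
        have k1 : a.κ i (Ψ z) = ζ := by
          rw [← e, a.κ_p i ζ (ball_subset_ball (by norm_num) hζ)]
        obtain ⟨ε', hε', hε'1, hε'2⟩ : ∃ ε' : ℝ, 0 < ε' ∧ ε' ≤ 1 ∧ ε' ≤ c' / 2 * ε :=
          ⟨min 1 (c' / 2 * ε), lt_min one_pos (by positivity), min_le_left _ _, min_le_right _ _⟩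
        have hWsub : ball ζ ε' ⊆ ball (0 : E) 5 := by
          refine ball_subset_ball' ?_
          rw [dist_zero_right]
          have := mem_ball_zero_iff.1 hζ
          linarith
        have hWo : IsOpen (a.p i '' ball ζ ε') := a.p_open i _ hWsub isOpen_ball
        have hW : a.p i '' ball ζ ε' ∈ 𝓝 (Ψ z) :=
          hWo.mem_nhds ⟨ζ, mem_ball_self hε', e⟩
        rw [mem_inf_principal]
        refine mem_comap.2 ⟨_, hW, ?_⟩
        rintro z' ⟨ζ', hζ', e'⟩ hz'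
        have hz' : dist z z' < r / 2 := hz'
        apply hεU
        have h3 := (hloc i z h0).1 z' (by rw [mem_ball, dist_comm]; linarith) z
          (mem_ball_self hr)
        rw [k1, ← e', a.κ_p i ζ' (hWsub hζ'), ← dist_eq_norm ζ'] at h3
        have h4 : dist ζ' ζ < ε' := hζ'
        rw [mem_ball, dist_eq_norm]
        by_contra h5
        push Not at h5
        have := mul_le_mul_of_nonneg_left h5 (half_pos hc').le
        linarith
  · -- surjectivity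
    have hopen : IsOpen (range Ψ) := by
      rw [Metric.isOpen_iff]
      rintro _ ⟨z, rfl⟩
      refine ⟨η, hη, fun y hy => ?_⟩
      obtain ⟨z', hz', -⟩ := hc1 z y (by rw [dist_comm]; exact hy)
      exact ⟨z', hz'⟩
    have hclosed : IsClosed (range Ψ) := by
      rw [← closure_subset_iff_isClosed]
      intro y hy
      obtain ⟨_, ⟨z, rfl⟩, h3⟩ := Metric.mem_closure_iff.1 hy η hη
      obtain ⟨z', hz', -⟩ := hc1 z y (by rw [dist_comm]; exact h3)
      exact ⟨z', hz'⟩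
    have : range Ψ = univ := IsClopen.eq_univ ⟨hclosed, hopen⟩ (range_nonempty Ψ)
    exact range_eq_univ.1 this

end Pool.Agent.H775.KE
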