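import Pool.Agent.H775.KE.Atl
import Pool.Agent.FinVol2.WA

/-!
# Job XNORM (helper775), solved by helper514: normal families of holomorphic maps to a compact
manifold

Limits along an ultrafilter. `FinVol2.WA` is used for: complex differentiable functions of several
variables are analytic.
-/

set_option autoImplicit false

open scoped Manifold ContDiff Topology
open Set Filter Metric

namespace Pool.Agent.H775.KE

variable {E : Type} [NormedAddCommGroup E] [NormedSpace ℂ E]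
variable {F : Type} [NormedAddCommGroup F] [NormedSpace ℂ F]
variable {X : Type} [TopologicalSpace X] [ChartedSpace E X]

/-- A complex differentiable map between finite-dimensional spaces is analytic. -/
theorem XNORM_analytic [FiniteDimensional ℂ E] {f : E → E} {x : E} {r : ℝ} (hr : 0 < r)
    (hf : DifferentiableOn ℂ f (ball x r)) : AnalyticAt ℂ f x := by
  let e : E ≃L[ℂ] (Fin (Module.finrank ℂ E) → ℂ) := (Module.finBasis ℂ E).equivFunL
  have h1 : AnalyticAt ℂ (fun w => e (f (e.symm w))) (e x) := by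
    rw [analyticAt_pi_iff]
    intro i
    have hcont : ContinuousAt e.symm (e x) := e.symm.continuous.continuousAt
    have hnb : e.symm ⁻¹' (ball x r) ∈ 𝓝 (e x) := by
      apply hcont
      rw [e.symm_apply_apply]
      exact ball_mem_nhds x hr
    obtain ⟨R, hR, hRs⟩ := Metric.mem_nhds_iff.1 hnb
    refine Pool.Agent.FinVol2.WA.analyticAt_of_differentiable _ (e x) (R / 2) (half_pos hR)
      (fun w => e (f (e.symm w)) i) ?_
    intro z hz
    have hzb : z ∈ ball (e x) R := by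
      rw [mem_ball]
      refine lt_of_le_of_lt ((dist_pi_le_iff (half_pos hR).le).2 fun j => hz j) (half_lt_self hR)
    have hd : DifferentiableAt ℂ f (e.symm z) :=
      hf.differentiableAt (isOpen_ball.mem_nhds (hRs hzb))
    have h2 : DifferentiableAt ℂ (fun w => e (f (e.symm w))) z :=
      e.differentiableAt.comp z (hd.comp z e.symm.differentiableAt)
    exact (differentiableAt_pi.1 h2) i
  have h2 : AnalyticAt ℂ (fun y => e.symm (e (f (e.symm (e y))))) x := by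
    have h3 : AnalyticAt ℂ (fun y => e (f (e.symm (e y)))) x :=
      AnalyticAt.fun_comp (g := fun w => e (f (e.symm w))) (f := e) h1 (e.analyticAt x)
    exact AnalyticAt.fun_comp (g := e.symm) (f := fun y => e (f (e.symm (e y))))
      (e.symm.analyticAt _) h3
  simpa using h2

/-- Second order Taylor estimate for a bounded holomorphic map (from Helper417/Mer/HartogsExt). -/
theorem XNORM_taylor {f : E → F} {c : E} {R M : ℝ} (hR : 0 < R)
    (hd : DifferentiableOn ℂ f (ball c R)) (hM : ∀ z ∈ ball c R, ‖f z‖ ≤ M) {w : E}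
    (hw : w ∈ ball c R) :
    ‖f w - f c - fderiv ℂ f c (w - c)‖ ≤ 4 * M * (‖w - c‖ / R) ^ 2 := by
  have hcc : c ∈ ball c R := mem_ball_self hR
  have hM0 : 0 ≤ M := (norm_nonneg _).trans (hM c hcc)
  have hmaps : MapsTo f (ball c R) (closedBall (f c) (2 * M)) := by
    intro z hz
    rw [mem_closedBall, dist_eq_norm]
    calc ‖f z - f c‖ ≤ ‖f z‖ + ‖f c‖ := norm_sub_le _ _
      _ ≤ 2 * M := by linarith [hM z hz, hM c hcc]
  have hfd : ‖fderiv ℂ f c‖ ≤ 2 * M / R := Complex.norm_fderiv_le_div_of_mapsTo_ball hd hmaps hR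
  have hdc : DifferentiableAt ℂ f c := hd.differentiableAt (ball_mem_nhds _ hR)
  set g : E → F := fun z => f z - f c - fderiv ℂ f c (z - c) with hg
  have hgd : DifferentiableOn ℂ g (ball c R) := by
    intro z hz
    have h1 : DifferentiableAt ℂ f z := hd.differentiableAt (isOpen_ball.mem_nhds hz)
    exact (by fun_prop : DifferentiableAt ℂ g z).differentiableWithinAt
  have hgc : g c = 0 := by simp [hg]
  have hgmaps : MapsTo g (ball c R) (closedBall (g c) (4 * M)) := by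
    intro z hz
    rw [mem_closedBall, dist_eq_norm, hgc, sub_zero]
    have h1 : ‖f z - f c‖ ≤ 2 * M := by
      have := hmaps hz
      rwa [mem_closedBall, dist_eq_norm] at this
    have h2 : ‖fderiv ℂ f c (z - c)‖ ≤ 2 * M := by
      calc ‖fderiv ℂ f c (z - c)‖ ≤ ‖fderiv ℂ f c‖ * ‖z - c‖ := ContinuousLinearMap.le_opNorm _ _
        _ ≤ (2 * M / R) * R := by
            apply mul_le_mul hfd _ (norm_nonneg _) (by positivity)
            rw [mem_ball, dist_eq_norm] at hz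
            exact hz.le
        _ = 2 * M := by field_simp
    calc ‖g z‖ ≤ ‖f z - f c‖ + ‖fderiv ℂ f c (z - c)‖ := norm_sub_le _ _
      _ ≤ 4 * M := by linarith
  have hn : (g · - g c) =o[𝓝 c] (fun w ↦ ‖w - c‖ ^ 1) := by
    have := hdc.hasFDerivAt.isLittleO
    simp only [hgc, sub_zero, pow_one]
    exact this.norm_right
  have := Complex.dist_le_mul_div_pow_of_mapsTo_ball_of_isLittleO hgd hgmaps hn hw
  rw [hgc, dist_zero_right, dist_eq_norm] at this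
  simpa only [hg] using this

/-- Limits of bounded holomorphic maps along an ultrafilter. -/
theorem XNORM_lim [FiniteDimensional ℂ E] (l : Ultrafilter ℕ) {f : ℕ → E → E} {g : E → E} {c : E}
    {R M : ℝ}
    (hf : ∀ᶠ m in (l : Filter ℕ), DifferentiableOn ℂ (f m) (ball c R) ∧ ∀ z ∈ ball c R, ‖f m z‖ ≤ M)
    (hg : ∀ z ∈ ball c R, Tendsto (fun m => f m z) l (𝓝 (g z))) :
    DifferentiableOn ℂ g (ball c R) ∧
      ∀ z ∈ ball c R, Tendsto (fun m => fderiv ℂ (f m) z) l (𝓝 (fderiv ℂ g z)) := by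
  have : ProperSpace E := FiniteDimensional.proper ℂ E
  have : ProperSpace (E →L[ℂ] E) := FiniteDimensional.proper ℂ _
  have key : ∀ z ∈ ball c R, ∃ A : E →L[ℂ] E, HasFDerivAt g A z ∧
      Tendsto (fun m => fderiv ℂ (f m) z) l (𝓝 A) := by
    intro z hz
    obtain ⟨r, hr, hrs⟩ := Metric.isOpen_iff.1 isOpen_ball z hz
    have hf' : ∀ᶠ m in (l : Filter ℕ), DifferentiableOn ℂ (f m) (ball z r) ∧
        ∀ w ∈ ball z r, ‖f m w‖ ≤ M :=
      hf.mono fun m hm => ⟨hm.1.mono hrs, fun w hw => hm.2 w (hrs hw)⟩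
    have hbd : ∀ᶠ m in (l : Filter ℕ), fderiv ℂ (f m) z ∈ closedBall (0 : E →L[ℂ] E) (2 * M / r) := by
      filter_upwards [hf'] with m hm
      have hmaps : MapsTo (f m) (ball z r) (closedBall (f m z) (2 * M)) := by
        intro w hw
        rw [mem_closedBall, dist_eq_norm]
        calc ‖f m w - f m z‖ ≤ ‖f m w‖ + ‖f m z‖ := norm_sub_le _ _
          _ ≤ 2 * M := by linarith [hm.2 w hw, hm.2 z (mem_ball_self hr)]
      rw [mem_closedBall, dist_zero_right]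
      exact Complex.norm_fderiv_le_div_of_mapsTo_ball hm.1 hmaps hr
    obtain ⟨A, -, hA⟩ := (isCompact_closedBall (0 : E →L[ℂ] E) (2 * M / r)).ultrafilter_le_nhds
      (l.map (fun m => fderiv ℂ (f m) z)) (by
        rw [Filter.le_principal_iff, Ultrafilter.mem_coe, Ultrafilter.mem_map]
        exact hbd)
    refine ⟨A, ?_, hA⟩
    have hA' : Tendsto (fun m => fderiv ℂ (f m) z) l (𝓝 A) := hA
    have hest : ∀ w ∈ ball z r, ‖g w - g z - A (w - z)‖ ≤ 4 * M / r ^ 2 * ‖w - z‖ ^ 2 := by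
      intro w hw
      have h1 : Tendsto (fun m => ‖f m w - f m z - fderiv ℂ (f m) z (w - z)‖) l
          (𝓝 ‖g w - g z - A (w - z)‖) :=
        (((hg w (hrs hw)).sub (hg z hz)).sub
          ((ContinuousLinearMap.apply ℂ E (w - z)).continuous.tendsto A |>.comp hA')).norm
      refine le_of_tendsto h1 ?_
      filter_upwards [hf'] with m hm
      have h2 := XNORM_taylor hr hm.1 hm.2 hw
      refine h2.trans (le_of_eq ?_)
      rw [div_pow]
      ring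
    rw [hasFDerivAt_iff_isLittleO]
    have h1 : (fun w => g w - g z - A (w - z)) =O[𝓝 z] (fun w => ‖w - z‖ ^ 2) := by
      refine Asymptotics.IsBigO.of_bound (4 * M / r ^ 2) ?_
      filter_upwards [ball_mem_nhds z hr] with w hw
      rw [Real.norm_of_nonneg (by positivity)]
      exact hest w hw
    refine h1.trans_isLittleO ?_
    have h2 : (fun w : E => ‖w - z‖ ^ 2) =o[𝓝 z] (fun w => ‖w - z‖) := by
      have h3 : Tendsto (fun w : E => ‖w - z‖) (𝓝 z) (𝓝 0) := by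
        have : Tendsto (fun w : E => ‖w - z‖) (𝓝 z) (𝓝 ‖z - z‖) :=
          (continuous_id.sub continuous_const).norm.tendsto z
        simpa using this
      exact (Asymptotics.isLittleO_pow_id one_lt_two).comp_tendsto h3
    exact h2.of_norm_right
  refine ⟨fun z hz => ?_, fun z hz => ?_⟩
  · obtain ⟨A, hA, -⟩ := key z hz
    exact hA.differentiableAt.differentiableWithinAt
  · obtain ⟨A, hA, hA'⟩ := key z hz
    rw [hA.fderiv]
    exact hA'

variable {q : ∀ x : X, TangentSpace 𝓘(ℂ, E) x → ℝ}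

theorem XNORM_mono (a : UA q) (i : Fin a.n) {r s : ℝ} (h : r ≤ s) :
    a.p i '' ball 0 r ⊆ a.p i '' ball 0 s := image_mono (ball_subset_ball h)

/-- derivative bound in a chart -/
theorem XNORM_deriv (a : UA q) {ψ : E → X} {C' L : ℝ} (hL0 : 0 ≤ L) (hL : a.C * C' ≤ L ^ 2) {w : E}
    (hψ : ContMDiffAt 𝓘(ℂ, E) 𝓘(ℂ, E) ω ψ w) (h2 : ∀ v, pb q ψ w v ≤ C' * ‖v‖ ^ 2)
    {i : Fin a.n} (hi : ψ w ∈ a.p i '' ball 0 5) :
    ‖fderiv ℂ (a.κ i ∘ ψ) w‖ ≤ L := by
  obtain ⟨h3, h4, h5, h6, h7⟩ := a.local_form hψ hi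
  refine ContinuousLinearMap.opNorm_le_bound _ hL0 fun v => ?_
  have h8 := a.lower i _ h3 (fderiv ℂ (a.κ i ∘ ψ) w v)
  rw [← h7 v] at h8
  have hC0 : 0 ≤ a.C := zero_le_one.trans a.one_le_C
  have h9 : ‖fderiv ℂ (a.κ i ∘ ψ) w v‖ ^ 2 ≤ (L * ‖v‖) ^ 2 := by
    calc _ ≤ a.C * pb q ψ w v := h8
      _ ≤ a.C * (C' * ‖v‖ ^ 2) := mul_le_mul_of_nonneg_left (h2 v) hC0
      _ = (a.C * C') * ‖v‖ ^ 2 := by ring
      _ ≤ L ^ 2 * ‖v‖ ^ 2 := mul_le_mul_of_nonneg_right hL (by positivity)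
      _ = _ := by ring
  exact le_of_sq_le_sq h9 (by positivity)

/-- staying in a chart -/
theorem XNORM_stay [FiniteDimensional ℂ E] [T2Space X] (a : UA q) {ψ : E → X} {R C' L s : ℝ}
    (hL0 : 0 ≤ L) (hL : a.C * C' ≤ L ^ 2) (hs : L * s ≤ 1)
    (hψ : ContMDiffOn 𝓘(ℂ, E) 𝓘(ℂ, E) ω ψ (ball 0 R))
    (h2 : ∀ z ∈ ball (0 : E) R, ∀ v, pb q ψ z v ≤ C' * ‖v‖ ^ 2)
    {z₀ : E} (hz₀ : ball z₀ s ⊆ ball 0 R) {i : Fin a.n} (hi : ψ z₀ ∈ a.p i '' ball 0 2)
    {z : E} (hz : z ∈ ball z₀ s) : ψ z ∈ a.p i '' ball 0 3 := by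
  have : ProperSpace E := FiniteDimensional.proper ℂ E
  obtain ⟨ζ₀, hζ₀, e₀⟩ := hi
  have hζ₀' : ‖ζ₀‖ < 2 := by simpa using hζ₀
  have hs0 : 0 < s := dist_nonneg.trans_lt (mem_ball.1 hz)
  have hκ₀ : a.κ i (ψ z₀) = ζ₀ := by
    rw [← e₀, a.κ_p i ζ₀ (ball_subset_ball (by norm_num) hζ₀)]
  have hcl : IsClosed (a.p i '' closedBall 0 3) := by
    refine ((isCompact_closedBall (0 : E) 3).image_of_continuousOn ?_).isClosed
    exact (a.p_smooth i).continuousOn.mono (closedBall_subset_ball (by norm_num))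
  have hop : ∀ r ≤ (5 : ℝ), IsOpen (a.p i '' ball 0 r) := fun r hr =>
    a.p_open i _ (ball_subset_ball hr) isOpen_ball
  set γ : ℝ → E := fun t => z₀ + t • (z - z₀) with hγ
  have hγd : ∀ t, HasDerivAt γ (z - z₀) t := by
    intro t
    have h1 : HasDerivAt (fun t : ℝ => t • (z - z₀)) ((1 : ℝ) • (z - z₀)) t :=
      (hasDerivAt_id t).smul_const (z - z₀)
    rw [one_smul] at h1
    exact h1.const_add z₀
  have hd : ‖z - z₀‖ < s := by
    rw [← dist_eq_norm]; exact hz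
  have hLd : L * ‖z - z₀‖ ≤ 1 := (mul_le_mul_of_nonneg_left hd.le hL0).trans hs
  have hγb : ∀ t ∈ Icc (0 : ℝ) 1, γ t ∈ ball (0 : E) R := by
    intro t ht
    apply hz₀
    rw [mem_ball, dist_eq_norm]
    simp only [hγ, add_sub_cancel_left]
    rw [norm_smul, Real.norm_of_nonneg ht.1]
    calc t * ‖z - z₀‖ ≤ 1 * ‖z - z₀‖ := mul_le_mul_of_nonneg_right ht.2 (norm_nonneg _)
      _ < s := by rw [one_mul]; exact hd
  have hψc : ∀ w ∈ ball (0 : E) R, ContMDiffAt 𝓘(ℂ, E) 𝓘(ℂ, E) ω ψ w := fun w hw =>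
    hψ.contMDiffAt (isOpen_ball.mem_nhds hw)
  have hψγ : ∀ t, γ t ∈ ball (0 : E) R → ContinuousAt (fun t => ψ (γ t)) t := fun t ht =>
    ContinuousAt.comp (g := ψ) (f := γ) (hψc _ ht).continuousAt (hγd t).continuousAt
  -- derivative in the chart
  have hder : ∀ t, γ t ∈ ball (0 : E) R → ψ (γ t) ∈ a.p i '' ball 0 5 →
      ∃ D : E, HasDerivAt (fun t => a.κ i (ψ (γ t))) D t ∧ ‖D‖ ≤ L * ‖z - z₀‖ := by
    intro t ht hti
    obtain ⟨-, -, h5, -, -⟩ := a.local_form (hψc _ ht) hti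
    have h6 : HasFDerivAt (a.κ i ∘ ψ) (fderiv ℂ (a.κ i ∘ ψ) (γ t)) (γ t) :=
      (h5.differentiableAt (by simp)).hasFDerivAt
    have h7 := (h6.restrictScalars ℝ).comp_hasDerivAt t (hγd t)
    refine ⟨_, h7, ?_⟩
    have h8 := XNORM_deriv a hL0 hL (hψc _ ht) (h2 _ ht) hti
    exact (ContinuousLinearMap.le_opNorm (fderiv ℂ (a.κ i ∘ ψ) (γ t)) (z - z₀)).trans
      (mul_le_mul_of_nonneg_right h8 (norm_nonneg _))
  set S : Set ℝ := {t | ψ (γ t) ∈ a.p i '' closedBall 0 3 ∧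
    ‖a.κ i (ψ (γ t)) - ζ₀‖ ≤ L * (t * ‖z - z₀‖)} with hS
  have hsub35 : a.p i '' closedBall 0 3 ⊆ a.p i '' ball 0 5 :=
    image_mono (closedBall_subset_ball (by norm_num))
  have hsmall : ∀ t ∈ Icc (0 : ℝ) 1, t ∈ S → ψ (γ t) ∈ a.p i '' ball 0 3 := by
    intro t ht htS
    obtain ⟨⟨ζ, hζ, e⟩, h5⟩ := htS
    refine ⟨ζ, ?_, e⟩
    have h6 : a.κ i (ψ (γ t)) = ζ := by
      rw [← e, a.κ_p i ζ (closedBall_subset_ball (by norm_num) hζ)]
    rw [h6] at h5
    have h7 : L * (t * ‖z - z₀‖) ≤ 1 := by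
      calc L * (t * ‖z - z₀‖) = t * (L * ‖z - z₀‖) := by ring
        _ ≤ 1 * 1 := mul_le_mul ht.2 hLd (by positivity) zero_le_one
        _ = 1 := one_mul 1
    rw [mem_ball, dist_zero_right]
    calc ‖ζ‖ = ‖(ζ - ζ₀) + ζ₀‖ := by rw [sub_add_cancel]
      _ ≤ ‖ζ - ζ₀‖ + ‖ζ₀‖ := norm_add_le _ _
      _ < 3 := by linarith
  have hall : Icc (0 : ℝ) 1 ⊆ S := by
    refine IsClosed.Icc_subset_of_forall_mem_nhdsWithin ?_ ?_ ?_
    · refine isClosed_of_closure_subset fun t ht => ?_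
      have htI : t ∈ Icc (0 : ℝ) 1 :=
        isClosed_Icc.closure_subset_iff.2 (inter_subset_right) ht
      have hne : (𝓝[S ∩ Icc 0 1] t).NeBot := mem_closure_iff_nhdsWithin_neBot.1 ht
      have hc1 : Tendsto (fun t => ψ (γ t)) (𝓝[S ∩ Icc 0 1] t) (𝓝 (ψ (γ t))) :=
        (hψγ t (hγb t htI)).mono_left nhdsWithin_le_nhds
      have h3 : ψ (γ t) ∈ a.p i '' closedBall 0 3 := by
        refine hcl.mem_of_tendsto hc1 ?_
        filter_upwards [self_mem_nhdsWithin] with u hu using hu.1.1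
      obtain ⟨D, hD, -⟩ := hder t (hγb t htI) (hsub35 h3)
      refine ⟨⟨h3, ?_⟩, htI⟩
      have hc2 : Tendsto (fun t => ‖a.κ i (ψ (γ t)) - ζ₀‖) (𝓝[S ∩ Icc 0 1] t)
          (𝓝 ‖a.κ i (ψ (γ t)) - ζ₀‖) :=
        ((hD.continuousAt.sub continuousAt_const).norm).mono_left nhdsWithin_le_nhds
      have hc3 : Tendsto (fun t : ℝ => L * (t * ‖z - z₀‖)) (𝓝[S ∩ Icc 0 1] t)
          (𝓝 (L * (t * ‖z - z₀‖))) := by
        have : ContinuousAt (fun t : ℝ => L * (t * ‖z - z₀‖)) t := by fun_prop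
        exact this.mono_left nhdsWithin_le_nhds
      refine le_of_tendsto_of_tendsto hc2 hc3 ?_
      filter_upwards [self_mem_nhdsWithin] with u hu using hu.1.2
    · refine ⟨?_, ?_⟩
      · have : γ 0 = z₀ := by simp [hγ]
        rw [this]
        exact ⟨ζ₀, ball_subset_closedBall (ball_subset_ball (by norm_num) hζ₀), e₀⟩
      · have : γ 0 = z₀ := by simp [hγ]
        rw [this, hκ₀]
        simp
    · rintro t ⟨htS, htI⟩
      have htI' : t ∈ Icc (0 : ℝ) 1 := ⟨htI.1, htI.2.le⟩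
      have h3 := hsmall t htI' htS
      have hnb : ∀ᶠ u in 𝓝 t, γ u ∈ ball (0 : E) R ∧ ψ (γ u) ∈ a.p i '' ball 0 3 := by
        refine Filter.Eventually.and ?_ ?_
        · exact (hγd t).continuousAt.eventually (isOpen_ball.mem_nhds (hγb t htI'))
        · exact (hψγ t (hγb t htI')).eventually ((hop 3 (by norm_num)).mem_nhds h3)
      obtain ⟨δ, hδ, hδu⟩ := Metric.eventually_nhds_iff_ball.1 hnb
      have hmem : Ioo t (t + δ) ∈ 𝓝[>] t := Ioo_mem_nhdsGT (by linarith)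
      filter_upwards [hmem] with u hu
      have hub : ∀ w ∈ Icc t u, w ∈ ball t δ := by
        intro w hw
        rw [Real.ball_eq_Ioo]
        exact ⟨by linarith [hw.1], by linarith [hw.2, hu.2]⟩
      have h4 : ∀ w ∈ Icc t u, ∃ D : E, HasDerivAt (fun t => a.κ i (ψ (γ t))) D w ∧
          ‖D‖ ≤ L * ‖z - z₀‖ := by
        intro w hw
        have := hδu w (hub w hw)
        exact hder w this.1 (XNORM_mono a i (by norm_num) this.2)
      choose! D hD hDn using h4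
      have h5 := Convex.norm_image_sub_le_of_norm_hasDerivWithin_le (s := Icc t u)
        (fun w hw => (hD w hw).hasDerivWithinAt) hDn (convex_Icc t u)
        (left_mem_Icc.2 hu.1.le) (right_mem_Icc.2 hu.1.le)
      refine ⟨?_, ?_⟩
      · exact image_mono ball_subset_closedBall (hδu u (hub u (right_mem_Icc.2 hu.1.le))).2
      · rw [Real.norm_of_nonneg (by linarith [hu.1])] at h5
        calc ‖a.κ i (ψ (γ u)) - ζ₀‖ = ‖(a.κ i (ψ (γ u)) - a.κ i (ψ (γ t))) +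
              (a.κ i (ψ (γ t)) - ζ₀)‖ := by congr 1; abel
          _ ≤ ‖a.κ i (ψ (γ u)) - a.κ i (ψ (γ t))‖ + ‖a.κ i (ψ (γ t)) - ζ₀‖ := norm_add_le _ _
          _ ≤ L * ‖z - z₀‖ * (u - t) + L * (t * ‖z - z₀‖) := add_le_add h5 htS.2
          _ = L * (u * ‖z - z₀‖) := by ring
  have h1 : (1 : ℝ) ∈ Icc (0 : ℝ) 1 := ⟨zero_le_one, le_rfl⟩
  have h3 := hsmall 1 h1 (hall h1)
  have h4 : γ 1 = z := by simp [hγ]
  rwa [h4] at h3

theorem XNORM_clm {G H : Type} [NormedAddCommGroup G] [NormedSpace ℝ G] [NormedAddCommGroup H]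
    [NormedSpace ℝ H] {l : Filter ℕ} {B : ℕ → G →L[ℝ] H} {v : ℕ → G} {B₀ : G →L[ℝ] H} {v₀ : G}
    (hB : Tendsto B l (𝓝 B₀)) (hv : Tendsto v l (𝓝 v₀)) :
    Tendsto (fun m => B m (v m)) l (𝓝 (B₀ v₀)) :=
  ((isBoundedBilinearMap_apply (𝕜 := ℝ) (E := G) (F := H)).continuous.tendsto (B₀, v₀)).comp
    (hB.prodMk_nhds hv)

/-- convergence of the pullback in a chart -/
theorem XNORM_pb_tendsto (a : UA q) (i : Fin a.n) {l : Filter ℕ} {ξ w : ℕ → E} {ξ₀ w₀ : E}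
    (hξ₀ : ξ₀ ∈ ball (0 : E) 5) (hξ : Tendsto ξ l (𝓝 ξ₀)) (hw : Tendsto w l (𝓝 w₀)) :
    Tendsto (fun m => pb q (a.p i) (ξ m) (w m)) l (𝓝 (pb q (a.p i) ξ₀ w₀)) := by
  have hρ : ∀ ζ ∈ ball (0 : E) 5, ContDiffAt ℝ 2 (a.ρ i) ζ := fun ζ hζ =>
    ((a.ρ_smooth i).contDiffAt (isOpen_ball.mem_nhds hζ)).of_le (by norm_cast)
  have hform : ∀ ζ ∈ ball (0 : E) 5, ∀ v, pb q (a.p i) ζ v =
      fderiv ℝ (fderiv ℝ (a.ρ i)) ζ v v +
        fderiv ℝ (fderiv ℝ (a.ρ i)) ζ (Complex.I • v) (Complex.I • v) := by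
    intro ζ hζ v
    rw [← a.ρ_levi i ζ hζ v, leviForm_eq (hρ ζ hζ)]
  have hB : ContinuousAt (fderiv ℝ (fderiv ℝ (a.ρ i))) ξ₀ := by
    have h1 : ContDiffAt ℝ 1 (fderiv ℝ (a.ρ i)) ξ₀ := (hρ ξ₀ hξ₀).fderiv_right (by norm_num)
    have h2 : ContDiffAt ℝ 0 (fderiv ℝ (fderiv ℝ (a.ρ i))) ξ₀ := h1.fderiv_right (by norm_num)
    exact h2.continuousAt
  have hBξ : Tendsto (fun m => fderiv ℝ (fderiv ℝ (a.ρ i)) (ξ m)) l
      (𝓝 (fderiv ℝ (fderiv ℝ (a.ρ i)) ξ₀)) := hB.tendsto.comp hξ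
  have hIw : Tendsto (fun m => Complex.I • w m) l (𝓝 (Complex.I • w₀)) := hw.const_smul _
  have h1 : Tendsto (fun m => fderiv ℝ (fderiv ℝ (a.ρ i)) (ξ m) (w m) (w m) +
      fderiv ℝ (fderiv ℝ (a.ρ i)) (ξ m) (Complex.I • w m) (Complex.I • w m)) l
      (𝓝 (pb q (a.p i) ξ₀ w₀)) := by
    rw [hform ξ₀ hξ₀ w₀]
    exact (XNORM_clm (XNORM_clm hBξ hw) hw).add (XNORM_clm (XNORM_clm hBξ hIw) hIw)
  refine h1.congr' ?_
  filter_upwards [hξ.eventually (isOpen_ball.mem_nhds hξ₀)] with m hm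
  exact (hform _ hm _).symm

/-- TARGET. Limits of holomorphic maps with derivative bounds. -/
theorem normal_family [FiniteDimensional ℂ E] [IsManifold 𝓘(ℂ, E) ω X] [T2Space X]
    [CompactSpace X] {q : ∀ x : X, TangentSpace 𝓘(ℂ, E) x → ℝ} (a : UA q) (c C : ℝ) (hc : 0 < c)
    (R : ℕ → ℝ) (hR : Tendsto R atTop atTop) (ψ : ℕ → E → X)
    (hψ : ∀ m, ContMDiffOn 𝓘(ℂ, E) 𝓘(ℂ, E) ω (ψ m) (ball 0 (R m)))
    (h1 : ∀ m, ∀ z ∈ ball (0 : E) (R m), ∀ v, c * ‖v‖ ^ 2 ≤ pb q (ψ m) z v)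
    (h2 : ∀ m, ∀ z ∈ ball (0 : E) (R m), ∀ v, pb q (ψ m) z v ≤ C * ‖v‖ ^ 2) :
    ∃ Ψ : E → X, ContMDiff 𝓘(ℂ, E) 𝓘(ℂ, E) ω Ψ ∧ (∀ z v, c * ‖v‖ ^ 2 ≤ pb q Ψ z v) ∧
      ∀ z v, pb q Ψ z v ≤ C * ‖v‖ ^ 2 := by
  have : ProperSpace E := FiniteDimensional.proper ℂ E
  set l : Ultrafilter ℕ := hyperfilter ℕ with hl
  have hlim : ∀ z : E, ∃ x : X, Tendsto (fun m => ψ m z) l (𝓝 x) := by
    intro z
    obtain ⟨x, -, hx⟩ := (isCompact_univ (X := X)).ultrafilter_le_nhds (l.map fun m => ψ m z)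
      (by rw [principal_univ]; exact le_top)
    exact ⟨x, hx⟩
  choose Ψ hΨ using hlim
  -- constants
  set C' := max C 0 with hC'
  have hC'0 : 0 ≤ C' := le_max_right _ _
  have h2' : ∀ m, ∀ z ∈ ball (0 : E) (R m), ∀ v, pb q (ψ m) z v ≤ C' * ‖v‖ ^ 2 :=
    fun m z hz v => (h2 m z hz v).trans (mul_le_mul_of_nonneg_right (le_max_left _ _) (sq_nonneg _))
  have haC : 0 ≤ a.C := zero_le_one.trans a.one_le_C
  set L := Real.sqrt (a.C * C') + 1 with hLdef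
  have hsq0 : 0 ≤ Real.sqrt (a.C * C') := Real.sqrt_nonneg _
  have hL0 : 0 < L := by linarith
  have hL : a.C * C' ≤ L ^ 2 := by
    have h3 : Real.sqrt (a.C * C') ^ 2 = a.C * C' := Real.sq_sqrt (mul_nonneg haC hC'0)
    rw [hLdef]
    nlinarith
  set s := 1 / L with hs
  have hs0 : 0 < s := by positivity
  have hLs : L * s ≤ 1 := by rw [hs, mul_one_div_cancel hL0.ne']
  have hRl : ∀ z₀ : E, ∀ᶠ m in (l : Filter ℕ), ball z₀ s ⊆ ball (0 : E) (R m) := by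
    intro z₀
    have h3 : ∀ᶠ m in (l : Filter ℕ), ‖z₀‖ + s ≤ R m :=
      (hR.eventually_ge_atTop (‖z₀‖ + s)).filter_mono Nat.hyperfilter_le_atTop
    filter_upwards [h3] with m hm
    refine ball_subset_ball' ?_
    rw [dist_zero_right]
    linarith
  -- local description
  have loc : ∀ z₀ : E, ∃ i : Fin a.n, ∃ g : E → E, AnalyticAt ℂ g z₀ ∧ g z₀ ∈ ball (0 : E) 5 ∧
      Ψ =ᶠ[𝓝 z₀] a.p i ∘ g ∧
      ∀ v, Tendsto (fun m => pb q (ψ m) z₀ v) l (𝓝 (pb q (a.p i) (g z₀) (fderiv ℂ g z₀ v))) := by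
    intro z₀
    obtain ⟨i, ζ₁, hζ₁, e₁⟩ := a.cover (Ψ z₀)
    have hop : ∀ r ≤ (5 : ℝ), IsOpen (a.p i '' ball 0 r) := fun r hr =>
      a.p_open i _ (ball_subset_ball hr) isOpen_ball
    have hcl : IsClosed (a.p i '' closedBall 0 3) := by
      refine ((isCompact_closedBall (0 : E) 3).image_of_continuousOn ?_).isClosed
      exact (a.p_smooth i).continuousOn.mono (closedBall_subset_ball (by norm_num))
    have hin : ∀ᶠ m in (l : Filter ℕ), ψ m z₀ ∈ a.p i '' ball 0 2 :=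
      (hΨ z₀).eventually ((hop 2 (by norm_num)).mem_nhds
        ⟨ζ₁, ball_subset_ball (by norm_num) hζ₁, e₁⟩)
    have hst : ∀ᶠ m in (l : Filter ℕ), ball z₀ s ⊆ ball (0 : E) (R m) ∧
        ∀ z ∈ ball z₀ s, ψ m z ∈ a.p i '' ball 0 3 := by
      filter_upwards [hin, hRl z₀] with m hm1 hm2
      exact ⟨hm2, fun z hz => XNORM_stay a hL0.le hL hLs (hψ m) (h2' m) hm2 hm1 hz⟩
    have hΨin : ∀ z ∈ ball z₀ s, Ψ z ∈ a.p i '' closedBall 0 3 := by
      intro z hz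
      refine hcl.mem_of_tendsto (hΨ z) ?_
      filter_upwards [hst] with m hm
      exact image_mono ball_subset_closedBall (hm.2 z hz)
    have h35 : a.p i '' closedBall 0 3 ⊆ a.p i '' ball 0 5 :=
      image_mono (closedBall_subset_ball (by norm_num))
    set g : E → E := a.κ i ∘ Ψ with hg
    have hgin : ∀ z ∈ ball z₀ s, g z ∈ closedBall (0 : E) 3 ∧ a.p i (g z) = Ψ z := by
      intro z hz
      obtain ⟨ζ, hζ, e⟩ := hΨin z hz
      have h3 : g z = ζ := by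
        rw [hg, Function.comp_apply, ← e, a.κ_p i ζ (closedBall_subset_ball (by norm_num) hζ)]
      rw [h3]
      exact ⟨hζ, e⟩
    have hκc : ∀ z ∈ ball z₀ s, ContinuousAt (a.κ i) (Ψ z) := fun z hz =>
      ((a.κ_smooth i).contMDiffAt ((hop 5 le_rfl).mem_nhds (h35 (hΨin z hz)))).continuousAt
    have hfg : ∀ z ∈ ball z₀ s, Tendsto (fun m => (a.κ i ∘ ψ m) z) l (𝓝 (g z)) := fun z hz =>
      (hκc z hz).tendsto.comp (hΨ z)
    have hfd : ∀ᶠ m in (l : Filter ℕ), DifferentiableOn ℂ (a.κ i ∘ ψ m) (ball z₀ s) ∧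
        ∀ z ∈ ball z₀ s, ‖(a.κ i ∘ ψ m) z‖ ≤ 3 := by
      filter_upwards [hst] with m hm
      refine ⟨fun z hz => ?_, fun z hz => ?_⟩
      · obtain ⟨-, -, h5, -, -⟩ := a.local_form
          ((hψ m).contMDiffAt (isOpen_ball.mem_nhds (hm.1 hz)))
          (XNORM_mono a i (by norm_num) (hm.2 z hz))
        exact (h5.differentiableAt (by simp)).differentiableWithinAt
      · obtain ⟨ζ, hζ, e⟩ := hm.2 z hz
        rw [Function.comp_apply, ← e, a.κ_p i ζ (ball_subset_ball (by norm_num) hζ)]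
        rw [mem_ball, dist_zero_right] at hζ
        exact hζ.le
    obtain ⟨hgd, hgf⟩ := XNORM_lim l hfd hfg
    have hz₀ : z₀ ∈ ball z₀ s := mem_ball_self hs0
    have hg5 : g z₀ ∈ ball (0 : E) 5 :=
      closedBall_subset_ball (by norm_num) (hgin z₀ hz₀).1
    refine ⟨i, g, XNORM_analytic hs0 hgd, hg5, ?_, fun v => ?_⟩
    · filter_upwards [ball_mem_nhds z₀ hs0] with z hz
      exact (hgin z hz).2.symm
    · have h6 : Tendsto (fun m => fderiv ℂ (a.κ i ∘ ψ m) z₀ v) l (𝓝 (fderiv ℂ g z₀ v)) :=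
        ((ContinuousLinearMap.apply ℂ E v).continuous.tendsto _).comp (hgf z₀ hz₀)
      refine (XNORM_pb_tendsto a i hg5 (hfg z₀ hz₀) h6).congr' ?_
      filter_upwards [hst] with m hm
      obtain ⟨-, -, -, -, h7⟩ := a.local_form
        ((hψ m).contMDiffAt (isOpen_ball.mem_nhds (hm.1 hz₀)))
        (XNORM_mono a i (by norm_num) (hm.2 z₀ hz₀))
      exact (h7 v).symm
  have hpb : ∀ z₀ v, Tendsto (fun m => pb q (ψ m) z₀ v) l (𝓝 (pb q Ψ z₀ v)) := by
    intro z₀ v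
    obtain ⟨i, g, hga, hg5, hΨg, hv⟩ := loc z₀
    rw [pb_congr hΨg v, pb_comp ((a.p_smooth i).contMDiffAt (isOpen_ball.mem_nhds hg5))
      hga.contDiffAt v]
    exact hv v
  have hz : ∀ z₀ : E, ∀ᶠ m in (l : Filter ℕ), z₀ ∈ ball (0 : E) (R m) := fun z₀ =>
    (hRl z₀).mono fun m hm => hm (mem_ball_self hs0)
  refine ⟨Ψ, ?_, ?_, ?_⟩
  · intro z₀
    obtain ⟨i, g, hga, hg5, hΨg, -⟩ := loc z₀
    have h6 : ContMDiffAt 𝓘(ℂ, E) 𝓘(ℂ, E) ω (a.p i ∘ g) z₀ :=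
      ((a.p_smooth i).contMDiffAt (isOpen_ball.mem_nhds hg5)).comp z₀ hga.contDiffAt.contMDiffAt
    exact h6.congr_of_eventuallyEq hΨg
  · intro z v
    refine ge_of_tendsto (hpb z v) ?_
    filter_upwards [hz z] with m hm using h1 m z hm v
  · intro z v
    refine le_of_tendsto (hpb z v) ?_
    filter_upwards [hz z] with m hm using h2 m z hm v

end Pool.Agent.H775.KE
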