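import Pool.Agent.H775.KE.Atl

/-!
# Job XUA (helper775): existence of the uniform atlas

Files to copy from origin/main (outputs/live) to /workdir/pool first, then `lake build Pool.Agent.H775.KE.Atl`:
Pool/Agent/H775/KE/{Defs,Levi,Man,Atl}.lean  (all proven; read them: `pb`, `UA`, `UA.local_form`,
`pb_comp`, `pb_congr`, `comp_X`, `leviForm_comp`, `leviForm_congr`, `leviForm_eq`, `leviForm_smul`, ...).
Return ONE file `Pool/Agent/H775/KE/XUA.lean` which imports `Pool.Agent.H775.KE.Atl` and proves the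
target with exactly this name and statement, no sorry (compile it with `lake build`; the package options
matter). Helper lemmas: give them names starting with `XUA_`.
-/

set_option autoImplicit false

open scoped Manifold ContDiff Topology
open Set Filter Metric

namespace Pool.Agent.H775.KE

variable {E : Type} [NormedAddCommGroup E] [NormedSpace ℂ E]
variable {F : Type} [NormedAddCommGroup F] [NormedSpace ℂ F]
variable {X : Type} [TopologicalSpace X] [ChartedSpace E X]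

theorem XUA_local [FiniteDimensional ℂ E] [IsManifold 𝓘(ℂ, E) ω X]
    (q : ∀ x : X, TangentSpace 𝓘(ℂ, E) x → ℝ) (hq : IsKahlerMetric q) (x₀ : X) :
    ∃ (p : E → X) (κ : X → E) (ρ : E → ℝ) (C : ℝ), 1 ≤ C ∧ p 0 = x₀ ∧
      ContMDiffOn 𝓘(ℂ, E) 𝓘(ℂ, E) ω p (ball 0 5) ∧
      (∀ z ∈ ball (0 : E) 5, κ (p z) = z) ∧
      (∀ U ⊆ ball (0 : E) 5, IsOpen U → IsOpen (p '' U)) ∧
      ContMDiffOn 𝓘(ℂ, E) 𝓘(ℂ, E) ω κ (p '' ball 0 5) ∧
      (∀ z ∈ ball (0 : E) 5, ∀ v : E, ‖v‖ ^ 2 ≤ C * pb q p z v) ∧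
      (∀ z ∈ ball (0 : E) 5, ∀ v : E, pb q p z v ≤ C * ‖v‖ ^ 2) ∧
      ContDiffOn ℝ ∞ ρ (ball 0 5) ∧
      (∀ z ∈ ball (0 : E) 5, |ρ z| ≤ C) ∧
      (∀ z ∈ ball (0 : E) 5, ∀ v, leviForm ρ z v = pb q p z v) := by
  have : ProperSpace E := FiniteDimensional.proper ℂ E
  set φ := chartAt E x₀ with hφ
  obtain ⟨U, hUo, hxU, pot, hpot⟩ := hq.2 x₀
  have hTo : IsOpen (φ.target ∩ φ.symm ⁻¹' U) := φ.isOpen_inter_preimage_symm hUo
  have hx0s : x₀ ∈ φ.source := mem_chart_source E x₀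
  have hxT : φ x₀ ∈ φ.target ∩ φ.symm ⁻¹' U := by
    refine ⟨φ.map_source hx0s, ?_⟩
    rw [mem_preimage, φ.left_inv hx0s]
    exact hxU
  obtain ⟨R, hR0, hR⟩ := Metric.isOpen_iff.1 hTo _ hxT
  set r : ℝ := R / 6 with hr
  have hr0 : 0 < r := by positivity
  have hrC : (r : ℂ) ≠ 0 := by exact_mod_cast hr0.ne'
  set A : E → E := fun z => φ x₀ + (r : ℂ) • z with hA
  have hAT : ∀ z ∈ ball (0 : E) 6, A z ∈ φ.target ∩ φ.symm ⁻¹' U := by
    intro z hz
    apply hR
    rw [mem_ball_zero_iff] at hz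
    rw [mem_ball, hA, dist_eq_norm]
    simp only [add_sub_cancel_left]
    rw [norm_smul, Complex.norm_real, Real.norm_eq_abs, abs_of_pos hr0]
    have : r * ‖z‖ < r * 6 := mul_lt_mul_of_pos_left hz hr0
    rw [hr] at this ⊢
    linarith
  have hb56 : ball (0 : E) 5 ⊆ ball (0 : E) 6 := ball_subset_ball (by norm_num)
  have hcb56 : closedBall (0 : E) 5 ⊆ ball (0 : E) 6 := closedBall_subset_ball (by norm_num)
  have hAsm : ContDiff ℂ ω A := by
    rw [hA]
    exact contDiff_const.add (contDiff_const.smul contDiff_id)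
  set p : E → X := fun z => φ.symm (A z) with hp
  set κ : X → E := fun y => (r : ℂ)⁻¹ • (φ y - φ x₀) with hκ
  have hκp : ∀ z ∈ ball (0 : E) 6, κ (p z) = z := by
    intro z hz
    simp only [hκ, hp]
    rw [φ.right_inv (hAT z hz).1, hA]
    simp only [add_sub_cancel_left]
    rw [smul_smul, inv_mul_cancel₀ hrC, one_smul]
  have hpsm : ∀ z ∈ ball (0 : E) 6, ContMDiffAt 𝓘(ℂ, E) 𝓘(ℂ, E) ω p z := by
    intro z hz
    have h1 : ContMDiffAt 𝓘(ℂ, E) 𝓘(ℂ, E) ω φ.symm (A z) :=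
      contMDiffAt_symm_of_mem_maximalAtlas (IsManifold.chart_mem_maximalAtlas x₀) (hAT z hz).1
    exact h1.comp z hAsm.contMDiff.contMDiffAt
  have hκsm : ∀ y ∈ φ.source, ContMDiffAt 𝓘(ℂ, E) 𝓘(ℂ, E) ω κ y := by
    intro y hy
    have h1 : ContMDiffAt 𝓘(ℂ, E) 𝓘(ℂ, E) ω φ y :=
      contMDiffAt_of_mem_maximalAtlas (IsManifold.chart_mem_maximalAtlas x₀) hy
    have h2 : ContDiff ℂ ω (fun w : E => (r : ℂ)⁻¹ • (w - φ x₀)) :=
      contDiff_const.smul (contDiff_id.sub contDiff_const)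
    exact (h2.contMDiff.contMDiffAt (x := φ y)).comp y h1
  have hpsource : ∀ z ∈ ball (0 : E) 6, p z ∈ φ.source := fun z hz => φ.map_target (hAT z hz).1
  have hlevi : ∀ z ∈ ball (0 : E) 6, ContDiffAt ℝ ∞ (pot ∘ p) z ∧
      ∀ v, leviForm (pot ∘ p) z v = pb q p z v := by
    intro z hz
    have h1 := hpot (p z) (hAT z hz).2
    have h2 := comp_X (hpsm z hz) h1.1
    refine ⟨h2.1, fun v => ?_⟩
    rw [h2.2 v, pb, h1.2]
  have hinj : ∀ z ∈ ball (0 : E) 6, ∀ v : E, v ≠ 0 → mfderiv 𝓘(ℂ, E) 𝓘(ℂ, E) p z v ≠ 0 := by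
    intro z hz v hv h0
    apply hv
    have e1 : (κ ∘ p) =ᶠ[𝓝 z] id := by
      filter_upwards [isOpen_ball.mem_nhds hz] with w hw
      exact hκp w hw
    have d1 : MDifferentiableAt 𝓘(ℂ, E) 𝓘(ℂ, E) κ (p z) :=
      (hκsm _ (hpsource z hz)).mdifferentiableAt (by simp)
    have d2 : MDifferentiableAt 𝓘(ℂ, E) 𝓘(ℂ, E) p z := (hpsm z hz).mdifferentiableAt (by simp)
    have e2 := mfderiv_comp z d1 d2
    rw [e1.mfderiv_eq, mfderiv_id] at e2
    have e3 := congrArg (fun L => L v) e2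
    have e4 : v = (mfderiv 𝓘(ℂ, E) 𝓘(ℂ, E) κ (p z)) ((mfderiv 𝓘(ℂ, E) 𝓘(ℂ, E) p z) v) := e3
    rw [e4, h0]
    exact map_zero _
  have hpos : ∀ z ∈ ball (0 : E) 6, ∀ v : E, v ≠ 0 → 0 < pb q p z v := by
    intro z hz v hv
    exact hq.1 _ _ (hinj z hz v hv)
  have hCD2 : ∀ z ∈ ball (0 : E) 6, ContDiffAt ℝ 2 (pot ∘ p) z := fun z hz =>
    (hlevi z hz).1.of_le (by norm_cast)
  -- continuity of the Levi form
  have hcont : ContinuousOn (fun s : E × E => leviForm (pot ∘ p) s.1 s.2)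
      (closedBall (0 : E) 5 ×ˢ sphere (0 : E) 1) := by
    have h1 : ContinuousOn (fun s : E × E =>
        fderiv ℝ (fderiv ℝ (pot ∘ p)) s.1 s.2 s.2 +
        fderiv ℝ (fderiv ℝ (pot ∘ p)) s.1 (Complex.I • s.2) (Complex.I • s.2))
        (closedBall (0 : E) 5 ×ˢ sphere (0 : E) 1) := by
      intro s hs
      apply ContinuousAt.continuousWithinAt
      have hz := hcb56 hs.1
      have c1 : ContinuousAt (fderiv ℝ (fderiv ℝ (pot ∘ p))) s.1 :=
        (((hCD2 s.1 hz).fderiv_right (m := 1) (by norm_num)).fderiv_right (m := 0)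
          (by norm_num)).continuousAt
      have c2 : ContinuousAt (fun s : E × E => fderiv ℝ (fderiv ℝ (pot ∘ p)) s.1) s :=
        ContinuousAt.comp (f := fun s : E × E => s.1) c1 continuousAt_fst
      have c3 : ContinuousAt (fun s : E × E => Complex.I • s.2) s :=
        continuousAt_snd.const_smul Complex.I
      exact ((c2.clm_apply continuousAt_snd).clm_apply continuousAt_snd).add
        ((c2.clm_apply c3).clm_apply c3)
    refine h1.congr ?_
    intro s hs
    exact leviForm_eq (hCD2 s.1 (hcb56 hs.1)) s.2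
  have hK : IsCompact (closedBall (0 : E) 5 ×ˢ sphere (0 : E) 1) :=
    (isCompact_closedBall 0 5).prod (isCompact_sphere 0 1)
  have hposS : ∀ s ∈ closedBall (0 : E) 5 ×ˢ sphere (0 : E) 1,
      0 < leviForm (pot ∘ p) s.1 s.2 := by
    intro s hs
    rw [(hlevi s.1 (hcb56 hs.1)).2]
    apply hpos _ (hcb56 hs.1)
    have : ‖s.2‖ = 1 := by simpa using hs.2
    intro h0
    rw [h0, norm_zero] at this
    exact zero_ne_one this
  obtain ⟨C₁, hC₁⟩ := hK.bddAbove_image hcont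
  obtain ⟨C₂, hC₂⟩ := hK.bddAbove_image (hcont.inv₀ (fun s hs => (hposS s hs).ne'))
  have hρc : ContinuousOn (fun z => |(pot ∘ p) z|) (closedBall (0 : E) 5) := by
    intro z hz
    exact ((hlevi z (hcb56 hz)).1.continuousAt.abs).continuousWithinAt
  obtain ⟨C₃, hC₃⟩ := (isCompact_closedBall (0 : E) 5).bddAbove_image hρc
  set C : ℝ := 1 + |C₁| + |C₂| + |C₃| with hC
  have hb5 : ball (0 : E) 5 ⊆ closedBall (0 : E) 5 := ball_subset_closedBall
  have hone : 1 ≤ C := by
    have := abs_nonneg C₁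
    have := abs_nonneg C₂
    have := abs_nonneg C₃
    linarith
  have hC1 : C₁ ≤ C := by
    have := le_abs_self C₁
    have := abs_nonneg C₂
    have := abs_nonneg C₃
    linarith
  have hC2 : C₂ ≤ C := by
    have := le_abs_self C₂
    have := abs_nonneg C₁
    have := abs_nonneg C₃
    linarith
  have hC3 : C₃ ≤ C := by
    have := le_abs_self C₃
    have := abs_nonneg C₂
    have := abs_nonneg C₁
    linarith
  -- homogeneity
  have hhom : ∀ z ∈ ball (0 : E) 5, ∀ v : E, v ≠ 0 → ∃ u ∈ sphere (0 : E) 1,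
      pb q p z v = ‖v‖ ^ 2 * leviForm (pot ∘ p) z u := by
    intro z hz v hv
    have hv0 : ‖v‖ ≠ 0 := norm_ne_zero_iff.2 hv
    refine ⟨((‖v‖ : ℂ))⁻¹ • v, ?_, ?_⟩
    · rw [mem_sphere_zero_iff_norm, norm_smul, norm_inv, Complex.norm_real, norm_norm,
        inv_mul_cancel₀ hv0]
    · rw [leviForm_smul (hCD2 z (hb56 hz)), norm_inv, Complex.norm_real, norm_norm,
        (hlevi z (hb56 hz)).2]
      field_simp
  have hzero : ∀ z ∈ ball (0 : E) 5, pb q p z 0 = 0 := by
    intro z hz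
    rw [← (hlevi z (hb56 hz)).2]
    have := leviForm_smul (hCD2 z (hb56 hz)) (0 : ℂ) (0 : E)
    rw [zero_smul, norm_zero] at this
    rw [this]; ring
  refine ⟨p, κ, pot ∘ p, C, hone, ?_, ?_, ?_, ?_, ?_, ?_, ?_, ?_, ?_, ?_⟩
  · simp only [hp, hA, smul_zero, add_zero]
    exact φ.left_inv hx0s
  · intro z hz
    exact (hpsm z (hb56 hz)).contMDiffWithinAt
  · intro z hz
    exact hκp z (hb56 hz)
  · intro V hV hVo
    have h1 : IsOpen (A '' V) := by
      have : A = (Homeomorph.addLeft (φ x₀)) ∘ (Homeomorph.smulOfNeZero (r : ℂ) hrC) := by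
        funext z; rfl
      rw [this, image_comp]
      exact (Homeomorph.isOpenMap _) _ ((Homeomorph.isOpenMap _) _ hVo)
    have h2 : p '' V = φ.symm '' (A '' V) := by
      rw [image_image]
    rw [h2]
    apply φ.symm.isOpen_image_of_subset_source h1
    rintro _ ⟨z, hz, rfl⟩
    exact (hAT z (hb56 (hV hz))).1
  · rintro _ ⟨z, hz, rfl⟩
    exact (hκsm _ (hpsource z (hb56 hz))).contMDiffWithinAt
  · intro z hz v
    by_cases hv : v = 0
    · subst hv
      rw [hzero z hz]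
      simp
    obtain ⟨u, hu, he⟩ := hhom z hz v hv
    have hmem : ((z, u) : E × E) ∈ closedBall (0 : E) 5 ×ˢ sphere (0 : E) 1 := ⟨hb5 hz, hu⟩
    have h1 := hposS _ hmem
    have h2 : (leviForm (pot ∘ p) z u)⁻¹ ≤ C₂ := hC₂ ⟨(z, u), hmem, rfl⟩
    simp only at h1
    have h3 : 1 ≤ C * leviForm (pot ∘ p) z u := by
      have : (leviForm (pot ∘ p) z u)⁻¹ ≤ C := h2.trans hC2
      rwa [inv_le_iff_one_le_mul₀ h1] at this
    rw [he]
    nlinarith [sq_nonneg ‖v‖]
  · intro z hz v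
    by_cases hv : v = 0
    · subst hv
      rw [hzero z hz]
      simp
    obtain ⟨u, hu, he⟩ := hhom z hz v hv
    have hmem : ((z, u) : E × E) ∈ closedBall (0 : E) 5 ×ˢ sphere (0 : E) 1 := ⟨hb5 hz, hu⟩
    have h2 : leviForm (pot ∘ p) z u ≤ C₁ := hC₁ ⟨(z, u), hmem, rfl⟩
    rw [he, mul_comm]
    exact mul_le_mul_of_nonneg_right (h2.trans hC1) (sq_nonneg _)
  · intro z hz
    exact (hlevi z (hb56 hz)).1.contDiffWithinAt
  · intro z hz
    exact (hC₃ ⟨z, hb5 hz, rfl⟩ : |(pot ∘ p) z| ≤ C₃).trans hC3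
  · intro z hz v
    exact (hlevi z (hb56 hz)).2 v

/-- TARGET. Existence of the uniform atlas.

Proof. For `x : X` let `φ = chartAt E x`, and `U`, `pot` be the neighbourhood and the Kähler potential of
`IsKahlerMetric` at `x`. Choose `r > 0` with `closedBall (φ x) (5 r) ⊆ φ.target ∩ φ.symm ⁻¹' U`, and put
`p z = φ.symm (φ x + r z)`, `κ y = r⁻¹ (φ y - φ x)`, `ρ = pot ∘ p`. By `comp_X` (in Man.lean) `ρ` is smooth
near the closed ball of radius 5 and `leviForm ρ z v = pb q p z v`. By `leviForm_eq` this is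
`D²ρ(z)(v, v) + D²ρ(z)(iv, iv)`, jointly continuous in `(z, v)`, and it is positive for `v ≠ 0` (`q` is
positive and the derivative of `p` is injective, as `κ ∘ p = id`). So it has a positive minimum and a
maximum on the compact set `closedBall 0 5 × sphere 0 1` (if `E` is trivial there is nothing to do), and
`leviForm_smul` (with `‖v‖⁻¹ v`) gives `lower` and `upper`. Also `|ρ|` is bounded on the closed ball.
Finally, by compactness, finitely many sets `p '' ball 0 1` cover `X`; take for `C` the maximum of the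
finitely many constants and `1`. -/
theorem exists_UA [FiniteDimensional ℂ E] [IsManifold 𝓘(ℂ, E) ω X] [CompactSpace X]
    (q : ∀ x : X, TangentSpace 𝓘(ℂ, E) x → ℝ) (hq : IsKahlerMetric q) : Nonempty (UA q) := by
  classical
  choose p κ ρ C h1 h2 h3 h4 h5 h6 h7 h8 h9 h10 h11 using fun x => XUA_local q hq x
  have hb : ball (0 : E) 1 ⊆ ball (0 : E) 5 := ball_subset_ball (by norm_num)
  obtain ⟨t, -, ht⟩ := isCompact_univ.elim_nhds_subcover (fun x : X => p x '' ball (0 : E) 1)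
    (fun x _ => (h5 x _ hb isOpen_ball).mem_nhds ⟨0, mem_ball_self (by norm_num), h2 x⟩)
  set e := t.equivFin with he
  have hCt : ∀ x ∈ t, C x ≤ 1 + ∑ y ∈ t, C y := by
    intro x hx
    have := Finset.single_le_sum (f := C) (fun y _ => zero_le_one.trans (h1 y)) hx
    linarith
  have hCi : ∀ i : Fin t.card, C (e.symm i : X) ≤ 1 + ∑ y ∈ t, C y := fun i =>
    hCt _ (e.symm i).2
  refine ⟨{
    n := t.card
    p := fun i => p (e.symm i)
    κ := fun i => κ (e.symm i)
    ρ := fun i => ρ (e.symm i)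
    C := 1 + ∑ y ∈ t, C y
    one_le_C := ?_
    cover := ?_
    p_smooth := fun i => h3 _
    κ_p := fun i => h4 _
    p_open := fun i => h5 _
    κ_smooth := fun i => h6 _
    lower := ?_
    upper := ?_
    ρ_smooth := fun i => h9 _
    ρ_bdd := fun i z hz => (h10 _ z hz).trans (hCi i)
    ρ_levi := fun i => h11 _ }⟩
  · have : 0 ≤ ∑ y ∈ t, C y := Finset.sum_nonneg (fun y _ => zero_le_one.trans (h1 y))
    linarith
  · intro x
    have hx := ht (mem_univ x)
    simp only [mem_iUnion] at hx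
    obtain ⟨y, hy, z, hz, hzx⟩ := hx
    refine ⟨e ⟨y, hy⟩, z, hz, ?_⟩
    simp only [Equiv.symm_apply_apply]
    exact hzx
  · intro i z hz v
    have g1 := h7 (e.symm i) z hz v
    have g2 := h1 (e.symm i : X)
    have g3 : 0 ≤ pb q (p (e.symm i)) z v := by
      by_contra hneg
      push Not at hneg
      have := sq_nonneg ‖v‖
      nlinarith
    exact g1.trans (mul_le_mul_of_nonneg_right (hCi i) g3)
  · intro i z hz v
    exact (h8 (e.symm i) z hz v).trans (mul_le_mul_of_nonneg_right (hCi i) (sq_nonneg _))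

end Pool.Agent.H775.KE
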