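import Pool.Agent.H775.KE.Comp
import Pool.Agent.H775.KE.XUA
import Pool.Agent.H775.KE.XNORM
import Pool.Agent.H775.KE.XCOV
import Pool.Agent.H775.KE.XASM

/-!
# Orbit intersections for étale self-maps of compact Kähler manifolds
-/

set_option autoImplicit false
set_option linter.unusedSectionVars false

open scoped Manifold ContDiff Topology
open Set Filter Metric

namespace Pool.Agent.H775.KE

variable {E : Type} [NormedAddCommGroup E] [NormedSpace ℂ E]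
variable {X : Type} [TopologicalSpace X] [ChartedSpace E X]
variable {q : ∀ x : X, TangentSpace 𝓘(ℂ, E) x → ℝ}

section

variable [FiniteDimensional ℂ E] [IsManifold 𝓘(ℂ, E) ω X]

theorem pb_bdd_nhds (a : UA q) {h : E → X} {z₀ : E}
    (hs : ∀ᶠ z in 𝓝 z₀, ContMDiffAt 𝓘(ℂ, E) 𝓘(ℂ, E) ω h z) :
    ∃ D : ℝ, ∀ᶠ z in 𝓝 z₀, ∀ w, pb q h z w ≤ D * ‖w‖ ^ 2 := by
  have hh := hs.self_of_nhds
  obtain ⟨i, ζ, hζ, e⟩ := a.cover (h z₀)
  have hi : h z₀ ∈ a.p i '' ball 0 5 := ⟨ζ, ball_subset_ball (by norm_num) hζ, e⟩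
  have hU : IsOpen (a.p i '' ball 0 5) := a.p_open i _ (Subset.refl _) isOpen_ball
  obtain ⟨h1, h2, h3, h4, h5⟩ := a.local_form hh hi
  have hm : ∀ᶠ z in 𝓝 z₀, h z ∈ a.p i '' ball 0 5 := hh.continuousAt.eventually (hU.mem_nhds hi)
  set Θ : E → ℝ := a.ρ i ∘ (a.κ i ∘ h) with hΘ
  have hΘc : ContDiffAt ℝ 2 Θ z₀ := by
    have c1 : ContDiffAt ℝ 2 (a.ρ i) ((a.κ i ∘ h) z₀) :=
      ((a.ρ_smooth i).contDiffAt (isOpen_ball.mem_nhds h1)).of_le (by norm_cast)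
    exact c1.comp z₀ ((h3.restrict_scalars ℝ).of_le (by simp))
  have hc2 : ∀ᶠ z in 𝓝 z₀, ContDiffAt ℝ 2 Θ z := hΘc.eventually (by simp)
  have hB : ContinuousAt (fderiv ℝ (fderiv ℝ Θ)) z₀ := by
    have h1 : ContDiffAt ℝ 1 (fderiv ℝ Θ) z₀ := hΘc.fderiv_right (by norm_num)
    exact h1.continuousAt_fderiv (by simp)
  have hBd : ∀ᶠ z in 𝓝 z₀, ‖fderiv ℝ (fderiv ℝ Θ) z‖ < ‖fderiv ℝ (fderiv ℝ Θ) z₀‖ + 1 := by
    have h1 := hB.eventually (Metric.ball_mem_nhds (fderiv ℝ (fderiv ℝ Θ) z₀) one_pos)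
    filter_upwards [h1] with z hz
    have e := dist_eq_norm (fderiv ℝ (fderiv ℝ Θ) z) (fderiv ℝ (fderiv ℝ Θ) z₀)
    have hz' : ‖fderiv ℝ (fderiv ℝ Θ) z - fderiv ℝ (fderiv ℝ Θ) z₀‖ < 1 := e ▸ hz
    have h2 := norm_sub_norm_le (fderiv ℝ (fderiv ℝ Θ) z) (fderiv ℝ (fderiv ℝ Θ) z₀)
    linarith
  set M := ‖fderiv ℝ (fderiv ℝ Θ) z₀‖ + 1 with hM
  refine ⟨2 * M, ?_⟩
  filter_upwards [hs, hm, hc2, hBd] with z hs hm hc2 hBd w
  obtain ⟨k1, k2, k3, k4, k5⟩ := a.local_form hs hm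
  have c1 : ContDiffAt ℝ 2 (a.ρ i) (a.κ i (h z)) :=
    ((a.ρ_smooth i).contDiffAt (isOpen_ball.mem_nhds k1)).of_le (by norm_cast)
  have e1 : pb q h z w = leviForm Θ z w := by
    rw [k5, ← a.ρ_levi i _ k1, hΘ, leviForm_comp (k3.of_le (by simp)) c1]
    rfl
  rw [e1, leviForm_eq hc2]
  have h6 : ∀ x : E, ‖x‖ = ‖w‖ → fderiv ℝ (fderiv ℝ Θ) z x x ≤ M * ‖w‖ ^ 2 := by
    intro x hx
    have h7 := ContinuousLinearMap.le_opNorm₂ (fderiv ℝ (fderiv ℝ Θ) z) x x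
    rw [hx, Real.norm_eq_abs] at h7
    calc _ ≤ |fderiv ℝ (fderiv ℝ Θ) z x x| := le_abs_self _
      _ ≤ ‖fderiv ℝ (fderiv ℝ Θ) z‖ * ‖w‖ * ‖w‖ := h7
      _ ≤ M * ‖w‖ * ‖w‖ := by gcongr
      _ = _ := by ring
  have h8 := h6 w rfl
  have h9 := h6 (Complex.I • w) (by rw [norm_smul, Complex.norm_I, one_mul])
  linarith

theorem pb_bdd (a : UA q) {h : E → X} {K : Set E} (hK : IsCompact K)
    (hh : ∀ z ∈ K, ∀ᶠ w in 𝓝 z, ContMDiffAt 𝓘(ℂ, E) 𝓘(ℂ, E) ω h w) :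
    ∃ D : ℝ, ∀ z ∈ K, ∀ w, pb q h z w ≤ D * ‖w‖ ^ 2 := by
  refine hK.induction_on (p := fun S => ∃ D : ℝ, ∀ z ∈ S, ∀ w, pb q h z w ≤ D * ‖w‖ ^ 2)
    ⟨0, by simp⟩ ?_ ?_ ?_
  · rintro s t hst ⟨D, hD⟩
    exact ⟨D, fun z hz => hD z (hst hz)⟩
  · rintro s t ⟨D, hD⟩ ⟨D', hD'⟩
    refine ⟨max D D', fun z hz w => ?_⟩
    rcases hz with hz | hz
    · exact (hD z hz w).trans (by gcongr; exact le_max_left _ _)
    · exact (hD' z hz w).trans (by gcongr; exact le_max_right _ _)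
  · intro z hz
    obtain ⟨D, hD⟩ := pb_bdd_nhds a (hh z hz)
    exact ⟨_, mem_nhdsWithin_of_mem_nhds hD, D, fun z hz => hz⟩

/-- two metrics are comparable -/
theorem metric_le {q' : ∀ x : X, TangentSpace 𝓘(ℂ, E) x → ℝ} (a : UA q) (a' : UA q') :
    ∃ D : ℝ, 0 < D ∧ ∀ x (v : TangentSpace 𝓘(ℂ, E) x), q x v ≤ D * q' x v := by
  have hproper : ProperSpace E := FiniteDimensional.proper ℂ E
  have h1 : ∀ j : Fin a'.n, ∃ D : ℝ, ∀ z ∈ closedBall (0 : E) 1, ∀ w,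
      pb q (a'.p j) z w ≤ D * ‖w‖ ^ 2 := fun j =>
    pb_bdd a (isCompact_closedBall 0 1) fun z hz => by
      filter_upwards [isOpen_ball.mem_nhds (closedBall_subset_ball (by norm_num : (1 : ℝ) < 5) hz)]
        with w hw using a'.smoothAt_p j hw
  choose D hD using h1
  have hC := a'.one_le_C
  refine ⟨(∑ j, |D j| + 1) * a'.C, by positivity, fun x v => ?_⟩
  obtain ⟨j, z, hz, rfl⟩ := a'.cover x
  have hz5 : z ∈ ball (0 : E) 5 := ball_subset_ball (by norm_num) hz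
  obtain ⟨w, rfl⟩ := a'.exists_vec j hz5 v
  have b1 := hD j z (ball_subset_closedBall hz) w
  have b2 := a'.lower j z hz5 w
  have b3 := pb_nonneg a' (a'.smoothAt_p j hz5) w
  have b4 : |D j| ≤ ∑ j, |D j| + 1 := by
    have := Finset.single_le_sum (f := fun j => |D j|) (fun i _ => abs_nonneg _)
      (Finset.mem_univ j)
    linarith
  have e1 : q (a'.p j z) (mfderiv 𝓘(ℂ, E) 𝓘(ℂ, E) (a'.p j) z w) = pb q (a'.p j) z w := rfl
  have e2 : q' (a'.p j z) (mfderiv 𝓘(ℂ, E) 𝓘(ℂ, E) (a'.p j) z w) = pb q' (a'.p j) z w := rfl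
  rw [e1, e2]
  calc pb q (a'.p j) z w ≤ D j * ‖w‖ ^ 2 := b1
    _ ≤ |D j| * ‖w‖ ^ 2 := by gcongr; exact le_abs_self _
    _ ≤ (∑ j, |D j| + 1) * (a'.C * pb q' (a'.p j) z w) := by gcongr
    _ = _ := by ring

/-- The developing map. -/
theorem exists_cover [T2Space X] [CompactSpace X] [ConnectedSpace X] (a : UA q) {f : X → X}
    {δ : ℝ} {u : X → ℝ} (H : Et q f δ u) :
    ∃ (c C : ℝ) (Ψ : E → X), 0 < c ∧ ContMDiff 𝓘(ℂ, E) 𝓘(ℂ, E) ω Ψ ∧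
      (∀ z v, c * ‖v‖ ^ 2 ≤ pb q Ψ z v) ∧ (∀ z v, pb q Ψ z v ≤ C * ‖v‖ ^ 2) ∧
      IsCoveringMap Ψ ∧ Function.Surjective Ψ := by
  obtain ⟨A, hA0, hA⟩ := comparable a H
  have hδ1 := H.one_lt
  obtain ⟨x₀⟩ := (inferInstance : Nonempty X)
  obtain ⟨i, -⟩ := a.cover x₀
  set β : ℝ := Real.sqrt δ with hβ
  have hβ1 : 1 < β := by rw [hβ, Real.lt_sqrt (by norm_num)]; linarith
  have hβ2 : β ^ 2 = δ := Real.sq_sqrt (by linarith)
  have hβ0 : 0 < β := by linarith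
  have hC := a.one_le_C
  set T : ℕ → E → E := fun m z => (((β ^ m)⁻¹ : ℝ) : ℂ) • z with hT
  have hTm : ∀ m, ∀ z ∈ ball (0 : E) (5 * β ^ m), T m z ∈ ball (0 : E) 5 := by
    intro m z hz
    rw [mem_ball_zero_iff] at *
    rw [hT]
    simp only []
    rw [norm_smul, Complex.norm_real, Real.norm_eq_abs, abs_of_pos (by positivity),
      inv_mul_lt_iff₀ (by positivity)]
    linarith
  have hTd : ∀ m z, ContDiffAt ℂ ω (T m) z := fun m z => contDiffAt_const.smul contDiffAt_id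
  have hTf : ∀ m z v, fderiv ℂ (T m) z v = (((β ^ m)⁻¹ : ℝ) : ℂ) • v := by
    intro m z v
    have : HasFDerivAt (T m) ((((β ^ m)⁻¹ : ℝ) : ℂ) • ContinuousLinearMap.id ℂ E) z :=
      (hasFDerivAt_id z).const_smul _
    rw [this.fderiv]
    rfl
  have hsm : ∀ m, ∀ z ∈ ball (0 : E) (5 * β ^ m),
      ContMDiffAt 𝓘(ℂ, E) 𝓘(ℂ, E) ω (f^[m] ∘ a.p i) (T m z) := fun m z hz =>
    ((iterate_etale H.et m).contMDiff _).comp _ (a.smoothAt_p i (hTm m z hz))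
  have hpb : ∀ m, ∀ z ∈ ball (0 : E) (5 * β ^ m), ∀ v,
      pb q ((f^[m] ∘ a.p i) ∘ T m) z v =
        ((β ^ m)⁻¹) ^ 2 * pb q (f^[m] ∘ a.p i) (T m z) v := by
    intro m z hz v
    rw [pb_comp (hsm m z hz) (hTd m z), hTf, pb_smul a (hsm m z hz), Complex.norm_real,
      Real.norm_eq_abs, sq_abs]
  have hpb2 : ∀ m, ∀ ζ ∈ ball (0 : E) 5, ∀ v, pb q (f^[m] ∘ a.p i) ζ v =
      q (f^[m] (a.p i ζ)) (mfderiv 𝓘(ℂ, E) 𝓘(ℂ, E) (f^[m]) (a.p i ζ)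
        (mfderiv 𝓘(ℂ, E) 𝓘(ℂ, E) (a.p i) ζ v)) := by
    intro m ζ hζ v
    unfold pb
    rw [mfderiv_comp ζ (((iterate_etale H.et m).contMDiff _).mdifferentiableAt (by simp))
        ((a.smoothAt_p i hζ).mdifferentiableAt (by simp))]
    rfl
  have hβm : ∀ m, ((β ^ m)⁻¹) ^ 2 * δ ^ m = 1 := by
    intro m
    rw [← hβ2]
    have : (β ^ m) ≠ 0 := by positivity
    field_simp
    ring
  obtain ⟨Ψ, p1, p2, p3⟩ := normal_family a (A * a.C)⁻¹ (A * a.C) (by positivity)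
    (fun m => 5 * β ^ m)
    ((tendsto_pow_atTop_atTop_of_one_lt hβ1).const_mul_atTop (by norm_num))
    (fun m => (f^[m] ∘ a.p i) ∘ T m)
    (by
      intro m z hz
      exact ((hsm m z hz).comp z (hTd m z).contMDiffAt).contMDiffWithinAt)
    (by
      intro m z hz v
      have hζ := hTm m z hz
      rw [hpb m z hz, hpb2 m _ hζ]
      have h1 := (hA m (a.p i (T m z)) (mfderiv 𝓘(ℂ, E) 𝓘(ℂ, E) (a.p i) (T m z) v)).1
      have h2 := a.lower i (T m z) hζ v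
      have e1 : q (a.p i (T m z)) (mfderiv 𝓘(ℂ, E) 𝓘(ℂ, E) (a.p i) (T m z) v) =
        pb q (a.p i) (T m z) v := rfl
      rw [e1] at h1
      rw [inv_mul_le_iff₀ (by positivity)]
      calc ‖v‖ ^ 2 ≤ a.C * pb q (a.p i) (T m z) v := h2
        _ = a.C * (((β ^ m)⁻¹) ^ 2 * (δ ^ m * pb q (a.p i) (T m z) v)) := by
            rw [← mul_assoc (((β ^ m)⁻¹) ^ 2), hβm, one_mul]
        _ ≤ a.C * (((β ^ m)⁻¹) ^ 2 * (A * q (f^[m] (a.p i (T m z)))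
              (mfderiv 𝓘(ℂ, E) 𝓘(ℂ, E) (f^[m]) (a.p i (T m z))
              (mfderiv 𝓘(ℂ, E) 𝓘(ℂ, E) (a.p i) (T m z) v)))) := by gcongr
        _ = _ := by ring)
    (by
      intro m z hz v
      have hζ := hTm m z hz
      rw [hpb m z hz, hpb2 m _ hζ]
      have h1 := (hA m (a.p i (T m z)) (mfderiv 𝓘(ℂ, E) 𝓘(ℂ, E) (a.p i) (T m z) v)).2
      have h2 := a.upper i (T m z) hζ v
      have e1 : q (a.p i (T m z)) (mfderiv 𝓘(ℂ, E) 𝓘(ℂ, E) (a.p i) (T m z) v) =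
        pb q (a.p i) (T m z) v := rfl
      rw [e1] at h1
      calc _ ≤ ((β ^ m)⁻¹) ^ 2 * (A * δ ^ m * pb q (a.p i) (T m z) v) := by gcongr
        _ = (((β ^ m)⁻¹) ^ 2 * δ ^ m) * (A * pb q (a.p i) (T m z) v) := by ring
        _ = A * pb q (a.p i) (T m z) v := by rw [hβm, one_mul]
        _ ≤ A * (a.C * ‖v‖ ^ 2) := by gcongr
        _ = _ := by ring)
  have hcov := covering a (A * a.C)⁻¹ (A * a.C) (by positivity) Ψ p1 p2 p3
  exact ⟨(A * a.C)⁻¹, A * a.C, Ψ, by positivity, p1, p2, p3, hcov.1, hcov.2⟩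

/-- The main theorem. -/
theorem main [T2Space X] [CompactSpace X] [ConnectedSpace X]
    (q q' : ∀ x : X, TangentSpace 𝓘(ℂ, E) x → ℝ) (hq : IsKahlerMetric q)
    (hq' : IsKahlerMetric q') (f g : X → X) (hf : IsLocalDiffeomorph 𝓘(ℂ, E) 𝓘(ℂ, E) ω f)
    (hg : IsLocalDiffeomorph 𝓘(ℂ, E) 𝓘(ℂ, E) ω g) (δ δ' : ℝ) (hδ : 1 < δ) (hδ' : 1 < δ')
    (hfq : MultipliesClass q f δ) (hgq : MultipliesClass q' g δ') (P Q : X)
    (hP : (range fun m => f^[m] P).Infinite) (hQ : (range fun n => g^[n] Q).Infinite) :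
    FinLin {p : ℕ × ℕ | f^[p.1] P = g^[p.2] Q} := by
  obtain ⟨a⟩ := exists_UA q hq
  obtain ⟨a'⟩ := exists_UA q' hq'
  obtain ⟨u, hu, hfu⟩ := hfq
  obtain ⟨u', hu', hgu'⟩ := hgq
  have H : Et q f δ u := ⟨hf, hδ, hu, hfu⟩
  have H' : Et q' g δ' u' := ⟨hg, hδ', hu', hgu'⟩
  obtain ⟨c, C, Ψ, hc, p1, p2, p3, p4, p5⟩ := exists_cover a H
  obtain ⟨A, hA0, hA⟩ := comparable a H
  obtain ⟨A', hA0', hA'⟩ := comparable a' H'
  obtain ⟨D, hD0, hD⟩ := metric_le a a'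
  obtain ⟨D', hD0', hD'⟩ := metric_le a' a
  set B := max A (D * A' * D') with hB
  have qn : ∀ x (v : TangentSpace 𝓘(ℂ, E) x), 0 ≤ q x v := fun x v => q_nonneg a x v
  refine orbits_of_cover c C hc Ψ p1 p2 p3 p4 p5 f g hf hg δ δ' B hδ hδ' ?_ ?_ ?_ ?_ P Q hP hQ
  · intro m x v
    refine (hA m x v).1.trans ?_
    exact mul_le_mul_of_nonneg_right (le_max_left _ _) (qn _ _)
  · intro m x v
    refine (hA m x v).2.trans ?_
    have : 0 < δ ^ m := by positivity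
    have h1 := qn x v
    have h2 : A ≤ B := le_max_left _ _
    gcongr
  · intro m x v
    have h0 : 0 < δ' ^ m := by positivity
    calc δ' ^ m * q x v ≤ δ' ^ m * (D * q' x v) := by gcongr; exact hD x v
      _ = D * (δ' ^ m * q' x v) := by ring
      _ ≤ D * (A' * q' (g^[m] x) (mfderiv 𝓘(ℂ, E) 𝓘(ℂ, E) (g^[m]) x v)) :=
          mul_le_mul_of_nonneg_left (hA' m x v).1 hD0.le
      _ ≤ D * (A' * (D' * q (g^[m] x) (mfderiv 𝓘(ℂ, E) 𝓘(ℂ, E) (g^[m]) x v))) := by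
          gcongr; exact hD' _ _
      _ = (D * A' * D') * q (g^[m] x) (mfderiv 𝓘(ℂ, E) 𝓘(ℂ, E) (g^[m]) x v) := by ring
      _ ≤ _ := mul_le_mul_of_nonneg_right (le_max_right _ _) (qn _ _)
  · intro m x v
    have h0 : 0 < δ' ^ m := by positivity
    calc q (g^[m] x) (mfderiv 𝓘(ℂ, E) 𝓘(ℂ, E) (g^[m]) x v)
        ≤ D * q' (g^[m] x) (mfderiv 𝓘(ℂ, E) 𝓘(ℂ, E) (g^[m]) x v) := hD _ _
      _ ≤ D * (A' * δ' ^ m * q' x v) := by gcongr; exact (hA' m x v).2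
      _ ≤ D * (A' * δ' ^ m * (D' * q x v)) := by gcongr; exact hD' x v
      _ = (D * A' * D') * δ' ^ m * q x v := by ring
      _ ≤ B * δ' ^ m * q x v := by
          have h1 := qn x v
          have h2 : D * A' * D' ≤ B := le_max_right _ _
          gcongr

end

end Pool.Agent.H775.KE
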