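import Pool.Agent.H775.KE.Levi

/-!
# Calculus on the manifold
-/

set_option autoImplicit false
set_option linter.unusedSectionVars false

open scoped Manifold ContDiff Topology
open Set Filter Metric

namespace Pool.Agent.H775.KE

variable {E : Type} [NormedAddCommGroup E] [NormedSpace ℂ E]
variable {F : Type} [NormedAddCommGroup F] [NormedSpace ℂ F]
variable {G : Type} [NormedAddCommGroup G] [NormedSpace ℂ G]
variable {X : Type} [TopologicalSpace X] [ChartedSpace E X]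

theorem chart_comp_contDiffAt {h : F → X} {z : F}
    (hh : ContMDiffAt 𝓘(ℂ, F) 𝓘(ℂ, E) ω h z) :
    ContDiffAt ℂ ω (chartAt E (h z) ∘ h) z := by
  have := (contMDiffAt_iff.1 hh).2
  simpa [extChartAt, contDiffWithinAt_univ, Function.comp_def, chartAt_self_eq] using this

theorem mfderiv_eq_chart {h : F → X} {z : F} (hh : MDifferentiableAt 𝓘(ℂ, F) 𝓘(ℂ, E) h z) :
    mfderiv 𝓘(ℂ, F) 𝓘(ℂ, E) h z = fderiv ℂ (chartAt E (h z) ∘ h) z := by
  rw [hh.mfderiv]
  simp [writtenInExtChartAt, extChartAt, Function.comp_def, fderivWithin_univ]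

theorem eventually_eq_chart {h : F → X} {z : F} (hh : ContinuousAt h z) :
    h =ᶠ[𝓝 z] (chartAt E (h z)).symm ∘ (chartAt E (h z) ∘ h) := by
  have h1 : ∀ᶠ w in 𝓝 z, h w ∈ (chartAt E (h z)).source :=
    hh.eventually ((chartAt E (h z)).open_source.mem_nhds (mem_chart_source E _))
  filter_upwards [h1] with w hw
  simp [hw]

theorem comp_X {φ : X → ℝ} {h : F → X} {z : F} (hh : ContMDiffAt 𝓘(ℂ, F) 𝓘(ℂ, E) ω h z)
    (hφ : SmoothAt E φ (h z)) :
    ContDiffAt ℝ ∞ (φ ∘ h) z ∧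
      ∀ v : F, leviForm (φ ∘ h) z v = ddc E φ (h z) (mfderiv 𝓘(ℂ, F) 𝓘(ℂ, E) h z v) := by
  have e1 : φ ∘ h =ᶠ[𝓝 z] (φ ∘ (chartAt E (h z)).symm) ∘ (chartAt E (h z) ∘ h) := by
    filter_upwards [eventually_eq_chart (E := E) hh.continuousAt] with w hw
    simp only [Function.comp_apply] at hw ⊢
    rw [← hw]
  have e2 := chart_comp_contDiffAt hh
  have e3 : ContDiffAt ℝ ∞ ((φ ∘ (chartAt E (h z)).symm) ∘ (chartAt E (h z) ∘ h)) z :=
    ContDiffAt.comp z (by exact hφ) ((e2.restrict_scalars ℝ).of_le (by simp))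
  refine ⟨e3.congr_of_eventuallyEq e1, fun v => ?_⟩
  rw [leviForm_congr e1, leviForm_comp (e2.of_le (by simp)) (ContDiffAt.of_le (by exact hφ)
    (by norm_cast)), mfderiv_eq_chart (hh.mdifferentiableAt (by simp))]
  rfl

theorem contMDiffAt_chart_symm [IsManifold 𝓘(ℂ, E) ω X] (x : X) :
    ContMDiffAt 𝓘(ℂ, E) 𝓘(ℂ, E) ω (chartAt E x).symm (chartAt E x x) :=
  contMDiffAt_symm_of_mem_maximalAtlas (IsManifold.chart_mem_maximalAtlas x) (mem_chart_target E x)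

section XX

variable [IsManifold 𝓘(ℂ, E) ω X]

theorem comp_chart_symm {f : X → X} {x : X} (hf : ContMDiffAt 𝓘(ℂ, E) 𝓘(ℂ, E) ω f x) :
    ContMDiffAt 𝓘(ℂ, E) 𝓘(ℂ, E) ω (f ∘ (chartAt E x).symm) (chartAt E x x) ∧
      mfderiv 𝓘(ℂ, E) 𝓘(ℂ, E) (f ∘ (chartAt E x).symm) (chartAt E x x) =
        mfderiv 𝓘(ℂ, E) 𝓘(ℂ, E) f x := by
  have h0 : (chartAt E x).symm (chartAt E x x) = x := (chartAt E x).left_inv (mem_chart_source E x)
  have h1 : ContMDiffAt 𝓘(ℂ, E) 𝓘(ℂ, E) ω (f ∘ (chartAt E x).symm) (chartAt E x x) := by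
    apply ContMDiffAt.comp_of_eq (y := x) hf (contMDiffAt_chart_symm x) h0
  refine ⟨h1, ?_⟩
  rw [mfderiv_eq_chart (h1.mdifferentiableAt (by simp)),
    (hf.mdifferentiableAt (by simp)).mfderiv]
  simp [writtenInExtChartAt, extChartAt, Function.comp_def, fderivWithin_univ, h0]

theorem smoothAt_comp {φ : X → ℝ} {f : X → X} {x : X}
    (hf : ContMDiffAt 𝓘(ℂ, E) 𝓘(ℂ, E) ω f x) (hφ : SmoothAt E φ (f x)) :
    SmoothAt E (φ ∘ f) x := by
  have h0 : (chartAt E x).symm (chartAt E x x) = x := (chartAt E x).left_inv (mem_chart_source E x)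
  have := (comp_X (φ := φ) (comp_chart_symm hf).1 (by simpa [h0] using hφ)).1
  exact this

theorem ddc_comp {φ : X → ℝ} {f : X → X} {x : X}
    (hf : ContMDiffAt 𝓘(ℂ, E) 𝓘(ℂ, E) ω f x) (hφ : SmoothAt E φ (f x))
    (v : TangentSpace 𝓘(ℂ, E) x) :
    ddc E (φ ∘ f) x v = ddc E φ (f x) (mfderiv 𝓘(ℂ, E) 𝓘(ℂ, E) f x v) := by
  have h0 : (chartAt E x).symm (chartAt E x x) = x := (chartAt E x).left_inv (mem_chart_source E x)
  have := (comp_X (φ := φ) (comp_chart_symm hf).1 (by simpa [h0] using hφ)).2 v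
  rw [(comp_chart_symm hf).2] at this
  unfold ddc at this ⊢
  simp only [Function.comp_apply, h0] at this
  exact this

end XX

end Pool.Agent.H775.KE
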