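import Pool.Agent.H775.KE.Atl

/-!
# Smooth injection of a compact manifold into a vector space
-/

set_option autoImplicit false
set_option linter.unusedSectionVars false

open scoped Manifold ContDiff Topology
open Set Filter Metric

namespace Pool.Agent.H775.KE

variable {E : Type} [NormedAddCommGroup E] [NormedSpace ℂ E]
variable {F : Type} [NormedAddCommGroup F] [NormedSpace ℂ F]
variable {X : Type} [TopologicalSpace X] [ChartedSpace E X]

/-- the model map `y ↦ (b y • y, b y)` -/
theorem XEMB_model [FiniteDimensional ℂ E] : ∃ (b : E → ℝ) (L : ℝ), 0 ≤ L ∧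
    (∀ y, ‖y‖ ≤ 1 → b y = 1) ∧ (∀ y, 2 ≤ ‖y‖ → b y = 0) ∧
    Differentiable ℝ (fun y : E => (b y • y, b y)) ∧
    ∀ y, ‖fderiv ℝ (fun y : E => (b y • y, b y)) y‖ ≤ L := by
  let b : ContDiffBump (0 : E) := ⟨1, 2, one_pos, one_lt_two⟩
  have hb : ContDiff ℝ 1 (fun y : E => b y) := b.contDiff
  have hg : ContDiff ℝ 1 (fun y : E => (b y • y, b y)) := (hb.smul contDiff_id).prodMk hb
  have hc : HasCompactSupport (fun y : E => (b y • y, b y)) := by
    apply b.hasCompactSupport.mono
    intro y hy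
    rw [Function.mem_support] at hy ⊢
    intro h0
    apply hy
    rw [h0, zero_smul]
    rfl
  obtain ⟨L, hL⟩ := (hg.continuous_fderiv (by norm_num)).bounded_above_of_compact_support
    (hc.fderiv (𝕜 := ℝ))
  refine ⟨fun y => b y, L, (norm_nonneg _).trans (hL 0), ?_, ?_, hg.differentiable (by norm_num), hL⟩
  · intro y hy
    exact b.one_of_mem_closedBall (by rw [mem_closedBall_zero_iff]; exact hy)
  · intro y hy
    apply b.zero_of_le_dist
    rw [dist_zero_right]
    exact hy

/-- the pullback of the metric is nonnegative -/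
theorem XEMB_pb_nonneg {q : ∀ x : X, TangentSpace 𝓘(ℂ, E) x → ℝ} (a : UA q) {h : F → X} {z : F}
    (hh : ContMDiffAt 𝓘(ℂ, F) 𝓘(ℂ, E) ω h z) (v : F) : 0 ≤ pb q h z v := by
  obtain ⟨i, ζ, hζ, e⟩ := a.cover (h z)
  obtain ⟨h1, -, -, -, h5⟩ := a.local_form hh (i := i)
    ⟨ζ, ball_subset_ball (by norm_num) hζ, e⟩
  rw [h5 v]
  have h6 := a.lower i _ h1 (fderiv ℂ (a.κ i ∘ h) z v)
  have h7 : 0 < a.C := lt_of_lt_of_le one_pos a.one_le_C
  by_contra hneg
  push Not at hneg
  have h8 := mul_neg_of_pos_of_neg h7 hneg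
  have h9 := sq_nonneg ‖fderiv ℂ (a.κ i ∘ h) z v‖
  linarith

/-- TARGET. A continuous injection `e` of `X` into a vector space which is uniformly Lipschitz for `q`. -/
theorem exists_emb [FiniteDimensional ℂ E] [IsManifold 𝓘(ℂ, E) ω X] [T2Space X] [CompactSpace X]
    {q : ∀ x : X, TangentSpace 𝓘(ℂ, E) x → ℝ} (a : UA q) :
    ∃ (e : X → (Fin a.n → E × ℝ)) (C₀ : ℝ), Continuous e ∧ Function.Injective e ∧
      ∀ (F : Type) [NormedAddCommGroup F] [NormedSpace ℂ F] (h : F → X) (z : F),
        ContMDiffAt 𝓘(ℂ, F) 𝓘(ℂ, E) ω h z → DifferentiableAt ℝ (e ∘ h) z ∧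
          ∀ v, ‖fderiv ℝ (e ∘ h) z v‖ ^ 2 ≤ C₀ * pb q h z v := by
  classical
  obtain ⟨b, L, hL, hb1, hb0, hgd, hgL⟩ := XEMB_model (E := E)
  have hproper : ProperSpace E := FiniteDimensional.proper ℂ E
  set g : E → E × ℝ := fun y => (b y • y, b y) with hg
  have hg0 : ∀ y, 2 ≤ ‖y‖ → g y = 0 := by
    intro y hy
    rw [hg]
    simp only []
    rw [hb0 y hy, zero_smul]
    rfl
  set e : X → (Fin a.n → E × ℝ) := fun x i =>
    if x ∈ a.p i '' ball 0 5 then g (a.κ i x) else 0 with he
  have hV : ∀ i, IsOpen (a.p i '' ball 0 5) := fun i => a.p_open i _ (Subset.refl _) isOpen_ball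
  have hK : ∀ i, IsClosed (a.p i '' closedBall 0 2) := by
    intro i
    apply IsCompact.isClosed
    apply (isCompact_closedBall (0 : E) 2).image_of_continuousOn
    exact (a.p_smooth i).continuousOn.mono (closedBall_subset_ball (by norm_num))
  have heV : ∀ i x, x ∈ a.p i '' ball 0 5 → e x i = g (a.κ i x) := by
    intro i x hx
    rw [he]
    simp only []
    rw [if_pos hx]
  have heK : ∀ i x, x ∉ a.p i '' closedBall 0 2 → e x i = 0 := by
    intro i x hx
    by_cases hxV : x ∈ a.p i '' ball 0 5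
    · rw [heV i x hxV]
      obtain ⟨ζ, hζ, rfl⟩ := hxV
      rw [a.κ_p i ζ hζ]
      apply hg0
      by_contra hlt
      push Not at hlt
      exact hx ⟨ζ, by rw [mem_closedBall_zero_iff]; exact hlt.le, rfl⟩
    · rw [he]
      simp only []
      rw [if_neg hxV]
  have hor : ∀ i x, x ∈ a.p i '' ball 0 5 ∨ x ∉ a.p i '' closedBall 0 2 := by
    intro i x
    by_cases hx : x ∈ a.p i '' closedBall 0 2
    · exact Or.inl (image_mono (closedBall_subset_ball (by norm_num)) hx)
    · exact Or.inr hx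
  refine ⟨e, L ^ 2 * a.C, ?_, ?_, ?_⟩
  · rw [continuous_pi_iff]
    intro i
    rw [continuous_iff_continuousAt]
    intro x
    rcases hor i x with hx | hx
    · have h1 : (fun x => e x i) =ᶠ[𝓝 x] fun x => g (a.κ i x) := by
        filter_upwards [(hV i).mem_nhds hx] with y hy
        exact heV i y hy
      have h2 : ContinuousAt (a.κ i) x :=
        (a.κ_smooth i).continuousOn.continuousAt ((hV i).mem_nhds hx)
      have h3 : ContinuousAt (fun x => g (a.κ i x)) x :=
        ContinuousAt.comp (f := a.κ i) (g := g) hgd.continuous.continuousAt h2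
      exact h3.congr h1.symm
    · have h1 : (fun x => e x i) =ᶠ[𝓝 x] fun _ => 0 := by
        filter_upwards [(hK i).isOpen_compl.mem_nhds hx] with y hy
        exact heK i y hy
      exact continuousAt_const.congr h1.symm
  · intro x y hxy
    obtain ⟨i, ζ, hζ, rfl⟩ := a.cover x
    have hζ5 : ζ ∈ ball (0 : E) 5 := ball_subset_ball (by norm_num) hζ
    have h1 : e (a.p i ζ) i = (ζ, 1) := by
      rw [heV i _ ⟨ζ, hζ5, rfl⟩, a.κ_p i ζ hζ5, hg]
      simp only []
      rw [hb1 ζ (by rw [mem_ball_zero_iff] at hζ; exact hζ.le), one_smul]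
    have h2 : e y i = (ζ, 1) := by rw [← h1, hxy]
    have hy : y ∈ a.p i '' ball 0 5 := by
      by_contra hy
      have h3 : e y i = 0 := by
        rw [he]
        simp only []
        rw [if_neg hy]
      rw [h3] at h2
      have := congrArg Prod.snd h2
      simp at this
    rw [heV i y hy] at h2
    obtain ⟨ξ, hξ, rfl⟩ := hy
    rw [a.κ_p i ξ hξ, hg] at h2
    simp only [Prod.mk.injEq] at h2
    rw [h2.2, one_smul] at h2
    rw [h2.1]
  · intro F _ _ h z hh
    have hpb : ∀ v, 0 ≤ pb q h z v := XEMB_pb_nonneg a hh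
    have hC : 0 < a.C := lt_of_lt_of_le one_pos a.one_le_C
    have key : ∀ i, DifferentiableAt ℝ (fun w => e (h w) i) z ∧
        ∀ v, ‖fderiv ℝ (fun w => e (h w) i) z v‖ ^ 2 ≤ L ^ 2 * a.C * pb q h z v := by
      intro i
      rcases hor i (h z) with hx | hx
      · obtain ⟨h1, -, h3, -, h5⟩ := a.local_form hh hx
        have h6 : (fun w => e (h w) i) =ᶠ[𝓝 z] g ∘ (a.κ i ∘ h) := by
          filter_upwards [hh.continuousAt.eventually ((hV i).mem_nhds hx)] with w hw
          exact heV i _ hw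
        have h7 : DifferentiableAt ℂ (a.κ i ∘ h) z := h3.differentiableAt (by simp)
        have h8 : HasFDerivAt (a.κ i ∘ h) ((fderiv ℂ (a.κ i ∘ h) z).restrictScalars ℝ) z :=
          h7.hasFDerivAt.restrictScalars ℝ
        have h9 : HasFDerivAt (g ∘ (a.κ i ∘ h))
            ((fderiv ℝ g ((a.κ i ∘ h) z)).comp ((fderiv ℂ (a.κ i ∘ h) z).restrictScalars ℝ)) z :=
          (hgd _).hasFDerivAt.comp z h8
        have h10 := h9.congr_of_eventuallyEq h6
        refine ⟨h10.differentiableAt, fun v => ?_⟩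
        rw [h10.fderiv]
        have h11 : ‖((fderiv ℝ g ((a.κ i ∘ h) z)).comp
            ((fderiv ℂ (a.κ i ∘ h) z).restrictScalars ℝ)) v‖ ≤
            L * ‖fderiv ℂ (a.κ i ∘ h) z v‖ := by
          rw [ContinuousLinearMap.comp_apply]
          refine (ContinuousLinearMap.le_opNorm _ _).trans ?_
          exact mul_le_mul_of_nonneg_right (hgL _) (norm_nonneg _)
        have h12 := a.lower i _ h1 (fderiv ℂ (a.κ i ∘ h) z v)
        rw [← h5 v] at h12
        calc _ ≤ (L * ‖fderiv ℂ (a.κ i ∘ h) z v‖) ^ 2 :=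
              pow_le_pow_left₀ (norm_nonneg _) h11 2
          _ = L ^ 2 * ‖fderiv ℂ (a.κ i ∘ h) z v‖ ^ 2 := by ring
          _ ≤ L ^ 2 * (a.C * pb q h z v) := mul_le_mul_of_nonneg_left h12 (sq_nonneg L)
          _ = _ := by ring
      · have h6 : (fun w => e (h w) i) =ᶠ[𝓝 z] fun _ => 0 := by
          filter_upwards [hh.continuousAt.eventually ((hK i).isOpen_compl.mem_nhds hx)] with w hw
          exact heK i _ hw
        have h7 : HasFDerivAt (fun w => e (h w) i) (0 : F →L[ℝ] E × ℝ) z :=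
          (hasFDerivAt_const (0 : E × ℝ) z).congr_of_eventuallyEq h6
        refine ⟨h7.differentiableAt, fun v => ?_⟩
        rw [h7.fderiv, ContinuousLinearMap.zero_apply, norm_zero]
        have := mul_nonneg (mul_nonneg (sq_nonneg L) hC.le) (hpb v)
        simpa using this
    have hpi : HasFDerivAt (e ∘ h)
        (ContinuousLinearMap.pi fun i => fderiv ℝ (fun w => e (h w) i) z) z := by
      rw [hasFDerivAt_pi']
      intro i
      exact (key i).1.hasFDerivAt
    refine ⟨hpi.differentiableAt, fun v => ?_⟩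
    rw [hpi.fderiv]
    have hnn : 0 ≤ L ^ 2 * a.C * pb q h z v := mul_nonneg (mul_nonneg (sq_nonneg L) hC.le) (hpb v)
    have hle : ‖(ContinuousLinearMap.pi fun i => fderiv ℝ (fun w => e (h w) i) z) v‖ ≤
        √(L ^ 2 * a.C * pb q h z v) := by
      rw [pi_norm_le_iff_of_nonneg (Real.sqrt_nonneg _)]
      intro i
      rw [Real.le_sqrt (norm_nonneg _) hnn]
      exact (key i).2 v
    calc _ ≤ √(L ^ 2 * a.C * pb q h z v) ^ 2 := pow_le_pow_left₀ (norm_nonneg _) hle 2
      _ = _ := Real.sq_sqrt hnn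

end Pool.Agent.H775.KE
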