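import Pool.Agent.H775.KE.Atl

/-!
# Job XHOPF (helper775): quantitative Hopf lemma in the plane

Files to copy from origin/main (outputs/live) to /workdir/pool first, then `lake build Pool.Agent.H775.KE.Atl`:
Pool/Agent/H775/KE/{Defs,Levi,Man,Atl}.lean  (all proven; read them: `pb`, `UA`, `UA.local_form`,
`pb_comp`, `pb_congr`, `comp_X`, `leviForm_comp`, `leviForm_congr`, `leviForm_eq`, `leviForm_smul`, ...).
Return ONE file `Pool/Agent/H775/KE/XHOPF.lean` which imports `Pool.Agent.H775.KE.Atl` and proves the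
target with exactly this name and statement, no sorry (compile it with `lake build`; the package options
matter). Helper lemmas: give them names starting with `XHOPF_`.
-/

set_option autoImplicit false

open scoped Manifold ContDiff Topology
open Set Filter Metric

namespace Pool.Agent.H775.KE

variable {E : Type} [NormedAddCommGroup E] [NormedSpace ℂ E]
variable {F : Type} [NormedAddCommGroup F] [NormedSpace ℂ F]
variable {X : Type} [TopologicalSpace X] [ChartedSpace E X]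

theorem XHOPF_second {f : ℝ → ℝ} {x₀ : ℝ} (h : IsLocalMax f x₀) (hc : ContinuousAt f x₀) :
    deriv (deriv f) x₀ ≤ 0 := by
  by_contra hcon
  push Not at hcon
  have h0 : deriv f x₀ = 0 := h.deriv_eq_zero
  have hmin : IsLocalMin f x₀ := isLocalMin_of_deriv_deriv_pos hcon h0 hc
  have heq : f =ᶠ[𝓝 x₀] fun _ => f x₀ := by
    filter_upwards [h, hmin] with x h1 h2
    exact le_antisymm h1 h2
  have h1 : deriv f =ᶠ[𝓝 x₀] deriv (fun _ : ℝ => f x₀) := heq.deriv
  have h2 := h1.deriv_eq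
  simp at h2
  linarith

theorem XHOPF_slice {Φ : ℂ → ℝ} {z : ℂ} (hΦ : ContDiffAt ℝ 2 Φ z) (hmax : IsLocalMax Φ z) (v : ℂ) :
    fderiv ℝ (fun w => fderiv ℝ Φ w v) z v ≤ 0 := by
  have hline : ContinuousAt (fun s : ℝ => z + s • v) 0 := by fun_prop
  have hz : (fun s : ℝ => z + s • v) 0 = z := by simp
  have hz' : z + (0 : ℝ) • v = z := by simp
  have hd : ∀ s : ℝ, HasDerivAt (fun s : ℝ => z + s • v) v s := by
    intro s
    have := ((hasDerivAt_id s).smul_const v).const_add z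
    simpa using this
  have hmax' : IsLocalMax (fun s : ℝ => Φ (z + s • v)) 0 := by
    have h1 : Tendsto (fun s : ℝ => z + s • v) (𝓝 0) (𝓝 z) := by
      have := hline.tendsto
      rwa [hz'] at this
    have := h1.eventually hmax
    filter_upwards [this] with s hs
    simpa using hs
  have h1 : Tendsto (fun s : ℝ => z + s • v) (𝓝 0) (𝓝 z) := by
    have := hline.tendsto
    rwa [hz'] at this
  have hc : ContinuousAt (fun s : ℝ => Φ (z + s • v)) 0 := by
    have h2 : ContinuousAt Φ ((fun s : ℝ => z + s • v) 0) := by rw [hz]; exact hΦ.continuousAt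
    exact ContinuousAt.comp (g := Φ) (f := fun s : ℝ => z + s • v) h2 hline
  have key := XHOPF_second hmax' hc
  have c1 : ∀ᶠ w in 𝓝 z, ContDiffAt ℝ 1 Φ w := (hΦ.of_le (by norm_num)).eventually (by simp)
  have e1 : deriv (fun s : ℝ => Φ (z + s • v)) =ᶠ[𝓝 0] fun s => fderiv ℝ Φ (z + s • v) v := by
    filter_upwards [h1.eventually c1] with s hs
    have d1 : HasFDerivAt Φ (fderiv ℝ Φ (z + s • v)) (z + s • v) :=
      (hs.differentiableAt (by simp)).hasFDerivAt
    exact (d1.comp_hasDerivAt s (hd s)).deriv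
  have hD : DifferentiableAt ℝ (fun w => fderiv ℝ Φ w v) z := by
    have h1 : DifferentiableAt ℝ (fderiv ℝ Φ) z :=
      (hΦ.fderiv_right (m := 1) (by norm_num)).differentiableAt (by simp)
    exact h1.clm_apply (differentiableAt_const v)
  have e2 : HasDerivAt (fun s : ℝ => fderiv ℝ Φ (z + s • v) v)
      (fderiv ℝ (fun w => fderiv ℝ Φ w v) z v) 0 := by
    have d2 : HasFDerivAt (fun w => fderiv ℝ Φ w v) (fderiv ℝ (fun w => fderiv ℝ Φ w v) z)
        ((fun s : ℝ => z + s • v) 0) := by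
      rw [hz]; exact hD.hasFDerivAt
    exact d2.comp_hasDerivAt (0 : ℝ) (hd 0)
  rw [e1.deriv_eq, e2.deriv] at key
  exact key

theorem XHOPF_max {Φ : ℂ → ℝ} {z : ℂ} (hΦ : ContDiffAt ℝ 2 Φ z) (hmax : IsLocalMax Φ z) :
    leviForm Φ z 1 ≤ 0 := by
  unfold leviForm
  have h1 := XHOPF_slice hΦ hmax 1
  have h2 := XHOPF_slice hΦ hmax (Complex.I • 1)
  linarith

/-- The barrier. -/
noncomputable def XHOPF_b (α : ℝ) (w : ℂ) : ℝ := Real.exp (-(α * ((w.re - 1) ^ 2 + w.im ^ 2)))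

theorem XHOPF_b_fd (α : ℝ) (w : ℂ) : HasFDerivAt (XHOPF_b α)
    (XHOPF_b α w • (-(α • ((2 * (w.re - 1)) • Complex.reCLM + (2 * w.im) • Complex.imCLM)))) w := by
  have h1 : HasFDerivAt (fun w : ℂ => w.re - 1) Complex.reCLM w :=
    Complex.reCLM.hasFDerivAt.sub_const 1
  have h2 : HasFDerivAt (fun w : ℂ => w.im) Complex.imCLM w := Complex.imCLM.hasFDerivAt
  have h3 := ((((h1.pow 2).add (h2.pow 2)).const_mul α).neg).exp
  unfold XHOPF_b
  refine h3.congr_fderiv ?_
  ext v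
  simp

theorem XHOPF_b_cd (α : ℝ) : ContDiff ℝ 2 (XHOPF_b α) := by
  unfold XHOPF_b
  have h1 : ContDiff ℝ 2 (fun w : ℂ => w.re) := Complex.reCLM.contDiff
  have h2 : ContDiff ℝ 2 (fun w : ℂ => w.im) := Complex.imCLM.contDiff
  fun_prop

theorem XHOPF_b_levi (α : ℝ) (z : ℂ) : leviForm (XHOPF_b α) z 1 =
    (4 * α ^ 2 * ((z.re - 1) ^ 2 + z.im ^ 2) - 4 * α) * XHOPF_b α z := by
  unfold leviForm
  have e1 : (fun w => fderiv ℝ (XHOPF_b α) w 1) = fun w => XHOPF_b α w * (-(α * (2 * (w.re - 1)))) := by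
    funext w
    rw [(XHOPF_b_fd α w).fderiv]
    simp
  have e2 : (fun w => fderiv ℝ (XHOPF_b α) w (Complex.I • 1)) =
      fun w => XHOPF_b α w * (-(α * (2 * w.im))) := by
    funext w
    rw [(XHOPF_b_fd α w).fderiv]
    simp
  rw [e1, e2]
  have h1 : HasFDerivAt (fun w : ℂ => w.re - 1) Complex.reCLM z :=
    Complex.reCLM.hasFDerivAt.sub_const 1
  have h2 : HasFDerivAt (fun w : ℂ => w.im) Complex.imCLM z := Complex.imCLM.hasFDerivAt
  have d1 := (XHOPF_b_fd α z).mul (((h1.const_mul 2).const_mul α).neg)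
  have d2 := (XHOPF_b_fd α z).mul (((h2.const_mul 2).const_mul α).neg)
  have f1 : fderiv ℝ (fun w => XHOPF_b α w * (-(α * (2 * (w.re - 1))))) z = _ := d1.fderiv
  have f2 : fderiv ℝ (fun w => XHOPF_b α w * (-(α * (2 * w.im)))) z = _ := d2.fderiv
  rw [f1, f2]
  simp
  ring

theorem XHOPF_norm (w : ℂ) : (w.re - 1) ^ 2 + w.im ^ 2 = ‖w - 1‖ ^ 2 := by
  rw [← Complex.normSq_eq_norm_sq, Complex.normSq_apply]
  simp
  ring

/-- TARGET. Quantitative Hopf lemma: an almost subharmonic function on a disc, bounded by `A + ε`, which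
is `≤ A - η` near the centre `1`, is `≤ A - ε` at `0`. (`leviForm g t 1` is the Laplacian of `g`.)

Proof. We may assume `r < 1`. Let `α = 2 / r^2`, `β(t) = exp(-α ‖t - 1‖^2) - exp(-25 α / 16)`. Its
Laplacian is `(4 α² ‖t - 1‖² - 4 α) exp(-α ‖t - 1‖^2) ≥ 4 α exp(-25 α / 16) =: c > 0` for
`r ≤ ‖t - 1‖ ≤ 5/4`. Take `ε` less than `η c` (so that the Laplacian of `g + η β` is `> 0` there), less
than `η exp (-25 α / 16)` and less than `η β(0) / 2`. Then `Φ = g + η β` has no local maximum in the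
open annulus `r < ‖t - 1‖ < 5/4` (at a local maximum the Laplacian is `≤ 0`), so its maximum over the
compact annulus is on the boundary. Outer circle: `β = 0`, `Φ ≤ A + ε`. Inner circle: by continuity
`g ≤ A - η` there, so `Φ ≤ A - η + η β ≤ A`. So `Φ(0) ≤ A + ε` and
`g 0 ≤ A + ε - η β(0) ≤ A - ε`. -/
theorem hopf (η r : ℝ) (hη : 0 < η) (hr : 0 < r) :
    ∃ ε > 0, ∀ (g : ℂ → ℝ) (A : ℝ), ContDiffOn ℝ 2 g (ball 1 (3 / 2)) →
      (∀ t ∈ ball (1 : ℂ) (3 / 2), -ε ≤ leviForm g t 1) →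
      (∀ t ∈ ball (1 : ℂ) (3 / 2), g t ≤ A + ε) →
      (∀ t ∈ ball (1 : ℂ) r, g t ≤ A - η) → g 0 ≤ A - ε := by
  obtain ⟨ρ, hρ0, hρ1, hρr⟩ : ∃ ρ : ℝ, 0 < ρ ∧ ρ < 1 ∧ ρ < r := by
    refine ⟨min (r / 2) (1 / 2), lt_min (by linarith) (by norm_num), ?_, ?_⟩
    · exact lt_of_le_of_lt (min_le_right _ _) (by norm_num)
    · exact lt_of_le_of_lt (min_le_left _ _) (by linarith)
  obtain ⟨α, hα0, hα⟩ : ∃ α : ℝ, 0 < α ∧ α * ρ ^ 2 = 2 := ⟨2 / ρ ^ 2, by positivity, by field_simp⟩
  have hE0 : 0 < Real.exp (-(α * (25 / 16))) := Real.exp_pos _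
  have hb0 : 0 < Real.exp (-α) - Real.exp (-(α * (25 / 16))) := by
    have : Real.exp (-(α * (25 / 16))) < Real.exp (-α) := by
      apply Real.exp_lt_exp.mpr
      linarith
    linarith
  refine ⟨min (2 * η * α * Real.exp (-(α * (25 / 16))))
    (η * (Real.exp (-α) - Real.exp (-(α * (25 / 16)))) / 2), lt_min (by positivity) (by positivity), ?_⟩
  set ε := min (2 * η * α * Real.exp (-(α * (25 / 16))))
    (η * (Real.exp (-α) - Real.exp (-(α * (25 / 16)))) / 2) with hε
  have hε0 : 0 < ε := lt_min (by positivity) (by positivity)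
  have hε1 : ε ≤ 2 * η * α * Real.exp (-(α * (25 / 16))) := min_le_left _ _
  have hε2 : ε ≤ η * (Real.exp (-α) - Real.exp (-(α * (25 / 16)))) / 2 := min_le_right _ _
  intro g A hg hL hA hin
  have hball : ∀ t : ℂ, ‖t - 1‖ ≤ 5 / 4 → t ∈ ball (1 : ℂ) (3 / 2) := by
    intro t ht
    rw [mem_ball, dist_eq_norm]
    linarith
  have hgat : ∀ t : ℂ, ‖t - 1‖ ≤ 5 / 4 → ContDiffAt ℝ 2 g t := fun t ht =>
    hg.contDiffAt (isOpen_ball.mem_nhds (hball t ht))
  set Φ : ℂ → ℝ := fun t => g t + η * XHOPF_b α t with hΦ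
  have hΦat : ∀ t : ℂ, ‖t - 1‖ ≤ 5 / 4 → ContDiffAt ℝ 2 Φ t := fun t ht =>
    (hgat t ht).add (contDiffAt_const.mul (XHOPF_b_cd α).contDiffAt)
  let K : Set ℂ := closedBall 1 (5 / 4) \ ball 1 ρ
  have hK : IsCompact K := (isCompact_closedBall _ _).diff isOpen_ball
  have h0K : (0 : ℂ) ∈ K := by
    constructor
    · rw [mem_closedBall, dist_eq_norm]; norm_num
    · rw [mem_ball, dist_eq_norm]; norm_num; exact hρ1.le
  have hcont : ContinuousOn Φ K := by
    intro t ht
    have h1 : ‖t - 1‖ ≤ 5 / 4 := by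
      have := ht.1
      rwa [mem_closedBall, dist_eq_norm] at this
    exact (hΦat t h1).continuousAt.continuousWithinAt
  obtain ⟨z, hzK, hz⟩ := hK.exists_isMaxOn ⟨0, h0K⟩ hcont
  have hz1 : ‖z - 1‖ ≤ 5 / 4 := by
    have := hzK.1
    rwa [mem_closedBall, dist_eq_norm] at this
  have hz2 : ρ ≤ ‖z - 1‖ := by
    have := hzK.2
    rw [mem_ball, dist_eq_norm] at this
    exact not_lt.mp this
  have hΦ0 : Φ 0 ≤ Φ z := hz h0K
  have hb : XHOPF_b α 0 = Real.exp (-α) := by
    unfold XHOPF_b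
    simp
  have hbz : XHOPF_b α z = Real.exp (-(α * ‖z - 1‖ ^ 2)) := by
    unfold XHOPF_b
    rw [XHOPF_norm]
  have hbz1 : XHOPF_b α z ≤ 1 := by
    rw [hbz, Real.exp_le_one_iff]
    have : 0 ≤ α * ‖z - 1‖ ^ 2 := by positivity
    linarith
  -- the maximum is not in the interior
  have hmain : Φ z ≤ A + ε + η * Real.exp (-(α * (25 / 16))) := by
    rcases eq_or_lt_of_le hz1 with h1 | h1
    · -- outer circle
      have : g z ≤ A + ε := hA z (hball z hz1)
      have e : XHOPF_b α z = Real.exp (-(α * (25 / 16))) := by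
        rw [hbz, h1]; norm_num
      simp only [hΦ]
      rw [e]
      linarith
    rcases eq_or_lt_of_le hz2 with h2 | h2
    · -- inner circle
      have : g z ≤ A - η := hin z (by rw [mem_ball, dist_eq_norm]; linarith)
      have h3 : η * XHOPF_b α z ≤ η * 1 := mul_le_mul_of_nonneg_left hbz1 hη.le
      have h4 : 0 < η * Real.exp (-(α * (25 / 16))) := mul_pos hη hE0
      simp only [hΦ]
      linarith
    · exfalso
      have hloc : IsLocalMax Φ z := by
        have hnb : K ∈ 𝓝 z := by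
          have h3 : ball (1 : ℂ) (5 / 4) ∩ (closedBall 1 ρ)ᶜ ∈ 𝓝 z := by
            apply (isOpen_ball.inter isClosed_closedBall.isOpen_compl).mem_nhds
            constructor
            · rw [mem_ball, dist_eq_norm]; exact h1
            · rw [mem_compl_iff, mem_closedBall, dist_eq_norm]; exact not_le.mpr h2
          refine Filter.mem_of_superset h3 ?_
          rintro t ⟨t1, t2⟩
          exact ⟨ball_subset_closedBall t1, fun h => t2 (ball_subset_closedBall h)⟩
        exact hz.isLocalMax hnb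
      have h3 := XHOPF_max (hΦat z hz1) hloc
      have hcm : ContDiffAt ℝ 2 (fun x => η * XHOPF_b α x) z :=
        contDiffAt_const.mul (XHOPF_b_cd α).contDiffAt
      have h4 : leviForm Φ z 1 = leviForm g z 1 + η * leviForm (XHOPF_b α) z 1 := by
        simp only [hΦ]
        rw [leviForm_add (hgat z hz1) hcm, leviForm_const_mul (XHOPF_b_cd α).contDiffAt]
      rw [h4, XHOPF_b_levi, XHOPF_norm, hbz] at h3
      have h5 := hL z (hball z hz1)
      have h6 : 4 * α ≤ 4 * α ^ 2 * ‖z - 1‖ ^ 2 - 4 * α := by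
        have h7 : ρ ^ 2 ≤ ‖z - 1‖ ^ 2 := pow_le_pow_left₀ hρ0.le hz2 2
        have h8 : 4 * α ^ 2 * ρ ^ 2 ≤ 4 * α ^ 2 * ‖z - 1‖ ^ 2 :=
          mul_le_mul_of_nonneg_left h7 (by positivity)
        have h9 : 4 * α ^ 2 * ρ ^ 2 = 8 * α := by
          calc 4 * α ^ 2 * ρ ^ 2 = 4 * α * (α * ρ ^ 2) := by ring
            _ = 8 * α := by rw [hα]; ring
        linarith
      have h7 : Real.exp (-(α * (25 / 16))) ≤ Real.exp (-(α * ‖z - 1‖ ^ 2)) := by
        apply Real.exp_le_exp.mpr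
        have h8 : ‖z - 1‖ ^ 2 ≤ (5 / 4) ^ 2 := pow_le_pow_left₀ (norm_nonneg _) hz1 2
        have h9 : α * ‖z - 1‖ ^ 2 ≤ α * (25 / 16) := by
          apply mul_le_mul_of_nonneg_left _ hα0.le
          linarith
        linarith
      have h8 : 4 * α * Real.exp (-(α * (25 / 16))) ≤
          (4 * α ^ 2 * ‖z - 1‖ ^ 2 - 4 * α) * Real.exp (-(α * ‖z - 1‖ ^ 2)) :=
        mul_le_mul h6 h7 hE0.le (by linarith)
      have h9 := mul_le_mul_of_nonneg_left h8 hη.le
      have h10 : 0 < η * α * Real.exp (-(α * (25 / 16))) := by positivity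
      nlinarith
  simp only [hΦ] at hΦ0 hmain
  rw [hb] at hΦ0
  linarith

end Pool.Agent.H775.KE
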