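import Pool.Agent.H775.KE.Pt
import Pool.Agent.H775.KE.XEMB
import Pool.Agent.H775.KE.XHOPF

/-!
# Moduli of continuity through an injection into a vector space; the chain step
-/

set_option autoImplicit false
set_option linter.unusedSectionVars false

open scoped Manifold ContDiff Topology
open Set Filter Metric

namespace Pool.Agent.H775.KE

variable {E : Type} [NormedAddCommGroup E] [NormedSpace ℂ E]
variable {X : Type} [TopologicalSpace X] [ChartedSpace E X]
variable {q : ∀ x : X, TangentSpace 𝓘(ℂ, E) x → ℝ}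

theorem modulus_fun {W : Type} [NormedAddCommGroup W] [CompactSpace X] {e : X → W}
    (he : Continuous e) (hi : Function.Injective e) {ψ : X → ℝ} (hψ : Continuous ψ) (η : ℝ)
    (hη : 0 < η) : ∃ r > 0, ∀ x y, ‖e x - e y‖ < r → |ψ x - ψ y| < η := by
  set K : Set (X × X) := {p | η ≤ |ψ p.1 - ψ p.2|} with hK
  have hKc : IsCompact K := by
    apply IsClosed.isCompact
    exact isClosed_le continuous_const
      ((hψ.comp continuous_fst).sub (hψ.comp continuous_snd)).abs
  have hc : Continuous fun p : X × X => ‖e p.1 - e p.2‖ :=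
    ((he.comp continuous_fst).sub (he.comp continuous_snd)).norm
  rcases K.eq_empty_or_nonempty with h0 | hne
  · refine ⟨1, one_pos, fun x y _ => ?_⟩
    by_contra hcon
    push Not at hcon
    have : (x, y) ∈ K := hcon
    rw [h0] at this
    exact this
  · obtain ⟨p, hp, hmin⟩ := hKc.exists_isMinOn hne hc.continuousOn
    refine ⟨‖e p.1 - e p.2‖, ?_, fun x y hxy => ?_⟩
    · rw [gt_iff_lt, norm_pos_iff, sub_ne_zero]
      intro heq
      have : p.1 = p.2 := hi heq
      have h2 : η ≤ |ψ p.1 - ψ p.2| := hp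
      rw [this] at h2
      simp at h2
      linarith
    · by_contra hcon
      push Not at hcon
      have : (x, y) ∈ K := hcon
      have := hmin this
      simp only [mem_ofPred_eq] at this
      linarith

theorem modulus_nhds {W : Type} [NormedAddCommGroup W] [CompactSpace X] {e : X → W}
    (he : Continuous e) (hi : Function.Injective e) {x : X} {V : Set X} (hV : V ∈ 𝓝 x) :
    ∃ r > 0, ∀ y, ‖e y - e x‖ < r → y ∈ V := by
  obtain ⟨U, hUV, hU, hxU⟩ := mem_nhds_iff.1 hV
  have hKc : IsCompact Uᶜ := hU.isClosed_compl.isCompact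
  have hc : Continuous fun y : X => ‖e y - e x‖ := (he.sub continuous_const).norm
  rcases (Uᶜ).eq_empty_or_nonempty with h0 | hne
  · refine ⟨1, one_pos, fun y _ => hUV ?_⟩
    by_contra hcon
    have : y ∈ Uᶜ := hcon
    rw [h0] at this
    exact this
  · obtain ⟨p, hp, hmin⟩ := hKc.exists_isMinOn hne hc.continuousOn
    refine ⟨‖e p - e x‖, ?_, fun y hy => hUV ?_⟩
    · rw [gt_iff_lt, norm_pos_iff, sub_ne_zero]
      intro heq
      have : p = x := hi heq
      rw [this] at hp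
      exact hp hxU
    · by_contra hcon
      have := hmin hcon
      simp only [mem_ofPred_eq] at this
      linarith

section

variable [FiniteDimensional ℂ E] [IsManifold 𝓘(ℂ, E) ω X] [T2Space X] [CompactSpace X]

/-- Everything we need about branches, in one statement, together with the injection. -/
theorem exists_setup (a : UA q) {f : X → X} {δ : ℝ} {u : X → ℝ} (H : Et q f δ u) :
    ∃ (e : X → (Fin a.n → E × ℝ)) (L : ℝ), Continuous e ∧ Function.Injective e ∧ 0 < L ∧
      ∀ (i : Fin a.n) (l m : ℕ), l ≤ m → ∀ z₀ ∈ ball (0 : E) 5, ∀ y : X,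
      f^[m] y = f^[l] (a.p i z₀) → ∃ s : E → X, ContMDiffOn 𝓘(ℂ, E) 𝓘(ℂ, E) ω s (ball 0 5) ∧
      s z₀ = y ∧ (∀ z ∈ ball (0 : E) 5, f^[m] (s z) = f^[l] (a.p i z)) ∧
      ∀ z ∈ ball (0 : E) 4, ∀ z' ∈ ball (0 : E) 4, ‖e (s z) - e (s z')‖ ≤ L * ‖z - z'‖ := by
  obtain ⟨C₁, h0, h1⟩ := exists_branch a H
  obtain ⟨e, C₀, e1, e2, e3⟩ := exists_emb a
  refine ⟨e, Real.sqrt (|C₀| * C₁) + 1, e1, e2, by positivity, ?_⟩
  intro i l m hlm z₀ hz₀ y hy
  obtain ⟨s, s1, s2, s3, s4⟩ := h1 i l m hlm z₀ hz₀ y hy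
  refine ⟨s, s1, s2, s3, ?_⟩
  intro z hz z' hz'
  have hsat : ∀ w ∈ ball (0 : E) 4, ContMDiffAt 𝓘(ℂ, E) 𝓘(ℂ, E) ω s w := fun w hw =>
    s1.contMDiffAt (isOpen_ball.mem_nhds (ball_subset_ball (by norm_num) hw))
  have hb : ∀ w ∈ ball (0 : E) 4, ‖fderiv ℝ (e ∘ s) w‖ ≤ Real.sqrt (|C₀| * C₁) := by
    intro w hw
    refine ContinuousLinearMap.opNorm_le_bound _ (Real.sqrt_nonneg _) fun v => ?_
    have b1 := (e3 E s w (hsat w hw)).2 v
    have b2 := s4 w hw v
    have b3 := pb_nonneg a (hsat w hw) v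
    refine (pow_le_pow_iff_left₀ (norm_nonneg _) (by positivity) two_ne_zero).1 ?_
    rw [mul_pow, Real.sq_sqrt (by positivity)]
    calc ‖fderiv ℝ (e ∘ s) w v‖ ^ 2 ≤ C₀ * pb q s w v := b1
      _ ≤ |C₀| * pb q s w v := by gcongr; exact le_abs_self _
      _ ≤ |C₀| * (C₁ * ‖v‖ ^ 2) := by gcongr
      _ = _ := by ring
  have := (convex_ball (0 : E) 4).norm_image_sub_le_of_norm_fderiv_le (𝕜 := ℝ) (f := e ∘ s)
    (fun w hw => (e3 E s w (hsat w hw)).1) hb hz' hz
  refine this.trans ?_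
  gcongr
  linarith

end

end Pool.Agent.H775.KE
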