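import Pool.Agent.H775.KE.Br

/-!
# Pointwise branch bound, lifts, the function `v`
-/

set_option autoImplicit false
set_option linter.unusedSectionVars false

open scoped Manifold ContDiff Topology
open Set Filter Metric

namespace Pool.Agent.H775.KE

variable {E : Type} [NormedAddCommGroup E] [NormedSpace ℂ E]
variable {F : Type} [NormedAddCommGroup F] [NormedSpace ℂ F]
variable {X : Type} [TopologicalSpace X] [ChartedSpace E X]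
variable {q : ∀ x : X, TangentSpace 𝓘(ℂ, E) x → ℝ}

theorem UA.smoothAt_p (a : UA q) (i : Fin a.n) {z : E} (hz : z ∈ ball (0 : E) 5) :
    ContMDiffAt 𝓘(ℂ, E) 𝓘(ℂ, E) ω (a.p i) z :=
  (a.p_smooth i).contMDiffAt (isOpen_ball.mem_nhds hz)

/-- every tangent vector at a point of a chart ball comes from the ball -/
theorem UA.exists_vec (a : UA q) (i : Fin a.n) {z : E} (hz : z ∈ ball (0 : E) 5)
    (v : TangentSpace 𝓘(ℂ, E) (a.p i z)) :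
    ∃ w : E, mfderiv 𝓘(ℂ, E) 𝓘(ℂ, E) (a.p i) z w = v := by
  have hU : IsOpen (a.p i '' ball 0 5) := a.p_open i _ (Subset.refl _) isOpen_ball
  have k2 : ContMDiffAt 𝓘(ℂ, E) 𝓘(ℂ, E) ω (a.κ i) (a.p i z) :=
    (a.κ_smooth i).contMDiffAt (hU.mem_nhds ⟨z, hz, rfl⟩)
  have k3 : ContMDiffAt 𝓘(ℂ, E) 𝓘(ℂ, E) ω (a.p i) (a.κ i (a.p i z)) := by
    rw [a.κ_p i z hz]; exact a.smoothAt_p i hz
  have e : a.p i ∘ a.κ i =ᶠ[𝓝 (a.p i z)] id := by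
    filter_upwards [hU.mem_nhds ⟨z, hz, rfl⟩] with y hy
    obtain ⟨z', hz', rfl⟩ := hy
    simp [a.κ_p i z' hz']
  have h1 := e.mfderiv_eq (I := 𝓘(ℂ, E)) (I' := 𝓘(ℂ, E))
  rw [mfderiv_comp _ (k3.mdifferentiableAt (by simp)) (k2.mdifferentiableAt (by simp)),
    mfderiv_id] at h1
  refine ⟨mfderiv 𝓘(ℂ, E) 𝓘(ℂ, E) (a.κ i) (a.p i z) v, ?_⟩
  have h2 := DFunLike.congr_fun h1 v
  rw [a.κ_p i z hz] at h2
  exact h2

section

variable [FiniteDimensional ℂ E] [IsManifold 𝓘(ℂ, E) ω X] [T2Space X] [CompactSpace X]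

/-- Existence of branches over the balls of the atlas, with bounded derivative. -/
theorem exists_branch (a : UA q) {f : X → X} {δ : ℝ} {u : X → ℝ} (H : Et q f δ u) :
    ∃ C₁ : ℝ, 0 ≤ C₁ ∧ ∀ (i : Fin a.n) (l m : ℕ), l ≤ m → ∀ z₀ ∈ ball (0 : E) 5, ∀ y : X,
      f^[m] y = f^[l] (a.p i z₀) → ∃ s : E → X, ContMDiffOn 𝓘(ℂ, E) 𝓘(ℂ, E) ω s (ball 0 5) ∧
      s z₀ = y ∧ (∀ z ∈ ball (0 : E) 5, f^[m] (s z) = f^[l] (a.p i z)) ∧
      ∀ z ∈ ball (0 : E) 4, ∀ v, pb q s z v ≤ C₁ * ‖v‖ ^ 2 := by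
  obtain ⟨C₁, h0, h1⟩ := branch_bound a H
  refine ⟨C₁, h0, ?_⟩
  intro i l m hlm z₀ hz₀ y hy
  obtain ⟨s, s1, s2, s3⟩ := lift_ball (f^[m]) (iterate_etale H.et m) (ball (0 : E) 5) isOpen_ball
    (convex_ball (0 : E) 5) (f^[l] ∘ a.p i)
    (((iterate_etale H.et l).contMDiff).comp_contMDiffOn (a.p_smooth i)) z₀ hz₀ y hy
  exact ⟨s, s1, s2, s3, h1 i l m hlm s s1 s3⟩

theorem etale_inj {f : X → X} (hf : IsLocalDiffeomorph 𝓘(ℂ, E) 𝓘(ℂ, E) ω f) (m : ℕ) (x : X) :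
    Function.Injective (mfderiv 𝓘(ℂ, E) 𝓘(ℂ, E) (f^[m]) x) := by
  have := ((iterate_etale hf m) x).mfderivToContinuousLinearEquiv (by simp : (ω : ℕ∞ω) ≠ 0)
  have h2 := (((iterate_etale hf m) x).mfderivToContinuousLinearEquiv
    (by simp : (ω : ℕ∞ω) ≠ 0)).injective
  exact h2

theorem etale_surj {f : X → X} (hf : IsLocalDiffeomorph 𝓘(ℂ, E) 𝓘(ℂ, E) ω f) (m : ℕ) (x : X) :
    Function.Surjective (mfderiv 𝓘(ℂ, E) 𝓘(ℂ, E) (f^[m]) x) := by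
  have h2 := (((iterate_etale hf m) x).mfderivToContinuousLinearEquiv
    (by simp : (ω : ℕ∞ω) ≠ 0)).surjective
  exact h2

/-- The pointwise branch bound. -/
theorem branch_pt (a : UA q) {f : X → X} {δ : ℝ} {u : X → ℝ} (H : Et q f δ u) :
    ∃ C₂ : ℝ, 1 ≤ C₂ ∧ ∀ (l m : ℕ), l ≤ m → ∀ (y' y : X), f^[m] y' = f^[l] y →
      ∀ (v' : TangentSpace 𝓘(ℂ, E) y') (v : TangentSpace 𝓘(ℂ, E) y),
      (mfderiv 𝓘(ℂ, E) 𝓘(ℂ, E) (f^[m]) y' v' : E) = mfderiv 𝓘(ℂ, E) 𝓘(ℂ, E) (f^[l]) y v →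
      q y' v' ≤ C₂ * q y v := by
  obtain ⟨C₁, h0, h1⟩ := exists_branch a H
  refine ⟨max (C₁ * a.C) 1, le_max_right _ _, ?_⟩
  intro l m hlm y' y hy v' v hv
  obtain ⟨i, ζ, hζ, rfl⟩ := a.cover y
  have hζ5 : ζ ∈ ball (0 : E) 5 := ball_subset_ball (by norm_num) hζ
  have hζ4 : ζ ∈ ball (0 : E) 4 := ball_subset_ball (by norm_num) hζ
  obtain ⟨s, s1, s2, s3, s4⟩ := h1 i l m hlm ζ hζ5 y' hy
  obtain ⟨w, hw⟩ := a.exists_vec i hζ5 v
  subst s2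
  have hsat : ContMDiffAt 𝓘(ℂ, E) 𝓘(ℂ, E) ω s ζ := s1.contMDiffAt (isOpen_ball.mem_nhds hζ5)
  have e1 : f^[m] ∘ s =ᶠ[𝓝 ζ] f^[l] ∘ a.p i := by
    filter_upwards [isOpen_ball.mem_nhds hζ5] with z hz using s3 z hz
  have e2 := e1.mfderiv_eq (I := 𝓘(ℂ, E)) (I' := 𝓘(ℂ, E))
  rw [mfderiv_comp _ (((iterate_etale H.et m).contMDiff _).mdifferentiableAt (by simp))
    (hsat.mdifferentiableAt (by simp)), mfderiv_comp _ (((iterate_etale H.et l).contMDiff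
    _).mdifferentiableAt (by simp)) ((a.smoothAt_p i hζ5).mdifferentiableAt (by simp))] at e2
  have e3 := DFunLike.congr_fun e2 w
  have e4 : mfderiv 𝓘(ℂ, E) 𝓘(ℂ, E) s ζ w = v' := by
    apply etale_inj H.et m (s ζ)
    refine Eq.trans ?_ hv.symm
    rw [← hw]
    exact e3
  have e5 : q (s ζ) v' = pb q s ζ w := by rw [← e4]; rfl
  have e6 : q (a.p i ζ) v = pb q (a.p i) ζ w := by rw [← hw]; rfl
  rw [e5, e6]
  have b1 := s4 ζ hζ4 w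
  have b2 := a.lower i ζ hζ5 w
  have b3 := pb_nonneg a (a.smoothAt_p i hζ5) w
  calc pb q s ζ w ≤ C₁ * ‖w‖ ^ 2 := b1
    _ ≤ C₁ * (a.C * pb q (a.p i) ζ w) := by gcongr
    _ = C₁ * a.C * pb q (a.p i) ζ w := by ring
    _ ≤ _ := by gcongr; exact le_max_left _ _

end

/-- `v = ∑_j δ^(-j-1) u ∘ f^j` -/
noncomputable def Vf (δ : ℝ) (u : X → ℝ) (f : X → X) (x : X) : ℝ :=
  ∑' j : ℕ, (δ⁻¹) ^ (j + 1) * u (f^[j] x)

theorem Vf_summable {δ : ℝ} (hδ : 1 < δ) {u : X → ℝ} {B : ℝ} (hB : ∀ x, |u x| ≤ B) (f : X → X)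
    (x : X) : Summable fun j : ℕ => (δ⁻¹) ^ (j + 1) * u (f^[j] x) := by
  have h1 : Summable fun j : ℕ => (δ⁻¹) ^ j * (δ⁻¹ * B) :=
    (summable_geometric_of_lt_one (by positivity) (inv_lt_one_of_one_lt₀ hδ)).mul_right _
  refine Summable.of_norm_bounded h1 fun j => ?_
  have : 0 < δ⁻¹ := by positivity
  rw [Real.norm_eq_abs, abs_mul, abs_of_pos (pow_pos this _), pow_succ, mul_assoc]
  gcongr
  exact hB _

theorem Vf_continuous {δ : ℝ} (hδ : 1 < δ) {u : X → ℝ} {B : ℝ} (hB : ∀ x, |u x| ≤ B)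
    (hu : Continuous u) {f : X → X} (hf : Continuous f) : Continuous (Vf δ u f) := by
  have h1 : Summable fun j : ℕ => (δ⁻¹) ^ j * (δ⁻¹ * B) :=
    (summable_geometric_of_lt_one (by positivity) (inv_lt_one_of_one_lt₀ hδ)).mul_right _
  refine continuous_tsum (fun j => continuous_const.mul (hu.comp (hf.iterate j))) h1 ?_
  intro j x
  have : 0 < δ⁻¹ := by positivity
  rw [Real.norm_eq_abs, abs_mul, abs_of_pos (pow_pos this _), pow_succ, mul_assoc]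
  gcongr
  exact hB _

theorem Vf_step {δ : ℝ} (hδ : 1 < δ) {u : X → ℝ} {B : ℝ} (hB : ∀ x, |u x| ≤ B) (f : X → X)
    (x : X) : Vf δ u f (f x) = δ * Vf δ u f x - u x := by
  have h0 : δ ≠ 0 := by linarith
  have h1 := (Vf_summable hδ hB f x).tsum_eq_zero_add
  have h2 : Vf δ u f x = δ⁻¹ * u x + δ⁻¹ * Vf δ u f (f x) := by
    unfold Vf
    rw [h1, ← tsum_mul_left]
    congr 1
    · simp
    · apply tsum_congr
      intro j
      rw [Function.iterate_succ_apply, pow_succ _ (j + 1)]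
      ring
  rw [h2]
  field_simp
  ring

theorem Vf_iter {δ : ℝ} (hδ : 1 < δ) {u : X → ℝ} {B : ℝ} (hB : ∀ x, |u x| ≤ B) (f : X → X)
    (m : ℕ) (x : X) : Vf δ u f (f^[m] x) = δ ^ m * Vf δ u f x - Um δ u f m x := by
  induction m with
  | zero => simp [Um]
  | succ m ih =>
    rw [Function.iterate_succ_apply', Vf_step hδ hB, ih]
    simp only [Um]
    ring

end Pool.Agent.H775.KE
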