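
import Pool.Agent.H775.KE.Atl

/-!
# Lifts of maps with bounded derivative are affine
-/

set_option autoImplicit false

open scoped Manifold ContDiff Topology
open Set Filter Metric

namespace Pool.Agent.H775.KE

variable {E : Type} [NormedAddCommGroup E] [NormedSpace ℂ E]
variable {F : Type} [NormedAddCommGroup F] [NormedSpace ℂ F]
variable {X : Type} [TopologicalSpace X] [ChartedSpace E X]

theorem XAFF_inj {q : ∀ x : X, TangentSpace 𝓘(ℂ, E) x → ℝ} {c : ℝ} (hc : 0 < c) {Ψ : E → X}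
    {w : E} (hΨ : ContMDiffAt 𝓘(ℂ, E) 𝓘(ℂ, E) ω Ψ w) (h1 : ∀ v, c * ‖v‖ ^ 2 ≤ pb q Ψ w v) :
    Function.Injective (fderiv ℂ (chartAt E (Ψ w) ∘ Ψ) w) := by
  rw [injective_iff_map_eq_zero]
  intro v hv
  have hm := mfderiv_eq_chart (hΨ.mdifferentiableAt (by simp))
  have key : ∀ n : ℕ, c * ((n : ℝ) ^ 2 * ‖v‖ ^ 2) ≤ q (Ψ w) (0 : E) := by
    intro n
    have h2 := h1 ((n : ℂ) • v)
    have h3 : fderiv ℂ (chartAt E (Ψ w) ∘ Ψ) w ((n : ℂ) • v) = 0 := by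
      rw [map_smul, hv, smul_zero]
    have h4 : pb q Ψ w ((n : ℂ) • v) = q (Ψ w) (0 : E) := by
      have e1 : pb q Ψ w ((n : ℂ) • v) =
          q (Ψ w) (fderiv ℂ (chartAt E (Ψ w) ∘ Ψ) w ((n : ℂ) • v) : E) := by
        unfold pb
        rw [hm]
        rfl
      exact e1.trans (congrArg (fun u : E => q (Ψ w) u) h3)
    rw [h4, norm_smul, mul_pow] at h2
    simpa using h2
  by_contra hne
  have hpos : 0 < c * ‖v‖ ^ 2 := by
    have := norm_pos_iff.mpr hne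
    positivity
  obtain ⟨n, hn⟩ := exists_nat_gt (q (Ψ w) (0 : E) / (c * ‖v‖ ^ 2))
  rw [div_lt_iff₀ hpos] at hn
  obtain ⟨m, hm1, hm2⟩ : ∃ m : ℕ, 1 ≤ m ∧ n ≤ m := ⟨n + 1, by omega, by omega⟩
  have h4 := key m
  have h5 : (n : ℝ) ≤ (m : ℝ) ^ 2 := by
    have a1 : (n : ℝ) ≤ m := by exact_mod_cast hm2
    have a2 : (1 : ℝ) ≤ m := by exact_mod_cast hm1
    nlinarith
  have h6 : (n : ℝ) * (c * ‖v‖ ^ 2) ≤ (m : ℝ) ^ 2 * (c * ‖v‖ ^ 2) := by gcongr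
  linarith

theorem XAFF_smooth [FiniteDimensional ℂ E] {Ψ : E → X} {H : E → E} {h : E → X} {z : E}
    (hΨ : ContMDiffAt 𝓘(ℂ, E) 𝓘(ℂ, E) ω Ψ (H z))
    (hinj : Function.Injective (fderiv ℂ (chartAt E (Ψ (H z)) ∘ Ψ) (H z)))
    (hh : ContMDiffAt 𝓘(ℂ, E) 𝓘(ℂ, E) ω h z) (hH : ContinuousAt H z) (hΨH : ∀ z, Ψ (H z) = h z) :
    ContDiffAt ℂ ω H z := by
  have : CompleteSpace E := FiniteDimensional.complete ℂ E
  set g : E → E := chartAt E (Ψ (H z)) ∘ Ψ with hg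
  have hgs : ContDiffAt ℂ ω g (H z) := chart_comp_contDiffAt hΨ
  set A : E →L[ℂ] E := fderiv ℂ g (H z) with hA
  let A' : E ≃L[ℂ] E := (LinearEquiv.ofInjectiveEndo (A : E →ₗ[ℂ] E) hinj).toContinuousLinearEquiv
  have hA' : (A' : E →L[ℂ] E) = A := by
    ext v; rfl
  have hd : HasFDerivAt g (A' : E →L[ℂ] E) (H z) := by
    rw [hA']
    exact (hgs.differentiableAt (by simp)).hasFDerivAt
  have hn : (ω : WithTop ℕ∞) ≠ 0 := by simp
  have hG := hgs.to_localInverse hd hn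
  have hleft : ∀ᶠ w in 𝓝 (H z), hgs.localInverse hd hn (g w) = w :=
    (hgs.hasStrictFDerivAt' hd hn).eventually_left_inverse
  have e1 : g ∘ H = chartAt E (h z) ∘ h := by
    funext z'
    simp only [hg, Function.comp_apply, hΨH]
  have e2 : H =ᶠ[𝓝 z] hgs.localInverse hd hn ∘ (chartAt E (h z) ∘ h) := by
    rw [← e1]
    filter_upwards [hH.eventually hleft] with z' hz'
    exact hz'.symm
  have e3 : ContDiffAt ℂ ω (hgs.localInverse hd hn ∘ (chartAt E (h z) ∘ h)) z := by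
    apply ContDiffAt.comp
    · have e4 : (chartAt E (h z) ∘ h) z = g (H z) := by
        rw [← e1]; rfl
      rw [e4]
      exact hG
    · exact chart_comp_contDiffAt hh
  exact e3.congr_of_eventuallyEq e2

theorem affine_lift [FiniteDimensional ℂ E] [IsManifold 𝓘(ℂ, E) ω X] [T2Space X]
    [CompactSpace X] {q : ∀ x : X, TangentSpace 𝓘(ℂ, E) x → ℝ}
    (c C : ℝ) (hc : 0 < c) (Ψ : E → X) (hΨ : ContMDiff 𝓘(ℂ, E) 𝓘(ℂ, E) ω Ψ)
    (h1 : ∀ z v, c * ‖v‖ ^ 2 ≤ pb q Ψ z v) (hcov : IsCoveringMap Ψ)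
    (h : E → X) (hh : ContMDiff 𝓘(ℂ, E) 𝓘(ℂ, E) ω h)
    (h2 : ∀ z v, pb q h z v ≤ C * ‖v‖ ^ 2) (z₀ w₀ : E) (hz : Ψ w₀ = h z₀) :
    ∃ L : E →L[ℂ] E, (∀ z, Ψ (w₀ + L (z - z₀)) = h z) ∧ (∀ v, c * ‖L v‖ ^ 2 ≤ C * ‖v‖ ^ 2) ∧
      ∀ H : E → E, Continuous H → H z₀ = w₀ → (∀ z, Ψ (H z) = h z) →
        ∀ z, H z = w₀ + L (z - z₀) := by
  obtain ⟨H, ⟨hH0, hH1⟩, -⟩ := hcov.existsUnique_continuousMap_lifts
    (⟨h, hh.continuous⟩ : C(E, X)) z₀ w₀ hz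
  have hΨH : ∀ z, Ψ (H z) = h z := fun z => congrFun hH1 z
  have hsm : ∀ z, ContDiffAt ℂ ω H z := fun z =>
    XAFF_smooth (hΨ (H z)) (XAFF_inj hc (hΨ (H z)) (h1 (H z))) (hh z)
      H.continuous.continuousAt hΨH
  have hbd : ∀ z v, c * ‖fderiv ℂ H z v‖ ^ 2 ≤ C * ‖v‖ ^ 2 := by
    intro z v
    have e1 := pb_comp (q := q) (hΨ (H z)) (hsm z) v
    have e2 : Ψ ∘ H = h := funext hΨH
    rw [e2] at e1
    calc c * ‖fderiv ℂ H z v‖ ^ 2 ≤ pb q Ψ (H z) (fderiv ℂ H z v) := h1 _ _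
      _ = pb q h z v := e1.symm
      _ ≤ _ := h2 z v
  have hHc : ContDiff ℂ ω H := contDiff_iff_contDiffAt.mpr hsm
  have hdd : Differentiable ℂ (fderiv ℂ H) :=
    (hHc.fderiv_right (m := 1) (by simp)).differentiable (by simp)
  have hbdd : Bornology.IsBounded (range (fderiv ℂ H)) := by
    rw [isBounded_iff_forall_norm_le]
    refine ⟨Real.sqrt (|C| / c), ?_⟩
    rintro _ ⟨z, rfl⟩
    apply ContinuousLinearMap.opNorm_le_bound _ (Real.sqrt_nonneg _)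
    intro v
    have e1 := hbd z v
    have e2 : ‖fderiv ℂ H z v‖ ^ 2 ≤ |C| / c * ‖v‖ ^ 2 := by
      rw [div_mul_eq_mul_div, le_div_iff₀ hc]
      have : C * ‖v‖ ^ 2 ≤ |C| * ‖v‖ ^ 2 := by gcongr; exact le_abs_self C
      linarith
    calc ‖fderiv ℂ H z v‖ = Real.sqrt (‖fderiv ℂ H z v‖ ^ 2) := (Real.sqrt_sq (norm_nonneg _)).symm
      _ ≤ Real.sqrt (|C| / c * ‖v‖ ^ 2) := Real.sqrt_le_sqrt e2
      _ = Real.sqrt (|C| / c) * ‖v‖ := by
        rw [Real.sqrt_mul (by positivity), Real.sqrt_sq (norm_nonneg _)]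
  set L : E →L[ℂ] E := fderiv ℂ H z₀ with hL
  have hconst : ∀ z, fderiv ℂ H z = L := fun z => hdd.apply_eq_apply_of_bounded hbdd z z₀
  have hdiff : Differentiable ℂ H := hHc.differentiable (by simp)
  have haff : ∀ z, H z = w₀ + L (z - z₀) := by
    intro z
    have k1 : ∀ z, HasFDerivAt (fun z => H z - L z) (0 : E →L[ℂ] E) z := by
      intro z
      have := (hdiff z).hasFDerivAt.sub L.hasFDerivAt
      rw [hconst, sub_self] at this
      exact this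
    have k2 : (fun z => H z - L z) z = (fun z => H z - L z) z₀ := by
      apply is_const_of_fderiv_eq_zero (𝕜 := ℂ) (fun z => (k1 z).differentiableAt)
      intro z
      exact (k1 z).fderiv
    simp only [hH0] at k2
    rw [map_sub]
    rw [sub_eq_iff_eq_add] at k2
    rw [k2]; abel
  refine ⟨L, fun z => ?_, fun v => ?_, ?_⟩
  · rw [← haff z, hΨH]
  · exact hbd z₀ v
  · intro H' hH' hH'0 hH'1 z
    rw [← haff z]
    have k : H' = H := hcov.eq_of_comp_eq hH' H.continuous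
      (funext fun z => by simp only [Function.comp_apply, hH'1, hΨH]) z₀ (by rw [hH'0, hH0])
    rw [k]

end Pool.Agent.H775.KE
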